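import Mathlib

/-!
Directions that illuminate a compact convex set give a covering by translates of the interior.
-/

namespace Pool.Agent.H283.Cheb

open Set Pointwise

variable {E : Type*} [NormedAddCommGroup E] [NormedSpace ℝ E]

/-- If each point `x` of the compact convex set `K` can be moved into the interior of `K` by a
positive multiple of `-u`, for one of finitely many directions `u`, then the multiples can be
chosen equal. -/
theorem uniform_step {K : Set E} (hK : IsCompact K) (hc : Convex ℝ K) (D : Finset E)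
    (h : ∀ x ∈ K, ∃ u ∈ D, ∃ δ : ℝ, 0 < δ ∧ x - δ • u ∈ interior K) :
    ∃ δ : ℝ, 0 < δ ∧ ∀ x ∈ K, ∃ u ∈ D, x - δ • u ∈ interior K := by
  let U : {δ : ℝ // 0 < δ} → Set E := fun δ =>
    {x | ∃ u ∈ D, ∃ δ' : ℝ, (δ : ℝ) ≤ δ' ∧ x - δ' • u ∈ interior K}
  have hUo : ∀ δ, IsOpen (U δ) := by
    intro δ
    have : U δ = ⋃ u ∈ D, ⋃ δ' : {δ' : ℝ // (δ : ℝ) ≤ δ'},
        (fun x => x - (δ' : ℝ) • u) ⁻¹' interior K := by
      ext x
      simp only [U, mem_ofPred_eq, mem_iUnion, mem_preimage, Subtype.exists, exists_prop]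
    rw [this]
    refine isOpen_biUnion fun u _ => isOpen_iUnion fun δ' => ?_
    exact isOpen_interior.preimage (by fun_prop)
  have : Nonempty {δ : ℝ // 0 < δ} := ⟨⟨1, one_pos⟩⟩
  obtain ⟨⟨δ, hδ⟩, hsub⟩ := hK.elim_directed_cover U hUo (by
    intro x hx
    obtain ⟨u, hu, δ, hδ, hx'⟩ := h x hx
    exact mem_iUnion.mpr ⟨⟨δ, hδ⟩, u, hu, δ, le_rfl, hx'⟩) (by
    intro δ1 δ2
    refine ⟨⟨min δ1 δ2, lt_min δ1.2 δ2.2⟩, ?_, ?_⟩
    · rintro x ⟨u, hu, δ', h1, h2⟩
      exact ⟨u, hu, δ', (min_le_left _ _).trans h1, h2⟩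
    · rintro x ⟨u, hu, δ', h1, h2⟩
      exact ⟨u, hu, δ', (min_le_right _ _).trans h1, h2⟩)
  refine ⟨δ, hδ, fun x hx => ?_⟩
  obtain ⟨u, hu, δ', h1, h2⟩ := hsub hx
  refine ⟨u, hu, ?_⟩
  simp only at h1
  have hδ' : 0 < δ' := lt_of_lt_of_le hδ h1
  have h3 := hc.combo_self_interior_mem_interior hx h2 (a := 1 - δ / δ') (b := δ / δ')
    (by rw [sub_nonneg]; exact (div_le_one hδ').mpr h1) (by positivity) (by ring)
  have h4 : (1 - δ / δ') • x + (δ / δ') • (x - δ' • u) = x - δ • u := by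
    rw [smul_sub, smul_smul, div_mul_cancel₀ _ hδ'.ne', sub_smul, one_smul]
    abel
  rwa [h4] at h3

/-- Illumination gives a covering of `K + L` by translates of its interior. -/
theorem cover_of_illum {K : Set E} (hK : IsCompact K) (hc : Convex ℝ K) (D : Finset E)
    (h : ∀ x ∈ K, ∃ u ∈ D, ∃ δ : ℝ, 0 < δ ∧ x - δ • u ∈ interior K) :
    ∃ T : Finset E, T.card ≤ D.card ∧ K ⊆ ⋃ t ∈ T, (fun x => t + x) '' interior K := by
  classical
  obtain ⟨δ, hδ, hδ'⟩ := uniform_step hK hc D h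
  refine ⟨D.image (fun u => δ • u), Finset.card_image_le, ?_⟩
  intro x hx
  obtain ⟨u, hu, hx'⟩ := hδ' x hx
  refine mem_biUnion (x := δ • u) (by simpa using ⟨u, hu, rfl⟩) ⟨x - δ • u, hx', by simp⟩

/-- Adding a set does not increase the number of translates. -/
theorem cover_add {K : Set E} {T : Finset E}
    (h : K ⊆ ⋃ t ∈ T, (fun x => t + x) '' interior K) (L : Set E) :
    K + L ⊆ ⋃ t ∈ T, (fun x => t + x) '' interior (K + L) := by
  rintro _ ⟨x, hx, y, hy, rfl⟩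
  obtain ⟨t, ht, x', hx', rfl⟩ := mem_iUnion₂.mp (h hx)
  refine mem_iUnion₂.mpr ⟨t, ht, x' + y, ?_, by simp [add_assoc]⟩
  have h1 : interior K + L ⊆ interior (K + L) :=
    interior_maximal (add_subset_add_right interior_subset) isOpen_interior.add_right
  exact h1 ⟨x', hx', y, hy, rfl⟩

end Pool.Agent.H283.Cheb
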