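import Mathlib
import Pool.Agent.H283.Cheb.Illum

/-!
The unit ball of the space of polynomials of degree at most `n` in a weighted uniform norm.
-/

namespace Pool.Agent.H283.Cheb

open Polynomial Set Filter Topology

variable {n : ℕ} {a b : ℝ} {w : ℝ → ℝ}

/-- The value at `t` of the polynomial with coefficients `x 0, ..., x n`. -/
def ev (x : EuclideanSpace ℝ (Fin (n + 1))) (t : ℝ) : ℝ :=
  ∑ i : Fin (n + 1), x i * t ^ (i : ℕ)

/-- The polynomials of degree at most `n` (given by their coefficients) with `|p| ≤ w` on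
`[a, b]`. -/
def polyBall (n : ℕ) (a b : ℝ) (w : ℝ → ℝ) : Set (EuclideanSpace ℝ (Fin (n + 1))) :=
  {x | ∀ t ∈ Icc a b, |ev x t| ≤ w t}

/-- The polynomial with coefficient vector `x`. -/
noncomputable def toPoly (x : EuclideanSpace ℝ (Fin (n + 1))) : ℝ[X] :=
  ∑ i : Fin (n + 1), C (x i) * X ^ (i : ℕ)

/-- The coefficient vector of a polynomial. -/
noncomputable def vec (n : ℕ) (p : ℝ[X]) : EuclideanSpace ℝ (Fin (n + 1)) :=
  WithLp.toLp 2 (fun i => p.coeff i)

theorem eval_toPoly (x : EuclideanSpace ℝ (Fin (n + 1))) (t : ℝ) :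
    (toPoly x).eval t = ev x t := by
  simp [toPoly, ev, eval_finsetSum]

theorem natDegree_toPoly (x : EuclideanSpace ℝ (Fin (n + 1))) : (toPoly x).natDegree ≤ n := by
  unfold toPoly
  refine natDegree_sum_le_of_forall_le _ _ fun i _ => ?_
  exact (natDegree_C_mul_X_pow_le _ _).trans (by omega)

theorem coeff_toPoly (x : EuclideanSpace ℝ (Fin (n + 1))) (i : Fin (n + 1)) :
    (toPoly x).coeff i = x i := by
  unfold toPoly
  rw [finsetSum_coeff, Finset.sum_eq_single i]
  · simp
  · intro j _ hj
    simp only [coeff_C_mul, coeff_X_pow]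
    rw [if_neg (fun h => hj (Fin.ext h.symm)), mul_zero]
  · simp

theorem ev_vec {p : ℝ[X]} (hp : p.natDegree ≤ n) (t : ℝ) : ev (vec n p) t = p.eval t := by
  rw [eval_eq_sum_range' (Nat.lt_succ_of_le hp)]
  simp [ev, vec, Finset.sum_range]

theorem ev_add (x y : EuclideanSpace ℝ (Fin (n + 1))) (t : ℝ) :
    ev (x + y) t = ev x t + ev y t := by
  simp [ev, add_mul, Finset.sum_add_distrib]

theorem ev_smul (c : ℝ) (x : EuclideanSpace ℝ (Fin (n + 1))) (t : ℝ) :
    ev (c • x) t = c * ev x t := by
  simp [ev, Finset.mul_sum, mul_assoc]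

theorem ev_sub (x y : EuclideanSpace ℝ (Fin (n + 1))) (t : ℝ) :
    ev (x - y) t = ev x t - ev y t := by
  simp [ev, sub_mul, Finset.sum_sub_distrib]

theorem continuous_ev : Continuous (fun z : EuclideanSpace ℝ (Fin (n + 1)) × ℝ => ev z.1 z.2) := by
  unfold ev
  fun_prop

theorem isClosed_polyBall : IsClosed (polyBall n a b w) := by
  have : polyBall n a b w = ⋂ t ∈ Icc a b, {x | |ev x t| ≤ w t} := by
    ext x; simp [polyBall]
  rw [this]
  refine isClosed_biInter fun t _ => isClosed_le ?_ continuous_const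
  exact (continuous_ev.comp (by fun_prop : Continuous fun x :
    EuclideanSpace ℝ (Fin (n + 1)) => (x, t))).abs

theorem convex_polyBall : Convex ℝ (polyBall n a b w) := by
  intro x hx y hy c d hc hd hcd t ht
  rw [ev_add, ev_smul, ev_smul]
  calc |c * ev x t + d * ev y t| ≤ |c * ev x t| + |d * ev y t| := abs_add_le _ _
    _ = c * |ev x t| + d * |ev y t| := by
      rw [abs_mul, abs_mul, abs_of_nonneg hc, abs_of_nonneg hd]
    _ ≤ c * w t + d * w t := by
      gcongr
      · exact hx t ht
      · exact hy t ht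
    _ = w t := by rw [← add_mul, hcd, one_mul]

/-- the nodes used to bound the coefficients -/
noncomputable def node (n : ℕ) (a b : ℝ) (i : Fin (n + 1)) : ℝ := a + (b - a) * (i / (n + 1))

theorem node_mem (hab : a < b) (i : Fin (n + 1)) : node n a b i ∈ Icc a b := by
  have h0 : (0 : ℝ) ≤ (i : ℝ) / (n + 1) := by positivity
  have h1 : (i : ℝ) / (n + 1) ≤ 1 := by
    rw [div_le_one (by positivity)]
    have : (i : ℕ) ≤ n + 1 := by omega
    exact_mod_cast this
  constructor
  · unfold node; nlinarith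
  · unfold node; nlinarith

theorem node_inj (hab : a < b) : Function.Injective (node n a b) := by
  intro i j h
  unfold node at h
  have h1 : (b - a) * ((i : ℝ) / (n + 1)) = (b - a) * ((j : ℝ) / (n + 1)) := by linarith
  have h2 := mul_left_cancel₀ (by linarith : b - a ≠ 0) h1
  have h3 : ((i : ℕ) : ℝ) = ((j : ℕ) : ℝ) := by
    field_simp at h2
    exact_mod_cast h2
  exact Fin.ext (by exact_mod_cast h3)

/-- Values at the nodes, as a linear map. -/
noncomputable def nodeMap (n : ℕ) (a b : ℝ) : EuclideanSpace ℝ (Fin (n + 1)) →ₗ[ℝ] (Fin (n + 1) → ℝ) where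
  toFun x := fun i => ev x (node n a b i)
  map_add' x y := by funext i; exact ev_add x y _
  map_smul' c x := by funext i; exact ev_smul c x _

theorem nodeMap_ker (hab : a < b) : LinearMap.ker (nodeMap n a b) = ⊥ := by
  rw [LinearMap.ker_eq_bot']
  intro x hx
  have h0 : toPoly x = 0 := by
    refine eq_zero_of_natDegree_lt_card_of_eval_eq_zero (toPoly x) (node_inj (n := n) hab) ?_ ?_
    · intro i
      rw [eval_toPoly]
      exact congrFun hx i
    · simpa using Nat.lt_succ_of_le (natDegree_toPoly x)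
  ext i
  rw [← coeff_toPoly, h0]
  simp

theorem isCompact_polyBall (hab : a < b) (hw : ContinuousOn w (Icc a b)) :
    IsCompact (polyBall n a b w) := by
  obtain ⟨M, hM⟩ := isCompact_Icc.bddAbove_image hw
  obtain ⟨K, _, hK⟩ := (nodeMap n a b).exists_antilipschitzWith (nodeMap_ker hab)
  refine Metric.isCompact_of_isClosed_isBounded isClosed_polyBall ?_
  refine (hK.isBounded_preimage (s := Metric.closedBall 0 (max M 0))
    Metric.isBounded_closedBall).subset ?_
  intro x hx
  rw [mem_preimage, mem_closedBall_zero_iff, pi_norm_le_iff_of_nonneg (le_max_right _ _)]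
  intro i
  rw [Real.norm_eq_abs]
  exact (hx _ (node_mem hab i)).trans
    ((hM ⟨_, node_mem hab i, rfl⟩).trans (le_max_left _ _))

/-- The polynomials with `|p| < w` on `[a, b]`. -/
def strictBall (n : ℕ) (a b : ℝ) (w : ℝ → ℝ) : Set (EuclideanSpace ℝ (Fin (n + 1))) :=
  {x | ∀ t ∈ Icc a b, |ev x t| < w t}

theorem isOpen_strictBall (hw : Continuous w) : IsOpen (strictBall n a b w) := by
  rw [isOpen_iff_mem_nhds]
  intro x hx
  refine (isCompact_Icc (a := a) (b := b)).eventually_forall_of_forall_eventually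
    (P := fun x t => |ev x t| < w t) ?_
  intro t ht
  exact (isOpen_lt continuous_ev.abs (hw.comp continuous_snd)).mem_nhds (hx t ht)

theorem strictBall_subset (hw : Continuous w) :
    strictBall n a b w ⊆ interior (polyBall n a b w) :=
  interior_maximal (fun _ hx t ht => (hx t ht).le) (isOpen_strictBall hw)

theorem zero_mem_strictBall (hpos : ∀ t ∈ Icc a b, 0 < w t) : 0 ∈ strictBall n a b w := by
  intro t ht
  have : ev (0 : EuclideanSpace ℝ (Fin (n + 1))) t = 0 := by simp [ev]
  rw [this, abs_zero]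
  exact hpos t ht

/-- **Contact lemma.** If `q p > 0` at all the points where `|p| = w`, then `p - δ q` is
strictly between `-w` and `w` for a small positive `δ`. -/
theorem contact (hw : Continuous w) (hpos : ∀ t ∈ Icc a b, 0 < w t) {p q : ℝ → ℝ}
    (hp : Continuous p) (hq : Continuous q) (hle : ∀ t ∈ Icc a b, |p t| ≤ w t)
    (h : ∀ t ∈ Icc a b, |p t| = w t → 0 < q t * p t) :
    ∃ δ : ℝ, 0 < δ ∧ ∀ t ∈ Icc a b, |p t - δ * q t| < w t := by
  have hev : ∀ᶠ δ in 𝓝 (0 : ℝ), ∀ t ∈ Icc a b, (t ∈ Icc a b → 0 < δ → |p t - δ * q t| < w t) := by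
    refine isCompact_Icc.eventually_forall_of_forall_eventually
      (P := fun δ t => t ∈ Icc a b → 0 < δ → |p t - δ * q t| < w t) ?_
    intro t ht
    have hc1 : Continuous fun z : ℝ × ℝ => p z.2 - z.1 * q z.2 := by fun_prop
    rcases (hle t ht).lt_or_eq with hlt | heq
    · have : ∀ᶠ z : ℝ × ℝ in 𝓝 (0, t), |p z.2 - z.1 * q z.2| < w z.2 :=
        (isOpen_lt hc1.abs (hw.comp continuous_snd)).mem_nhds (by simpa using hlt)
      filter_upwards [this] with z hz _ _ using hz
    · have hqp := h t ht heq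
      have hwt := hpos t ht
      rcases le_total 0 (p t) with h0 | h0
      · rw [abs_of_nonneg h0] at heq
        have hq0 : 0 < q t := by
          by_contra hcon
          nlinarith [not_lt.mp hcon]
        have e1 : ∀ᶠ z : ℝ × ℝ in 𝓝 (0, t), 0 < q z.2 :=
          (isOpen_lt continuous_const (hq.comp continuous_snd)).mem_nhds hq0
        have e2 : ∀ᶠ z : ℝ × ℝ in 𝓝 (0, t), -w z.2 < p z.2 - z.1 * q z.2 :=
          (isOpen_lt (hw.comp continuous_snd).neg hc1).mem_nhds (by
            simp only [zero_mul, sub_zero, heq, Set.mem_ofPred_eq]; simp; linarith)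
        filter_upwards [e1, e2] with z hz1 hz2 hz3 hz4
        rw [abs_lt]
        refine ⟨hz2, ?_⟩
        have := (abs_le.mp (hle _ hz3)).2
        nlinarith [mul_pos hz4 hz1]
      · rw [abs_of_nonpos h0] at heq
        have hq0 : q t < 0 := by
          by_contra hcon
          nlinarith [not_lt.mp hcon]
        have e1 : ∀ᶠ z : ℝ × ℝ in 𝓝 (0, t), q z.2 < 0 :=
          (isOpen_lt (hq.comp continuous_snd) continuous_const).mem_nhds hq0
        have e2 : ∀ᶠ z : ℝ × ℝ in 𝓝 (0, t), p z.2 - z.1 * q z.2 < w z.2 :=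
          (isOpen_lt hc1 (hw.comp continuous_snd)).mem_nhds (by
            simp only [zero_mul, sub_zero, Set.mem_ofPred_eq]; simp; linarith)
        filter_upwards [e1, e2] with z hz1 hz2 hz3 hz4
        rw [abs_lt]
        refine ⟨?_, hz2⟩
        have := (abs_le.mp (hle _ hz3)).1
        nlinarith [mul_pos hz4 (neg_pos.mpr hz1)]
  obtain ⟨δ, h1, h2⟩ := ((hev.filter_mono nhdsWithin_le_nhds).and
    (self_mem_nhdsWithin (a := (0 : ℝ)) (s := Ioi 0))).exists
  exact ⟨δ, h2, fun t ht => h1 t ht ht h2⟩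

end Pool.Agent.H283.Cheb
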