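import Mathlib

/-!
Weak alternation: a real polynomial of degree at most `N` whose signs alternate weakly at
`N + 2` points vanishes.
-/

namespace Pool.Agent.H283.Cheb

open Polynomial

/-- successive inequalities give all inequalities -/
theorem lt_of_succ {y : ℕ → ℝ} {N : ℕ} (hy : ∀ i < N, y i < y (i + 1)) :
    ∀ i j, i < j → j ≤ N → y i < y j := by
  intro i j hij
  induction j with
  | zero => omega
  | succ j ih =>
    intro hj
    rcases Nat.lt_succ_iff_lt_or_eq.mp hij with h | h
    · exact (ih h (by omega)).trans (hy j (by omega))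
    · subst h
      exact hy i (by omega)

/-- Division by a linear factor keeps track of degrees. -/
theorem factor_root {g : ℝ[X]} {N : ℕ} (hg : g.natDegree ≤ N + 1) {ρ : ℝ}
    (hρ : g.eval ρ = 0) : ∃ g1 : ℝ[X], g1.natDegree ≤ N ∧ g = (X - C ρ) * g1 := by
  obtain ⟨g1, h1⟩ := dvd_iff_isRoot.mpr (show IsRoot g ρ from hρ)
  refine ⟨g1, ?_, h1⟩
  by_cases h0 : g1 = 0
  · simp [h0]
  · have : g.natDegree = 1 + g1.natDegree := by
      rw [h1, natDegree_mul (X_sub_C_ne_zero ρ) h0, natDegree_X_sub_C]
    omega

/-- A real polynomial of degree at most `N` whose signs alternate weakly at `N + 2` points is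
the zero polynomial. -/
theorem weak_alt (N : ℕ) : ∀ (g : ℝ[X]) (y : ℕ → ℝ), g.natDegree ≤ N →
    (∀ i < N + 1, y i < y (i + 1)) → (∀ i ≤ N + 1, 0 ≤ (-1) ^ i * g.eval (y i)) → g = 0 := by
  induction N with
  | zero =>
    intro g y hg hy hs
    obtain ⟨c, rfl⟩ := natDegree_eq_zero.mp (Nat.le_zero.mp hg)
    have h0 := hs 0 (by omega)
    have h1 := hs 1 (by omega)
    simp only [eval_C, pow_zero, one_mul, pow_one] at h0 h1
    have : c = 0 := by linarith
    simp [this]
  | succ N ih =>
    intro g y hg hy hs
    have hlt := lt_of_succ hy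
    have key : ∀ (ρ : ℝ) (g1 : ℝ[X]), g = (X - C ρ) * g1 → ∀ (t : ℝ) (i : ℕ), t < ρ →
        0 ≤ (-1) ^ i * g.eval t → 0 ≤ (-1) ^ i * (-g1).eval t := by
      intro ρ g1 h1 t i ht h
      rw [h1] at h
      simp only [eval_mul, eval_sub, eval_X, eval_C] at h
      have h2 : (-1 : ℝ) ^ i * ((t - ρ) * g1.eval t) = (ρ - t) * ((-1) ^ i * (-g1).eval t) := by
        simp only [eval_neg]; ring
      rw [h2] at h
      exact nonneg_of_mul_nonneg_right h (by linarith)
    by_cases hz : g.eval (y (N + 1)) = 0
    · obtain ⟨g1, hd, h1⟩ := factor_root hg hz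
      have := ih (-g1) (fun i => if i ≤ N then y i else y (N + 2)) (by simpa using hd) ?_ ?_
      · rw [neg_eq_zero] at this
        rw [h1, this, mul_zero]
      · intro i hi
        rw [if_pos (by omega)]
        by_cases hi' : i + 1 ≤ N
        · rw [if_pos hi']; exact hy i (by omega)
        · rw [if_neg hi']; exact hlt i (N + 2) (by omega) (by omega)
      · intro i hi
        by_cases hi' : i ≤ N
        · rw [if_pos hi']
          exact key _ g1 h1 _ i (hlt i (N + 1) (by omega) (by omega)) (hs i (by omega))
        · rw [if_neg hi']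
          have hiN : i = N + 1 := by omega
          subst hiN
          have h := hs (N + 2) (by omega)
          rw [h1] at h
          simp only [eval_mul, eval_sub, eval_X, eval_C] at h
          have h2 : (-1 : ℝ) ^ (N + 2) * ((y (N + 2) - y (N + 1)) * g1.eval (y (N + 2))) =
              (y (N + 2) - y (N + 1)) * ((-1) ^ (N + 1) * (-g1).eval (y (N + 2))) := by
            simp only [eval_neg]; ring
          rw [h2] at h
          exact nonneg_of_mul_nonneg_right h (by linarith [hy (N + 1) (by omega)])
    · have h1 := hs (N + 1) (by omega)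
      have h2 := hs (N + 2) (by omega)
      have hlt' : y (N + 1) < y (N + 2) := hy (N + 1) (by omega)
      have hcont : ContinuousOn (fun t => (-1 : ℝ) ^ (N + 1) * g.eval t)
          (Set.Icc (y (N + 1)) (y (N + 2))) := by fun_prop
      have h3 : (0 : ℝ) ∈ Set.Icc ((-1 : ℝ) ^ (N + 1) * g.eval (y (N + 2)))
          ((-1 : ℝ) ^ (N + 1) * g.eval (y (N + 1))) := by
        refine ⟨?_, h1⟩
        have : (-1 : ℝ) ^ (N + 2) * g.eval (y (N + 2)) =
            -((-1 : ℝ) ^ (N + 1) * g.eval (y (N + 2))) := by ring
        rw [this] at h2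
        linarith
      obtain ⟨ρ, hρ, hρ0⟩ := intermediate_value_Icc' hlt'.le hcont h3
      have hρ1 : g.eval ρ = 0 := by
        simpa using hρ0
      have hρ2 : y (N + 1) < ρ := by
        rcases hρ.1.lt_or_eq with h | h
        · exact h
        · exact absurd (h ▸ hρ1) hz
      obtain ⟨g1, hd, hg1⟩ := factor_root hg hρ1
      have := ih (-g1) y (by simpa using hd) (fun i hi => hy i (by omega)) ?_
      · rw [neg_eq_zero] at this
        rw [hg1, this, mul_zero]
      · intro i hi
        refine key _ g1 hg1 _ i ?_ (hs i (by omega))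
        rcases Nat.lt_or_ge i (N + 1) with h | h
        · exact (hlt i (N + 1) h (by omega)).trans hρ2
        · have : i = N + 1 := by omega
          rw [this]; exact hρ2

end Pool.Agent.H283.Cheb
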