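import Mathlib
import Pool.Agent.H283.Cheb.WeakAlt
import Pool.Agent.H283.Cheb.Body

/-!
The polynomial of largest leading coefficient in the unit ball of a weighted uniform norm, and
its alternating contacts.
-/

namespace Pool.Agent.H283.Cheb

open Polynomial Set Filter Topology

variable {n : ℕ} {a b : ℝ} {w : ℝ → ℝ}

/-- The polynomial with the largest coefficient of `t ^ n` cannot be improved. -/
theorem exists_extremal (hab : a < b) (hw : Continuous w) (hpos : ∀ t ∈ Icc a b, 0 < w t)
    (n : ℕ) : ∃ T : ℝ[X], T.natDegree ≤ n ∧ (∀ t ∈ Icc a b, |T.eval t| ≤ w t) ∧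
      ¬ ∃ q : ℝ[X], q.natDegree ≤ n ∧ q.coeff n = 0 ∧
        ∀ t ∈ Icc a b, |T.eval t| = w t → 0 < q.eval t * T.eval t := by
  have hK : IsCompact (polyBall n a b w) := isCompact_polyBall hab hw.continuousOn
  have h0 : (0 : EuclideanSpace ℝ (Fin (n + 1))) ∈ polyBall n a b w :=
    interior_subset (strictBall_subset hw (zero_mem_strictBall hpos))
  obtain ⟨x, hx, hmax⟩ := hK.exists_isMaxOn ⟨0, h0⟩
    (f := fun x : EuclideanSpace ℝ (Fin (n + 1)) => x (Fin.last n)) (by fun_prop)
  refine ⟨toPoly x, natDegree_toPoly x, fun t ht => by rw [eval_toPoly]; exact hx t ht, ?_⟩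
  rintro ⟨q, hqd, hqn, hq⟩
  obtain ⟨δ, hδ, hδ'⟩ := contact hw hpos (p := fun t => (toPoly x).eval t)
    (q := fun t => q.eval t) (by fun_prop) (by fun_prop)
    (fun t ht => by rw [eval_toPoly]; exact hx t ht) hq
  have hy : x - δ • vec n q ∈ strictBall n a b w := by
    intro t ht
    rw [ev_sub, ev_smul, ev_vec hqd, ← eval_toPoly]
    exact hδ' t ht
  have hev : ∀ᶠ η in 𝓝 (0 : ℝ), x - δ • vec n q +
      η • (WithLp.toLp 2 (fun i => if i = Fin.last n then (1 : ℝ) else 0)) ∈
        strictBall n a b w := by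
    refine (Continuous.tendsto' (by fun_prop) 0 _ ?_).eventually
      ((isOpen_strictBall hw).mem_nhds hy)
    simp
  obtain ⟨η, h1, h2⟩ := ((hev.filter_mono nhdsWithin_le_nhds).and
    (self_mem_nhdsWithin (a := (0 : ℝ)) (s := Ioi 0))).exists
  have h3 := hmax (interior_subset (strictBall_subset hw h1))
  simp only [mem_ofPred_eq, PiLp.add_apply, PiLp.sub_apply, PiLp.smul_apply, vec, Fin.val_last,
    hqn, smul_eq_mul, mul_zero, sub_zero, if_true, mul_one] at h3
  have h4 : (0 : ℝ) < η := h2
  linarith

/-- Alternating contacts, each one the first possible after the preceding one. -/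
structure Greedy (T w : ℝ → ℝ) (a b : ℝ) (k : ℕ) (c : ℕ → ℝ) (σ : ℝ) : Prop where
  sgn : σ = 1 ∨ σ = -1
  mem : ∀ i ≤ k, c i ∈ Icc a b
  mono : ∀ i < k, c i < c (i + 1)
  val : ∀ i ≤ k, T (c i) = σ * (-1) ^ i * w (c i)
  first : ∀ t ∈ Ico a (c 0), |T t| ≠ w t
  gap : ∀ i < k, ∀ t ∈ Ico (c i) (c (i + 1)), T t ≠ σ * (-1) ^ (i + 1) * w t

theorem sgn_pow {σ : ℝ} (h : σ = 1 ∨ σ = -1) (k : ℕ) :
    σ * (-1) ^ k = 1 ∨ σ * (-1) ^ k = -1 := by
  rcases h with rfl | rfl <;> rcases neg_one_pow_eq_or ℝ k with h | h <;> simp [h]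

/-- A contact which is not of one sign is of the other sign. -/
theorem contact_sign {s x y : ℝ} (hs : s = 1 ∨ s = -1) (h : |x| = y) (h1 : x ≠ s * y) :
    x = -s * y := by
  rcases hs with rfl | rfl
  · rcases le_total 0 x with h0 | h0
    · rw [abs_of_nonneg h0] at h; exact absurd (by linarith) h1
    · rw [abs_of_nonpos h0] at h; linarith
  · rcases le_total 0 x with h0 | h0
    · rw [abs_of_nonneg h0] at h; linarith
    · rw [abs_of_nonpos h0] at h; exact absurd (by linarith) h1

theorem Greedy.restrict {T : ℝ → ℝ} {k : ℕ} {c : ℕ → ℝ} {σ : ℝ}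
    (h : Greedy T w a b (k + 1) c σ) : Greedy T w a b k c σ where
  sgn := h.sgn
  mem i hi := h.mem i (by omega)
  mono i hi := h.mono i (by omega)
  val i hi := h.val i (by omega)
  first := h.first
  gap i hi := h.gap i (by omega)

/-- A polynomial of degree `k` with the same signs as `T` at the contacts up to `c k`. -/
theorem greedy_sep (hw : Continuous w) (hpos : ∀ t ∈ Icc a b, 0 < w t) {T : ℝ → ℝ}
    (hT : Continuous T) {c : ℕ → ℝ} {σ : ℝ} : ∀ k : ℕ, Greedy T w a b k c σ →
    ∃ q : ℝ[X], q.natDegree ≤ k ∧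
      (∀ t ∈ Icc a b, t ≤ c k → |T t| = w t → 0 < q.eval t * T t) ∧
      (∀ t, c k ≤ t → 0 < σ * (-1) ^ k * q.eval t) := by
  intro k
  induction k with
  | zero =>
    intro h
    have hσ : σ * σ = 1 := by rcases h.sgn with h | h <;> rw [h] <;> norm_num
    refine ⟨C σ, by simp, ?_, ?_⟩
    · intro t ht htc hcon
      have h0 : t = c 0 := by
        rcases htc.lt_or_eq with h1 | h1
        · exact absurd hcon (h.first t ⟨ht.1, h1⟩)
        · exact h1
      have h2 := h.val 0 le_rfl
      rw [h0, h2, eval_C, pow_zero, mul_one, ← mul_assoc, hσ, one_mul]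
      exact hpos _ (h.mem 0 le_rfl)
    · intro t _
      rw [eval_C, pow_zero, mul_one, hσ]
      exact one_pos
  | succ k ih =>
    intro h
    obtain ⟨q, hqd, hq1, hq2⟩ := ih h.restrict
    have hs := sgn_pow h.sgn k
    set s : ℝ := σ * (-1) ^ k with hsdef
    have hs1 : σ * (-1) ^ (k + 1) = -s := by rw [hsdef]; ring
    have hss : s * s = 1 := by rcases hs with h | h <;> rw [h] <;> norm_num
    have hck := h.mono k (by omega)
    have hwc : 0 < w (c (k + 1)) := hpos _ (h.mem _ le_rfl)
    have hval := h.val (k + 1) le_rfl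
    rw [hs1] at hval
    have hne : T (c (k + 1)) ≠ s * w (c (k + 1)) := by
      rw [hval]
      intro hcon
      have : s * w (c (k + 1)) = 0 := by linarith
      rcases mul_eq_zero.mp this with h1 | h1
      · rw [h1] at hss; norm_num at hss
      · exact hwc.ne' h1
    have hop : IsOpen {t | T t ≠ s * w t} := isOpen_ne_fun hT (by fun_prop)
    have hev : ∀ᶠ t in 𝓝[≤] (c (k + 1)), T t ≠ s * w t :=
      Filter.Eventually.filter_mono nhdsWithin_le_nhds (hop.mem_nhds hne)
    obtain ⟨l, hl, hl'⟩ := mem_nhdsLE_iff_exists_Icc_subset.mp hev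
    set ζ : ℝ := max l ((c k + c (k + 1)) / 2) with hζ
    have hζ1 : c k < ζ := lt_max_of_lt_right (by linarith)
    have hζ2 : ζ < c (k + 1) := max_lt hl (by linarith)
    have hζ3 : ∀ t, ζ ≤ t → t ≤ c (k + 1) → T t ≠ s * w t := fun t h1 h2 =>
      hl' ⟨(le_max_left _ _).trans h1, h2⟩
    refine ⟨(C ζ - X) * q, ?_, ?_, ?_⟩
    · refine natDegree_mul_le.trans ?_
      have : (C ζ - X : ℝ[X]).natDegree ≤ 1 := by
        refine (natDegree_sub_le _ _).trans ?_
        simp
      omega
    · intro t ht htc hcon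
      simp only [eval_mul, eval_sub, eval_C, eval_X]
      rcases le_or_gt t (c k) with h1 | h1
      · have := hq1 t ht h1 hcon
        have h2 : 0 < ζ - t := by linarith
        have h3 := mul_pos h2 this
        linarith [h3]
      · have hq := hq2 t h1.le
        have hwt := hpos t ht
        rcases lt_or_ge t ζ with h2 | h2
        · have h3 := h.gap k (by omega) t ⟨h1.le, h2.trans hζ2⟩
          rw [hs1] at h3
          have h4 : T t = -(-s) * w t := contact_sign (by
            rcases hs with h | h <;> rw [h] <;> norm_num) hcon h3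
          have h5 : (ζ - t) * q.eval t * T t = (ζ - t) * (s * q.eval t) * w t := by
            rw [h4]; ring
          rw [h5]
          exact mul_pos (mul_pos (by linarith) hq) hwt
        · have h3 := hζ3 t h2 htc
          have h4 : T t = -s * w t := contact_sign hs hcon h3
          have h5 : ζ < t := by
            rcases h2.lt_or_eq with h6 | h6
            · exact h6
            · exfalso
              have h7 := h.gap k (by omega) t ⟨h1.le, by rw [← h6]; exact hζ2⟩
              rw [hs1] at h7
              exact h7 h4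
          have h6 : (ζ - t) * q.eval t * T t = (t - ζ) * (s * q.eval t) * w t := by
            rw [h4]; ring
          rw [h6]
          exact mul_pos (mul_pos (by linarith) hq) hwt
    · intro t ht
      simp only [eval_mul, eval_sub, eval_C, eval_X]
      have hq := hq2 t (by linarith)
      have h6 : σ * (-1) ^ (k + 1) * ((ζ - t) * q.eval t) = (t - ζ) * (s * q.eval t) := by
        rw [hs1]; ring
      rw [h6]
      exact mul_pos (by linarith) hq

/-- One more alternating contact. -/
theorem greedy_step (hw : Continuous w) (hpos : ∀ t ∈ Icc a b, 0 < w t) {T : ℝ → ℝ}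
    (hT : Continuous T) {c : ℕ → ℝ} {σ : ℝ} {k : ℕ} (h : Greedy T w a b k c σ)
    (hex : ∃ t ∈ Icc (c k) b, T t = σ * (-1) ^ (k + 1) * w t) :
    ∃ c' : ℕ → ℝ, Greedy T w a b (k + 1) c' σ := by
  have hcomp : IsCompact ({t | T t = σ * (-1) ^ (k + 1) * w t} ∩ Icc (c k) b) :=
    isCompact_Icc.inter_left (isClosed_eq hT (continuous_const.mul hw))
  obtain ⟨t0, ⟨h1, h2⟩, hmin⟩ := hcomp.exists_isLeast (by
    obtain ⟨t, ht, ht'⟩ := hex
    exact ⟨t, ht', ht⟩)
  have h1' : T t0 = σ * (-1) ^ (k + 1) * w t0 := h1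
  have hck := h.mem k le_rfl
  have hs := sgn_pow h.sgn k
  have hne : c k ≠ t0 := by
    intro hcon
    have h3 := h.val k le_rfl
    rw [hcon] at h3
    have h4 : σ * (-1) ^ (k + 1) = -(σ * (-1) ^ k) := by ring
    rw [h4] at h1'
    have h5 : 0 < w t0 := hpos _ (hcon ▸ hck)
    rcases hs with h | h <;> rw [h] at h1' h3 <;> linarith
  have hlt : c k < t0 := lt_of_le_of_ne h2.1 hne
  have hle : ∀ i, i ≤ k → Function.update c (k + 1) t0 i = c i := by
    intro i hi
    rw [Function.update_of_ne (by omega)]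
  refine ⟨Function.update c (k + 1) t0, ⟨h.sgn, ?_, ?_, ?_, ?_, ?_⟩⟩
  · intro i hi
    rcases Nat.lt_or_ge i (k + 1) with h3 | h3
    · rw [hle i (by omega)]; exact h.mem i (by omega)
    · have : i = k + 1 := by omega
      subst this
      rw [Function.update_self]
      exact ⟨hck.1.trans h2.1, h2.2⟩
  · intro i hi
    rcases Nat.lt_or_ge i k with h3 | h3
    · rw [hle i (by omega), hle (i + 1) (by omega)]; exact h.mono i h3
    · have : i = k := by omega
      subst this
      rw [Function.update_self, hle i (by omega)]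
      exact hlt
  · intro i hi
    rcases Nat.lt_or_ge i (k + 1) with h3 | h3
    · rw [hle i (by omega)]; exact h.val i (by omega)
    · have : i = k + 1 := by omega
      subst this
      rw [Function.update_self]
      exact h1'
  · rw [hle 0 (by omega)]; exact h.first
  · intro i hi t ht
    rcases Nat.lt_or_ge i k with h3 | h3
    · rw [hle i (by omega), hle (i + 1) (by omega)] at ht
      exact h.gap i h3 t ht
    · have : i = k := by omega
      subst this
      rw [Function.update_self, hle i (by omega)] at ht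
      intro hcon
      have := hmin ⟨hcon, ht.1, ht.2.le.trans h2.2⟩
      linarith [ht.2]

/-- The extremal polynomial and its `n + 1` alternating contacts. -/
theorem exists_snake (hab : a < b) (hw : Continuous w) (hpos : ∀ t ∈ Icc a b, 0 < w t)
    (n : ℕ) : ∃ (T : ℝ[X]) (c : ℕ → ℝ) (σ : ℝ), T.natDegree ≤ n ∧
      (∀ t ∈ Icc a b, |T.eval t| ≤ w t) ∧ Greedy (fun t => T.eval t) w a b n c σ ∧
      ∀ t ∈ Icc (c n) b, T.eval t ≠ σ * (-1) ^ (n + 1) * w t := by
  obtain ⟨T, hTd, hTw, hext⟩ := exists_extremal hab hw hpos n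
  have hTc : Continuous fun t => T.eval t := by fun_prop
  have hall : ∀ k, k ≤ n → ∃ (c : ℕ → ℝ) (σ : ℝ), Greedy (fun t => T.eval t) w a b k c σ := by
    intro k
    induction k with
    | zero =>
      intro _
      have hcomp : IsCompact ({t | |T.eval t| = w t} ∩ Icc a b) :=
        isCompact_Icc.inter_left (isClosed_eq hTc.abs hw)
      have hne : ({t | |T.eval t| = w t} ∩ Icc a b).Nonempty := by
        by_contra hcon
        apply hext
        refine ⟨0, by simp, by simp, fun t ht h => ?_⟩
        exact absurd ⟨t, h, ht⟩ hcon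
      obtain ⟨t0, ⟨h1, h2⟩, hmin⟩ := hcomp.exists_isLeast hne
      have h1' : |T.eval t0| = w t0 := h1
      have hfirst : ∀ t ∈ Ico a t0, |T.eval t| ≠ w t := by
        intro t ht hcon
        have := hmin ⟨hcon, ht.1, ht.2.le.trans h2.2⟩
        linarith [ht.2]
      rcases le_total 0 (T.eval t0) with h0 | h0
      · rw [abs_of_nonneg h0] at h1'
        exact ⟨fun _ => t0, 1, ⟨Or.inl rfl, fun _ _ => h2, fun i hi => by omega,
          fun i hi => by
            have : i = 0 := by omega
            subst this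
            simpa using h1', hfirst, fun i hi => by omega⟩⟩
      · rw [abs_of_nonpos h0] at h1'
        exact ⟨fun _ => t0, -1, ⟨Or.inr rfl, fun _ _ => h2, fun i hi => by omega,
          fun i hi => by
            have : i = 0 := by omega
            subst this
            simp only [pow_zero, mul_one]; linarith, hfirst, fun i hi => by omega⟩⟩
    | succ k ih =>
      intro hk
      obtain ⟨c, σ, hG⟩ := ih (by omega)
      by_cases hex : ∃ t ∈ Icc (c k) b, T.eval t = σ * (-1) ^ (k + 1) * w t
      · obtain ⟨c', hc'⟩ := greedy_step hw hpos hTc hG hex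
        exact ⟨c', σ, hc'⟩
      · exfalso
        push Not at hex
        obtain ⟨q, hqd, hq1, hq2⟩ := greedy_sep hw hpos hTc k hG
        apply hext
        refine ⟨q, by omega, coeff_eq_zero_of_natDegree_lt (by omega), ?_⟩
        intro t ht hcon
        rcases le_or_gt t (c k) with h1 | h1
        · exact hq1 t ht h1 hcon
        · have h2 := hex t ⟨h1.le, ht.2⟩
          have h3 : T.eval t = -(σ * (-1) ^ (k + 1)) * w t :=
            contact_sign (sgn_pow hG.sgn _) hcon h2
          have h4 : q.eval t * T.eval t = (σ * (-1) ^ k * q.eval t) * w t := by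
            rw [h3]; ring
          rw [h4]
          exact mul_pos (hq2 t h1.le) (hpos t ht)
  obtain ⟨c, σ, hG⟩ := hall n le_rfl
  refine ⟨T, c, σ, hTd, hTw, hG, ?_⟩
  intro t ht hcon
  have hs := sgn_pow hG.sgn n
  have hcn := hG.mem n le_rfl
  have hwn := hpos _ hcn
  have hσ : σ * σ = 1 := by rcases hG.sgn with h | h <;> rw [h] <;> norm_num
  have hne : c n ≠ t := by
    intro h
    have h3 := hG.val n le_rfl
    rw [h] at h3
    have h4 : σ * (-1) ^ (n + 1) = -(σ * (-1) ^ n) := by ring
    rw [h4] at hcon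
    rw [h] at hwn
    rcases hs with h | h <;> rw [h] at hcon h3 <;> linarith
  have hlt : c n < t := lt_of_le_of_ne ht.1 hne
  have h0 : C σ * T = 0 := by
    refine weak_alt n _ (fun i => if i ≤ n then c i else t) ?_ ?_ ?_
    · exact (natDegree_C_mul_le _ _).trans hTd
    · intro i hi
      rw [if_pos (by omega)]
      by_cases h : i + 1 ≤ n
      · rw [if_pos h]; exact hG.mono i (by omega)
      · rw [if_neg h]
        have : i = n := by omega
        rw [this]; exact hlt
    · intro i hi
      by_cases h : i ≤ n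
      · rw [if_pos h, eval_mul, eval_C, hG.val i h]
        have h5 : (-1 : ℝ) ^ i * (σ * (σ * (-1) ^ i * w (c i))) =
            (σ * σ) * ((-1) ^ i * (-1) ^ i) * w (c i) := by ring
        rw [h5, hσ, ← mul_pow]
        simp only [mul_neg, mul_one, neg_neg, one_pow, one_mul]
        exact (hpos _ (hG.mem i h)).le
      · rw [if_neg h]
        have : i = n + 1 := by omega
        rw [this, eval_mul, eval_C, hcon]
        have h5 : (-1 : ℝ) ^ (n + 1) * (σ * (σ * (-1) ^ (n + 1) * w t)) =
            (σ * σ) * ((-1) ^ (n + 1) * (-1) ^ (n + 1)) * w t := by ring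
        rw [h5, hσ, ← mul_pow]
        simp only [mul_neg, mul_one, neg_neg, one_pow, one_mul]
        exact (hpos t ⟨hcn.1.trans ht.1, ht.2⟩).le
  have h1 : T.eval (c 0) = 0 := by
    have : (C σ * T).eval (c 0) = 0 := by rw [h0]; simp
    rw [eval_mul, eval_C] at this
    rcases mul_eq_zero.mp this with h | h
    · rw [h] at hσ; norm_num at hσ
    · exact h
  have h2 := hG.val 0 (Nat.zero_le _)
  have h3 := hpos _ (hG.mem 0 (Nat.zero_le _))
  rw [h1, pow_zero, mul_one] at h2
  rcases hG.sgn with h | h <;> rw [h] at h2 <;> linarith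

end Pool.Agent.H283.Cheb
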