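import Mathlib
import Pool.Agent.H283.Cheb.Extremal

/-!
All pairs of opposite contacts of polynomials in the unit ball are pierced by `n` points.
-/

namespace Pool.Agent.H283.Cheb

open Polynomial Set Filter Topology

variable {n : ℕ} {a b : ℝ} {w : ℝ → ℝ}

/-- Two polynomials below `w` on `[a, b]` which touch `w` at the same interior point have the
same slope there. -/
def PolySlope (w : ℝ → ℝ) (a b : ℝ) : Prop :=
  ∀ y ∈ Ioo a b, ∀ f g : ℝ[X], f.eval y = w y → g.eval y = w y →
    (∀ t ∈ Icc a b, f.eval t ≤ w t) → (∀ t ∈ Icc a b, g.eval t ≤ w t) →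
    f.derivative.eval y = g.derivative.eval y

theorem s_mul_le {s x y : ℝ} (hs : s = 1 ∨ s = -1) (h : |x| ≤ y) : s * x ≤ y := by
  rcases hs with rfl | rfl
  · rw [one_mul]; exact (le_abs_self x).trans h
  · rw [neg_one_mul]; exact (neg_le_abs x).trans h

theorem double_root {g : ℝ[X]} {s : ℝ} (h0 : g.eval s = 0) (h1 : g.derivative.eval s = 0) :
    ∃ h : ℝ[X], g = (X - C s) ^ 2 * h := by
  obtain ⟨g1, hg1⟩ := dvd_iff_isRoot.mpr (show IsRoot g s from h0)
  have h2 : g1.eval s = 0 := by
    rw [hg1] at h1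
    simpa using h1
  obtain ⟨g2, hg2⟩ := dvd_iff_isRoot.mpr (show IsRoot g1 s from h2)
  exact ⟨g2, by rw [hg1, hg2]; ring⟩

/-- **No opposite contacts between consecutive contacts of the extremal polynomial.** -/
theorem no_bad (hpos : ∀ t ∈ Icc a b, 0 < w t) (hsl : PolySlope w a b) {T : ℝ[X]}
    {c : ℕ → ℝ} {σ : ℝ} (hTd : T.natDegree ≤ n) (hTw : ∀ t ∈ Icc a b, |T.eval t| ≤ w t)
    (hG : Greedy (fun t => T.eval t) w a b n c σ)
    (hlast : ∀ t ∈ Icc (c n) b, T.eval t ≠ σ * (-1) ^ (n + 1) * w t)
    {j : ℕ} (hj : j ≤ n) {p : ℝ[X]} (hpd : p.natDegree ≤ n)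
    (hpw : ∀ t ∈ Icc a b, |p.eval t| ≤ w t) {s e : ℝ} (has : a ≤ s) (hse : s < e)
    (heb : e ≤ b) (h1 : 1 ≤ j → c j ≤ s) (h2 : j < n → e < c (j + 1))
    (hps : p.eval s = -(σ * (-1) ^ (j + 1)) * w s)
    (hpe : p.eval e = σ * (-1) ^ (j + 1) * w e) : False := by
  have hsI : s ∈ Icc a b := ⟨has, by linarith⟩
  have heI : e ∈ Icc a b := ⟨by linarith, heb⟩
  have hclt := lt_of_succ hG.mono
  -- `T` does not touch at `e` on the side of `p`
  have hTe : T.eval e ≠ σ * (-1) ^ (j + 1) * w e := by
    rcases lt_or_ge e (c 0) with h | h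
    · intro hcon
      apply hG.first e ⟨heI.1, h⟩
      show |T.eval e| = w e
      rw [hcon, abs_mul]
      rcases sgn_pow hG.sgn (j + 1) with h3 | h3 <;>
        simp [h3, abs_of_pos (hpos e heI)]
    · have hje : c j ≤ e := by
        rcases Nat.eq_zero_or_pos j with h3 | h3
        · rw [h3]; exact h
        · exact (h1 h3).trans hse.le
      rcases hj.lt_or_eq with h3 | h3
      · exact hG.gap j h3 e ⟨hje, h2 h3⟩
      · subst h3
        exact hlast e ⟨hje, heb⟩
  -- weak signs of `T - p`
  have hci : ∀ i ≤ n, 0 ≤ σ * (-1) ^ i * (T - p).eval (c i) := by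
    intro i hi
    have hs := sgn_pow hG.sgn i
    have hv : T.eval (c i) = σ * (-1) ^ i * w (c i) := hG.val i hi
    have hss : (σ * (-1) ^ i) * (σ * (-1) ^ i) = 1 := by
      rcases hs with h | h <;> rw [h] <;> norm_num
    have h3 := s_mul_le hs (hpw _ (hG.mem i hi))
    rw [eval_sub, hv]
    have h4 : σ * (-1) ^ i * (σ * (-1) ^ i * w (c i) - p.eval (c i)) =
        ((σ * (-1) ^ i) * (σ * (-1) ^ i)) * w (c i) - σ * (-1) ^ i * p.eval (c i) := by ring
    rw [h4, hss, one_mul]
    linarith
  have hs := sgn_pow hG.sgn (j + 1)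
  have hss : (σ * (-1) ^ (j + 1)) * (σ * (-1) ^ (j + 1)) = 1 := by
    rcases hs with h | h <;> rw [h] <;> norm_num
  have hgs : 0 ≤ σ * (-1) ^ (j + 1) * (T - p).eval s := by
    have h3 : (-(σ * (-1) ^ (j + 1))) * T.eval s ≤ w s :=
      s_mul_le (by rcases hs with h | h <;> rw [h] <;> norm_num) (hTw s hsI)
    rw [eval_sub, hps]
    have h4 : σ * (-1) ^ (j + 1) * (T.eval s - -(σ * (-1) ^ (j + 1)) * w s) =
        σ * (-1) ^ (j + 1) * T.eval s + ((σ * (-1) ^ (j + 1)) * (σ * (-1) ^ (j + 1))) * w s := by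
      ring
    rw [h4, hss]
    linarith
  have hge : σ * (-1) ^ (j + 1) * (T - p).eval e ≤ 0 := by
    have h3 := s_mul_le hs (hTw e heI)
    rw [eval_sub, hpe]
    have h4 : σ * (-1) ^ (j + 1) * (T.eval e - σ * (-1) ^ (j + 1) * w e) =
        σ * (-1) ^ (j + 1) * T.eval e - ((σ * (-1) ^ (j + 1)) * (σ * (-1) ^ (j + 1))) * w e := by
      ring
    rw [h4, hss]
    linarith
  have hge0 : (T - p).eval e ≠ 0 := by
    rw [eval_sub, hpe]
    exact sub_ne_zero.mpr hTe
  have hσ : σ * σ = 1 := by rcases hG.sgn with h | h <;> rw [h] <;> norm_num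
  have hgd : (T - p).natDegree ≤ n := (natDegree_sub_le _ _).trans (max_le hTd hpd)
  by_cases hcase : 1 ≤ j ∧ c j = s
  · -- tangency
    obtain ⟨hj1, hcs⟩ := hcase
    have hc0 : c 0 < c j := hclt 0 j hj1 hj
    have hsI' : s ∈ Ioo a b :=
      ⟨by rw [← hcs]; exact lt_of_le_of_lt (hG.mem 0 (Nat.zero_le _)).1 hc0, by linarith⟩
    set r : ℝ := -(σ * (-1) ^ (j + 1)) with hr
    have hrr : r * r = 1 := by rw [hr, neg_mul_neg]; exact hss
    have hr1 : r = 1 ∨ r = -1 := by
      rw [hr]; rcases hs with h | h <;> rw [h] <;> norm_num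
    have hrj : r = σ * (-1) ^ j := by rw [hr]; ring
    have hTs : T.eval s = r * w s := by
      rw [← hcs, hrj]; exact hG.val j hj
    have hdeq : (C r * T).derivative.eval s = (C r * p).derivative.eval s := by
      apply hsl s hsI'
      · rw [eval_mul, eval_C, hTs, ← mul_assoc, hrr, one_mul]
      · rw [eval_mul, eval_C, hps, ← mul_assoc, hrr, one_mul]
      · intro t ht
        rw [eval_mul, eval_C]
        exact s_mul_le hr1 (hTw t ht)
      · intro t ht
        rw [eval_mul, eval_C]
        exact s_mul_le hr1 (hpw t ht)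
    have hr0 : r ≠ 0 := by rcases hr1 with h | h <;> rw [h] <;> norm_num
    have hd0 : (T - p).derivative.eval s = 0 := by
      simp only [derivative_mul, derivative_C, zero_mul, zero_add, eval_mul, eval_C] at hdeq
      rw [derivative_sub, eval_sub]
      exact sub_eq_zero.mpr (mul_left_cancel₀ hr0 hdeq)
    have he0 : (T - p).eval s = 0 := by
      rw [eval_sub, hTs, hps, sub_self]
    obtain ⟨h, hh⟩ := double_root he0 hd0
    have hh0 : h ≠ 0 := by
      rintro rfl
      apply hge0
      rw [hh]; simp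
    have hdeg : (T - p).natDegree = 2 + h.natDegree := by
      rw [hh, natDegree_mul (pow_ne_zero _ (X_sub_C_ne_zero s)) hh0, natDegree_pow,
        natDegree_X_sub_C]
    have hn2 : 2 ≤ n := by omega
    have hsign : ∀ (t ρ : ℝ), t ≠ s → 0 ≤ ρ * (T - p).eval t → 0 ≤ ρ * h.eval t := by
      intro t ρ hts h3
      rw [hh] at h3
      simp only [eval_mul, eval_pow, eval_sub, eval_X, eval_C] at h3
      have h4 : ρ * ((t - s) ^ 2 * h.eval t) = (t - s) ^ 2 * (ρ * h.eval t) := by ring
      rw [h4] at h3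
      exact nonneg_of_mul_nonneg_right h3 (by
        have : t - s ≠ 0 := sub_ne_zero.mpr hts
        positivity)
    have hzero : C (-σ) * h = 0 := by
      refine weak_alt (n - 2) _ (fun i => if i = j - 1 then e else c (i + 1)) ?_ ?_ ?_
      · exact (natDegree_C_mul_le _ _).trans (by omega)
      · intro i hi
        by_cases h3 : i = j - 1
        · rw [if_pos h3, if_neg (by omega)]
          have h4 : i + 1 + 1 = j + 1 := by omega
          rw [h4]
          exact h2 (by omega)
        · rw [if_neg h3]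
          by_cases h4 : i + 1 = j - 1
          · rw [if_pos h4]
            have h5 : c (i + 1) < c j := hclt _ _ (by omega) hj
            linarith
          · rw [if_neg h4]
            exact hG.mono (i + 1) (by omega)
      · intro i hi
        rw [eval_mul, eval_C]
        by_cases h3 : i = j - 1
        · rw [if_pos h3]
          have h4 := hsign e (-(σ * (-1) ^ (j + 1))) (by linarith) (by linarith)
          have h5 : (-1 : ℝ) ^ i * (-σ * h.eval e) = -(σ * (-1) ^ (j + 1)) * h.eval e := by
            have h6 : j + 1 = i + 2 := by omega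
            rw [h6]; ring
          rw [h5]; exact h4
        · rw [if_neg h3]
          have h6 : c (i + 1) ≠ s := by
            rw [← hcs]
            rcases lt_or_gt_of_ne (show i + 1 ≠ j by omega) with h7 | h7
            · exact (hclt _ _ h7 hj).ne
            · exact (hclt _ _ h7 (by omega)).ne'
          have h4 := hsign (c (i + 1)) _ h6 (hci (i + 1) (by omega))
          have h5 : (-1 : ℝ) ^ i * (-σ * h.eval (c (i + 1))) =
            σ * (-1) ^ (i + 1) * h.eval (c (i + 1)) := by ring
          rw [h5]; exact h4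
    rcases mul_eq_zero.mp hzero with h3 | h3
    · rw [C_eq_zero, neg_eq_zero] at h3
      rw [h3] at hσ; norm_num at hσ
    · exact hh0 h3
  · -- transversal case
    have hjs : 1 ≤ j → c j < s := by
      intro h3
      refine lt_of_le_of_ne (h1 h3) fun h4 => hcase ⟨h3, h4⟩
    have hzero : C (-σ) * (T - p) = 0 := by
      refine weak_alt n _ (fun i => if i < j then c (i + 1) else if i = j then s else
        if i = j + 1 then e else c (i - 1)) ?_ ?_ ?_
      · exact (natDegree_C_mul_le _ _).trans hgd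
      · intro i hi
        by_cases h3 : i < j
        · rw [if_pos h3]
          by_cases h4 : i + 1 < j
          · rw [if_pos h4]; exact hG.mono (i + 1) (by omega)
          · have h5 : i + 1 = j := by omega
            rw [if_neg h4, if_pos h5, h5]
            exact hjs (by omega)
        · rw [if_neg h3, if_neg (show ¬ i + 1 < j by omega), if_neg (show i + 1 ≠ j by omega)]
          by_cases h4 : i = j
          · rw [if_pos h4, if_pos (by omega)]
            exact hse
          · rw [if_neg h4, if_neg (show i + 1 ≠ j + 1 by omega)]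
            by_cases h5 : i = j + 1
            · rw [if_pos h5]
              have h6 : i + 1 - 1 = j + 1 := by omega
              rw [h6]
              exact h2 (by omega)
            · rw [if_neg h5]
              have h6 : i + 1 - 1 = i - 1 + 1 := by omega
              rw [h6]
              exact hG.mono (i - 1) (by omega)
      · intro i hi
        rw [eval_mul, eval_C]
        by_cases h3 : i < j
        · rw [if_pos h3]
          have h4 := hci (i + 1) (by omega)
          have h5 : (-1 : ℝ) ^ i * (-σ * (T - p).eval (c (i + 1))) =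
            σ * (-1) ^ (i + 1) * (T - p).eval (c (i + 1)) := by ring
          rw [h5]; exact h4
        · rw [if_neg h3]
          by_cases h4 : i = j
          · rw [if_pos h4]
            have h5 : (-1 : ℝ) ^ i * (-σ * (T - p).eval s) =
              σ * (-1) ^ (j + 1) * (T - p).eval s := by rw [h4]; ring
            rw [h5]; exact hgs
          · rw [if_neg h4]
            by_cases h5 : i = j + 1
            · rw [if_pos h5]
              have h6 : (-1 : ℝ) ^ i * (-σ * (T - p).eval e) =
                -(σ * (-1) ^ (j + 1) * (T - p).eval e) := by rw [h5]; ring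
              rw [h6]; linarith
            · rw [if_neg h5]
              have h7 := hci (i - 1) (by omega)
              have h8 : (-1 : ℝ) ^ i * (-σ * (T - p).eval (c (i - 1))) =
                σ * (-1) ^ (i - 1) * (T - p).eval (c (i - 1)) := by
                obtain ⟨m, rfl⟩ : ∃ m, i = m + 1 := ⟨i - 1, by omega⟩
                rw [Nat.add_sub_cancel]; ring
              rw [h8]; exact h7
    rcases mul_eq_zero.mp hzero with h3 | h3
    · rw [C_eq_zero, neg_eq_zero] at h3
      rw [h3] at hσ; norm_num at hσ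
    · apply hge0; rw [h3]; simp

/-- A pair of opposite contacts of some polynomial in the unit ball. -/
def Bad (n : ℕ) (w : ℝ → ℝ) (a b s e : ℝ) : Prop :=
  ∃ x ∈ polyBall n a b w, s ∈ Icc a b ∧ e ∈ Icc a b ∧ s ≤ e ∧ ev x s = w s ∧ ev x e = -w e

theorem isCompact_bad (hab : a < b) (hw : Continuous w) (n : ℕ) :
    IsCompact {q : ℝ × ℝ | Bad n w a b q.1 q.2} := by
  have hK : IsCompact (polyBall n a b w) := isCompact_polyBall hab hw.continuousOn
  have h1 : IsCompact (((polyBall n a b w) ×ˢ (Icc a b ×ˢ Icc a b)) ∩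
      {z : EuclideanSpace ℝ (Fin (n + 1)) × (ℝ × ℝ) | z.2.1 ≤ z.2.2 ∧ ev z.1 z.2.1 = w z.2.1 ∧
        ev z.1 z.2.2 = -w z.2.2}) := by
    refine (hK.prod (isCompact_Icc.prod isCompact_Icc)).inter_right ?_
    have c1 : Continuous fun z : EuclideanSpace ℝ (Fin (n + 1)) × (ℝ × ℝ) => ev z.1 z.2.1 :=
      continuous_ev.comp (continuous_fst.prodMk (continuous_fst.comp continuous_snd))
    have c2 : Continuous fun z : EuclideanSpace ℝ (Fin (n + 1)) × (ℝ × ℝ) => ev z.1 z.2.2 :=
      continuous_ev.comp (continuous_fst.prodMk (continuous_snd.comp continuous_snd))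
    have c3 : Continuous fun z : EuclideanSpace ℝ (Fin (n + 1)) × (ℝ × ℝ) => z.2.1 :=
      continuous_fst.comp continuous_snd
    have c4 : Continuous fun z : EuclideanSpace ℝ (Fin (n + 1)) × (ℝ × ℝ) => z.2.2 :=
      continuous_snd.comp continuous_snd
    refine IsClosed.inter (isClosed_le c3 c4) (IsClosed.inter ?_ ?_)
    · exact isClosed_eq c1 (hw.comp c3)
    · exact isClosed_eq c2 (hw.comp c4).neg
  have h2 := h1.image (continuous_snd :
    Continuous (Prod.snd : EuclideanSpace ℝ (Fin (n + 1)) × (ℝ × ℝ) → ℝ × ℝ))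
  convert h2 using 1
  ext ⟨s, e⟩
  constructor
  · rintro ⟨x, hx, hs, he, hse, h3, h4⟩
    exact ⟨(x, (s, e)), ⟨⟨hx, hs, he⟩, hse, h3, h4⟩, rfl⟩
  · rintro ⟨⟨x, ⟨s', e'⟩⟩, ⟨⟨hx, hs, he⟩, hse, h3, h4⟩, h5⟩
    simp only [Prod.mk.injEq] at h5
    obtain ⟨rfl, rfl⟩ := h5
    exact ⟨x, hx, hs, he, hse, h3, h4⟩

/-- A compact set of reals without points in `[c, ∞)` has none in `[ζ, ∞)` for some `ζ < c`. -/
theorem exists_lt_of_compact {A : Set ℝ} (hA : IsCompact A) {c : ℝ} (h : ∀ x ∈ A, x < c) :
    ∃ ζ < c, ∀ x ∈ A, x < ζ := by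
  rcases A.eq_empty_or_nonempty with rfl | hne
  · exact ⟨c - 1, by linarith, by simp⟩
  · obtain ⟨M, hM, hmax⟩ := hA.exists_isGreatest hne
    have := h M hM
    exact ⟨(M + c) / 2, by linarith, fun x hx => by linarith [hmax hx]⟩

/-- **Piercing.** All pairs of opposite contacts are pierced by `n` points. -/
theorem exists_pierce (hab : a < b) (hw : Continuous w) (hpos : ∀ t ∈ Icc a b, 0 < w t)
    (hsl : PolySlope w a b) (n : ℕ) : ∃ Z : Finset ℝ, Z.card ≤ n ∧
      ∀ s e, Bad n w a b s e → ∃ z ∈ Z, s < z ∧ z < e := by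
  classical
  obtain ⟨T, c, σ, hTd, hTw, hG, hlast⟩ := exists_snake hab hw hpos n
  have hbad : ∀ j ≤ n, ∀ s e, Bad n w a b s e → (1 ≤ j → c j ≤ s) → (j < n → e < c (j + 1)) →
      False := by
    intro j hj s e ⟨x, hx, hs, he, hse, h3, h4⟩ h1 h2
    have hws := hpos s hs
    have hwe := hpos e he
    have hlt : s < e := by
      refine lt_of_le_of_ne hse fun h => ?_
      subst h
      linarith
    have hx' : ∀ t ∈ Icc a b, |(toPoly x).eval t| ≤ w t := fun t ht => by
      rw [eval_toPoly]; exact hx t ht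
    rcases sgn_pow hG.sgn (j + 1) with h | h
    · refine no_bad hpos hsl hTd hTw hG hlast hj (p := -toPoly x)
        (by rw [natDegree_neg]; exact natDegree_toPoly x)
        (fun t ht => by rw [eval_neg, abs_neg]; exact hx' t ht) hs.1 hlt he.2 h1 h2 ?_ ?_
      · rw [h, eval_neg, eval_toPoly, h3]; ring
      · rw [h, eval_neg, eval_toPoly, h4]; ring
    · refine no_bad hpos hsl hTd hTw hG hlast hj (p := toPoly x) (natDegree_toPoly x)
        hx' hs.1 hlt he.2 h1 h2 ?_ ?_
      · rw [h, eval_toPoly, h3]; ring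
      · rw [h, eval_toPoly, h4]; ring
  have hall : ∀ m, m ≤ n → ∃ Z : Finset ℝ, Z.card ≤ m ∧
      ∀ s e, Bad n w a b s e → (m < n → c (n - m) ≤ s) → ∃ z ∈ Z, s < z ∧ z < e := by
    intro m
    induction m with
    | zero =>
      intro _
      refine ⟨∅, by simp, fun s e h h1 => ?_⟩
      exact (hbad n le_rfl s e h (fun h2 => by simpa using h1 (by omega))
        (fun h2 => absurd h2 (lt_irrefl _))).elim
    | succ m ih =>
      intro hm
      obtain ⟨Z, hZc, hZ⟩ := ih (by omega)
      -- the pairs which are not pierced by `Z`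
      have hN : IsCompact ({q : ℝ × ℝ | Bad n w a b q.1 q.2} ∩
          ⋂ z ∈ Z, {q : ℝ × ℝ | q.1 < z ∧ z < q.2}ᶜ) := by
        refine (isCompact_bad hab hw n).inter_right (isClosed_biInter fun z _ => ?_)
        rw [isClosed_compl_iff]
        exact IsOpen.inter (isOpen_lt continuous_fst continuous_const)
          (isOpen_lt continuous_const continuous_snd)
      have hN1 : IsCompact (Prod.fst '' ({q : ℝ × ℝ | Bad n w a b q.1 q.2} ∩
          ⋂ z ∈ Z, {q : ℝ × ℝ | q.1 < z ∧ z < q.2}ᶜ)) := hN.image continuous_fst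
      obtain ⟨ζ, hζ, hζ'⟩ := exists_lt_of_compact hN1 (c := c (n - m)) (by
        rintro s ⟨⟨s', e⟩, ⟨hq1, hq2⟩, rfl⟩
        by_contra hcon
        obtain ⟨z, hz, hz'⟩ := hZ s' e hq1 (fun _ => not_lt.mp hcon)
        exact (mem_iInter₂.mp hq2 z hz) hz')
      refine ⟨insert ζ Z, (Finset.card_insert_le _ _).trans (by omega), ?_⟩
      intro s e h h1
      by_cases h2 : ζ ≤ s
      · have : ∃ z ∈ Z, s < z ∧ z < e := by
          by_contra hcon
          push Not at hcon
          have := hζ' s ⟨(s, e), ⟨h, mem_iInter₂.mpr fun z hz hz' =>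
            absurd hz'.2 (not_lt.mpr (hcon z hz hz'.1))⟩, rfl⟩
          linarith
        obtain ⟨z, hz, hz'⟩ := this
        exact ⟨z, Finset.mem_insert_of_mem hz, hz'⟩
      · push Not at h2
        by_cases h3 : ζ < e
        · exact ⟨ζ, Finset.mem_insert_self _ _, h2, h3⟩
        · exfalso
          push Not at h3
          refine hbad (n - (m + 1)) (by omega) s e h (fun h4 => h1 (by omega)) (fun _ => ?_)
          have h5 : n - (m + 1) + 1 = n - m := by omega
          rw [h5]
          linarith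
  obtain ⟨Z, hZc, hZ⟩ := hall n le_rfl
  exact ⟨Z, hZc, fun s e h => hZ s e h (fun h1 => absurd h1 (lt_irrefl _))⟩

end Pool.Agent.H283.Cheb
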