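import Mathlib
import Pool.Agent.H283.Cheb.Pierce

/-!
The covering theorem for unit balls of spaces of polynomials in weighted uniform norms.
-/

namespace Pool.Agent.H283.Cheb

open Polynomial Set Filter Topology

variable {n : ℕ} {a b : ℝ} {w : ℝ → ℝ}

/-- **Sign patterns.** If all pairs of points of `C` at which `f` has opposite signs are
separated strictly by points of the finite set `Z`, then the sign of `f` on `C` is the sign of
`± ∏ (t - z)`, `z` running over some subset of `Z`. -/
theorem sign_pattern (Z : Finset ℝ) : ∀ (C : Set ℝ) (f : ℝ → ℝ), (∀ t ∈ C, f t ≠ 0) →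
    (∀ s ∈ C, ∀ e ∈ C, s < e → f s * f e < 0 → ∃ z ∈ Z, s < z ∧ z < e) →
    ∃ S ⊆ Z, ∃ ε : ℝ, (ε = 1 ∨ ε = -1) ∧ ∀ t ∈ C, 0 < ε * (∏ z ∈ S, (t - z)) * f t := by
  classical
  induction Z using Finset.induction_on_max with
  | empty =>
    intro C f hf h
    by_cases hpos : ∀ t ∈ C, 0 < f t
    · exact ⟨∅, by simp, 1, Or.inl rfl, fun t ht => by simpa using hpos t ht⟩
    · push Not at hpos
      obtain ⟨t0, ht0, hle⟩ := hpos
      have hlt : f t0 < 0 := lt_of_le_of_ne hle (hf t0 ht0)
      refine ⟨∅, by simp, -1, Or.inr rfl, fun t ht => ?_⟩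
      simp only [Finset.prod_empty, mul_one, neg_mul, one_mul, Left.neg_pos_iff]
      by_contra hcon
      have hgt : 0 < f t := lt_of_le_of_ne (not_lt.mp hcon) (hf t ht).symm
      rcases lt_trichotomy t t0 with h1 | h1 | h1
      · obtain ⟨z, hz, _⟩ := h t ht t0 ht0 h1 (mul_neg_of_pos_of_neg hgt hlt)
        simp at hz
      · rw [h1] at hgt; linarith
      · obtain ⟨z, hz, _⟩ := h t0 ht0 t ht h1 (mul_neg_of_neg_of_pos hlt hgt)
        simp at hz
  | insert m Z hm ih =>
    intro C f hf h
    obtain ⟨S, hS, ε, hε, hSC⟩ := ih {t | t ∈ C ∧ t ≤ m} f (fun t ht => hf t ht.1) (by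
      intro s hs e he hse hsg
      obtain ⟨z, hz, hz1, hz2⟩ := h s hs.1 e he.1 hse hsg
      rcases Finset.mem_insert.mp hz with h1 | h1
      · have := he.2
        rw [h1] at hz2; linarith
      · exact ⟨z, h1, hz1, hz2⟩)
    have hmS : m ∉ S := fun h1 => lt_irrefl m (hm m (hS h1))
    have hprodpos : ∀ t, m ≤ t → 0 < ∏ z ∈ S, (t - z) := fun t ht =>
      Finset.prod_pos fun z hz => by linarith [hm z (hS hz)]
    have hεε : ε * ε = 1 := by rcases hε with h | h <;> rw [h] <;> norm_num
    have hnot : ∀ s ∈ C, ∀ e ∈ C, m ≤ s → s < e → ¬ f s * f e < 0 := by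
      intro s hs e he hms hse hsg
      obtain ⟨z, hz, hz1, hz2⟩ := h s hs e he hse hsg
      rcases Finset.mem_insert.mp hz with h1 | h1
      · rw [h1] at hz1; linarith
      · linarith [hm z h1]
    by_cases hcase : ∀ t ∈ C, m < t → 0 < ε * f t
    · refine ⟨S, hS.trans (Finset.subset_insert _ _), ε, hε, fun t ht => ?_⟩
      rcases le_or_gt t m with h1 | h1
      · exact hSC t ⟨ht, h1⟩
      · have h2 := mul_pos (hprodpos t h1.le) (hcase t ht h1)
        have h3 : ε * (∏ z ∈ S, (t - z)) * f t = (∏ z ∈ S, (t - z)) * (ε * f t) := by ring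
        rw [h3]; exact h2
    · push Not at hcase
      obtain ⟨e, he, hme, hle⟩ := hcase
      have hlt : ε * f e < 0 := by
        refine lt_of_le_of_ne hle fun h1 => ?_
        rcases mul_eq_zero.mp h1 with h2 | h2
        · rw [h2] at hεε; norm_num at hεε
        · exact hf e he h2
      have hallneg : ∀ t ∈ C, m ≤ t → ε * f t < 0 := by
        intro t ht hmt
        by_contra hcon
        have h1 : 0 < ε * f t := by
          refine lt_of_le_of_ne (not_lt.mp hcon) fun h1 => ?_
          rcases mul_eq_zero.mp h1.symm with h2 | h2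
          · rw [h2] at hεε; norm_num at hεε
          · exact hf t ht h2
        have h2 : f t * f e < 0 := by
          have h3 := mul_neg_of_pos_of_neg h1 hlt
          have h4 : ε * f t * (ε * f e) = (ε * ε) * (f t * f e) := by ring
          rwa [h4, hεε, one_mul] at h3
        rcases lt_trichotomy t e with h3 | h3 | h3
        · exact hnot t ht e he hmt h3 h2
        · rw [h3] at h1; linarith
        · exact hnot e he t ht hme.le h3 (by rwa [mul_comm] at h2)
      refine ⟨insert m S, Finset.insert_subset_insert _ hS, -ε, ?_, fun t ht => ?_⟩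
      · rcases hε with h | h <;> rw [h] <;> norm_num
      · rw [Finset.prod_insert hmS]
        rcases lt_trichotomy t m with h1 | h1 | h1
        · have h2 := hSC t ⟨ht, h1.le⟩
          have h3 : -ε * ((t - m) * ∏ z ∈ S, (t - z)) * f t =
              (m - t) * (ε * (∏ z ∈ S, (t - z)) * f t) := by ring
          rw [h3]
          exact mul_pos (by linarith) h2
        · exfalso
          have h2 := hSC t ⟨ht, h1.le⟩
          have h3 := hallneg t ht h1.ge
          have h4 : ε * (∏ z ∈ S, (t - z)) * f t = (∏ z ∈ S, (t - z)) * (ε * f t) := by ring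
          rw [h4] at h2
          have h5 := mul_neg_of_pos_of_neg (hprodpos t h1.ge) h3
          linarith
        · have h3 := hallneg t ht h1.le
          have h4 : -ε * ((t - m) * ∏ z ∈ S, (t - z)) * f t =
              (t - m) * (∏ z ∈ S, (t - z)) * (-(ε * f t)) := by ring
          rw [h4]
          exact mul_pos (mul_pos (by linarith) (hprodpos t h1.le)) (by linarith)

/-- The illuminating directions. -/
theorem exists_directions (hab : a < b) (hw : Continuous w) (hpos : ∀ t ∈ Icc a b, 0 < w t)
    (hsl : PolySlope w a b) (n : ℕ) : ∃ D : Finset (EuclideanSpace ℝ (Fin (n + 1))),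
      D.card ≤ 2 ^ (n + 1) ∧ ∀ x ∈ polyBall n a b w, ∃ u ∈ D, ∃ δ : ℝ, 0 < δ ∧
        x - δ • u ∈ interior (polyBall n a b w) := by
  classical
  obtain ⟨Z, hZc, hZ⟩ := exists_pierce hab hw hpos hsl n
  refine ⟨(Z.powerset ×ˢ ({1, -1} : Finset ℝ)).image
    (fun q => vec n (C q.2 * ∏ z ∈ q.1, (X - C z))), ?_, ?_⟩
  · refine Finset.card_image_le.trans ?_
    rw [Finset.card_product, Finset.card_powerset, pow_succ]
    have h1 : 2 ^ Z.card ≤ 2 ^ n := Nat.pow_le_pow_right (by norm_num) hZc
    have h2 : ({1, -1} : Finset ℝ).card ≤ 2 := Finset.card_le_two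
    exact Nat.mul_le_mul h1 h2
  · intro x hx
    obtain ⟨S, hS, ε, hε, hSC⟩ := sign_pattern Z {t | t ∈ Icc a b ∧ |ev x t| = w t} (ev x)
      (by
        intro t ht h0
        have h1 := hpos t ht.1
        have h2 := ht.2
        rw [h0, abs_zero] at h2
        linarith)
      (by
        intro s hs e he hse hsg
        have hws := hpos s hs.1
        have hwe := hpos e he.1
        rcases le_or_gt 0 (ev x s) with h0 | h0
        · have h1 : ev x s = w s := by rw [← hs.2, abs_of_nonneg h0]
          have h2 : ev x e < 0 := by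
            by_contra hcon
            have := mul_nonneg h0 (not_lt.mp hcon)
            linarith
          have h3 : ev x e = -w e := by rw [← he.2, abs_of_neg h2, neg_neg]
          exact hZ s e ⟨x, hx, hs.1, he.1, hse.le, h1, h3⟩
        · have h1 : ev x s = -w s := by rw [← hs.2, abs_of_neg h0, neg_neg]
          have h2 : 0 < ev x e := by
            by_contra hcon
            have := mul_nonneg_of_nonpos_of_nonpos h0.le (not_lt.mp hcon)
            linarith
          have h3 : ev x e = w e := by rw [← he.2, abs_of_pos h2]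
          have hneg : ∀ t, ev (-x) t = -ev x t := fun t => by
            have := ev_smul (-1) x t
            simpa using this
          refine hZ s e ⟨-x, fun t ht => ?_, hs.1, he.1, hse.le, ?_, ?_⟩
          · rw [hneg, abs_neg]; exact hx t ht
          · rw [hneg, h1, neg_neg]
          · rw [hneg, h3])
    set q : ℝ[X] := C ε * ∏ z ∈ S, (X - C z) with hq
    have hqd : q.natDegree ≤ n := by
      refine (natDegree_C_mul_le _ _).trans ?_
      rw [natDegree_prod_of_monic _ _ (fun z _ => monic_X_sub_C z)]
      simp only [natDegree_X_sub_C, Finset.sum_const, smul_eq_mul, mul_one]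
      exact (Finset.card_le_card hS).trans hZc
    have hqe : ∀ t, q.eval t = ε * ∏ z ∈ S, (t - z) := by
      intro t
      rw [hq, eval_mul, eval_C, eval_prod]
      simp
    refine ⟨vec n q, ?_, ?_⟩
    · refine Finset.mem_image.mpr ⟨(S, ε), ?_, rfl⟩
      refine Finset.mem_product.mpr ⟨Finset.mem_powerset.mpr hS, ?_⟩
      rcases hε with h | h <;> simp [h]
    · have hxc : Continuous (ev x) :=
        continuous_ev.comp (continuous_const.prodMk continuous_id)
      obtain ⟨δ, hδ, hδ'⟩ := contact hw hpos hxc (q := fun t => q.eval t) (by fun_prop) hx (by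
        intro t ht h
        have := hSC t ⟨ht, h⟩
        simpa [hqe] using this)
      refine ⟨δ, hδ, strictBall_subset hw ?_⟩
      intro t ht
      rw [ev_sub, ev_smul, ev_vec hqd]
      exact hδ' t ht

/-- The covering theorem, for weights that are continuous on the whole line. -/
theorem cover_aux (hab : a < b) (hw : Continuous w) (hpos : ∀ t ∈ Icc a b, 0 < w t)
    (hsl : PolySlope w a b) (n : ℕ) : ∃ T : Finset (EuclideanSpace ℝ (Fin (n + 1))),
      T.card ≤ 2 ^ (n + 1) ∧
      polyBall n a b w ⊆ ⋃ t ∈ T, (fun x => t + x) '' interior (polyBall n a b w) := by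
  obtain ⟨D, hD, hD'⟩ := exists_directions hab hw hpos hsl n
  obtain ⟨T, hT, hT'⟩ := cover_of_illum (isCompact_polyBall hab hw.continuousOn)
    convex_polyBall D hD'
  exact ⟨T, hT.trans hD, hT'⟩

/-- The covering theorem for unit balls of spaces of polynomials. -/
theorem cover (hab : a < b) (hw : ContinuousOn w (Icc a b)) (hpos : ∀ t ∈ Icc a b, 0 < w t)
    (hsl : PolySlope w a b) (n : ℕ) :
    IsCompact (polyBall n a b w) ∧ Convex ℝ (polyBall n a b w) ∧
    (interior (polyBall n a b w)).Nonempty ∧
    ∃ T : Finset (EuclideanSpace ℝ (Fin (n + 1))), T.card ≤ 2 ^ (n + 1) ∧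
      polyBall n a b w ⊆ ⋃ t ∈ T, (fun x => t + x) '' interior (polyBall n a b w) := by
  set W : ℝ → ℝ := fun t => w (projIcc a b hab.le t) with hW
  have hWc : Continuous W := hw.domRestrict.comp (continuous_projIcc (h := hab.le))
  have hWw : ∀ t ∈ Icc a b, W t = w t := fun t ht => by
    rw [hW]; simp only [projIcc_of_mem hab.le ht]
  have hK : polyBall n a b w = polyBall n a b W := by
    ext x
    constructor
    · intro h t ht
      rw [hWw t ht]; exact h t ht
    · intro h t ht
      rw [← hWw t ht]; exact h t ht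
  have hWpos : ∀ t ∈ Icc a b, 0 < W t := fun t ht => by rw [hWw t ht]; exact hpos t ht
  have hWsl : PolySlope W a b := by
    intro y hy f g hf hg hf' hg'
    have hy' := hWw y ⟨hy.1.le, hy.2.le⟩
    exact hsl y hy f g (by rw [hf, hy']) (by rw [hg, hy'])
      (fun t ht => by rw [← hWw t ht]; exact hf' t ht)
      (fun t ht => by rw [← hWw t ht]; exact hg' t ht)
  rw [hK]
  exact ⟨isCompact_polyBall hab hWc.continuousOn, convex_polyBall,
    ⟨0, strictBall_subset hWc (zero_mem_strictBall hWpos)⟩, cover_aux hab hWc hWpos hWsl n⟩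

end Pool.Agent.H283.Cheb
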