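import Mathlib

/-!
The convex hull of a compact set in a finite dimensional space is compact.
-/

namespace Pool.Agent.H283.Cheb

open Set Module

theorem isCompact_convexHull_of_isCompact {E : Type*} [NormedAddCommGroup E] [NormedSpace ℝ E]
    [FiniteDimensional ℝ E] {S : Set E} (hS : IsCompact S) : IsCompact (convexHull ℝ S) := by
  classical
  rcases S.eq_empty_or_nonempty with rfl | ⟨s0, hs0⟩
  · simp
  set N := finrank ℝ E + 1 with hN
  have hc : IsCompact ((fun q : (Fin N → ℝ) × (Fin N → E) => ∑ i, q.1 i • q.2 i) ''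
      (stdSimplex ℝ (Fin N) ×ˢ (Set.univ.pi fun _ => S))) :=
    ((isCompact_stdSimplex ℝ (Fin N)).prod (isCompact_univ_pi fun _ => hS)).image (by fun_prop)
  convert hc using 1
  apply Subset.antisymm
  · intro x hx
    obtain ⟨ι, _, z, w, hz, hai, hw, hw1, hx⟩ := eq_pos_convex_span_of_mem_convexHull hx
    have hcard : Fintype.card ι ≤ Fintype.card (Fin N) := by
      rw [Fintype.card_fin]
      exact hai.card_le_finrank_succ.trans (Nat.succ_le_succ (Submodule.finrank_le _))
    obtain ⟨e⟩ : Nonempty (ι ↪ Fin N) := Function.Embedding.nonempty_of_card_le hcard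
    have hW : ∀ j, Function.extend e w 0 (e j) = w j := fun j => e.injective.extend_apply _ _ _
    have hZ : ∀ j, Function.extend e z (fun _ => s0) (e j) = z j :=
      fun j => e.injective.extend_apply _ _ _
    have hW' : ∀ i, (¬ ∃ j, e j = i) → Function.extend e w 0 i = 0 := fun i hi => by
      rw [Function.extend_apply' _ _ _ hi]; rfl
    refine ⟨(Function.extend e w 0, Function.extend e z (fun _ => s0)), ⟨⟨?_, ?_⟩, ?_⟩, ?_⟩
    · intro i
      by_cases hi : ∃ j, e j = i
      · obtain ⟨j, rfl⟩ := hi
        simp only [hW]; exact (hw j).le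
      · simp only [hW' i hi]; exact le_rfl
    · simp only
      rw [← hw1, ← Finset.sum_subset (Finset.subset_univ (Finset.univ.map e))
        (fun i _ hi => hW' i (by simpa using hi)), Finset.sum_map]
      exact Finset.sum_congr rfl fun j _ => hW j
    · intro i _
      by_cases hi : ∃ j, e j = i
      · obtain ⟨j, rfl⟩ := hi
        simp only [hZ]; exact hz ⟨j, rfl⟩
      · simp only [Function.extend_apply' _ _ _ hi]; exact hs0
    · simp only
      rw [← hx, ← Finset.sum_subset (Finset.subset_univ (Finset.univ.map e))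
        (fun i _ hi => by rw [hW' i (by simpa using hi), zero_smul]), Finset.sum_map]
      exact Finset.sum_congr rfl fun j _ => by rw [hW, hZ]
  · rintro _ ⟨⟨w, z⟩, ⟨⟨hw, hw1⟩, hz⟩, rfl⟩
    exact (convex_convexHull ℝ S).sum_mem (fun i _ => hw i) hw1
      (fun i _ => subset_convexHull ℝ S (hz i (mem_univ i)))

end Pool.Agent.H283.Cheb
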