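import Mathlib
import Pool.Agent.H283.Cheb.WeakAlt
import Pool.Agent.H283.Cheb.Body

/-!
Binary forms on the circle: representation by polynomials, weak alternation.
-/

namespace Pool.Agent.H283.Cheb

open Polynomial Set Filter Topology

/-- The value at `(cos θ, sin θ)` of the binary form with coefficients `x 0, ..., x m`. -/
noncomputable def fv {m : ℕ} (x : EuclideanSpace ℝ (Fin (m + 1))) (θ : ℝ) : ℝ :=
  ∑ i : Fin (m + 1), x i * Real.cos θ ^ (m - (i : ℕ)) * Real.sin θ ^ (i : ℕ)

/-- `F` is the restriction to the circle of a binary form of degree `m`. -/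
def IsForm (m : ℕ) (F : ℝ → ℝ) : Prop :=
  ∃ c : ℕ → ℝ, ∀ θ, F θ = ∑ i ∈ Finset.range (m + 1), c i * Real.cos θ ^ (m - i) * Real.sin θ ^ i

theorem IsForm.of_fv {m : ℕ} (x : EuclideanSpace ℝ (Fin (m + 1))) : IsForm m (fv x) := by
  refine ⟨fun i => if h : i < m + 1 then x ⟨i, h⟩ else 0, fun θ => ?_⟩
  rw [Finset.sum_range]
  unfold fv
  refine Finset.sum_congr rfl fun i _ => ?_
  simp only [dif_pos i.2]

theorem IsForm.exists_vec {m : ℕ} {F : ℝ → ℝ} (h : IsForm m F) :
    ∃ x : EuclideanSpace ℝ (Fin (m + 1)), ∀ θ, fv x θ = F θ := by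
  obtain ⟨c, hc⟩ := h
  refine ⟨WithLp.toLp 2 (fun i => c i), fun θ => ?_⟩
  rw [hc, Finset.sum_range]
  rfl

theorem IsForm.add {m : ℕ} {F G : ℝ → ℝ} (hF : IsForm m F) (hG : IsForm m G) :
    IsForm m (fun θ => F θ + G θ) := by
  obtain ⟨c, hc⟩ := hF
  obtain ⟨d, hd⟩ := hG
  refine ⟨fun i => c i + d i, fun θ => ?_⟩
  simp only
  rw [hc, hd, ← Finset.sum_add_distrib]
  exact Finset.sum_congr rfl fun i _ => by ring

theorem IsForm.const_mul {m : ℕ} {F : ℝ → ℝ} (hF : IsForm m F) (r : ℝ) :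
    IsForm m (fun θ => r * F θ) := by
  obtain ⟨c, hc⟩ := hF
  refine ⟨fun i => r * c i, fun θ => ?_⟩
  simp only
  rw [hc, Finset.mul_sum]
  exact Finset.sum_congr rfl fun i _ => by ring

theorem IsForm.congr {m : ℕ} {F G : ℝ → ℝ} (hF : IsForm m F) (h : ∀ θ, G θ = F θ) :
    IsForm m G := by
  obtain ⟨c, hc⟩ := hF
  exact ⟨c, fun θ => by rw [h, hc]⟩

theorem IsForm.cos_mul {m : ℕ} {F : ℝ → ℝ} (hF : IsForm m F) :
    IsForm (m + 1) (fun θ => Real.cos θ * F θ) := by
  obtain ⟨c, hc⟩ := hF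
  refine ⟨fun i => if i ≤ m then c i else 0, fun θ => ?_⟩
  simp only
  rw [Finset.sum_range_succ, if_neg (by omega), zero_mul, zero_mul, add_zero, hc, Finset.mul_sum]
  refine Finset.sum_congr rfl fun i hi => ?_
  have hi' : i ≤ m := Nat.lt_succ_iff.mp (Finset.mem_range.mp hi)
  rw [if_pos hi', Nat.sub_add_comm hi', pow_succ]
  ring

theorem IsForm.sin_mul' {m : ℕ} {F : ℝ → ℝ} (hF : IsForm m F) :
    ∃ c : ℕ → ℝ, c 0 = 0 ∧ (∀ θ, Real.sin θ * F θ =
      ∑ i ∈ Finset.range (m + 1 + 1), c i * Real.cos θ ^ (m + 1 - i) * Real.sin θ ^ i) := by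
  obtain ⟨c, hc⟩ := hF
  refine ⟨fun i => if i = 0 then 0 else c (i - 1), by simp, fun θ => ?_⟩
  simp only
  rw [Finset.sum_range_succ', if_pos rfl, zero_mul, zero_mul, add_zero, hc, Finset.mul_sum]
  refine Finset.sum_congr rfl fun i _ => ?_
  rw [if_neg (by omega), Nat.add_sub_cancel, Nat.add_sub_add_right, pow_succ]
  ring

theorem IsForm.sin_mul {m : ℕ} {F : ℝ → ℝ} (hF : IsForm m F) :
    IsForm (m + 1) (fun θ => Real.sin θ * F θ) := by
  obtain ⟨c, _, hc⟩ := hF.sin_mul'
  exact ⟨c, hc⟩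

theorem IsForm.sin_sub_mul {m : ℕ} {F : ℝ → ℝ} (hF : IsForm m F) (z : ℝ) :
    IsForm (m + 1) (fun θ => Real.sin (θ - z) * F θ) := by
  refine ((hF.sin_mul.const_mul (Real.cos z)).add (hF.cos_mul.const_mul (-Real.sin z))).congr
    fun θ => ?_
  rw [Real.sin_sub]; ring

theorem IsForm.succ_succ {m : ℕ} {F : ℝ → ℝ} (hF : IsForm m F) : IsForm (m + 2) F := by
  refine (hF.sin_mul.sin_mul.add hF.cos_mul.cos_mul).congr fun θ => ?_
  have := Real.sin_sq_add_cos_sq θ
  linear_combination (-F θ) * this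

theorem IsForm.prod (S : Finset ℝ) : IsForm S.card (fun θ => ∏ z ∈ S, Real.sin (θ - z)) := by
  classical
  induction S using Finset.induction_on with
  | empty => exact ⟨fun _ => 1, fun θ => by simp⟩
  | insert a S ha ih =>
    rw [Finset.card_insert_of_notMem ha]
    refine (ih.sin_sub_mul a).congr fun θ => ?_
    rw [Finset.prod_insert ha]

theorem IsForm.add_even {m : ℕ} {F : ℝ → ℝ} (hF : IsForm m F) (k : ℕ) :
    IsForm (m + 2 * k) F := by
  induction k with
  | zero => exact hF
  | succ k ih => exact ih.succ_succ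

/-- Representation by a polynomial in `-cot (θ - α)`. -/
theorem IsForm.exists_poly {m : ℕ} {F : ℝ → ℝ} (hF : IsForm m F) (α : ℝ) :
    ∃ p : ℝ[X], p.natDegree ≤ m ∧ ∀ θ, Real.sin (θ - α) ≠ 0 →
      F θ = Real.sin (θ - α) ^ m * p.eval (-Real.cos (θ - α) / Real.sin (θ - α)) := by
  obtain ⟨c, hc⟩ := hF
  set A : ℝ[X] := C (-Real.cos α) * X + C (-Real.sin α) with hA
  set B : ℝ[X] := C (-Real.sin α) * X + C (Real.cos α) with hB
  have hAd : A.natDegree ≤ 1 := natDegree_linear_le
  have hBd : B.natDegree ≤ 1 := natDegree_linear_le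
  refine ⟨∑ i ∈ Finset.range (m + 1), C (c i) * A ^ (m - i) * B ^ i, ?_, ?_⟩
  · refine natDegree_sum_le_of_forall_le _ _ fun i hi => ?_
    have hi' : i ≤ m := Nat.lt_succ_iff.mp (Finset.mem_range.mp hi)
    refine natDegree_mul_le.trans ?_
    have h1 : (C (c i) * A ^ (m - i)).natDegree ≤ m - i := by
      refine (natDegree_C_mul_le _ _).trans (natDegree_pow_le.trans ?_)
      calc (m - i) * A.natDegree ≤ (m - i) * 1 := Nat.mul_le_mul_left _ hAd
        _ = m - i := mul_one _
    have h2 : (B ^ i).natDegree ≤ i := by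
      refine natDegree_pow_le.trans ?_
      calc i * B.natDegree ≤ i * 1 := Nat.mul_le_mul_left _ hBd
        _ = i := mul_one _
    omega
  · intro θ hθ
    set s := Real.sin (θ - α) with hs
    set u := -Real.cos (θ - α) / s with hu
    have hsu : s * u = -Real.cos (θ - α) := by rw [hu]; field_simp
    have hcos : Real.cos θ = s * A.eval u := by
      have h1 : Real.cos θ = Real.cos ((θ - α) + α) := by ring_nf
      rw [h1, Real.cos_add, hA]
      simp only [eval_add, eval_mul, eval_C, eval_X]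
      have h2 : s * (-Real.cos α * u + -Real.sin α) =
        -Real.cos α * (s * u) - s * Real.sin α := by ring
      rw [h2, hsu]; ring
    have hsin : Real.sin θ = s * B.eval u := by
      have h1 : Real.sin θ = Real.sin ((θ - α) + α) := by ring_nf
      rw [h1, Real.sin_add, hB]
      simp only [eval_add, eval_mul, eval_C, eval_X]
      have h2 : s * (-Real.sin α * u + Real.cos α) =
        -Real.sin α * (s * u) + s * Real.cos α := by ring
      rw [h2, hsu]; ring
    rw [hc, eval_finsetSum, Finset.mul_sum]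
    refine Finset.sum_congr rfl fun i hi => ?_
    have hi' : i ≤ m := Nat.lt_succ_iff.mp (Finset.mem_range.mp hi)
    rw [hcos, hsin, mul_pow, mul_pow]
    simp only [eval_mul, eval_C, eval_pow]
    have h3 : s ^ m = s ^ (m - i) * s ^ i := by rw [← pow_add]; congr 1; omega
    rw [h3]; ring

/-- `-cot` is increasing between `0` and `π`. -/
theorem neg_cot_lt {x y : ℝ} (hx : 0 < x) (hxy : x < y) (hy : y < Real.pi) :
    -Real.cos x / Real.sin x < -Real.cos y / Real.sin y := by
  have h1 : 0 < Real.sin x := Real.sin_pos_of_pos_of_lt_pi hx (hxy.trans hy)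
  have h2 : 0 < Real.sin y := Real.sin_pos_of_pos_of_lt_pi (hx.trans hxy) hy
  have h3 : 0 < Real.sin (y - x) := Real.sin_pos_of_pos_of_lt_pi (by linarith) (by linarith)
  rw [Real.sin_sub] at h3
  rw [div_lt_div_iff₀ h1 h2]
  nlinarith

/-- Weak alternation at `m + 2` points of an interval shorter than `π`. -/
theorem weak_alt_form {m : ℕ} {F : ℝ → ℝ} (hF : IsForm m F) {y : ℕ → ℝ} {ρ : ℝ} (hρ : ρ ≠ 0)
    (hy : ∀ i < m + 1, y i < y (i + 1)) (hy' : y (m + 1) < y 0 + Real.pi)
    (hs : ∀ i ≤ m + 1, 0 ≤ ρ * (-1) ^ i * F (y i)) : ∀ i ≤ m + 1, F (y i) = 0 := by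
  have hlt := lt_of_succ hy
  set α : ℝ := (y 0 + (y (m + 1) - Real.pi)) / 2 with hα
  have hα0 : α < y 0 := by rw [hα]; linarith
  have hα1 : y (m + 1) < α + Real.pi := by rw [hα]; linarith
  obtain ⟨p, hpd, hp⟩ := hF.exists_poly α
  have hrange : ∀ i ≤ m + 1, 0 < y i - α ∧ y i - α < Real.pi := by
    intro i hi
    constructor
    · rcases Nat.eq_zero_or_pos i with h | h
      · rw [h]; linarith
      · linarith [hlt 0 i h hi]
    · rcases hi.lt_or_eq with h | h
      · linarith [hlt i (m + 1) h le_rfl]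
      · rw [h]; linarith
  have hsin : ∀ i ≤ m + 1, 0 < Real.sin (y i - α) := fun i hi =>
    Real.sin_pos_of_pos_of_lt_pi (hrange i hi).1 (hrange i hi).2
  have h0 : C ρ * p = 0 := by
    refine weak_alt m _ (fun i => -Real.cos (y i - α) / Real.sin (y i - α)) ?_ ?_ ?_
    · exact (natDegree_C_mul_le _ _).trans hpd
    · intro i hi
      exact neg_cot_lt (hrange i hi.le).1 (by linarith [hy i hi]) (hrange (i + 1) (by omega)).2
    · intro i hi
      have h1 := hs i hi
      rw [hp (y i) (hsin i hi).ne'] at h1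
      rw [eval_mul, eval_C]
      have h2 : ρ * (-1) ^ i * (Real.sin (y i - α) ^ m *
          p.eval (-Real.cos (y i - α) / Real.sin (y i - α))) = Real.sin (y i - α) ^ m *
          ((-1) ^ i * (ρ * p.eval (-Real.cos (y i - α) / Real.sin (y i - α)))) := by ring
      rw [h2] at h1
      exact nonneg_of_mul_nonneg_right h1 (pow_pos (hsin i hi) m)
  have hp0 : p = 0 := by
    rcases mul_eq_zero.mp h0 with h | h
    · exact absurd (C_eq_zero.mp h) hρ
    · exact h
  intro i hi
  rw [hp (y i) (hsin i hi).ne', hp0, eval_zero, mul_zero]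

theorem double_root_form {m : ℕ} {F : ℝ → ℝ} {α s : ℝ} {p : ℝ[X]}
    (hp : ∀ θ, Real.sin (θ - α) ≠ 0 →
      F θ = Real.sin (θ - α) ^ m * p.eval (-Real.cos (θ - α) / Real.sin (θ - α)))
    (hs : Real.sin (s - α) ≠ 0) (h0 : F s = 0) (h1 : HasDerivAt F 0 s) :
    p.eval (-Real.cos (s - α) / Real.sin (s - α)) = 0 ∧
    p.derivative.eval (-Real.cos (s - α) / Real.sin (s - α)) = 0 := by
  have e0 : p.eval (-Real.cos (s - α) / Real.sin (s - α)) = 0 := by
    rw [hp s hs] at h0
    rcases mul_eq_zero.mp h0 with h | h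
    · exact absurd h (pow_ne_zero _ hs)
    · exact h
  refine ⟨e0, ?_⟩
  have hsd : HasDerivAt (fun θ => Real.sin (θ - α)) (Real.cos (s - α)) s := by
    have := (Real.hasDerivAt_sin (s - α)).comp_sub_const s α
    exact this
  have hcd : HasDerivAt (fun θ => -Real.cos (θ - α)) (Real.sin (s - α)) s := by
    have := ((Real.hasDerivAt_cos (s - α)).comp_sub_const s α).neg
    rw [neg_neg] at this
    exact this
  have hud : HasDerivAt (fun θ => -Real.cos (θ - α) / Real.sin (θ - α))
      ((Real.sin (s - α) * Real.sin (s - α) - -Real.cos (s - α) * Real.cos (s - α)) /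
        Real.sin (s - α) ^ 2) s := hcd.div hsd hs
  have hpd : HasDerivAt (fun θ => p.eval (-Real.cos (θ - α) / Real.sin (θ - α)))
      (p.derivative.eval (-Real.cos (s - α) / Real.sin (s - α)) *
      ((Real.sin (s - α) * Real.sin (s - α) - -Real.cos (s - α) * Real.cos (s - α)) /
        Real.sin (s - α) ^ 2)) s :=
    HasDerivAt.comp (h₂ := fun u => p.eval u) s
      (p.hasDerivAt (-Real.cos (s - α) / Real.sin (s - α))) hud
  have hFd := (hsd.pow m).mul hpd
  have hev : F =ᶠ[𝓝 s] fun θ => Real.sin (θ - α) ^ m *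
      p.eval (-Real.cos (θ - α) / Real.sin (θ - α)) := by
    have : ∀ᶠ θ in 𝓝 s, Real.sin (θ - α) ≠ 0 :=
      (isOpen_ne_fun (by fun_prop) continuous_const).mem_nhds hs
    filter_upwards [this] with θ hθ using hp θ hθ
  have hFd' := (h1.congr_of_eventuallyEq hev.symm).unique hFd
  rw [e0, mul_zero, zero_add] at hFd'
  have hsq : Real.sin (s - α) * Real.sin (s - α) - -Real.cos (s - α) * Real.cos (s - α) = 1 := by
    have := Real.sin_sq_add_cos_sq (s - α)
    linear_combination this
  rw [hsq] at hFd'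
  rcases mul_eq_zero.mp hFd'.symm with h | h
  · exact absurd h (pow_ne_zero _ hs)
  · rcases mul_eq_zero.mp h with h | h
    · exact h
    · exact absurd h (by positivity)

/-- Weak alternation in the presence of a double zero. -/
theorem weak_alt_form_double {m : ℕ} {F : ℝ → ℝ} (hF : IsForm m F) {y : ℕ → ℝ} {ρ α s : ℝ}
    (hρ : ρ ≠ 0) (h0 : F s = 0) (h1 : HasDerivAt F 0 s) (hs1 : α < s) (hs2 : s < α + Real.pi)
    (hy : ∀ i, i + 1 < m → y i < y (i + 1)) (hya : ∀ i < m, α < y i)
    (hyb : ∀ i < m, y i < α + Real.pi) (hys : ∀ i < m, y i ≠ s)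
    (hsg : ∀ i < m, 0 ≤ ρ * (-1) ^ i * F (y i)) : ∀ i < m, F (y i) = 0 := by
  obtain ⟨p, hpd, hp⟩ := hF.exists_poly α
  have hssin : 0 < Real.sin (s - α) :=
    Real.sin_pos_of_pos_of_lt_pi (by linarith) (by linarith)
  have hsin : ∀ i < m, 0 < Real.sin (y i - α) := fun i hi =>
    Real.sin_pos_of_pos_of_lt_pi (by linarith [hya i hi]) (by linarith [hyb i hi])
  obtain ⟨e0, e1⟩ := double_root_form hp hssin.ne' h0 h1
  set us := -Real.cos (s - α) / Real.sin (s - α) with hus
  obtain ⟨g1, hg1⟩ := dvd_iff_isRoot.mpr (show IsRoot p us from e0)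
  have e2 : g1.eval us = 0 := by
    rw [hg1] at e1
    simpa using e1
  obtain ⟨h, hh1⟩ := dvd_iff_isRoot.mpr (show IsRoot g1 us from e2)
  have hh : p = (X - C us) ^ 2 * h := by rw [hg1, hh1]; ring
  by_cases hh0 : h = 0
  · intro i hi
    rw [hp (y i) (hsin i hi).ne', hh, hh0, mul_zero, eval_zero, mul_zero]
  · exfalso
    have hdeg : p.natDegree = 2 + h.natDegree := by
      rw [hh, natDegree_mul (pow_ne_zero _ (X_sub_C_ne_zero us)) hh0, natDegree_pow,
        natDegree_X_sub_C]
    have hm2 : 2 ≤ m := by omega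
    have hu : ∀ i < m, -Real.cos (y i - α) / Real.sin (y i - α) ≠ us := by
      intro i hi
      rcases lt_or_gt_of_ne (hys i hi) with h | h
      · exact (neg_cot_lt (by linarith [hya i hi]) (by linarith) (by linarith)).ne
      · exact (neg_cot_lt (by linarith) (by linarith) (by linarith [hyb i hi])).ne'
    have hz : C ρ * h = 0 := by
      refine weak_alt (m - 2) _ (fun i => -Real.cos (y i - α) / Real.sin (y i - α)) ?_ ?_ ?_
      · exact (natDegree_C_mul_le _ _).trans (by omega)
      · intro i hi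
        exact neg_cot_lt (by linarith [hya i (by omega)]) (by linarith [hy i (by omega)])
          (by linarith [hyb (i + 1) (by omega)])
      · intro i hi
        have hi' : i < m := by omega
        have h3 := hsg i hi'
        rw [hp (y i) (hsin i hi').ne', hh] at h3
        set ui := -Real.cos (y i - α) / Real.sin (y i - α) with hui
        rw [eval_mul, eval_C]
        simp only [eval_mul, eval_pow, eval_sub, eval_X, eval_C] at h3
        have h4 : ρ * (-1) ^ i * (Real.sin (y i - α) ^ m * ((ui - us) ^ 2 * h.eval ui)) =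
          (Real.sin (y i - α) ^ m * (ui - us) ^ 2) * ((-1) ^ i * (ρ * h.eval ui)) := by ring
        rw [h4] at h3
        refine nonneg_of_mul_nonneg_right h3 ?_
        have h5 : ui - us ≠ 0 := sub_ne_zero.mpr (hu i hi')
        have h6 := hsin i hi'
        positivity
    rcases mul_eq_zero.mp hz with h' | h'
    · exact hρ (C_eq_zero.mp h')
    · exact hh0 h'

end Pool.Agent.H283.Cheb
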