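import Mathlib
import Pool.Agent.H283.Cheb.Cover

/-!
Two general lemmas: piercing from zones, and products with prescribed signs at the contacts.
-/

namespace Pool.Agent.H283.Cheb

open Polynomial Set Filter Topology

/-- Piercing a compact family of pairs. -/
theorem pierce_of_zones {B : ℝ → ℝ → Prop} (hB : IsCompact {q : ℝ × ℝ | B q.1 q.2}) (n : ℕ)
    (c : ℕ → ℝ) (hbad : ∀ j ≤ n, ∀ s e, B s e → (1 ≤ j → c j ≤ s) → (j < n → e < c (j + 1)) →
      False) :
    ∃ Z : Finset ℝ, Z.card ≤ n ∧ ∀ s e, B s e → ∃ z ∈ Z, s < z ∧ z < e := by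
  classical
  have hall : ∀ m, m ≤ n → ∃ Z : Finset ℝ, Z.card ≤ m ∧
      ∀ s e, B s e → (m < n → c (n - m) ≤ s) → ∃ z ∈ Z, s < z ∧ z < e := by
    intro m
    induction m with
    | zero =>
      intro _
      refine ⟨∅, by simp, fun s e h h1 => ?_⟩
      exact (hbad n le_rfl s e h (fun h2 => by simpa using h1 (by omega))
        (fun h2 => absurd h2 (lt_irrefl _))).elim
    | succ m ih =>
      intro hm
      obtain ⟨Z, hZc, hZ⟩ := ih (by omega)
      have hN : IsCompact ({q : ℝ × ℝ | B q.1 q.2} ∩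
          ⋂ z ∈ Z, {q : ℝ × ℝ | q.1 < z ∧ z < q.2}ᶜ) := by
        refine hB.inter_right (isClosed_biInter fun z _ => ?_)
        rw [isClosed_compl_iff]
        exact IsOpen.inter (isOpen_lt continuous_fst continuous_const)
          (isOpen_lt continuous_const continuous_snd)
      have hN1 : IsCompact (Prod.fst '' ({q : ℝ × ℝ | B q.1 q.2} ∩
          ⋂ z ∈ Z, {q : ℝ × ℝ | q.1 < z ∧ z < q.2}ᶜ)) := hN.image continuous_fst
      obtain ⟨ζ, hζ, hζ'⟩ := exists_lt_of_compact hN1 (c := c (n - m)) (by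
        rintro s ⟨⟨s', e⟩, ⟨hq1, hq2⟩, rfl⟩
        by_contra hcon
        obtain ⟨z, hz, hz'⟩ := hZ s' e hq1 (fun _ => not_lt.mp hcon)
        exact (mem_iInter₂.mp hq2 z hz) hz')
      refine ⟨insert ζ Z, (Finset.card_insert_le _ _).trans (by omega), ?_⟩
      intro s e h h1
      by_cases h2 : ζ ≤ s
      · have : ∃ z ∈ Z, s < z ∧ z < e := by
          by_contra hcon
          push Not at hcon
          have := hζ' s ⟨(s, e), ⟨h, mem_iInter₂.mpr fun z hz hz' =>
            absurd hz'.2 (not_lt.mpr (hcon z hz hz'.1))⟩, rfl⟩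
          linarith
        obtain ⟨z, hz, hz'⟩ := this
        exact ⟨z, Finset.mem_insert_of_mem hz, hz'⟩
      · push Not at h2
        by_cases h3 : ζ < e
        · exact ⟨ζ, Finset.mem_insert_self _ _, h2, h3⟩
        · exfalso
          push Not at h3
          refine hbad (n - (m + 1)) (by omega) s e h (fun h4 => h1 (by omega)) (fun _ => ?_)
          have h5 : n - (m + 1) + 1 = n - m := by omega
          rw [h5]
          linarith
  obtain ⟨Z, hZc, hZ⟩ := hall n le_rfl
  exact ⟨Z, hZc, fun s e h => hZ s e h (fun h1 => absurd h1 (lt_irrefl _))⟩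

/-- A product of `k` linear factors with the same signs as `T` at the contacts up to `c k`. -/
theorem greedy_sep_prod {a b : ℝ} {w : ℝ → ℝ} (hw : Continuous w)
    (hpos : ∀ t ∈ Icc a b, 0 < w t) {T : ℝ → ℝ}
    (hT : Continuous T) {c : ℕ → ℝ} {σ : ℝ} : ∀ k : ℕ, Greedy T w a b k c σ →
    ∃ (S : Finset ℝ) (ρ : ℝ), (ρ = 1 ∨ ρ = -1) ∧ S.card ≤ k ∧ (∀ z ∈ S, a < z ∧ z < c k) ∧
      (∀ t ∈ Icc a b, t ≤ c k → |T t| = w t → 0 < ρ * (∏ z ∈ S, (t - z)) * T t) ∧
      (∀ t, c k ≤ t → 0 < σ * (-1) ^ k * (ρ * ∏ z ∈ S, (t - z))) := by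
  classical
  intro k
  induction k with
  | zero =>
    intro h
    have hσ : σ * σ = 1 := by rcases h.sgn with h | h <;> rw [h] <;> norm_num
    refine ⟨∅, σ, h.sgn, by simp, by simp, ?_, ?_⟩
    · intro t ht htc hcon
      have h0 : t = c 0 := by
        rcases htc.lt_or_eq with h1 | h1
        · exact absurd hcon (h.first t ⟨ht.1, h1⟩)
        · exact h1
      have h2 := h.val 0 le_rfl
      rw [h0, h2, Finset.prod_empty, pow_zero, mul_one, ← mul_assoc, hσ, one_mul]
      exact hpos _ (h.mem 0 le_rfl)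
    · intro t _
      rw [Finset.prod_empty, pow_zero, mul_one, hσ]
      exact one_pos
  | succ k ih =>
    intro h
    obtain ⟨S, ρ, hρ, hSc, hSab, hq1, hq2⟩ := ih h.restrict
    have hs := sgn_pow h.sgn k
    set s : ℝ := σ * (-1) ^ k with hsdef
    have hs1 : σ * (-1) ^ (k + 1) = -s := by rw [hsdef]; ring
    have hss : s * s = 1 := by rcases hs with h | h <;> rw [h] <;> norm_num
    have hck := h.mono k (by omega)
    have hwc : 0 < w (c (k + 1)) := hpos _ (h.mem _ le_rfl)
    have hval := h.val (k + 1) le_rfl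
    rw [hs1] at hval
    have hne : T (c (k + 1)) ≠ s * w (c (k + 1)) := by
      rw [hval]
      intro hcon
      have : s * w (c (k + 1)) = 0 := by linarith
      rcases mul_eq_zero.mp this with h1 | h1
      · rw [h1] at hss; norm_num at hss
      · exact hwc.ne' h1
    have hop : IsOpen {t | T t ≠ s * w t} := isOpen_ne_fun hT (by fun_prop)
    have hev : ∀ᶠ t in 𝓝[≤] (c (k + 1)), T t ≠ s * w t :=
      Filter.Eventually.filter_mono nhdsWithin_le_nhds (hop.mem_nhds hne)
    obtain ⟨l, hl, hl'⟩ := mem_nhdsLE_iff_exists_Icc_subset.mp hev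
    set ζ : ℝ := max l ((c k + c (k + 1)) / 2) with hζ
    have hζ1 : c k < ζ := lt_max_of_lt_right (by linarith)
    have hζ2 : ζ < c (k + 1) := max_lt hl (by linarith)
    have hζ3 : ∀ t, ζ ≤ t → t ≤ c (k + 1) → T t ≠ s * w t := fun t h1 h2 =>
      hl' ⟨(le_max_left _ _).trans h1, h2⟩
    have hζS : ζ ∉ S := fun h1 => by linarith [(hSab ζ h1).2]
    have hak : a ≤ c k := (h.mem k (by omega)).1
    have hkey : ∀ t, -ρ * ∏ z ∈ insert ζ S, (t - z) = (ζ - t) * (ρ * ∏ z ∈ S, (t - z)) := by
      intro t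
      rw [Finset.prod_insert hζS]; ring
    refine ⟨insert ζ S, -ρ, ?_, ?_, ?_, ?_, ?_⟩
    · rcases hρ with h | h <;> rw [h] <;> norm_num
    · rw [Finset.card_insert_of_notMem hζS]; omega
    · intro z hz
      rcases Finset.mem_insert.mp hz with h1 | h1
      · rw [h1]; exact ⟨by linarith, hζ2⟩
      · have := hSab z h1
        exact ⟨this.1, by linarith⟩
    · intro t ht htc hcon
      rw [hkey]
      rcases le_or_gt t (c k) with h1 | h1
      · have := hq1 t ht h1 hcon
        have h2 : 0 < ζ - t := by linarith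
        have h3 := mul_pos h2 this
        linarith [h3]
      · have hq := hq2 t h1.le
        have hwt := hpos t ht
        rcases lt_or_ge t ζ with h2 | h2
        · have h3 := h.gap k (by omega) t ⟨h1.le, h2.trans hζ2⟩
          rw [hs1] at h3
          have h4 : T t = -(-s) * w t := contact_sign (by
            rcases hs with h | h <;> rw [h] <;> norm_num) hcon h3
          have h5 : (ζ - t) * (ρ * ∏ z ∈ S, (t - z)) * T t =
              (ζ - t) * (s * (ρ * ∏ z ∈ S, (t - z))) * w t := by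
            rw [h4]; ring
          rw [h5]
          exact mul_pos (mul_pos (by linarith) hq) hwt
        · have h3 := hζ3 t h2 htc
          have h4 : T t = -s * w t := contact_sign hs hcon h3
          have h5 : ζ < t := by
            rcases h2.lt_or_eq with h6 | h6
            · exact h6
            · exfalso
              have h7 := h.gap k (by omega) t ⟨h1.le, by rw [← h6]; exact hζ2⟩
              rw [hs1] at h7
              exact h7 h4
          have h6 : (ζ - t) * (ρ * ∏ z ∈ S, (t - z)) * T t =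
              (t - ζ) * (s * (ρ * ∏ z ∈ S, (t - z))) * w t := by
            rw [h4]; ring
          rw [h6]
          exact mul_pos (mul_pos (by linarith) hq) hwt
    · intro t ht
      have hq := hq2 t (by linarith)
      rw [hkey]
      have h6 : σ * (-1) ^ (k + 1) * ((ζ - t) * (ρ * ∏ z ∈ S, (t - z))) =
          (t - ζ) * (s * (ρ * ∏ z ∈ S, (t - z))) := by
        rw [hs1]; ring
      rw [h6]
      exact mul_pos (by linarith) hq

/-- The sign of a product of sines. -/
theorem prod_sin_sign {a θ : ℝ} (S : Finset ℝ) (hS : ∀ z ∈ S, a < z ∧ z < a + Real.pi)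
    (hθ : θ ∈ Icc a (a + Real.pi)) (h : ∏ z ∈ S, (θ - z) ≠ 0) :
    0 < (∏ z ∈ S, (θ - z)) * ∏ z ∈ S, Real.sin (θ - z) := by
  rw [← Finset.prod_mul_distrib]
  refine Finset.prod_pos fun z hz => ?_
  have h1 : θ - z ≠ 0 := Finset.prod_ne_zero_iff.mp h z hz
  obtain ⟨h2, h3⟩ := hS z hz
  rcases lt_or_gt_of_ne h1 with h4 | h4
  · have : Real.sin (θ - z) < 0 := Real.sin_neg_of_neg_of_neg_pi_lt h4 (by linarith [hθ.1])
    exact mul_pos_of_neg_of_neg h4 this
  · have : 0 < Real.sin (θ - z) := Real.sin_pos_of_pos_of_lt_pi h4 (by linarith [hθ.2])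
    exact mul_pos h4 this

end Pool.Agent.H283.Cheb
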