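import Mathlib
import Pool.Agent.H283.Cheb.Form
import Pool.Agent.H283.Cheb.Zones

/-!
The unit ball of the space of binary forms of degree `m` in a weighted uniform norm on the
circle.
-/

namespace Pool.Agent.H283.Cheb

open Polynomial Set Filter Topology

variable {m : ℕ} {ω : ℝ → ℝ}

/-- The binary forms of degree `m` with `|F| ≤ ω` on the circle. -/
def formBall (m : ℕ) (ω : ℝ → ℝ) : Set (EuclideanSpace ℝ (Fin (m + 1))) :=
  {x | ∀ θ : ℝ, |fv x θ| ≤ ω θ}

theorem fv_add (x y : EuclideanSpace ℝ (Fin (m + 1))) (t : ℝ) :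
    fv (x + y) t = fv x t + fv y t := by
  simp [fv, add_mul, Finset.sum_add_distrib]

theorem fv_smul (c : ℝ) (x : EuclideanSpace ℝ (Fin (m + 1))) (t : ℝ) :
    fv (c • x) t = c * fv x t := by
  simp [fv, Finset.mul_sum, mul_assoc]

theorem fv_sub (x y : EuclideanSpace ℝ (Fin (m + 1))) (t : ℝ) :
    fv (x - y) t = fv x t - fv y t := by
  simp [fv, sub_mul, Finset.sum_sub_distrib]

theorem continuous_fv : Continuous (fun z : EuclideanSpace ℝ (Fin (m + 1)) × ℝ => fv z.1 z.2) := by
  unfold fv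
  fun_prop

theorem continuous_fv' (x : EuclideanSpace ℝ (Fin (m + 1))) : Continuous (fv x) :=
  continuous_fv.comp (continuous_const.prodMk continuous_id)

theorem differentiable_fv (x : EuclideanSpace ℝ (Fin (m + 1))) : Differentiable ℝ (fv x) := by
  unfold fv
  fun_prop

theorem fv_add_pi (x : EuclideanSpace ℝ (Fin (m + 1))) (θ : ℝ) :
    fv x (θ + Real.pi) = (-1) ^ m * fv x θ := by
  unfold fv
  rw [Finset.mul_sum]
  refine Finset.sum_congr rfl fun i _ => ?_
  rw [Real.cos_add_pi, Real.sin_add_pi, neg_pow, neg_pow (Real.sin θ)]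
  have h : (-1 : ℝ) ^ m = (-1) ^ (m - (i : ℕ)) * (-1) ^ (i : ℕ) := by
    rw [← pow_add]; congr 1; omega
  rw [h]; ring

theorem abs_fv_add_pi (x : EuclideanSpace ℝ (Fin (m + 1))) (θ : ℝ) :
    |fv x (θ + Real.pi)| = |fv x θ| := by
  rw [fv_add_pi, abs_mul, abs_pow, abs_neg, abs_one, one_pow, one_mul]

/-- A property of `|fv x θ|` and `ω θ` needs to be checked on one period only. -/
theorem all_of_period (hper : Function.Periodic ω Real.pi) (x : EuclideanSpace ℝ (Fin (m + 1)))
    (P : ℝ → ℝ → Prop) {a : ℝ} (h : ∀ θ ∈ Icc a (a + Real.pi), P |fv x θ| (ω θ)) (θ : ℝ) :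
    P |fv x θ| (ω θ) := by
  have hp : Function.Periodic (fun θ => P |fv x θ| (ω θ)) Real.pi := by
    intro θ
    simp only [abs_fv_add_pi, hper θ]
  obtain ⟨y, hy, hy'⟩ := hp.exists_mem_Ico Real.pi_pos θ a
  rw [hy']
  exact h y ⟨hy.1, hy.2.le⟩

theorem fv_arctan (x : EuclideanSpace ℝ (Fin (m + 1))) (t : ℝ) :
    fv x (Real.arctan t) = Real.cos (Real.arctan t) ^ m * (toPoly x).eval t := by
  have hc : 0 < Real.cos (Real.arctan t) := Real.cos_arctan_pos t
  have hs : Real.sin (Real.arctan t) = t * Real.cos (Real.arctan t) := by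
    have h1 := Real.tan_arctan t
    rw [Real.tan_eq_sin_div_cos, div_eq_iff hc.ne'] at h1
    exact h1
  rw [eval_toPoly]
  unfold fv ev
  rw [Finset.mul_sum]
  refine Finset.sum_congr rfl fun i _ => ?_
  rw [hs, mul_pow]
  have h : Real.cos (Real.arctan t) ^ m =
      Real.cos (Real.arctan t) ^ (m - (i : ℕ)) * Real.cos (Real.arctan t) ^ (i : ℕ) := by
    rw [← pow_add]; congr 1; omega
  rw [h]; ring

/-- Values at some nodes, as a linear map. -/
noncomputable def nodeMapF (m : ℕ) : EuclideanSpace ℝ (Fin (m + 1)) →ₗ[ℝ] (Fin (m + 1) → ℝ) where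
  toFun x := fun i => fv x (Real.arctan (i : ℕ))
  map_add' x y := by funext i; exact fv_add x y _
  map_smul' c x := by funext i; exact fv_smul c x _

theorem nodeMapF_ker : LinearMap.ker (nodeMapF m) = ⊥ := by
  rw [LinearMap.ker_eq_bot']
  intro x hx
  have h0 : toPoly x = 0 := by
    refine eq_zero_of_natDegree_lt_card_of_eval_eq_zero (toPoly x)
      (f := fun i : Fin (m + 1) => ((i : ℕ) : ℝ)) ?_ ?_ ?_
    · intro i j hij
      have h1 : ((i : ℕ) : ℝ) = ((j : ℕ) : ℝ) := hij
      exact Fin.ext (by exact_mod_cast h1)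
    · intro i
      have h1 : fv x (Real.arctan ((i : ℕ) : ℝ)) = 0 := congrFun hx i
      rw [fv_arctan] at h1
      rcases mul_eq_zero.mp h1 with h | h
      · exact absurd h (pow_ne_zero _ (Real.cos_arctan_pos _).ne')
      · exact h
    · simpa using Nat.lt_succ_of_le (natDegree_toPoly x)
  ext i
  rw [← coeff_toPoly, h0]
  simp

theorem isClosed_formBall : IsClosed (formBall m ω) := by
  have : formBall m ω = ⋂ t, {x | |fv x t| ≤ ω t} := by
    ext x; simp [formBall]
  rw [this]
  refine isClosed_iInter fun t => isClosed_le ?_ continuous_const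
  exact (continuous_fv.comp (by fun_prop : Continuous fun x :
    EuclideanSpace ℝ (Fin (m + 1)) => (x, t))).abs

theorem convex_formBall : Convex ℝ (formBall m ω) := by
  intro x hx y hy c d hc hd hcd t
  rw [fv_add, fv_smul, fv_smul]
  calc |c * fv x t + d * fv y t| ≤ |c * fv x t| + |d * fv y t| := abs_add_le _ _
    _ = c * |fv x t| + d * |fv y t| := by
      rw [abs_mul, abs_mul, abs_of_nonneg hc, abs_of_nonneg hd]
    _ ≤ c * ω t + d * ω t := by
      gcongr
      · exact hx t
      · exact hy t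
    _ = ω t := by rw [← add_mul, hcd, one_mul]

theorem isCompact_formBall : IsCompact (formBall m ω) := by
  obtain ⟨K, _, hK⟩ := (nodeMapF m).exists_antilipschitzWith nodeMapF_ker
  refine Metric.isCompact_of_isClosed_isBounded isClosed_formBall ?_
  refine (hK.isBounded_preimage (s := {v | ∀ i, ‖v i‖ ≤ ω (Real.arctan ((i : ℕ) : ℝ))})
    ?_).subset ?_
  · rw [Metric.isBounded_iff_subset_closedBall 0]
    refine ⟨∑ i : Fin (m + 1), |ω (Real.arctan ((i : ℕ) : ℝ))|, fun v hv => ?_⟩
    rw [mem_closedBall_zero_iff, pi_norm_le_iff_of_nonneg (by positivity)]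
    intro i
    refine (hv i).trans ((le_abs_self _).trans ?_)
    exact Finset.single_le_sum (f := fun i : Fin (m + 1) => |ω (Real.arctan ((i : ℕ) : ℝ))|)
      (fun _ _ => abs_nonneg _) (Finset.mem_univ i)
  · intro x hx i
    rw [Real.norm_eq_abs]
    exact hx _

/-- The forms with `|F| < ω`. -/
def strictFormBall (m : ℕ) (ω : ℝ → ℝ) : Set (EuclideanSpace ℝ (Fin (m + 1))) :=
  {x | ∀ t, |fv x t| < ω t}

theorem isOpen_strictFormBall (hω : Continuous ω) (hper : Function.Periodic ω Real.pi) :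
    IsOpen (strictFormBall m ω) := by
  rw [isOpen_iff_mem_nhds]
  intro x hx
  have h := (isCompact_Icc (a := 0) (b := 0 + Real.pi)).eventually_forall_of_forall_eventually
    (x₀ := x) (P := fun x t => |fv x t| < ω t) (by
      intro t _
      exact (isOpen_lt continuous_fv.abs (hω.comp continuous_snd)).mem_nhds (hx t))
  filter_upwards [h] with y hy
  exact fun θ => all_of_period hper y (fun u v => u < v) hy θ

theorem strictFormBall_subset (hω : Continuous ω) (hper : Function.Periodic ω Real.pi) :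
    strictFormBall m ω ⊆ interior (formBall m ω) :=
  interior_maximal (fun _ hx t => (hx t).le) (isOpen_strictFormBall hω hper)

theorem zero_mem_strictFormBall (hpos : ∀ t, 0 < ω t) : 0 ∈ strictFormBall m ω := by
  intro t
  have : fv (0 : EuclideanSpace ℝ (Fin (m + 1))) t = 0 := by simp [fv]
  rw [this, abs_zero]
  exact hpos t

theorem fv_zero (x : EuclideanSpace ℝ (Fin (m + 1))) : fv x 0 = x 0 := by
  unfold fv
  rw [Finset.sum_eq_single 0]
  · simp
  · intro i _ hi
    have : (i : ℕ) ≠ 0 := fun h => hi (Fin.ext h)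
    simp [this]
  · simp

theorem fv_pi (x : EuclideanSpace ℝ (Fin (m + 1))) : fv x Real.pi = (-1) ^ m * x 0 := by
  have := fv_add_pi x 0
  rw [zero_add, fv_zero] at this
  exact this

/-- Among the forms with a zero at `θ = 0` the one of largest slope there cannot be improved. -/
theorem exists_extremal_form (hω : Continuous ω) (hper : Function.Periodic ω Real.pi)
    (hpos : ∀ t, 0 < ω t) (k : ℕ) : ∃ x ∈ formBall (k + 1) ω, x 0 = 0 ∧
      ¬ ∃ q : EuclideanSpace ℝ (Fin (k + 1 + 1)), q 0 = 0 ∧ q 1 = 0 ∧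
        ∀ t ∈ Icc 0 (0 + Real.pi), |fv x t| = ω t → 0 < fv q t * fv x t := by
  have hK : IsCompact (formBall (k + 1) ω ∩ {x | x 0 = 0}) :=
    isCompact_formBall.inter_right (isClosed_eq (by fun_prop) continuous_const)
  have h0 : (0 : EuclideanSpace ℝ (Fin (k + 1 + 1))) ∈ formBall (k + 1) ω ∩ {x | x 0 = 0} :=
    ⟨interior_subset (strictFormBall_subset hω hper (zero_mem_strictFormBall hpos)), by simp⟩
  obtain ⟨x, ⟨hx, hx0⟩, hmax⟩ := hK.exists_isMaxOn ⟨0, h0⟩
    (f := fun x : EuclideanSpace ℝ (Fin (k + 1 + 1)) => x 1) (by fun_prop)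
  refine ⟨x, hx, hx0, ?_⟩
  rintro ⟨q, hq0, hq1, hq⟩
  obtain ⟨δ, hδ, hδ'⟩ := contact hω (fun t _ => hpos t) (p := fv x) (q := fv q)
    (continuous_fv' x) (continuous_fv' q) (fun t _ => hx t) hq
  have hy : x - δ • q ∈ strictFormBall (k + 1) ω := by
    refine all_of_period hper (x - δ • q) (fun u v => u < v) (a := 0) (fun θ hθ => ?_)
    rw [fv_sub, fv_smul]
    exact hδ' θ hθ
  have hev : ∀ᶠ η in 𝓝 (0 : ℝ), x - δ • q +
      η • (WithLp.toLp 2 (fun i => if i = (1 : Fin (k + 1 + 1)) then (1 : ℝ) else 0)) ∈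
        strictFormBall (k + 1) ω := by
    refine (Continuous.tendsto' (by fun_prop) 0 _ ?_).eventually
      ((isOpen_strictFormBall hω hper).mem_nhds hy)
    simp
  obtain ⟨η, h1, h2⟩ := ((hev.filter_mono nhdsWithin_le_nhds).and
    (self_mem_nhdsWithin (a := (0 : ℝ)) (s := Ioi 0))).exists
  have hx0' : x 0 = 0 := hx0
  have h3 := hmax ⟨interior_subset (strictFormBall_subset hω hper h1), by
    simp [hq0, hx0']⟩
  simp only [mem_ofPred_eq, PiLp.add_apply, PiLp.sub_apply, PiLp.smul_apply,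
    hq1, smul_eq_mul, mul_zero, sub_zero, if_true, mul_one] at h3
  have h4 : (0 : ℝ) < η := h2
  linarith

/-- A form of degree `k + 2` with a double zero at `0`. -/
theorem IsForm.sin_sq {k : ℕ} {F : ℝ → ℝ} (hF : IsForm k F) :
    ∃ x : EuclideanSpace ℝ (Fin (k + 2 + 1)), x 0 = 0 ∧ x 1 = 0 ∧
      ∀ θ, fv x θ = Real.sin θ ^ 2 * F θ := by
  obtain ⟨c, hc⟩ := hF
  refine ⟨WithLp.toLp 2 (fun i => if (i : ℕ) < 2 then 0 else c ((i : ℕ) - 2)), by simp,
    by simp, fun θ => ?_⟩
  have h1 : fv (m := k + 2) (WithLp.toLp 2 (fun i => if (i : ℕ) < 2 then 0 else c ((i : ℕ) - 2))) θ =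
      ∑ i ∈ Finset.range (k + 2 + 1), (if i < 2 then 0 else c (i - 2)) *
        Real.cos θ ^ (k + 2 - i) * Real.sin θ ^ i := by
    rw [Finset.sum_range]; rfl
  rw [h1, Finset.sum_range_succ', Finset.sum_range_succ', hc, Finset.mul_sum]
  rw [if_pos (by norm_num), if_pos (by norm_num), zero_mul, zero_mul, zero_mul, zero_mul,
    add_zero, add_zero]
  refine Finset.sum_congr rfl fun i _ => ?_
  rw [if_neg (by omega), show i + 1 + 1 - 2 = i by omega, show k + 2 - (i + 1 + 1) = k - i by omega]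
  ring

/-- The form `ε sin² θ ∏ sin (θ - z)` times a nonnegative factor, of the right degree. -/
theorem exists_filled {k : ℕ} (S : Finset ℝ) (hS : S.card ≤ k) :
    ∃ x : EuclideanSpace ℝ (Fin (k + 2 + 1)), x 0 = 0 ∧ x 1 = 0 ∧
      ∃ r : ℕ, ∀ θ, fv x θ = Real.sin θ ^ 2 * (Real.sin θ ^ r * ∏ z ∈ S, Real.sin (θ - z)) := by
  rcases Nat.even_or_odd (k - S.card) with h | h
  · obtain ⟨l, hl⟩ := h
    have h1 : IsForm k (fun θ => ∏ z ∈ S, Real.sin (θ - z)) := by
      have := (IsForm.prod S).add_even l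
      have h2 : S.card + 2 * l = k := by omega
      rwa [h2] at this
    obtain ⟨x, hx0, hx1, hx⟩ := h1.sin_sq
    exact ⟨x, hx0, hx1, 0, fun θ => by rw [hx, pow_zero, one_mul]⟩
  · obtain ⟨l, hl⟩ := h
    have h1 : IsForm k (fun θ => Real.sin θ * ∏ z ∈ S, Real.sin (θ - z)) := by
      have := (IsForm.prod S).sin_mul.add_even l
      have h2 : S.card + 1 + 2 * l = k := by omega
      rwa [h2] at this
    obtain ⟨x, hx0, hx1, hx⟩ := h1.sin_sq
    exact ⟨x, hx0, hx1, 1, fun θ => by rw [hx, pow_one]⟩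

/-- The extremal form has `k + 1` alternating contacts in `(0, π)`. -/
theorem exists_snake_form (hω : Continuous ω) (hper : Function.Periodic ω Real.pi)
    (hpos : ∀ t, 0 < ω t) (k : ℕ) : ∃ x ∈ formBall (k + 1) ω, x 0 = 0 ∧
      ∃ (c : ℕ → ℝ) (σ : ℝ), Greedy (fv x) ω 0 (0 + Real.pi) k c σ := by
  obtain ⟨x, hx, hx0, hext⟩ := exists_extremal_form hω hper hpos k
  refine ⟨x, hx, hx0, ?_⟩
  have hTc : Continuous (fv x) := continuous_fv' x
  have hopen : ∀ t ∈ Icc (0 : ℝ) (0 + Real.pi), |fv x t| = ω t → 0 < t ∧ t < Real.pi := by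
    intro t ht hcon
    have h1 := hpos t
    constructor
    · rcases ht.1.lt_or_eq with h | h
      · exact h
      · rw [← h, fv_zero, hx0, abs_zero] at hcon
        rw [← h] at h1; linarith
    · rcases ht.2.lt_or_eq with h | h
      · linarith
      · rw [h, zero_add, fv_pi, hx0, mul_zero, abs_zero] at hcon
        rw [h, zero_add] at h1; linarith
  have hall : ∀ j, j ≤ k → ∃ (c : ℕ → ℝ) (σ : ℝ), Greedy (fv x) ω 0 (0 + Real.pi) j c σ := by
    intro j
    induction j with
    | zero =>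
      intro _
      have hcomp : IsCompact ({t | |fv x t| = ω t} ∩ Icc 0 (0 + Real.pi)) :=
        isCompact_Icc.inter_left (isClosed_eq hTc.abs hω)
      have hne : ({t | |fv x t| = ω t} ∩ Icc 0 (0 + Real.pi)).Nonempty := by
        by_contra hcon
        apply hext
        refine ⟨0, by simp, by simp, fun t ht h => ?_⟩
        exact absurd ⟨t, h, ht⟩ hcon
      obtain ⟨t0, ⟨h1, h2⟩, hmin⟩ := hcomp.exists_isLeast hne
      have h1' : |fv x t0| = ω t0 := h1
      have hfirst : ∀ t ∈ Ico 0 t0, |fv x t| ≠ ω t := by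
        intro t ht hcon
        have := hmin ⟨hcon, ht.1, ht.2.le.trans h2.2⟩
        linarith [ht.2]
      rcases le_total 0 (fv x t0) with h0 | h0
      · rw [abs_of_nonneg h0] at h1'
        exact ⟨fun _ => t0, 1, ⟨Or.inl rfl, fun _ _ => h2, fun i hi => by omega,
          fun i hi => by
            have : i = 0 := by omega
            subst this
            simpa using h1', hfirst, fun i hi => by omega⟩⟩
      · rw [abs_of_nonpos h0] at h1'
        exact ⟨fun _ => t0, -1, ⟨Or.inr rfl, fun _ _ => h2, fun i hi => by omega,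
          fun i hi => by
            have : i = 0 := by omega
            subst this
            simp only [pow_zero, mul_one]; linarith, hfirst, fun i hi => by omega⟩⟩
    | succ j ih =>
      intro hj
      obtain ⟨c, σ, hG⟩ := ih (by omega)
      by_cases hex : ∃ t ∈ Icc (c j) (0 + Real.pi), fv x t = σ * (-1) ^ (j + 1) * ω t
      · obtain ⟨c', hc'⟩ := greedy_step hω (fun t _ => hpos t) hTc hG hex
        exact ⟨c', σ, hc'⟩
      · exfalso
        push Not at hex
        obtain ⟨S, ρ, hρ, hSc, hSab, hq1, hq2⟩ :=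
          greedy_sep_prod hω (fun t _ => hpos t) hTc j hG
        have hcj := hG.mem j le_rfl
        have hall : ∀ t ∈ Icc 0 (0 + Real.pi), |fv x t| = ω t →
            0 < ρ * (∏ z ∈ S, (t - z)) * fv x t := by
          intro t ht hcon
          rcases le_or_gt t (c j) with h1 | h1
          · exact hq1 t ht h1 hcon
          · have h2 := hex t ⟨h1.le, ht.2⟩
            have h3 : fv x t = -(σ * (-1) ^ (j + 1)) * ω t :=
              contact_sign (sgn_pow hG.sgn _) hcon h2
            have h4 : ρ * (∏ z ∈ S, (t - z)) * fv x t =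
                (σ * (-1) ^ j * (ρ * ∏ z ∈ S, (t - z))) * ω t := by
              rw [h3]; ring
            rw [h4]
            exact mul_pos (hq2 t h1.le) (hpos t)
        obtain ⟨k0, rfl⟩ : ∃ k0, k = k0 + 1 := ⟨k - 1, by omega⟩
        obtain ⟨q, hq0, hq1', r, hq⟩ := exists_filled (k := k0) S (by omega)
        apply hext
        refine ⟨ρ • q, by simp [hq0], by simp [hq1'], fun t ht hcon => ?_⟩
        obtain ⟨ht0, htπ⟩ := hopen t ht hcon
        have hsin : 0 < Real.sin t := Real.sin_pos_of_pos_of_lt_pi ht0 htπ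
        have h1 := hall t ht hcon
        have h2 : ∏ z ∈ S, (t - z) ≠ 0 := fun h => by
          rw [h, mul_zero, zero_mul] at h1; exact lt_irrefl _ h1
        have h3 := prod_sin_sign (a := 0) S
          (fun z hz => ⟨(hSab z hz).1, by linarith [(hSab z hz).2, hcj.2]⟩) ht h2
        have h4 : fv (ρ • q) t = ρ * (Real.sin t ^ 2 * (Real.sin t ^ r *
            ∏ z ∈ S, Real.sin (t - z))) := by
          rw [fv_smul]; exact congrArg (ρ * ·) (hq t)
        rw [h4]
        have h5 : 0 < (∏ z ∈ S, (t - z)) ^ 2 *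
            (ρ * (∏ z ∈ S, Real.sin (t - z)) * fv x t) := by
          have h6 := mul_pos h1 h3
          have h7 : ρ * (∏ z ∈ S, (t - z)) * fv x t *
              ((∏ z ∈ S, (t - z)) * ∏ z ∈ S, Real.sin (t - z)) =
              (∏ z ∈ S, (t - z)) ^ 2 * (ρ * (∏ z ∈ S, Real.sin (t - z)) * fv x t) := by ring
          rwa [h7] at h6
        have h8 : 0 < ρ * (∏ z ∈ S, Real.sin (t - z)) * fv x t :=
          (mul_pos_iff_of_pos_left (by positivity)).mp h5
        have h9 : ρ * (Real.sin t ^ 2 * (Real.sin t ^ r * ∏ z ∈ S, Real.sin (t - z))) * fv x t =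
            Real.sin t ^ (2 + r) * (ρ * (∏ z ∈ S, Real.sin (t - z)) * fv x t) := by
          rw [pow_add]; ring
        rw [h9]
        positivity
  exact hall k le_rfl

end Pool.Agent.H283.Cheb
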