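import Mathlib
import Pool.Agent.H283.Cheb.FormBody

/-!
The covering theorem for unit balls of spaces of binary forms.
-/

namespace Pool.Agent.H283.Cheb

open Polynomial Set Filter Topology

variable {m : ℕ} {ω : ℝ → ℝ}

/-- Two forms below `ω` which touch `ω` at the same point have the same slope there. -/
def FormSlope (m : ℕ) (ω : ℝ → ℝ) : Prop :=
  ∀ y : ℝ, ∀ f g : EuclideanSpace ℝ (Fin (m + 1)), fv f y = ω y → fv g y = ω y →
    (∀ t, fv f t ≤ ω t) → (∀ t, fv g t ≤ ω t) → deriv (fv f) y = deriv (fv g) y

/-- **No opposite contacts between consecutive contacts of the extremal form.** -/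
theorem no_bad_form (hsl : FormSlope m ω)
    {P : EuclideanSpace ℝ (Fin (m + 1))} {c : ℕ → ℝ} {σ : ℝ} (hm : 1 ≤ m)
    (hσ1 : σ = 1 ∨ σ = -1) (hPw : P ∈ formBall m ω)
    (hmono : ∀ i < m, c i < c (i + 1)) (hcm : c m = c 0 + Real.pi)
    (hval : ∀ i ≤ m, fv P (c i) = σ * (-1) ^ i * ω (c i))
    (hgap : ∀ i < m, ∀ t ∈ Ico (c i) (c (i + 1)), fv P t ≠ σ * (-1) ^ (i + 1) * ω t)
    {j : ℕ} (hj : j ≤ m) {p : EuclideanSpace ℝ (Fin (m + 1))}
    (hpw : p ∈ formBall m ω) {s e : ℝ} (has : c 0 ≤ s) (hse : s < e)
    (heb : e ≤ c m) (h1 : 1 ≤ j → c j ≤ s) (h2 : j < m → e < c (j + 1))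
    (hps : fv p s = -(σ * (-1) ^ (j + 1)) * ω s)
    (hpe : fv p e = σ * (-1) ^ (j + 1) * ω e) : False := by
  have hclt := lt_of_succ hmono
  have hjm : j < m := by
    rcases hj.lt_or_eq with h | h
    · exact h
    · exfalso
      have := h1 (by omega)
      rw [h] at this; linarith
  have hjs : c j ≤ s := by
    rcases Nat.eq_zero_or_pos j with h3 | h3
    · rw [h3]; exact has
    · exact h1 h3
  have hTe : fv P e ≠ σ * (-1) ^ (j + 1) * ω e := hgap j hjm e ⟨hjs.trans hse.le, h2 hjm⟩
  have hgform : IsForm m (fv (P - p)) := IsForm.of_fv _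
  -- weak signs of `P - p`
  have hci : ∀ i ≤ m, 0 ≤ σ * (-1) ^ i * fv (P - p) (c i) := by
    intro i hi
    have hs := sgn_pow hσ1 i
    have hv := hval i hi
    have hss : (σ * (-1) ^ i) * (σ * (-1) ^ i) = 1 := by
      rcases hs with h | h <;> rw [h] <;> norm_num
    have h3 := s_mul_le hs (hpw (c i))
    rw [fv_sub, hv]
    have h4 : σ * (-1) ^ i * (σ * (-1) ^ i * ω (c i) - fv p (c i)) =
        ((σ * (-1) ^ i) * (σ * (-1) ^ i)) * ω (c i) - σ * (-1) ^ i * fv p (c i) := by ring
    rw [h4, hss, one_mul]
    linarith
  have hs := sgn_pow hσ1 (j + 1)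
  have hss : (σ * (-1) ^ (j + 1)) * (σ * (-1) ^ (j + 1)) = 1 := by
    rcases hs with h | h <;> rw [h] <;> norm_num
  have hgs : 0 ≤ σ * (-1) ^ (j + 1) * fv (P - p) s := by
    have h3 : (-(σ * (-1) ^ (j + 1))) * fv P s ≤ ω s :=
      s_mul_le (by rcases hs with h | h <;> rw [h] <;> norm_num) (hPw s)
    rw [fv_sub, hps]
    have h4 : σ * (-1) ^ (j + 1) * (fv P s - -(σ * (-1) ^ (j + 1)) * ω s) =
        σ * (-1) ^ (j + 1) * fv P s + ((σ * (-1) ^ (j + 1)) * (σ * (-1) ^ (j + 1))) * ω s := by
      ring
    rw [h4, hss]
    linarith
  have hge : σ * (-1) ^ (j + 1) * fv (P - p) e ≤ 0 := by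
    have h3 := s_mul_le hs (hPw e)
    rw [fv_sub, hpe]
    have h4 : σ * (-1) ^ (j + 1) * (fv P e - σ * (-1) ^ (j + 1) * ω e) =
        σ * (-1) ^ (j + 1) * fv P e - ((σ * (-1) ^ (j + 1)) * (σ * (-1) ^ (j + 1))) * ω e := by
      ring
    rw [h4, hss]
    linarith
  have hge0 : fv (P - p) e ≠ 0 := by
    rw [fv_sub, hpe]
    exact sub_ne_zero.mpr hTe
  have hσ0 : σ ≠ 0 := by rcases hσ1 with h | h <;> rw [h] <;> norm_num
  by_cases hcs : c j = s
  · -- tangency
    set r : ℝ := -(σ * (-1) ^ (j + 1)) with hr
    have hrr : r * r = 1 := by rw [hr, neg_mul_neg]; exact hss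
    have hr1 : r = 1 ∨ r = -1 := by
      rw [hr]; rcases hs with h | h <;> rw [h] <;> norm_num
    have hrj : r = σ * (-1) ^ j := by rw [hr]; ring
    have hTs : fv P s = r * ω s := by
      rw [← hcs, hrj]; exact hval j hj
    have hsmul : ∀ q : EuclideanSpace ℝ (Fin (m + 1)), fv (r • q) = fun t => r * fv q t := by
      intro q; funext t; exact fv_smul r q t
    have hdeq : deriv (fv (r • P)) s = deriv (fv (r • p)) s := by
      apply hsl s
      · rw [fv_smul, hTs, ← mul_assoc, hrr, one_mul]
      · rw [fv_smul, hps, ← mul_assoc, hrr, one_mul]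
      · intro t
        rw [fv_smul]
        exact s_mul_le hr1 (hPw t)
      · intro t
        rw [fv_smul]
        exact s_mul_le hr1 (hpw t)
    have hr0 : r ≠ 0 := by rcases hr1 with h | h <;> rw [h] <;> norm_num
    rw [hsmul, hsmul, deriv_const_mul_field, deriv_const_mul_field] at hdeq
    have hdeq' := mul_left_cancel₀ hr0 hdeq
    have hd0 : HasDerivAt (fv (P - p)) 0 s := by
      have e1 : fv (P - p) = fun t => fv P t - fv p t := by funext t; exact fv_sub P p t
      have e2 := ((differentiable_fv P) s).hasDerivAt.sub ((differentiable_fv p) s).hasDerivAt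
      rw [hdeq', sub_self] at e2
      rw [e1]
      exact e2
    have he0 : fv (P - p) s = 0 := by
      rw [fv_sub, hTs, hps, sub_self]
    rcases Nat.eq_zero_or_pos j with hj0 | hj0
    · -- the seam
      subst hj0
      have hec1 : e < c 1 := h2 hjm
      set M : ℝ := max e (c (m - 1)) with hM
      have hMlt : M < c 0 + Real.pi := by
        refine max_lt ?_ ?_
        · rw [← hcm]
          rcases Nat.lt_or_ge 1 m with h3 | h3
          · linarith [hclt 1 m h3 le_rfl]
          · have : m = 1 := by omega
            rw [this]; exact hec1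
        · rw [← hcm]; exact hclt (m - 1) m (by omega) le_rfl
      have hy := weak_alt_form_double hgform (y := fun i => if i = 0 then e else c i) (ρ := σ)
        (α := (M - Real.pi + c 0) / 2) (s := s) hσ0 he0 hd0 (by rw [← hcs]; linarith)
        (by
          rw [← hcs]
          have : e ≤ M := le_max_left _ _
          linarith)
        (by
          intro i hi
          by_cases h3 : i = 0
          · subst h3
            rw [if_pos rfl, if_neg (by omega)]; exact hec1
          · rw [if_neg h3, if_neg (by omega)]; exact hmono i (by omega))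
        (by
          intro i hi
          by_cases h3 : i = 0
          · rw [if_pos h3]; linarith
          · rw [if_neg h3]
            have := hclt 0 i (by omega) (by omega)
            linarith)
        (by
          intro i hi
          have hle : (if i = 0 then e else c i) ≤ M := by
            by_cases h3 : i = 0
            · rw [if_pos h3]; exact le_max_left _ _
            · rw [if_neg h3]
              refine le_trans ?_ (le_max_right _ _)
              rcases Nat.lt_or_ge i (m - 1) with h4 | h4
              · exact (hclt i (m - 1) h4 (by omega)).le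
              · have : i = m - 1 := by omega
                rw [this]
          linarith)
        (by
          intro i hi
          by_cases h3 : i = 0
          · rw [if_pos h3]; exact hse.ne'
          · rw [if_neg h3, ← hcs]
            exact (hclt 0 i (by omega) (by omega)).ne')
        (by
          intro i hi
          by_cases h3 : i = 0
          · rw [if_pos h3, h3]
            have h4 : σ * (-1) ^ (0 + 1) * fv (P - p) e = -(σ * (-1) ^ 0 * fv (P - p) e) := by
              ring
            rw [h4] at hge
            linarith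
          · rw [if_neg h3]
            exact hci i (by omega))
        0 (by omega)
      simp only [if_true] at hy
      exact hge0 hy
    · have hc01 : c 0 < c 1 := hmono 0 (by omega)
      have hc1j : c 1 ≤ c j := by
        rcases Nat.lt_or_ge 1 j with h3 | h3
        · exact (hclt 1 j h3 hj).le
        · have : j = 1 := by omega
          rw [this]
      have hcle : ∀ i, 1 ≤ i → i ≤ m → c 1 ≤ c i := by
        intro i hi1 hi2
        rcases Nat.lt_or_ge 1 i with h3 | h3
        · exact (hclt 1 i h3 hi2).le
        · have : i = 1 := by omega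
          rw [this]
      have hclem : ∀ i, i ≤ m → c i ≤ c m := by
        intro i hi
        rcases hi.lt_or_eq with h3 | h3
        · exact (hclt i m h3 le_rfl).le
        · rw [h3]
      have hy := weak_alt_form_double hgform
        (y := fun i => if i = j - 1 then e else c (i + 1)) (ρ := -σ)
        (α := (c 0 + c 1) / 2) (s := s) (neg_ne_zero.mpr hσ0) he0 hd0
        (by rw [← hcs]; linarith)
        (by
          rw [← hcs]
          have := hclem j hj
          rw [hcm] at this
          linarith)
        (by
          intro i hi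
          by_cases h3 : i = j - 1
          · rw [if_pos h3, if_neg (by omega)]
            have h4 : i + 1 + 1 = j + 1 := by omega
            rw [h4]
            exact h2 hjm
          · rw [if_neg h3]
            by_cases h4 : i + 1 = j - 1
            · rw [if_pos h4]
              have h5 : c (i + 1) < c j := hclt _ _ (by omega) hj
              linarith
            · rw [if_neg h4]
              exact hmono (i + 1) (by omega))
        (by
          intro i hi
          by_cases h3 : i = j - 1
          · rw [if_pos h3]; linarith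
          · rw [if_neg h3]
            have := hcle (i + 1) (by omega) (by omega)
            linarith)
        (by
          intro i hi
          by_cases h3 : i = j - 1
          · rw [if_pos h3]
            rw [hcm] at heb
            linarith
          · rw [if_neg h3]
            have := hclem (i + 1) (by omega)
            rw [hcm] at this
            linarith)
        (by
          intro i hi
          by_cases h3 : i = j - 1
          · rw [if_pos h3]; exact hse.ne'
          · rw [if_neg h3, ← hcs]
            rcases lt_or_gt_of_ne (show i + 1 ≠ j by omega) with h7 | h7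
            · exact (hclt _ _ h7 hj).ne
            · exact (hclt _ _ h7 (by omega)).ne')
        (by
          intro i hi
          by_cases h3 : i = j - 1
          · rw [if_pos h3]
            have h5 : -σ * (-1) ^ i * fv (P - p) e = -(σ * (-1) ^ (j + 1) * fv (P - p) e) := by
              have h6 : j + 1 = i + 2 := by omega
              rw [h6]; ring
            rw [h5]; linarith
          · rw [if_neg h3]
            have h4 := hci (i + 1) (by omega)
            have h5 : -σ * (-1) ^ i * fv (P - p) (c (i + 1)) =
              σ * (-1) ^ (i + 1) * fv (P - p) (c (i + 1)) := by ring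
            rw [h5]; exact h4)
        (j - 1) (by omega)
      simp only [if_true] at hy
      exact hge0 hy
  · -- transversal case
    have hjs' : c j < s := lt_of_le_of_ne hjs hcs
    have hy := weak_alt_form hgform (y := fun i => if i < j then c (i + 1) else if i = j then s else
        if i = j + 1 then e else c (i - 1)) (ρ := -σ) (neg_ne_zero.mpr hσ0)
      (by
        intro i hi
        by_cases h3 : i < j
        · rw [if_pos h3]
          by_cases h4 : i + 1 < j
          · rw [if_pos h4]; exact hmono (i + 1) (by omega)
          · have h5 : i + 1 = j := by omega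
            rw [if_neg h4, if_pos h5, h5]
            exact hjs'
        · rw [if_neg h3, if_neg (show ¬ i + 1 < j by omega), if_neg (show i + 1 ≠ j by omega)]
          by_cases h4 : i = j
          · rw [if_pos h4, if_pos (by omega)]
            exact hse
          · rw [if_neg h4, if_neg (show i + 1 ≠ j + 1 by omega)]
            by_cases h5 : i = j + 1
            · rw [if_pos h5]
              have h6 : i + 1 - 1 = j + 1 := by omega
              rw [h6]
              exact h2 (by omega)
            · rw [if_neg h5]
              have h6 : i + 1 - 1 = i - 1 + 1 := by omega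
              rw [h6]
              exact hmono (i - 1) (by omega))
      (by
        rw [if_neg (by omega), if_neg (by omega)]
        have h0 : c 0 < (if 0 < j then c (0 + 1) else if 0 = j then s else
            if 0 = j + 1 then e else c (0 - 1)) := by
          by_cases h3 : 0 < j
          · rw [if_pos h3]; exact hmono 0 (by omega)
          · have h4 : j = 0 := by omega
            rw [if_neg h3, if_pos h4.symm]
            rw [h4] at hjs'
            exact hjs'
        by_cases h3 : m + 1 = j + 1
        · omega
        · rw [if_neg h3, Nat.add_sub_cancel, hcm]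
          linarith)
      (by
        intro i hi
        by_cases h3 : i < j
        · rw [if_pos h3]
          have h4 := hci (i + 1) (by omega)
          have h5 : -σ * (-1) ^ i * fv (P - p) (c (i + 1)) =
            σ * (-1) ^ (i + 1) * fv (P - p) (c (i + 1)) := by ring
          rw [h5]; exact h4
        · rw [if_neg h3]
          by_cases h4 : i = j
          · rw [if_pos h4]
            have h5 : -σ * (-1) ^ i * fv (P - p) s =
              σ * (-1) ^ (j + 1) * fv (P - p) s := by rw [h4]; ring
            rw [h5]; exact hgs
          · rw [if_neg h4]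
            by_cases h5 : i = j + 1
            · rw [if_pos h5]
              have h6 : -σ * (-1) ^ i * fv (P - p) e =
                -(σ * (-1) ^ (j + 1) * fv (P - p) e) := by rw [h5]; ring
              rw [h6]; linarith
            · rw [if_neg h5]
              have h7 := hci (i - 1) (by omega)
              have h8 : -σ * (-1) ^ i * fv (P - p) (c (i - 1)) =
                σ * (-1) ^ (i - 1) * fv (P - p) (c (i - 1)) := by
                obtain ⟨l, rfl⟩ : ∃ l, i = l + 1 := ⟨i - 1, by omega⟩
                rw [Nat.add_sub_cancel]; ring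
              rw [h8]; exact h7)
      (j + 1) (by omega)
    simp only at hy
    rw [if_neg (by omega), if_neg (by omega), if_pos trivial] at hy
    exact hge0 hy

/-- A pair of opposite contacts of some form in the unit ball, in the interval `[a, b]`. -/
def BadF (m : ℕ) (ω : ℝ → ℝ) (a b s e : ℝ) : Prop :=
  ∃ x ∈ formBall m ω, s ∈ Icc a b ∧ e ∈ Icc a b ∧ s ≤ e ∧ fv x s = ω s ∧ fv x e = -ω e

theorem isCompact_badF (hω : Continuous ω) (m : ℕ) (a b : ℝ) :
    IsCompact {q : ℝ × ℝ | BadF m ω a b q.1 q.2} := by
  have hK : IsCompact (formBall m ω) := isCompact_formBall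
  have h1 : IsCompact (((formBall m ω) ×ˢ (Icc a b ×ˢ Icc a b)) ∩
      {z : EuclideanSpace ℝ (Fin (m + 1)) × (ℝ × ℝ) | z.2.1 ≤ z.2.2 ∧ fv z.1 z.2.1 = ω z.2.1 ∧
        fv z.1 z.2.2 = -ω z.2.2}) := by
    refine (hK.prod (isCompact_Icc.prod isCompact_Icc)).inter_right ?_
    have c1 : Continuous fun z : EuclideanSpace ℝ (Fin (m + 1)) × (ℝ × ℝ) => fv z.1 z.2.1 :=
      continuous_fv.comp (continuous_fst.prodMk (continuous_fst.comp continuous_snd))
    have c2 : Continuous fun z : EuclideanSpace ℝ (Fin (m + 1)) × (ℝ × ℝ) => fv z.1 z.2.2 :=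
      continuous_fv.comp (continuous_fst.prodMk (continuous_snd.comp continuous_snd))
    have c3 : Continuous fun z : EuclideanSpace ℝ (Fin (m + 1)) × (ℝ × ℝ) => z.2.1 :=
      continuous_fst.comp continuous_snd
    have c4 : Continuous fun z : EuclideanSpace ℝ (Fin (m + 1)) × (ℝ × ℝ) => z.2.2 :=
      continuous_snd.comp continuous_snd
    refine IsClosed.inter (isClosed_le c3 c4) (IsClosed.inter ?_ ?_)
    · exact isClosed_eq c1 (hω.comp c3)
    · exact isClosed_eq c2 (hω.comp c4).neg
  have h2 := h1.image (continuous_snd :
    Continuous (Prod.snd : EuclideanSpace ℝ (Fin (m + 1)) × (ℝ × ℝ) → ℝ × ℝ))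
  convert h2 using 1
  ext ⟨s, e⟩
  constructor
  · rintro ⟨x, hx, hs, he, hse, h3, h4⟩
    exact ⟨(x, (s, e)), ⟨⟨hx, hs, he⟩, hse, h3, h4⟩, rfl⟩
  · rintro ⟨⟨x, ⟨s', e'⟩⟩, ⟨⟨hx, hs, he⟩, hse, h3, h4⟩, h5⟩
    simp only [Prod.mk.injEq] at h5
    obtain ⟨rfl, rfl⟩ := h5
    exact ⟨x, hx, hs, he, hse, h3, h4⟩

/-- **Piercing.** All pairs of opposite contacts in one period, starting at a suitable point,
are pierced by `m` points. -/
theorem exists_pierce_form (hω : Continuous ω) (hper : Function.Periodic ω Real.pi)
    (hpos : ∀ t, 0 < ω t) (hsl : FormSlope m ω) (hm : 1 ≤ m) :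
    ∃ (a : ℝ) (Z : Finset ℝ), Z.card ≤ m ∧
      ∀ s e, BadF m ω a (a + Real.pi) s e → ∃ z ∈ Z, s < z ∧ z < e := by
  obtain ⟨k, rfl⟩ : ∃ k, m = k + 1 := ⟨m - 1, by omega⟩
  obtain ⟨P, hP, hP0, c, σ, hG⟩ := exists_snake_form hω hper hpos k
  have hcpos : ∀ i ≤ k, 0 < c i ∧ c i < Real.pi := by
    intro i hi
    have h1 := hG.mem i hi
    have h2 := hG.val i hi
    have h3 := hpos (c i)
    have h4 := sgn_pow hG.sgn i
    constructor
    · rcases h1.1.lt_or_eq with h | h
      · exact h
      · exfalso
        rw [← h, fv_zero, hP0] at h2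
        rw [← h] at h3
        rcases h4 with h4 | h4 <;> rw [h4] at h2 <;> linarith
    · rcases h1.2.lt_or_eq with h | h
      · linarith
      · exfalso
        rw [h, zero_add, fv_pi, hP0, mul_zero] at h2
        rw [h, zero_add] at h3
        rcases h4 with h4 | h4 <;> rw [h4] at h2 <;> linarith
  have hclt := lt_of_succ hG.mono
  set c' : ℕ → ℝ := fun i => if i ≤ k then c i else c 0 + Real.pi with hc'
  have hc'le : ∀ i ≤ k, c' i = c i := fun i hi => by rw [hc']; simp only [if_pos hi]
  have hc'0 : c' 0 = c 0 := hc'le 0 (Nat.zero_le _)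
  have hc'm : c' (k + 1) = c 0 + Real.pi := by
    rw [hc']; simp only [if_neg (show ¬ k + 1 ≤ k by omega)]
  have hmono' : ∀ i < k + 1, c' i < c' (i + 1) := by
    intro i hi
    rcases Nat.lt_or_ge i k with h | h
    · rw [hc'le i (by omega), hc'le (i + 1) (by omega)]; exact hG.mono i h
    · have : i = k := by omega
      subst this
      rw [hc'm, hc'le i le_rfl]
      linarith [(hcpos i le_rfl).2, (hcpos 0 (Nat.zero_le _)).1]
  have hval' : ∀ i ≤ k + 1, fv P (c' i) = σ * (-1) ^ i * ω (c' i) := by
    intro i hi
    rcases Nat.lt_or_ge i (k + 1) with h | h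
    · rw [hc'le i (by omega)]; exact hG.val i (by omega)
    · have : i = k + 1 := by omega
      subst this
      rw [hc'm, fv_add_pi, hper (c 0), hG.val 0 (Nat.zero_le _)]
      ring
  have hgap' : ∀ i < k + 1, ∀ t ∈ Ico (c' i) (c' (i + 1)),
      fv P t ≠ σ * (-1) ^ (i + 1) * ω t := by
    intro i hi t ht
    rcases Nat.lt_or_ge i k with h | h
    · rw [hc'le i (by omega), hc'le (i + 1) (by omega)] at ht
      exact hG.gap i h t ht
    · have : i = k := by omega
      subst this
      rw [hc'm, hc'le i le_rfl] at ht
      intro hcon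
      have hcontact : |fv P t| = ω t := by
        rw [hcon, abs_mul]
        rcases sgn_pow hG.sgn (i + 1) with h3 | h3 <;>
          simp [h3, abs_of_pos (hpos t)]
      have hσ0 : σ ≠ 0 := by rcases hG.sgn with h | h <;> rw [h] <;> norm_num
      rcases lt_or_ge t Real.pi with h3 | h3
      · -- too many alternations in `(0, π)`
        have hne : c i ≠ t := by
          intro h4
          have h5 := hG.val i le_rfl
          rw [h4, hcon] at h5
          have h6 := hpos t
          have h7 : σ * (-1) ^ (i + 1) = -(σ * (-1) ^ i) := by ring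
          rw [h7] at h5
          rcases sgn_pow hG.sgn i with h8 | h8 <;> rw [h8] at h5 <;> linarith
        have hlt : c i < t := lt_of_le_of_ne ht.1 hne
        have hy := weak_alt_form (IsForm.of_fv P)
          (y := fun l => if l = 0 then 0 else if l ≤ i + 1 then c (l - 1) else t) (ρ := -σ)
          (neg_ne_zero.mpr hσ0)
          (by
            intro l hl
            by_cases h4 : l = 0
            · rw [if_pos h4, if_neg (by omega), if_pos (by omega)]
              exact (hcpos _ (by omega)).1
            · rw [if_neg h4, if_pos (show l ≤ i + 1 by omega), if_neg (show l + 1 ≠ 0 by omega)]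
              by_cases h5 : l + 1 ≤ i + 1
              · rw [if_pos h5]
                exact hclt _ _ (by omega) (by omega)
              · rw [if_neg h5]
                have : l - 1 = i := by omega
                rw [this]; exact hlt)
          (by
            simp only
            rw [if_neg (by omega), if_neg (by omega), if_pos trivial]
            linarith)
          (by
            intro l hl
            by_cases h4 : l = 0
            · rw [if_pos h4, fv_zero, hP0, mul_zero]
            · rw [if_neg h4]
              by_cases h5 : l ≤ i + 1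
              · rw [if_pos h5, hG.val (l - 1) (by omega)]
                obtain ⟨u, rfl⟩ : ∃ u, l = u + 1 := ⟨l - 1, by omega⟩
                rw [Nat.add_sub_cancel]
                have h6 : -σ * (-1) ^ (u + 1) * (σ * (-1) ^ u * ω (c u)) =
                  (σ * σ) * ((-1) ^ u * (-1) ^ u) * ω (c u) := by ring
                have hσσ : σ * σ = 1 := by rcases hG.sgn with h | h <;> rw [h] <;> norm_num
                rw [h6, hσσ, ← mul_pow]
                simp only [mul_neg, mul_one, neg_neg, one_pow, one_mul]
                exact (hpos _).le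
              · rw [if_neg h5]
                have h7 : l = i + 2 := by omega
                rw [h7, hcon]
                have h6 : -σ * (-1) ^ (i + 2) * (σ * (-1) ^ (i + 1) * ω t) =
                  (σ * σ) * ((-1) ^ (i + 1) * (-1) ^ (i + 1)) * ω t := by ring
                have hσσ : σ * σ = 1 := by rcases hG.sgn with h | h <;> rw [h] <;> norm_num
                rw [h6, hσσ, ← mul_pow]
                simp only [mul_neg, mul_one, neg_neg, one_pow, one_mul]
                exact (hpos _).le)
          1 (by omega)
        rw [if_neg (by omega), if_pos (by omega)] at hy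
        have h8 := hG.val 0 (Nat.zero_le _)
        rw [show (1 : ℕ) - 1 = 0 from rfl] at hy
        have h9 : fv P (c 0) = 0 := hy
        rw [h9, pow_zero, mul_one] at h8
        have h10 := hpos (c 0)
        rcases hG.sgn with h | h <;> rw [h] at h8 <;> linarith
      · -- before the first contact
        have h4 := hG.first (t - Real.pi) ⟨by linarith, by linarith [ht.2]⟩
        apply h4
        have h5 := abs_fv_add_pi P (t - Real.pi)
        rw [sub_add_cancel] at h5
        have h6 := hper (t - Real.pi)
        rw [sub_add_cancel] at h6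
        rw [← h5, ← h6]
        exact hcontact
  obtain ⟨Z, hZ, hZ'⟩ := pierce_of_zones (isCompact_badF hω (k + 1) (c 0) (c 0 + Real.pi)) (k + 1)
    c' (by
      intro j hj s e ⟨x, hx, hs, he, hse, h3, h4⟩ h1 h2
      have hws := hpos s
      have hwe := hpos e
      have hlt : s < e := by
        refine lt_of_le_of_ne hse fun h => ?_
        subst h
        linarith
      have hneg : ∀ t, fv (-x) t = -fv x t := fun t => by
        have := fv_smul (-1) x t
        simpa using this
      rcases sgn_pow hG.sgn (j + 1) with h | h
      · refine no_bad_form hsl hm hG.sgn hP hmono' (by rw [hc'm, hc'0]) hval' hgap' hj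
          (p := -x) (fun t => by rw [hneg, abs_neg]; exact hx t) (by rw [hc'0]; exact hs.1) hlt
          (by rw [hc'm]; exact he.2) h1 h2 ?_ ?_
        · rw [h, hneg, h3]; ring
        · rw [h, hneg, h4]; ring
      · refine no_bad_form hsl hm hG.sgn hP hmono' (by rw [hc'm, hc'0]) hval' hgap' hj
          (p := x) hx (by rw [hc'0]; exact hs.1) hlt
          (by rw [hc'm]; exact he.2) h1 h2 ?_ ?_
        · rw [h, h3]; ring
        · rw [h, h4]; ring)
  exact ⟨c 0, Z, hZ, hZ'⟩

/-- The product of `sin (θ - z)` over `S`, times a nonnegative factor with zeros only at the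
seam, of the right degree. -/
theorem exists_filled' (S : Finset ℝ) (hS : S.card ≤ m) (a : ℝ) :
    ∃ x : EuclideanSpace ℝ (Fin (m + 1)), ∃ r : ℕ, (r = 0 ∨ (r = 1 ∧ Odd (m + S.card))) ∧
      ∀ θ, fv x θ = Real.sin (θ - a) ^ r * ∏ z ∈ S, Real.sin (θ - z) := by
  rcases Nat.even_or_odd (m - S.card) with h | h
  · obtain ⟨l, hl⟩ := h
    have h1 : IsForm m (fun θ => ∏ z ∈ S, Real.sin (θ - z)) := by
      have := (IsForm.prod S).add_even l
      have h2 : S.card + 2 * l = m := by omega
      rwa [h2] at this
    obtain ⟨x, hx⟩ := h1.exists_vec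
    exact ⟨x, 0, Or.inl rfl, fun θ => by rw [hx, pow_zero, one_mul]⟩
  · obtain ⟨l, hl⟩ := h
    have h1 : IsForm m (fun θ => Real.sin (θ - a) * ∏ z ∈ S, Real.sin (θ - z)) := by
      have := ((IsForm.prod S).sin_sub_mul a).add_even l
      have h2 : S.card + 1 + 2 * l = m := by omega
      rwa [h2] at this
    obtain ⟨x, hx⟩ := h1.exists_vec
    exact ⟨x, 1, Or.inr ⟨rfl, ⟨S.card + l, by omega⟩⟩, fun θ => by rw [hx, pow_one]⟩

/-- The illuminating directions. -/
theorem exists_directions_form (hω : Continuous ω) (hper : Function.Periodic ω Real.pi)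
    (hpos : ∀ t, 0 < ω t) (hsl : FormSlope m ω) (hm : 1 ≤ m) :
    ∃ D : Finset (EuclideanSpace ℝ (Fin (m + 1))),
      D.card ≤ 2 ^ (m + 1) ∧ ∀ x ∈ formBall m ω, ∃ u ∈ D, ∃ δ : ℝ, 0 < δ ∧
        x - δ • u ∈ interior (formBall m ω) := by
  classical
  obtain ⟨a, Z0, hZ0c, hZ0⟩ := exists_pierce_form hω hper hpos hsl hm
  set Z : Finset ℝ := Z0.filter (fun z => a < z ∧ z < a + Real.pi) with hZdef
  have hZc : Z.card ≤ m := (Finset.card_filter_le _ _).trans hZ0c
  have hZab : ∀ z ∈ Z, a < z ∧ z < a + Real.pi := fun z hz => (Finset.mem_filter.mp hz).2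
  have hZ : ∀ s e, BadF m ω a (a + Real.pi) s e → ∃ z ∈ Z, s < z ∧ z < e := by
    intro s e h
    obtain ⟨z, hz, h1, h2⟩ := hZ0 s e h
    obtain ⟨x, _, hs, he, _⟩ := h
    exact ⟨z, Finset.mem_filter.mpr ⟨hz, by linarith [hs.1], by linarith [he.2]⟩, h1, h2⟩
  have hfill : ∀ S ∈ Z.powerset, ∃ x : EuclideanSpace ℝ (Fin (m + 1)), ∃ r : ℕ,
      (r = 0 ∨ (r = 1 ∧ Odd (m + S.card))) ∧
      ∀ θ, fv x θ = Real.sin (θ - a) ^ r * ∏ z ∈ S, Real.sin (θ - z) := by
    intro S hS
    exact exists_filled' S ((Finset.card_le_card (Finset.mem_powerset.mp hS)).trans hZc) a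
  choose! Q r hr hQ using hfill
  refine ⟨(Z.powerset ×ˢ ({1, -1} : Finset ℝ)).image (fun q => q.2 • Q q.1), ?_, ?_⟩
  · refine Finset.card_image_le.trans ?_
    rw [Finset.card_product, Finset.card_powerset, pow_succ]
    have h1 : 2 ^ Z.card ≤ 2 ^ m := Nat.pow_le_pow_right (by norm_num) hZc
    have h2 : ({1, -1} : Finset ℝ).card ≤ 2 := Finset.card_le_two
    exact Nat.mul_le_mul h1 h2
  · intro x hx
    have hneg : ∀ t, fv (-x) t = -fv x t := fun t => by
      have := fv_smul (-1) x t
      simpa using this
    obtain ⟨S, hS, ε, hε, hSC⟩ := sign_pattern Z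
      {t | t ∈ Icc a (a + Real.pi) ∧ |fv x t| = ω t} (fv x)
      (by
        intro t ht h0
        have h1 := hpos t
        have h2 := ht.2
        rw [h0, abs_zero] at h2
        linarith)
      (by
        intro s hs e he hse hsg
        have hws := hpos s
        have hwe := hpos e
        rcases le_or_gt 0 (fv x s) with h0 | h0
        · have h1 : fv x s = ω s := by rw [← hs.2, abs_of_nonneg h0]
          have h2 : fv x e < 0 := by
            by_contra hcon
            have := mul_nonneg h0 (not_lt.mp hcon)
            linarith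
          have h3 : fv x e = -ω e := by rw [← he.2, abs_of_neg h2, neg_neg]
          exact hZ s e ⟨x, hx, hs.1, he.1, hse.le, h1, h3⟩
        · have h1 : fv x s = -ω s := by rw [← hs.2, abs_of_neg h0, neg_neg]
          have h2 : 0 < fv x e := by
            by_contra hcon
            have := mul_nonneg_of_nonpos_of_nonpos h0.le (not_lt.mp hcon)
            linarith
          have h3 : fv x e = ω e := by rw [← he.2, abs_of_pos h2]
          refine hZ s e ⟨-x, fun t => ?_, hs.1, he.1, hse.le, ?_, ?_⟩
          · rw [hneg, abs_neg]; exact hx t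
          · rw [hneg, h1, neg_neg]
          · rw [hneg, h3])
    have hSp : S ∈ Z.powerset := Finset.mem_powerset.mpr hS
    refine ⟨ε • Q S, ?_, ?_⟩
    · refine Finset.mem_image.mpr ⟨(S, ε), ?_, rfl⟩
      refine Finset.mem_product.mpr ⟨hSp, ?_⟩
      rcases hε with h | h <;> simp [h]
    · obtain ⟨δ, hδ, hδ'⟩ := contact hω (a := a) (b := a + Real.pi) (fun t _ => hpos t)
        (continuous_fv' x) (q := fv (ε • Q S)) (continuous_fv' _) (fun t _ => hx t) (by
        intro t ht h
        have h1 := hSC t ⟨ht, h⟩
        have h2 : ∏ z ∈ S, (t - z) ≠ 0 := fun h => by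
          rw [h, mul_zero, zero_mul] at h1; exact lt_irrefl _ h1
        have h3 := prod_sin_sign (a := a) S (fun z hz => hZab z (hS hz)) ht h2
        have h5 : 0 < (∏ z ∈ S, (t - z)) ^ 2 *
            (ε * (∏ z ∈ S, Real.sin (t - z)) * fv x t) := by
          have h6 := mul_pos h1 h3
          have h7 : ε * (∏ z ∈ S, (t - z)) * fv x t *
              ((∏ z ∈ S, (t - z)) * ∏ z ∈ S, Real.sin (t - z)) =
              (∏ z ∈ S, (t - z)) ^ 2 * (ε * (∏ z ∈ S, Real.sin (t - z)) * fv x t) := by ring
          rwa [h7] at h6
        have h8 : 0 < ε * (∏ z ∈ S, Real.sin (t - z)) * fv x t :=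
          (mul_pos_iff_of_pos_left (by positivity)).mp h5
        rw [fv_smul, hQ S hSp t]
        have h9 : ε * (Real.sin (t - a) ^ r S * ∏ z ∈ S, Real.sin (t - z)) * fv x t =
          Real.sin (t - a) ^ r S * (ε * (∏ z ∈ S, Real.sin (t - z)) * fv x t) := by ring
        rw [h9]
        refine mul_pos ?_ h8
        rcases hr S hSp with h10 | ⟨h10, h11⟩
        · rw [h10, pow_zero]; exact one_pos
        · rw [h10, pow_one]
          -- `t` is not at the seam
          have hseam : ¬ (|fv x a| = ω a) := by
            intro h12
            have h13 : |fv x (a + Real.pi)| = ω (a + Real.pi) := by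
              rw [abs_fv_add_pi, h12, hper a]
            have e1 := hSC a ⟨⟨le_rfl, by linarith [Real.pi_pos]⟩, h12⟩
            have e2 := hSC (a + Real.pi) ⟨⟨by linarith [Real.pi_pos], le_rfl⟩, h13⟩
            have e3 : 0 < ∏ z ∈ S, (a + Real.pi - z) := Finset.prod_pos fun z hz => by
              linarith [(hZab z (hS hz)).2]
            have e4 : ∏ z ∈ S, (a - z) = (-1) ^ S.card * ∏ z ∈ S, (z - a) := by
              rw [← Finset.prod_const, ← Finset.prod_mul_distrib]
              exact Finset.prod_congr rfl fun z _ => by ring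
            have e5 : 0 < ∏ z ∈ S, (z - a) := Finset.prod_pos fun z hz => by
              linarith [(hZab z (hS hz)).1]
            rw [fv_add_pi] at e2
            rw [e4] at e1
            have e6 := mul_pos e1 e2
            have e7 : ε * ((-1) ^ S.card * ∏ z ∈ S, (z - a)) * fv x a *
                (ε * (∏ z ∈ S, (a + Real.pi - z)) * ((-1) ^ m * fv x a)) =
                (-1) ^ (m + S.card) * ((∏ z ∈ S, (z - a)) * (∏ z ∈ S, (a + Real.pi - z)) *
                (ε * fv x a) ^ 2) := by
              rw [pow_add]; ring
            rw [e7, h11.neg_one_pow] at e6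
            have e8 : 0 ≤ (∏ z ∈ S, (z - a)) * (∏ z ∈ S, (a + Real.pi - z)) *
                (ε * fv x a) ^ 2 := by positivity
            linarith
          have hta : a < t := by
            rcases ht.1.lt_or_eq with h14 | h14
            · exact h14
            · rw [← h14] at h; exact absurd h hseam
          have htb : t < a + Real.pi := by
            rcases ht.2.lt_or_eq with h14 | h14
            · exact h14
            · rw [h14, abs_fv_add_pi, hper a] at h; exact absurd h hseam
          exact Real.sin_pos_of_pos_of_lt_pi (by linarith) (by linarith))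
      refine ⟨δ, hδ, strictFormBall_subset hω hper ?_⟩
      refine all_of_period hper (x - δ • (ε • Q S)) (fun u v => u < v) (a := a)
        (fun θ hθ => ?_)
      rw [fv_sub, fv_smul]
      exact hδ' θ hθ

/-- The covering theorem for unit balls of spaces of binary forms. -/
theorem cover_form (hω : Continuous ω) (hper : Function.Periodic ω Real.pi)
    (hpos : ∀ t, 0 < ω t) (hsl : FormSlope m ω) (hm : 1 ≤ m) :
    IsCompact (formBall m ω) ∧ Convex ℝ (formBall m ω) ∧ (interior (formBall m ω)).Nonempty ∧
    ∃ T : Finset (EuclideanSpace ℝ (Fin (m + 1))), T.card ≤ 2 ^ (m + 1) ∧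
      formBall m ω ⊆ ⋃ t ∈ T, (fun x => t + x) '' interior (formBall m ω) := by
  obtain ⟨D, hD, hD'⟩ := exists_directions_form hω hper hpos hsl hm
  obtain ⟨T, hT, hT'⟩ := cover_of_illum isCompact_formBall convex_formBall D hD'
  exact ⟨isCompact_formBall, convex_formBall,
    ⟨0, strictFormBall_subset hω hper (zero_mem_strictFormBall hpos)⟩, T, hT.trans hD, hT'⟩

end Pool.Agent.H283.Cheb
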