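import Mathlib
import Pool.Agent.H283.Cheb.FormCover

/-!
Snakes: forms with the maximal number of alternating contacts.
-/

namespace Pool.Agent.H283.Cheb

open Polynomial Set Filter Topology

variable {m : ℕ} {ω : ℝ → ℝ}

/-- **Sign patterns.** If all pairs of points of `C` at which `f` has opposite signs are
separated strictly by points of the finite set `Z`, then the sign of `f` on `C` is the sign of
`± ∏ (t - z)`, `z` running over some subset `S` of `Z`; the function `f` changes its sign
`S.card` times on `C`. -/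
theorem sign_pattern_alt (Z : Finset ℝ) : ∀ (C : Set ℝ) (f : ℝ → ℝ), (∀ t ∈ C, f t ≠ 0) →
    (∀ s ∈ C, ∀ e ∈ C, s < e → f s * f e < 0 → ∃ z ∈ Z, s < z ∧ z < e) →
    ∃ S ⊆ Z, ∃ ε : ℝ, (ε = 1 ∨ ε = -1) ∧ (∀ t ∈ C, 0 < ε * (∏ z ∈ S, (t - z)) * f t) ∧
      (C = ∅ → S = ∅) ∧ (C.Nonempty → ∃ t : ℕ → ℝ, (∀ i ≤ S.card, t i ∈ C) ∧
        (∀ i < S.card, t i < t (i + 1)) ∧ (∀ i < S.card, f (t i) * f (t (i + 1)) < 0) ∧
        ∀ z ∈ S, z < t S.card) := by
  classical
  induction Z using Finset.induction_on_max with
  | empty =>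
    intro C f hf h
    have hcon : ∀ S : Finset ℝ, S = ∅ → (C = ∅ → S = ∅) ∧ (C.Nonempty → ∃ t : ℕ → ℝ,
        (∀ i ≤ S.card, t i ∈ C) ∧
        (∀ i < S.card, t i < t (i + 1)) ∧ (∀ i < S.card, f (t i) * f (t (i + 1)) < 0) ∧
        ∀ z ∈ S, z < t S.card) := by
      rintro S rfl
      refine ⟨fun _ => rfl, fun ⟨t0, ht0⟩ => ⟨fun _ => t0, fun _ _ => ht0, ?_, ?_, by simp⟩⟩
      · intro i hi; simp at hi
      · intro i hi; simp at hi
    by_cases hpos : ∀ t ∈ C, 0 < f t
    · exact ⟨∅, by simp, 1, Or.inl rfl, fun t ht => by simpa using hpos t ht, hcon ∅ rfl⟩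
    · push Not at hpos
      obtain ⟨t0, ht0, hle⟩ := hpos
      have hlt : f t0 < 0 := lt_of_le_of_ne hle (hf t0 ht0)
      refine ⟨∅, by simp, -1, Or.inr rfl, fun t ht => ?_, hcon ∅ rfl⟩
      simp only [Finset.prod_empty, mul_one, neg_mul, one_mul, Left.neg_pos_iff]
      by_contra hcon
      have hgt : 0 < f t := lt_of_le_of_ne (not_lt.mp hcon) (hf t ht).symm
      rcases lt_trichotomy t t0 with h1 | h1 | h1
      · obtain ⟨z, hz, _⟩ := h t ht t0 ht0 h1 (mul_neg_of_pos_of_neg hgt hlt)
        simp at hz
      · rw [h1] at hgt; linarith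
      · obtain ⟨z, hz, _⟩ := h t0 ht0 t ht h1 (mul_neg_of_neg_of_pos hlt hgt)
        simp at hz
  | insert m Z hm ih =>
    intro C f hf h
    have hnot : ∀ s ∈ C, ∀ e ∈ C, m ≤ s → s < e → ¬ f s * f e < 0 := by
      intro s hs e he hms hse hsg
      obtain ⟨z, hz, hz1, hz2⟩ := h s hs e he hse hsg
      rcases Finset.mem_insert.mp hz with h1 | h1
      · rw [h1] at hz1; linarith
      · linarith [hm z h1]
    by_cases hemp : {t | t ∈ C ∧ t ≤ m} = (∅ : Set ℝ)
    · have hgt : ∀ t ∈ C, m < t := by
        intro t ht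
        by_contra hcon
        have : t ∈ ({t | t ∈ C ∧ t ≤ m} : Set ℝ) := ⟨ht, not_lt.mp hcon⟩
        rw [hemp] at this
        exact this
      have hcon : ∀ S : Finset ℝ, S = ∅ → (C = ∅ → S = ∅) ∧ (C.Nonempty → ∃ t : ℕ → ℝ,
          (∀ i ≤ S.card, t i ∈ C) ∧
          (∀ i < S.card, t i < t (i + 1)) ∧ (∀ i < S.card, f (t i) * f (t (i + 1)) < 0) ∧
          ∀ z ∈ S, z < t S.card) := by
        rintro S rfl
        refine ⟨fun _ => rfl, fun ⟨t0, ht0⟩ => ⟨fun _ => t0, fun _ _ => ht0, ?_, ?_, by simp⟩⟩
        · intro i hi; simp at hi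
        · intro i hi; simp at hi
      by_cases hpos : ∀ t ∈ C, 0 < f t
      · exact ⟨∅, by simp, 1, Or.inl rfl, fun t ht => by simpa using hpos t ht, hcon ∅ rfl⟩
      · push Not at hpos
        obtain ⟨t0, ht0, hle⟩ := hpos
        have hlt : f t0 < 0 := lt_of_le_of_ne hle (hf t0 ht0)
        refine ⟨∅, by simp, -1, Or.inr rfl, fun t ht => ?_, hcon ∅ rfl⟩
        simp only [Finset.prod_empty, mul_one, neg_mul, one_mul, Left.neg_pos_iff]
        by_contra hcon
        have hgt' : 0 < f t := lt_of_le_of_ne (not_lt.mp hcon) (hf t ht).symm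
        rcases lt_trichotomy t t0 with h1 | h1 | h1
        · exact hnot t ht t0 ht0 (hgt t ht).le h1 (mul_neg_of_pos_of_neg hgt' hlt)
        · rw [h1] at hgt'; linarith
        · exact hnot t0 ht0 t ht (hgt t0 ht0).le h1 (mul_neg_of_neg_of_pos hlt hgt')
    · have hne : ({t | t ∈ C ∧ t ≤ m} : Set ℝ).Nonempty := nonempty_iff_ne_empty.mpr hemp
      obtain ⟨S, hS, ε, hε, hSC, _, hSt⟩ := ih {t | t ∈ C ∧ t ≤ m} f (fun t ht => hf t ht.1) (by
        intro s hs e he hse hsg
        obtain ⟨z, hz, hz1, hz2⟩ := h s hs.1 e he.1 hse hsg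
        rcases Finset.mem_insert.mp hz with h1 | h1
        · have := he.2
          rw [h1] at hz2; linarith
        · exact ⟨z, h1, hz1, hz2⟩)
      obtain ⟨y, hy1, hy2, hy3, hy4⟩ := hSt hne
      have hCne : C ≠ ∅ := by
        rintro rfl
        obtain ⟨t, ht⟩ := hne
        exact ht.1
      have hmS : m ∉ S := fun h1 => lt_irrefl m (hm m (hS h1))
      have hprodpos : ∀ t, m ≤ t → 0 < ∏ z ∈ S, (t - z) := fun t ht =>
        Finset.prod_pos fun z hz => by linarith [hm z (hS hz)]
      have hεε : ε * ε = 1 := by rcases hε with h | h <;> rw [h] <;> norm_num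
      by_cases hcase : ∀ t ∈ C, m < t → 0 < ε * f t
      · refine ⟨S, hS.trans (Finset.subset_insert _ _), ε, hε, fun t ht => ?_,
          fun h => absurd h hCne, fun _ => ⟨y, fun i hi => (hy1 i hi).1, hy2, hy3, hy4⟩⟩
        rcases le_or_gt t m with h1 | h1
        · exact hSC t ⟨ht, h1⟩
        · have h2 := mul_pos (hprodpos t h1.le) (hcase t ht h1)
          have h3 : ε * (∏ z ∈ S, (t - z)) * f t = (∏ z ∈ S, (t - z)) * (ε * f t) := by ring
          rw [h3]; exact h2
      · push Not at hcase
        obtain ⟨e, he, hme, hle⟩ := hcase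
        have hlt : ε * f e < 0 := by
          refine lt_of_le_of_ne hle fun h1 => ?_
          rcases mul_eq_zero.mp h1 with h2 | h2
          · rw [h2] at hεε; norm_num at hεε
          · exact hf e he h2
        have hallneg : ∀ t ∈ C, m ≤ t → ε * f t < 0 := by
          intro t ht hmt
          by_contra hcon
          have h1 : 0 < ε * f t := by
            refine lt_of_le_of_ne (not_lt.mp hcon) fun h1 => ?_
            rcases mul_eq_zero.mp h1.symm with h2 | h2
            · rw [h2] at hεε; norm_num at hεε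
            · exact hf t ht h2
          have h2 : f t * f e < 0 := by
            have h3 := mul_neg_of_pos_of_neg h1 hlt
            have h4 : ε * f t * (ε * f e) = (ε * ε) * (f t * f e) := by ring
            rwa [h4, hεε, one_mul] at h3
          rcases lt_trichotomy t e with h3 | h3 | h3
          · exact hnot t ht e he hmt h3 h2
          · rw [h3] at h1; linarith
          · exact hnot e he t ht hme.le h3 (by rwa [mul_comm] at h2)
        have hyk := hy1 S.card le_rfl
        have hyε : 0 < ε * f (y S.card) := by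
          have h2 := hSC _ hyk
          have h4 : ε * (∏ z ∈ S, (y S.card - z)) * f (y S.card) =
            (∏ z ∈ S, (y S.card - z)) * (ε * f (y S.card)) := by ring
          rw [h4] at h2
          exact (mul_pos_iff_of_pos_left (Finset.prod_pos fun z hz => by
            linarith [hy4 z hz])).mp h2
        refine ⟨insert m S, Finset.insert_subset_insert _ hS, -ε, ?_, fun t ht => ?_,
          fun h => absurd h hCne, fun _ => ⟨fun i => if i ≤ S.card then y i else e, ?_, ?_, ?_, ?_⟩⟩
        · rcases hε with h | h <;> rw [h] <;> norm_num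
        · rw [Finset.prod_insert hmS]
          rcases lt_trichotomy t m with h1 | h1 | h1
          · have h2 := hSC t ⟨ht, h1.le⟩
            have h3 : -ε * ((t - m) * ∏ z ∈ S, (t - z)) * f t =
                (m - t) * (ε * (∏ z ∈ S, (t - z)) * f t) := by ring
            rw [h3]
            exact mul_pos (by linarith) h2
          · exfalso
            have h2 := hSC t ⟨ht, h1.le⟩
            have h3 := hallneg t ht h1.ge
            have h4 : ε * (∏ z ∈ S, (t - z)) * f t = (∏ z ∈ S, (t - z)) * (ε * f t) := by ring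
            rw [h4] at h2
            have h5 := mul_neg_of_pos_of_neg (hprodpos t h1.ge) h3
            linarith
          · have h3 := hallneg t ht h1.le
            have h4 : -ε * ((t - m) * ∏ z ∈ S, (t - z)) * f t =
                (t - m) * (∏ z ∈ S, (t - z)) * (-(ε * f t)) := by ring
            rw [h4]
            exact mul_pos (mul_pos (by linarith) (hprodpos t h1.le)) (by linarith)
        · intro i _
          by_cases h1 : i ≤ S.card
          · simp only [if_pos h1]; exact (hy1 i h1).1
          · simp only [if_neg h1]; exact he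
        · intro i hi
          rw [Finset.card_insert_of_notMem hmS] at hi
          by_cases h1 : i < S.card
          · simp only [if_pos h1.le, if_pos (show i + 1 ≤ S.card by omega)]; exact hy2 i h1
          · have h2 : i = S.card := by omega
            simp only [if_pos h2.le, if_neg (show ¬ i + 1 ≤ S.card by omega)]
            rw [h2]
            linarith [hyk.2]
        · intro i hi
          rw [Finset.card_insert_of_notMem hmS] at hi
          by_cases h1 : i < S.card
          · simp only [if_pos h1.le, if_pos (show i + 1 ≤ S.card by omega)]; exact hy3 i h1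
          · have h2 : i = S.card := by omega
            simp only [if_pos h2.le, if_neg (show ¬ i + 1 ≤ S.card by omega)]
            rw [h2]
            have h3 := mul_neg_of_pos_of_neg hyε hlt
            have h4 : ε * f (y S.card) * (ε * f e) = (ε * ε) * (f (y S.card) * f e) := by ring
            rwa [h4, hεε, one_mul] at h3
        · intro z hz
          rw [Finset.card_insert_of_notMem hmS]
          simp only [if_neg (show ¬ S.card + 1 ≤ S.card by omega)]
          rcases Finset.mem_insert.mp hz with h1 | h1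
          · rw [h1]; exact hme
          · linarith [hm z (hS h1)]

/-- Alternating signs. -/
theorem alt_signs {f g : ℝ → ℝ} {t : ℕ → ℝ} {k : ℕ} (hg : ∀ i ≤ k, 0 < g (t i))
    (habs : ∀ i ≤ k, |f (t i)| = g (t i)) (hs : ∀ i < k, f (t i) * f (t (i + 1)) < 0) :
    ∃ r : ℝ, (r = 1 ∨ r = -1) ∧ ∀ i ≤ k, f (t i) = r * (-1) ^ i * g (t i) := by
  have hmain : ∀ r : ℝ, (r = 1 ∨ r = -1) → f (t 0) = r * g (t 0) →
      ∀ i ≤ k, f (t i) = r * (-1) ^ i * g (t i) := by
    intro r hr h0 i
    induction i with
    | zero => intro _; rw [h0, pow_zero, mul_one]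
    | succ i ih =>
      intro hi
      have h1 := ih (by omega)
      have h2 := hs i (by omega)
      have h3 := hg i (by omega)
      have h4 := hg (i + 1) hi
      have h5 := habs (i + 1) hi
      have h6 : f (t (i + 1)) ≠ r * (-1) ^ i * g (t (i + 1)) := by
        intro h7
        rw [h1, h7] at h2
        have h8 : r * (-1) ^ i * g (t i) * (r * (-1) ^ i * g (t (i + 1))) =
          (r * (-1) ^ i) ^ 2 * (g (t i) * g (t (i + 1))) := by ring
        rw [h8] at h2
        have h9 : 0 ≤ (r * (-1) ^ i) ^ 2 * (g (t i) * g (t (i + 1))) := by positivity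
        linarith
      have h7 := contact_sign (sgn_pow hr i) h5 h6
      rw [h7]; ring
  rcases le_total 0 (f (t 0)) with h | h
  · refine ⟨1, Or.inl rfl, hmain 1 (Or.inl rfl) ?_⟩
    rw [one_mul, ← habs 0 (Nat.zero_le _), abs_of_nonneg h]
  · refine ⟨-1, Or.inr rfl, hmain (-1) (Or.inr rfl) ?_⟩
    rw [← habs 0 (Nat.zero_le _), abs_of_nonpos h]; ring

/-- **Vanishing from a double zero and two opposite alternations.** -/
theorem double_alt_form {F : ℝ → ℝ} (hF : IsForm m F) (hFc : Continuous F) {ρ s : ℝ}
    (hρ : ρ ≠ 0) (h0 : F s = 0) (h1 : HasDerivAt F 0 s) {y z : ℕ → ℝ}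
    (hys : ∀ i, 1 ≤ i → i < m → s < y i ∧ y i < s + Real.pi)
    (hzs : ∀ i, 1 ≤ i → i < m → s < z i ∧ z i < s + Real.pi)
    (hy : ∀ i, 1 ≤ i → i + 1 < m → y i < y (i + 1))
    (hz : ∀ i, 1 ≤ i → i + 1 < m → z i < z (i + 1))
    (hyF : ∀ i, 1 ≤ i → i < m → 0 ≤ ρ * (-1) ^ i * F (y i))
    (hzF : ∀ i, 1 ≤ i → i < m → 0 ≤ -ρ * (-1) ^ i * F (z i)) : ∀ θ, F θ = 0 := by
  -- a common base point
  obtain ⟨α, hα1, hα2, hyα, hzα⟩ : ∃ α, α < s ∧ s < α + Real.pi ∧
      (∀ i, 1 ≤ i → i < m → y i < α + Real.pi) ∧ (∀ i, 1 ≤ i → i < m → z i < α + Real.pi) := by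
    have hev : ∀ᶠ α in 𝓝[<] s, α < s ∧ s < α + Real.pi ∧
        (∀ i ∈ Finset.Ico 1 m, y i < α + Real.pi) ∧
        (∀ i ∈ Finset.Ico 1 m, z i < α + Real.pi) := by
      have e1 : ∀ᶠ α in 𝓝[<] s, α < s := self_mem_nhdsWithin
      have e2 : ∀ u, u < s + Real.pi → ∀ᶠ α in 𝓝[<] s, u < α + Real.pi := by
        intro u hu
        refine Filter.Eventually.filter_mono nhdsWithin_le_nhds ?_
        exact (isOpen_lt continuous_const (continuous_id.add continuous_const)).mem_nhds hu
      refine e1.and ((e2 s (by linarith [Real.pi_pos])).and ?_)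
      refine ((Finset.eventually_all _).mpr fun i hi => ?_).and
        ((Finset.eventually_all _).mpr fun i hi => ?_)
      · exact e2 _ (hys i (Finset.mem_Ico.mp hi).1 (Finset.mem_Ico.mp hi).2).2
      · exact e2 _ (hzs i (Finset.mem_Ico.mp hi).1 (Finset.mem_Ico.mp hi).2).2
    obtain ⟨α, h1, h2, h3, h4⟩ := hev.exists
    exact ⟨α, h1, h2, fun i h5 h6 => h3 i (Finset.mem_Ico.mpr ⟨h5, h6⟩),
      fun i h5 h6 => h4 i (Finset.mem_Ico.mpr ⟨h5, h6⟩)⟩
  obtain ⟨p, hpd, hp⟩ := hF.exists_poly α
  have hssin : 0 < Real.sin (s - α) :=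
    Real.sin_pos_of_pos_of_lt_pi (by linarith) (by linarith)
  obtain ⟨e0, e1⟩ := double_root_form hp hssin.ne' h0 h1
  set us := -Real.cos (s - α) / Real.sin (s - α) with hus
  obtain ⟨g1, hg1⟩ := dvd_iff_isRoot.mpr (show IsRoot p us from e0)
  have e2 : g1.eval us = 0 := by
    rw [hg1] at e1
    simpa using e1
  obtain ⟨h, hh1⟩ := dvd_iff_isRoot.mpr (show IsRoot g1 us from e2)
  have hh : p = (X - C us) ^ 2 * h := by rw [hg1, hh1]; ring
  have hkey : h = 0 := by
    by_contra hh0
    have hdeg : p.natDegree = 2 + h.natDegree := by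
      rw [hh, natDegree_mul (pow_ne_zero _ (X_sub_C_ne_zero us)) hh0, natDegree_pow,
        natDegree_X_sub_C]
    have hm2 : 2 ≤ m := by omega
    have hgen : ∀ (κ : ℝ) (v : ℕ → ℝ), κ ≠ 0 → 0 ≤ κ * h.eval us →
        (∀ i, 1 ≤ i → i < m → s < v i) → (∀ i, 1 ≤ i → i < m → v i < α + Real.pi) →
        (∀ i, 1 ≤ i → i + 1 < m → v i < v (i + 1)) →
        (∀ i, 1 ≤ i → i < m → 0 ≤ κ * (-1) ^ i * F (v i)) → False := by
      intro κ v hκ hκh hv1 hv2 hv3 hv4
      have hz : C κ * h = 0 := by
        refine weak_alt (m - 2) _ (fun i => if i = 0 then us else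
          -Real.cos (v i - α) / Real.sin (v i - α)) ?_ ?_ ?_
        · exact (natDegree_C_mul_le _ _).trans (by omega)
        · intro i hi
          by_cases h3 : i = 0
          · rw [if_pos h3, if_neg (by omega), h3]
            exact neg_cot_lt (by linarith) (by linarith [hv1 (0 + 1) (by omega) (by omega)])
              (by linarith [hv2 (0 + 1) (by omega) (by omega)])
          · rw [if_neg h3, if_neg (by omega)]
            exact neg_cot_lt (by linarith [hv1 i (by omega) (by omega)])
              (by linarith [hv3 i (by omega) (by omega)])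
              (by linarith [hv2 (i + 1) (by omega) (by omega)])
        · intro i hi
          rw [eval_mul, eval_C]
          by_cases h3 : i = 0
          · rw [h3, if_pos rfl, pow_zero, one_mul]; exact hκh
          · rw [if_neg h3]
            have hi1 : 1 ≤ i := by omega
            have hi2 : i < m := by omega
            have h4 := hv4 i hi1 hi2
            have h5 := hv1 i hi1 hi2
            have h6 := hv2 i hi1 hi2
            have h7 : 0 < Real.sin (v i - α) :=
              Real.sin_pos_of_pos_of_lt_pi (by linarith) (by linarith)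
            have h8 : us < -Real.cos (v i - α) / Real.sin (v i - α) :=
              neg_cot_lt (by linarith) (by linarith) (by linarith)
            rw [hp (v i) h7.ne', hh] at h4
            set ui := -Real.cos (v i - α) / Real.sin (v i - α) with hui
            simp only [eval_mul, eval_pow, eval_sub, eval_X, eval_C] at h4
            have h9 : κ * (-1) ^ i * (Real.sin (v i - α) ^ m * ((ui - us) ^ 2 * h.eval ui)) =
              (Real.sin (v i - α) ^ m * (ui - us) ^ 2) * ((-1) ^ i * (κ * h.eval ui)) := by ring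
            rw [h9] at h4
            refine nonneg_of_mul_nonneg_right h4 ?_
            have h10 : 0 < ui - us := by linarith
            positivity
      rcases mul_eq_zero.mp hz with h' | h'
      · exact hκ (C_eq_zero.mp h')
      · exact hh0 h'
    rcases le_total 0 (ρ * h.eval us) with h3 | h3
    · exact hgen ρ y hρ h3 (fun i h4 h5 => (hys i h4 h5).1) hyα hy hyF
    · exact hgen (-ρ) z (neg_ne_zero.mpr hρ) (by linarith) (fun i h4 h5 => (hzs i h4 h5).1)
        hzα hz hzF
  have hdense : Dense {θ : ℝ | Real.sin (θ - α) ≠ 0} := by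
    have hc : (Set.range (fun n : ℤ => (n : ℝ) * Real.pi + α)).Countable := countable_range _
    refine (hc.dense_compl ℝ).mono ?_
    intro θ hθ hcon
    obtain ⟨n, hn⟩ := Real.sin_eq_zero_iff.mp hcon
    exact hθ ⟨n, by simp only; rw [hn]; ring⟩
  have heq : F = fun _ => (0 : ℝ) := by
    refine Continuous.ext_on hdense hFc continuous_const ?_
    intro θ hθ
    simp only
    rw [hp θ hθ, hh, hkey, mul_zero, eval_zero, mul_zero]
  intro θ
  rw [heq]

/-- **Rotation.** The alternating contacts of a form can be taken to start at a given contact. -/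
theorem rotate_contacts (hper : Function.Periodic ω Real.pi) (hpos : ∀ t, 0 < ω t) (hm : 1 ≤ m)
    {x : EuclideanSpace ℝ (Fin (m + 1))} {y : ℕ → ℝ} {r τ q : ℝ} (hr : r = 1 ∨ r = -1)
    (hy : ∀ i, i + 1 < m → y i < y (i + 1)) (hy' : y (m - 1) < y 0 + Real.pi)
    (hv : ∀ i < m, fv x (y i) = r * (-1) ^ i * ω (y i)) (hq : q = 1 ∨ q = -1)
    (hτ : fv x τ = q * ω τ) (h0 : y 0 ≤ τ) :
    ∃ z : ℕ → ℝ, (∀ i, 1 ≤ i → i < m → τ < z i ∧ z i < τ + Real.pi) ∧
      (∀ i, 1 ≤ i → i + 1 < m → z i < z (i + 1)) ∧
      ∀ i, 1 ≤ i → i < m → fv x (z i) = q * (-1) ^ i * ω (z i) := by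
  set Y : ℕ → ℝ := fun i => y (i % m) + (i / m : ℕ) * Real.pi with hY
  have hYv : ∀ a b, a < m → Y (a + m * b) = y a + b * Real.pi := by
    intro a b ha
    have := (Nat.div_mod_unique (b := m) (a := a + m * b) (d := b) (c := a) (by omega)).mpr
      ⟨rfl, ha⟩
    rw [hY]
    simp only
    rw [this.1, this.2]
  have hdec : ∀ i, ∃ a b, a < m ∧ i = a + m * b := fun i =>
    ⟨i % m, i / m, Nat.mod_lt _ (by omega), (Nat.mod_add_div i m).symm⟩
  have hYm : ∀ i, Y (i + m) = Y i + Real.pi := by
    intro i
    obtain ⟨a, b, ha, rfl⟩ := hdec i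
    have h1 : a + m * b + m = a + m * (b + 1) := by ring
    rw [h1, hYv a (b + 1) ha, hYv a b ha]
    push_cast; ring
  have hmono : StrictMono Y := by
    refine strictMono_nat_of_lt_succ fun i => ?_
    obtain ⟨a, b, ha, rfl⟩ := hdec i
    by_cases h1 : a + 1 < m
    · have h2 : a + m * b + 1 = (a + 1) + m * b := by ring
      rw [h2, hYv a b ha, hYv (a + 1) b h1]
      linarith [hy a h1]
    · have h2 : a = m - 1 := by omega
      have h3 : a + m * b + 1 = 0 + m * (b + 1) := by
        have : a + 1 = m := by omega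
        calc a + m * b + 1 = (a + 1) + m * b := by ring
          _ = m + m * b := by rw [this]
          _ = 0 + m * (b + 1) := by ring
      rw [h3, hYv a b ha, hYv 0 (b + 1) (by omega), h2]
      push_cast
      linarith
  have hshift : ∀ (θ : ℝ) (b : ℕ), fv x (θ + b * Real.pi) = (-1) ^ (m * b) * fv x θ ∧
      ω (θ + b * Real.pi) = ω θ := by
    intro θ b
    induction b with
    | zero => simp
    | succ b ih =>
      have h1 : θ + ((b + 1 : ℕ) : ℝ) * Real.pi = θ + b * Real.pi + Real.pi := by
        push_cast; ring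
      rw [h1, fv_add_pi, hper (θ + b * Real.pi), ih.1, ih.2]
      refine ⟨?_, rfl⟩
      have h2 : m * (b + 1) = m + m * b := by ring
      rw [h2, pow_add]; ring
  have hYf : ∀ i, fv x (Y i) = r * (-1) ^ i * ω (Y i) := by
    intro i
    obtain ⟨a, b, ha, rfl⟩ := hdec i
    rw [hYv a b ha, (hshift (y a) b).1, (hshift (y a) b).2, hv a ha, pow_add]
    ring
  have hY0 : Y 0 = y 0 := by
    have := hYv 0 0 (by omega)
    simpa using this
  have hex : ∃ i, τ < Y i := by
    obtain ⟨b, hb⟩ := exists_nat_gt ((τ - y 0) / Real.pi)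
    refine ⟨0 + m * b, ?_⟩
    rw [hYv 0 b (by omega)]
    have := (div_lt_iff₀ Real.pi_pos).mp hb
    linarith
  classical
  obtain ⟨j, hj1, hj2⟩ : ∃ j, Y j ≤ τ ∧ τ < Y (j + 1) := by
    have h1 := Nat.find_spec hex
    have h2 : Nat.find hex ≠ 0 := by
      intro h3
      rw [h3, hY0] at h1
      linarith
    refine ⟨Nat.find hex - 1, not_lt.mp (Nat.find_min hex (by omega)), ?_⟩
    rw [Nat.sub_add_cancel (by omega)]
    exact h1
  have hωτ := hpos τ
  have hqq : q * q = 1 := by rcases hq with h | h <;> rw [h] <;> norm_num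
  by_cases hcase : r * (-1) ^ j = q
  · refine ⟨fun i => Y (j + i), ?_, ?_, ?_⟩
    · intro i h1 h2
      have h3 : Y (j + 1) ≤ Y (j + i) := hmono.monotone (by omega)
      have h4 : Y (j + i) < Y (j + m) := hmono (by omega)
      rw [hYm j] at h4
      exact ⟨by linarith, by linarith⟩
    · intro i _ _
      exact hmono (by omega)
    · intro i _ _
      rw [hYf, pow_add, ← mul_assoc, hcase]
  · have hcase' : r * (-1) ^ (j + 1) = q := by
      have h1 : r * (-1) ^ (j + 1) = -(r * (-1) ^ j) := by ring
      rw [h1]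
      rcases hq with h | h <;> rcases sgn_pow hr j with h2 | h2 <;>
        rw [h2, h] at hcase <;> rw [h2, h] <;>
        first | exact absurd rfl hcase | norm_num
    have hj1' : Y j < τ := by
      refine lt_of_le_of_ne hj1 fun h1 => hcase ?_
      have h2 := hYf j
      rw [h1, hτ] at h2
      exact (mul_right_cancel₀ hωτ.ne' h2).symm
    refine ⟨fun i => Y (j + 1 + i), ?_, ?_, ?_⟩
    · intro i h1 h2
      have h3 : Y (j + 1) < Y (j + 1 + i) := hmono (by omega)
      have h4 : Y (j + 1 + i) ≤ Y (j + m) := hmono.monotone (by omega)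
      rw [hYm j] at h4
      exact ⟨by linarith, by linarith⟩
    · intro i _ _
      exact hmono (by omega)
    · intro i _ _
      rw [hYf, pow_add, ← mul_assoc, hcase']

/-- Two forms below `ω` which touch `ω` at the same point differ by a form with a double
zero there. -/
theorem double_of_contact (hsl : FormSlope m ω) {P p : EuclideanSpace ℝ (Fin (m + 1))}
    (hP : P ∈ formBall m ω) (hp : p ∈ formBall m ω) {r s : ℝ} (hr : r = 1 ∨ r = -1)
    (hPs : fv P s = r * ω s) (hps : fv p s = r * ω s) :
    fv (P - p) s = 0 ∧ HasDerivAt (fv (P - p)) 0 s := by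
  have hrr : r * r = 1 := by rcases hr with h | h <;> rw [h] <;> norm_num
  have hsmul : ∀ q : EuclideanSpace ℝ (Fin (m + 1)), fv (r • q) = fun t => r * fv q t := by
    intro q; funext t; exact fv_smul r q t
  have hdeq : deriv (fv (r • P)) s = deriv (fv (r • p)) s := by
    apply hsl s
    · rw [fv_smul, hPs, ← mul_assoc, hrr, one_mul]
    · rw [fv_smul, hps, ← mul_assoc, hrr, one_mul]
    · intro t
      rw [fv_smul]
      exact s_mul_le hr (hP t)
    · intro t
      rw [fv_smul]
      exact s_mul_le hr (hp t)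
  have hr0 : r ≠ 0 := by rcases hr with h | h <;> rw [h] <;> norm_num
  rw [hsmul, hsmul, deriv_const_mul_field, deriv_const_mul_field] at hdeq
  have hdeq' := mul_left_cancel₀ hr0 hdeq
  constructor
  · rw [fv_sub, hPs, hps, sub_self]
  · have e1 : fv (P - p) = fun t => fv P t - fv p t := by funext t; exact fv_sub P p t
    have e2 := ((differentiable_fv P) s).hasDerivAt.sub ((differentiable_fv p) s).hasDerivAt
    rw [hdeq', sub_self] at e2
    rw [e1]
    exact e2

/-- **Rigidity of snakes.** Two forms in the unit ball with `m` alternating contacts each, and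
which take the same value at a common contact, are equal. -/
theorem snake_rigid (hper : Function.Periodic ω Real.pi) (hpos : ∀ t, 0 < ω t)
    (hsl : FormSlope m ω) (hm : 1 ≤ m) {P p : EuclideanSpace ℝ (Fin (m + 1))}
    (hP : P ∈ formBall m ω) (hp : p ∈ formBall m ω) {τ q : ℝ} (hq : q = 1 ∨ q = -1)
    (hPτ : fv P τ = q * ω τ) (hpτ : fv p τ = q * ω τ)
    {y z : ℕ → ℝ} {r r' : ℝ} (hr : r = 1 ∨ r = -1) (hr' : r' = 1 ∨ r' = -1)
    (hy : ∀ i, i + 1 < m → y i < y (i + 1)) (hy' : y (m - 1) < y 0 + Real.pi)
    (hyP : ∀ i < m, fv P (y i) = r * (-1) ^ i * ω (y i)) (hy0 : y 0 ≤ τ)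
    (hz : ∀ i, i + 1 < m → z i < z (i + 1)) (hz' : z (m - 1) < z 0 + Real.pi)
    (hzp : ∀ i < m, fv p (z i) = r' * (-1) ^ i * ω (z i)) (hz0 : z 0 ≤ τ) :
    ∀ θ, fv P θ = fv p θ := by
  obtain ⟨y1, hy11, hy12, hy13⟩ := rotate_contacts hper hpos hm hr hy hy' hyP hq hPτ hy0
  obtain ⟨z1, hz11, hz12, hz13⟩ := rotate_contacts hper hpos hm hr' hz hz' hzp hq hpτ hz0
  obtain ⟨h0, h1⟩ := double_of_contact hsl hP hp hq hPτ hpτ
  have hq0 : q ≠ 0 := by rcases hq with h | h <;> rw [h] <;> norm_num
  have hall := double_alt_form (IsForm.of_fv (P - p)) (continuous_fv' _) hq0 h0 h1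
    hy11 hz11 hy12 hz12 (by
      intro i hi1 hi2
      have hs := sgn_pow hq i
      have hss : (q * (-1) ^ i) * (q * (-1) ^ i) = 1 := by
        rcases hs with h | h <;> rw [h] <;> norm_num
      have h3 := s_mul_le hs (hp (y1 i))
      rw [fv_sub, hy13 i hi1 hi2]
      have h4 : q * (-1) ^ i * (q * (-1) ^ i * ω (y1 i) - fv p (y1 i)) =
          ((q * (-1) ^ i) * (q * (-1) ^ i)) * ω (y1 i) - q * (-1) ^ i * fv p (y1 i) := by ring
      rw [h4, hss, one_mul]
      linarith) (by
      intro i hi1 hi2
      have hs := sgn_pow hq i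
      have hss : (q * (-1) ^ i) * (q * (-1) ^ i) = 1 := by
        rcases hs with h | h <;> rw [h] <;> norm_num
      have h3 := s_mul_le hs (hP (z1 i))
      rw [fv_sub, hz13 i hi1 hi2]
      have h4 : -q * (-1) ^ i * (fv P (z1 i) - q * (-1) ^ i * ω (z1 i)) =
          ((q * (-1) ^ i) * (q * (-1) ^ i)) * ω (z1 i) - q * (-1) ^ i * fv P (z1 i) := by ring
      rw [h4, hss, one_mul]
      linarith)
  intro θ
  have := hall θ
  rw [fv_sub] at this
  linarith

/-- **The reference snake.** -/
theorem exists_snake_form' (hω : Continuous ω) (hper : Function.Periodic ω Real.pi)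
    (hpos : ∀ t, 0 < ω t) (hm : 1 ≤ m) :
    ∃ P ∈ formBall m ω, ∃ (c : ℕ → ℝ) (σ : ℝ), (σ = 1 ∨ σ = -1) ∧
      (∀ i < m, c i < c (i + 1)) ∧ c m = c 0 + Real.pi ∧
      (∀ i ≤ m, fv P (c i) = σ * (-1) ^ i * ω (c i)) ∧
      (∀ i < m, ∀ t ∈ Ico (c i) (c (i + 1)), fv P t ≠ σ * (-1) ^ (i + 1) * ω t) := by
  obtain ⟨k, rfl⟩ : ∃ k, m = k + 1 := ⟨m - 1, by omega⟩
  obtain ⟨P, hP, hP0, c, σ, hG⟩ := exists_snake_form hω hper hpos k
  have hcpos : ∀ i ≤ k, 0 < c i ∧ c i < Real.pi := by
    intro i hi
    have h1 := hG.mem i hi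
    have h2 := hG.val i hi
    have h3 := hpos (c i)
    have h4 := sgn_pow hG.sgn i
    constructor
    · rcases h1.1.lt_or_eq with h | h
      · exact h
      · exfalso
        rw [← h, fv_zero, hP0] at h2
        rw [← h] at h3
        rcases h4 with h4 | h4 <;> rw [h4] at h2 <;> linarith
    · rcases h1.2.lt_or_eq with h | h
      · linarith
      · exfalso
        rw [h, zero_add, fv_pi, hP0, mul_zero] at h2
        rw [h, zero_add] at h3
        rcases h4 with h4 | h4 <;> rw [h4] at h2 <;> linarith
  have hclt := lt_of_succ hG.mono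
  set c' : ℕ → ℝ := fun i => if i ≤ k then c i else c 0 + Real.pi with hc'
  have hc'le : ∀ i ≤ k, c' i = c i := fun i hi => by rw [hc']; simp only [if_pos hi]
  have hc'0 : c' 0 = c 0 := hc'le 0 (Nat.zero_le _)
  have hc'm : c' (k + 1) = c 0 + Real.pi := by
    rw [hc']; simp only [if_neg (show ¬ k + 1 ≤ k by omega)]
  refine ⟨P, hP, c', σ, hG.sgn, ?_, by rw [hc'm, hc'0], ?_, ?_⟩
  · intro i hi
    rcases Nat.lt_or_ge i k with h | h
    · rw [hc'le i (by omega), hc'le (i + 1) (by omega)]; exact hG.mono i h
    · have : i = k := by omega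
      subst this
      rw [hc'm, hc'le i le_rfl]
      linarith [(hcpos i le_rfl).2, (hcpos 0 (Nat.zero_le _)).1]
  · intro i hi
    rcases Nat.lt_or_ge i (k + 1) with h | h
    · rw [hc'le i (by omega)]; exact hG.val i (by omega)
    · have : i = k + 1 := by omega
      subst this
      rw [hc'm, fv_add_pi, hper (c 0), hG.val 0 (Nat.zero_le _)]
      ring
  · intro i hi t ht
    rcases Nat.lt_or_ge i k with h | h
    · rw [hc'le i (by omega), hc'le (i + 1) (by omega)] at ht
      exact hG.gap i h t ht
    · have : i = k := by omega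
      subst this
      rw [hc'm, hc'le i le_rfl] at ht
      intro hcon
      have hcontact : |fv P t| = ω t := by
        rw [hcon, abs_mul]
        rcases sgn_pow hG.sgn (i + 1) with h3 | h3 <;>
          simp [h3, abs_of_pos (hpos t)]
      have hσ0 : σ ≠ 0 := by rcases hG.sgn with h | h <;> rw [h] <;> norm_num
      rcases lt_or_ge t Real.pi with h3 | h3
      · -- too many alternations in `(0, π)`
        have hne : c i ≠ t := by
          intro h4
          have h5 := hG.val i le_rfl
          rw [h4, hcon] at h5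
          have h6 := hpos t
          have h7 : σ * (-1) ^ (i + 1) = -(σ * (-1) ^ i) := by ring
          rw [h7] at h5
          rcases sgn_pow hG.sgn i with h8 | h8 <;> rw [h8] at h5 <;> linarith
        have hlt : c i < t := lt_of_le_of_ne ht.1 hne
        have hy := weak_alt_form (IsForm.of_fv P)
          (y := fun l => if l = 0 then 0 else if l ≤ i + 1 then c (l - 1) else t) (ρ := -σ)
          (neg_ne_zero.mpr hσ0)
          (by
            intro l hl
            by_cases h4 : l = 0
            · rw [if_pos h4, if_neg (by omega), if_pos (by omega)]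
              exact (hcpos _ (by omega)).1
            · rw [if_neg h4, if_pos (show l ≤ i + 1 by omega), if_neg (show l + 1 ≠ 0 by omega)]
              by_cases h5 : l + 1 ≤ i + 1
              · rw [if_pos h5]
                exact hclt _ _ (by omega) (by omega)
              · rw [if_neg h5]
                have : l - 1 = i := by omega
                rw [this]; exact hlt)
          (by
            simp only
            rw [if_neg (by omega), if_neg (by omega), if_pos trivial]
            linarith)
          (by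
            intro l hl
            by_cases h4 : l = 0
            · rw [if_pos h4, fv_zero, hP0, mul_zero]
            · rw [if_neg h4]
              by_cases h5 : l ≤ i + 1
              · rw [if_pos h5, hG.val (l - 1) (by omega)]
                obtain ⟨u, rfl⟩ : ∃ u, l = u + 1 := ⟨l - 1, by omega⟩
                rw [Nat.add_sub_cancel]
                have h6 : -σ * (-1) ^ (u + 1) * (σ * (-1) ^ u * ω (c u)) =
                  (σ * σ) * ((-1) ^ u * (-1) ^ u) * ω (c u) := by ring
                have hσσ : σ * σ = 1 := by rcases hG.sgn with h | h <;> rw [h] <;> norm_num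
                rw [h6, hσσ, ← mul_pow]
                simp only [mul_neg, mul_one, neg_neg, one_pow, one_mul]
                exact (hpos _).le
              · rw [if_neg h5]
                have h7 : l = i + 2 := by omega
                rw [h7, hcon]
                have h6 : -σ * (-1) ^ (i + 2) * (σ * (-1) ^ (i + 1) * ω t) =
                  (σ * σ) * ((-1) ^ (i + 1) * (-1) ^ (i + 1)) * ω t := by ring
                have hσσ : σ * σ = 1 := by rcases hG.sgn with h | h <;> rw [h] <;> norm_num
                rw [h6, hσσ, ← mul_pow]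
                simp only [mul_neg, mul_one, neg_neg, one_pow, one_mul]
                exact (hpos _).le)
          1 (by omega)
        rw [if_neg (by omega), if_pos (by omega)] at hy
        have h8 := hG.val 0 (Nat.zero_le _)
        rw [show (1 : ℕ) - 1 = 0 from rfl] at hy
        have h9 : fv P (c 0) = 0 := hy
        rw [h9, pow_zero, mul_one] at h8
        have h10 := hpos (c 0)
        rcases hG.sgn with h | h <;> rw [h] at h8 <;> linarith
      · -- before the first contact
        have h4 := hG.first (t - Real.pi) ⟨by linarith, by linarith [ht.2]⟩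
        apply h4
        have h5 := abs_fv_add_pi P (t - Real.pi)
        rw [sub_add_cancel] at h5
        have h6 := hper (t - Real.pi)
        rw [sub_add_cancel] at h6
        rw [← h5, ← h6]
        exact hcontact

end Pool.Agent.H283.Cheb
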