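import Mathlib
import Pool.Agent.H283.Cheb.Snakes

/-!
The sharper covering theorem for unit balls of spaces of binary forms.
-/

namespace Pool.Agent.H283.Cheb

open Polynomial Set Filter Topology

variable {m : ℕ} {ω : ℝ → ℝ}

/-- A direction with the signs of the form at its contacts points into the interior. -/
theorem illum_form (hω : Continuous ω) (hper : Function.Periodic ω Real.pi)
    (hpos : ∀ t, 0 < ω t) {x q : EuclideanSpace ℝ (Fin (m + 1))} (hx : x ∈ formBall m ω) (a : ℝ)
    (h : ∀ t ∈ Icc a (a + Real.pi), |fv x t| = ω t → 0 < fv q t * fv x t) :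
    ∃ δ : ℝ, 0 < δ ∧ x - δ • q ∈ interior (formBall m ω) := by
  obtain ⟨δ, hδ, hδ'⟩ := contact hω (a := a) (b := a + Real.pi) (fun t _ => hpos t)
    (continuous_fv' x) (q := fv q) (continuous_fv' _) (fun t _ => hx t) h
  refine ⟨δ, hδ, strictFormBall_subset hω hper ?_⟩
  refine all_of_period hper (x - δ • q) (fun u v => u < v) (a := a) (fun θ hθ => ?_)
  rw [fv_sub, fv_smul]
  exact hδ' θ hθ

/-- The contacts in one zone of the reference snake have the same sign. -/
theorem zone_sign (hsl : FormSlope m ω) (hpos : ∀ t, 0 < ω t)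
    {P : EuclideanSpace ℝ (Fin (m + 1))} {c : ℕ → ℝ} {σ : ℝ} (hm : 1 ≤ m)
    (hσ : σ = 1 ∨ σ = -1) (hP : P ∈ formBall m ω)
    (hmono : ∀ i < m, c i < c (i + 1)) (hcm : c m = c 0 + Real.pi)
    (hval : ∀ i ≤ m, fv P (c i) = σ * (-1) ^ i * ω (c i))
    (hgap : ∀ i < m, ∀ t ∈ Ico (c i) (c (i + 1)), fv P t ≠ σ * (-1) ^ (i + 1) * ω t)
    {j : ℕ} (hj : j < m) {p : EuclideanSpace ℝ (Fin (m + 1))} (hp : p ∈ formBall m ω)
    {s e : ℝ} (hs : s ∈ Ico (c j) (c (j + 1))) (he : e ∈ Ico (c j) (c (j + 1)))
    (h1 : |fv p s| = ω s) (h2 : |fv p e| = ω e) : ¬ fv p s * fv p e < 0 := by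
  have hclt := lt_of_succ hmono
  have hcle : ∀ i k, i ≤ k → k ≤ m → c i ≤ c k := by
    intro i k h3 h4
    rcases h3.lt_or_eq with h | h
    · exact (hclt i k h h4).le
    · rw [h]
  have hmain : ∀ s e, s ∈ Ico (c j) (c (j + 1)) → e ∈ Ico (c j) (c (j + 1)) → |fv p s| = ω s →
      |fv p e| = ω e → s < e → ¬ fv p s * fv p e < 0 := by
    intro s e hs he h1 h2 hse hneg
    have hs' := sgn_pow hσ (j + 1)
    have hnegp : ∀ t, fv (-p) t = -fv p t := fun t => by
      have := fv_smul (-1) p t
      simpa using this
    have hc0 : c 0 ≤ s := (hcle 0 j (Nat.zero_le _) hj.le).trans hs.1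
    have hcm' : e ≤ c m := he.2.le.trans (hcle (j + 1) m hj le_rfl)
    have hws := hpos s
    have hwe := hpos e
    by_cases hcase : fv p s = (σ * (-1) ^ (j + 1)) * ω s
    · have h3 : fv p e = -(σ * (-1) ^ (j + 1)) * ω e := by
        refine contact_sign hs' h2 fun h4 => ?_
        rw [hcase, h4] at hneg
        have h5 : σ * (-1) ^ (j + 1) * ω s * (σ * (-1) ^ (j + 1) * ω e) =
          (σ * (-1) ^ (j + 1)) ^ 2 * (ω s * ω e) := by ring
        rw [h5] at hneg
        have : 0 ≤ (σ * (-1) ^ (j + 1)) ^ 2 * (ω s * ω e) := by positivity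
        linarith
      refine no_bad_form hsl hm hσ hP hmono hcm hval hgap hj.le (p := -p)
        (fun t => by rw [hnegp, abs_neg]; exact hp t) hc0 hse hcm' (fun _ => hs.1)
        (fun _ => he.2) ?_ ?_
      · rw [hnegp, hcase]; ring
      · rw [hnegp, h3]; ring
    · have h3 : fv p s = -(σ * (-1) ^ (j + 1)) * ω s := contact_sign hs' h1 hcase
      have h4 : fv p e = σ * (-1) ^ (j + 1) * ω e := by
        by_contra h4
        have h5 := contact_sign hs' h2 h4
        rw [h3, h5] at hneg
        have h6 : -(σ * (-1) ^ (j + 1)) * ω s * (-(σ * (-1) ^ (j + 1)) * ω e) =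
          (σ * (-1) ^ (j + 1)) ^ 2 * (ω s * ω e) := by ring
        rw [h6] at hneg
        have : 0 ≤ (σ * (-1) ^ (j + 1)) ^ 2 * (ω s * ω e) := by positivity
        linarith
      exact no_bad_form hsl hm hσ hP hmono hcm hval hgap hj.le (p := p) hp hc0 hse hcm'
        (fun _ => hs.1) (fun _ => he.2) h3 h4
  rcases lt_trichotomy s e with h | h | h
  · exact hmain s e hs he h1 h2 h
  · rw [h]
    intro h3
    linarith [mul_self_nonneg (fv p e)]
  · rw [mul_comm]
    exact hmain e s he hs h2 h1 h

theorem exists_zone {c : ℕ → ℝ} {s : ℝ} : ∀ m : ℕ, c 0 ≤ s → s < c m →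
    ∃ j < m, s ∈ Ico (c j) (c (j + 1)) := by
  intro m
  induction m with
  | zero => intro h1 h2; linarith
  | succ m ih =>
    intro h1 h2
    rcases lt_or_ge s (c m) with h | h
    · obtain ⟨j, hj, hj'⟩ := ih h1 h
      exact ⟨j, by omega, hj'⟩
    · exact ⟨m, by omega, h, h2⟩

/-- The sign of `∏ sin (s - c i)` in the zone `j`. -/
theorem zone_prod_sign {c : ℕ → ℝ} (hmono : ∀ i < m, c i < c (i + 1))
    (hcm : c m = c 0 + Real.pi) {j : ℕ} (hj : j < m) {s : ℝ} (hs : c j < s)
    (hs' : s < c (j + 1)) :
    0 < (-1) ^ (m + j + 1) * ∏ i ∈ Finset.range m, Real.sin (s - c i) := by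
  have hclt := lt_of_succ hmono
  have hcle : ∀ i k, i ≤ k → k ≤ m → c i ≤ c k := by
    intro i k h3 h4
    rcases h3.lt_or_eq with h | h
    · exact (hclt i k h h4).le
    · rw [h]
  obtain ⟨l, rfl⟩ : ∃ l, m = (j + 1) + l := ⟨m - (j + 1), by omega⟩
  rw [Finset.prod_range_add]
  have h1 : 0 < ∏ i ∈ Finset.range (j + 1), Real.sin (s - c i) := by
    refine Finset.prod_pos fun i hi => ?_
    have hi' := Finset.mem_range.mp hi
    refine Real.sin_pos_of_pos_of_lt_pi ?_ ?_
    · linarith [hcle i j (by omega) (by omega)]
    · linarith [hcle 0 i (by omega) (by omega), hcle (j + 1) (j + 1 + l) (by omega) le_rfl]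
  have h2 : 0 < (-1) ^ l * ∏ i ∈ Finset.range l, Real.sin (s - c (j + 1 + i)) := by
    have h3 : (-1 : ℝ) ^ l * ∏ i ∈ Finset.range l, Real.sin (s - c (j + 1 + i)) =
        ∏ i ∈ Finset.range l, -Real.sin (s - c (j + 1 + i)) := by
      rw [Finset.prod_neg, Finset.card_range]
    rw [h3]
    refine Finset.prod_pos fun i hi => ?_
    have hi' := Finset.mem_range.mp hi
    rw [← Real.sin_neg]
    refine Real.sin_pos_of_pos_of_lt_pi ?_ ?_
    · linarith [hcle (j + 1) (j + 1 + i) (by omega) (by omega)]
    · linarith [hclt (j + 1 + i) (j + 1 + l) (by omega) le_rfl, hcle 0 j (by omega) (by omega)]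
  have h4 : (-1 : ℝ) ^ (j + 1 + l + j + 1) = (-1) ^ l := by
    have : j + 1 + l + j + 1 = l + 2 * (j + 1) := by ring
    rw [this, pow_add, pow_mul]; norm_num
  rw [h4]
  have h5 := mul_pos h1 h2
  have h6 : (∏ i ∈ Finset.range (j + 1), Real.sin (s - c i)) *
      ((-1) ^ l * ∏ i ∈ Finset.range l, Real.sin (s - c (j + 1 + i))) =
      (-1) ^ l * ((∏ i ∈ Finset.range (j + 1), Real.sin (s - c i)) *
      ∏ i ∈ Finset.range l, Real.sin (s - c (j + 1 + i))) := by ring
  rwa [h6] at h5

/-- The number of subsets of size at most `m - 2`. -/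
theorem card_small_subsets (Z : Finset ℝ) (hZ : Z.card ≤ m) (hm : 1 ≤ m) :
    (Z.powerset.filter (fun S => S.card + 2 ≤ m)).card + (m + 1) ≤ 2 ^ m := by
  classical
  obtain ⟨k, rfl⟩ : ∃ k, m = k + 1 := ⟨m - 1, by omega⟩
  have h1 : (Z.powerset.filter (fun S => S.card + 2 ≤ k + 1)) ⊆
      (Finset.range k).biUnion (fun j => Finset.powersetCard j Z) := by
    intro S hS
    obtain ⟨h2, h3⟩ := Finset.mem_filter.mp hS
    exact Finset.mem_biUnion.mpr ⟨S.card, Finset.mem_range.mpr (by omega),
      Finset.mem_powersetCard.mpr ⟨Finset.mem_powerset.mp h2, rfl⟩⟩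
  have h2 : (Z.powerset.filter (fun S => S.card + 2 ≤ k + 1)).card ≤
      ∑ j ∈ Finset.range k, (k + 1).choose j := by
    refine (Finset.card_le_card h1).trans (Finset.card_biUnion_le.trans ?_)
    refine Finset.sum_le_sum fun j _ => ?_
    rw [Finset.card_powersetCard]
    exact Nat.choose_le_choose j hZ
  have h3 := Nat.sum_range_choose (k + 1)
  rw [Finset.sum_range_succ, Finset.sum_range_succ, Nat.choose_self, Nat.choose_succ_self_right]
    at h3
  omega

/-- The illuminating directions. -/
theorem exists_directions_snake (hω : Continuous ω) (hper : Function.Periodic ω Real.pi)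
    (hpos : ∀ t, 0 < ω t) (hsl : FormSlope m ω) (hm : 1 ≤ m) :
    ∃ D : Finset (EuclideanSpace ℝ (Fin (m + 1))),
      D.card + 2 * m ≤ 2 ^ (m + 1) + 2 ∧ ∀ x ∈ formBall m ω, ∃ u ∈ D, ∃ δ : ℝ, 0 < δ ∧
        x - δ • u ∈ interior (formBall m ω) := by
  classical
  obtain ⟨P, hP, c, σ, hσ, hmono, hcm, hval, hgap⟩ := exists_snake_form' hω hper hpos hm
  have hclt := lt_of_succ hmono
  have hcle : ∀ i k, i ≤ k → k ≤ m → c i ≤ c k := by
    intro i k h3 h4
    rcases h3.lt_or_eq with h | h
    · exact (hclt i k h h4).le
    · rw [h]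
  have hzone := fun {j : ℕ} (hj : j < m) {p : EuclideanSpace ℝ (Fin (m + 1))}
    (hp : p ∈ formBall m ω) {s e : ℝ} (hs : s ∈ Ico (c j) (c (j + 1)))
    (he : e ∈ Ico (c j) (c (j + 1))) => zone_sign hsl hpos hm hσ hP hmono hcm hval hgap hj hp hs he
  obtain ⟨Z0, hZ0c, hZ0⟩ : ∃ Z : Finset ℝ, Z.card ≤ m ∧
      ∀ s e, BadF m ω (c 0) (c 0 + Real.pi) s e → ∃ z ∈ Z, s < z ∧ z < e := by
    refine pierce_of_zones (isCompact_badF hω m (c 0) (c 0 + Real.pi)) m c ?_
    intro j hj s e ⟨x, hx, hs, he, hse, h3, h4⟩ h1 h2
    have hws := hpos s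
    have hwe := hpos e
    have hlt : s < e := by
      refine lt_of_le_of_ne hse fun h => ?_
      subst h
      linarith
    have hjm : j < m := by
      rcases hj.lt_or_eq with h | h
      · exact h
      · exfalso
        have := h1 (by omega)
        rw [h, hcm] at this; linarith [he.2]
    have hcjs : c j ≤ s := by
      rcases Nat.eq_zero_or_pos j with h | h
      · rw [h]; exact hs.1
      · exact h1 h
    refine hzone hjm hx (s := s) (e := e) ⟨hcjs, by linarith [h2 hjm]⟩
      ⟨by linarith, h2 hjm⟩ (by rw [h3, abs_of_pos hws]) (by rw [h4, abs_neg, abs_of_pos hwe]) ?_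
    rw [h3, h4]
    have := mul_pos hws hwe
    linarith
  set a := c 0 with ha
  set Z : Finset ℝ := Z0.filter (fun z => a < z ∧ z < a + Real.pi) with hZdef
  have hZc : Z.card ≤ m := (Finset.card_filter_le _ _).trans hZ0c
  have hZab : ∀ z ∈ Z, a < z ∧ z < a + Real.pi := fun z hz => (Finset.mem_filter.mp hz).2
  have hZ : ∀ s e, BadF m ω a (a + Real.pi) s e → ∃ z ∈ Z, s < z ∧ z < e := by
    intro s e h
    obtain ⟨z, hz, h1, h2⟩ := hZ0 s e h
    obtain ⟨x, _, hs, he, _⟩ := h
    exact ⟨z, Finset.mem_filter.mpr ⟨hz, by linarith [hs.1], by linarith [he.2]⟩, h1, h2⟩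
  have hfill : ∀ S ∈ Z.powerset, ∃ x : EuclideanSpace ℝ (Fin (m + 1)), ∃ r : ℕ,
      (r = 0 ∨ (r = 1 ∧ Odd (m + S.card))) ∧
      ∀ θ, fv x θ = Real.sin (θ - a) ^ r * ∏ z ∈ S, Real.sin (θ - z) := by
    intro S hS
    exact exists_filled' S ((Finset.card_le_card (Finset.mem_powerset.mp hS)).trans hZc) a
  choose! Q r hr hQ using hfill
  obtain ⟨Qc, hQc⟩ : ∃ x : EuclideanSpace ℝ (Fin (m + 1)), ∀ θ,
      fv x θ = ∏ i ∈ Finset.range m, Real.sin (θ - c i) := by
    have hinj : Set.InjOn c (Finset.range m : Set ℕ) := by
      intro i hi k hk hik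
      have hi' : i < m := Finset.mem_range.mp hi
      have hk' : k < m := Finset.mem_range.mp hk
      rcases lt_trichotomy i k with h | h | h
      · have := hclt i k h hk'.le; linarith
      · exact h
      · have := hclt k i h hi'.le; linarith
    have h1 := IsForm.prod ((Finset.range m).image c)
    rw [Finset.card_image_of_injOn hinj, Finset.card_range] at h1
    obtain ⟨x, hx⟩ := h1.exists_vec
    exact ⟨x, fun θ => by rw [hx, Finset.prod_image hinj]⟩
  refine ⟨((Z.powerset.filter (fun S => S.card + 2 ≤ m)) ×ˢ ({1, -1} : Finset ℝ)).image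
    (fun q => q.2 • Q q.1) ∪ {P, -P, Qc, -Qc}, ?_, ?_⟩
  · have h1 := card_small_subsets Z hZc hm
    have h2 : ({1, -1} : Finset ℝ).card ≤ 2 := Finset.card_le_two
    have h3 : ({P, -P, Qc, -Qc} : Finset (EuclideanSpace ℝ (Fin (m + 1)))).card ≤ 4 :=
      Finset.card_le_four
    have h4 : (((Z.powerset.filter (fun S => S.card + 2 ≤ m)) ×ˢ ({1, -1} : Finset ℝ)).image
        (fun q => q.2 • Q q.1)).card ≤ (Z.powerset.filter (fun S => S.card + 2 ≤ m)).card * 2 := by
      refine Finset.card_image_le.trans ?_
      rw [Finset.card_product]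
      exact Nat.mul_le_mul_left _ h2
    have h5 := Finset.card_union_le (((Z.powerset.filter (fun S => S.card + 2 ≤ m)) ×ˢ
      ({1, -1} : Finset ℝ)).image (fun q => q.2 • Q q.1)) {P, -P, Qc, -Qc}
    have h6 : 2 ^ (m + 1) = 2 * 2 ^ m := by rw [pow_succ, mul_comm]
    omega
  · intro x hx
    have hneg : ∀ t, fv (-x) t = -fv x t := fun t => by
      have := fv_smul (-1) x t
      simpa using this
    obtain ⟨S, hS, ε, hε, hSC, hemp, halt⟩ := sign_pattern_alt Z
      {t | t ∈ Icc a (a + Real.pi) ∧ |fv x t| = ω t} (fv x)
      (by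
        intro t ht h0
        have h1 := hpos t
        have h2 := ht.2
        rw [h0, abs_zero] at h2
        linarith)
      (by
        intro s hs e he hse hsg
        have hws := hpos s
        have hwe := hpos e
        rcases le_or_gt 0 (fv x s) with h0 | h0
        · have h1 : fv x s = ω s := by rw [← hs.2, abs_of_nonneg h0]
          have h2 : fv x e < 0 := by
            by_contra hcon
            have := mul_nonneg h0 (not_lt.mp hcon)
            linarith
          have h3 : fv x e = -ω e := by rw [← he.2, abs_of_neg h2, neg_neg]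
          exact hZ s e ⟨x, hx, hs.1, he.1, hse.le, h1, h3⟩
        · have h1 : fv x s = -ω s := by rw [← hs.2, abs_of_neg h0, neg_neg]
          have h2 : 0 < fv x e := by
            by_contra hcon
            have := mul_nonneg_of_nonpos_of_nonpos h0.le (not_lt.mp hcon)
            linarith
          have h3 : fv x e = ω e := by rw [← he.2, abs_of_pos h2]
          refine hZ s e ⟨-x, fun t => ?_, hs.1, he.1, hse.le, ?_, ?_⟩
          · rw [hneg, abs_neg]; exact hx t
          · rw [hneg, h1, neg_neg]
          · rw [hneg, h3])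
    by_cases hcard : S.card + 2 ≤ m
    · have hSp : S ∈ Z.powerset := Finset.mem_powerset.mpr hS
      refine ⟨ε • Q S, Finset.mem_union_left _ ?_, illum_form hω hper hpos hx a ?_⟩
      · refine Finset.mem_image.mpr ⟨(S, ε), ?_, rfl⟩
        refine Finset.mem_product.mpr ⟨Finset.mem_filter.mpr ⟨hSp, hcard⟩, ?_⟩
        rcases hε with h | h <;> simp [h]
      · intro t ht h
        have h1 := hSC t ⟨ht, h⟩
        have h2 : ∏ z ∈ S, (t - z) ≠ 0 := fun h => by
          rw [h, mul_zero, zero_mul] at h1; exact lt_irrefl _ h1
        have h3 := prod_sin_sign (a := a) S (fun z hz => hZab z (hS hz)) ht h2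
        have h5 : 0 < (∏ z ∈ S, (t - z)) ^ 2 *
            (ε * (∏ z ∈ S, Real.sin (t - z)) * fv x t) := by
          have h6 := mul_pos h1 h3
          have h7 : ε * (∏ z ∈ S, (t - z)) * fv x t *
              ((∏ z ∈ S, (t - z)) * ∏ z ∈ S, Real.sin (t - z)) =
              (∏ z ∈ S, (t - z)) ^ 2 * (ε * (∏ z ∈ S, Real.sin (t - z)) * fv x t) := by ring
          rwa [h7] at h6
        have h8 : 0 < ε * (∏ z ∈ S, Real.sin (t - z)) * fv x t :=
          (mul_pos_iff_of_pos_left (by positivity)).mp h5
        rw [fv_smul, hQ S hSp t]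
        have h9 : ε * (Real.sin (t - a) ^ r S * ∏ z ∈ S, Real.sin (t - z)) * fv x t =
          Real.sin (t - a) ^ r S * (ε * (∏ z ∈ S, Real.sin (t - z)) * fv x t) := by ring
        rw [h9]
        refine mul_pos ?_ h8
        rcases hr S hSp with h10 | ⟨h10, h11⟩
        · rw [h10, pow_zero]; exact one_pos
        · rw [h10, pow_one]
          -- `t` is not at the seam
          have hseam : ¬ (|fv x a| = ω a) := by
            intro h12
            have h13 : |fv x (a + Real.pi)| = ω (a + Real.pi) := by
              rw [abs_fv_add_pi, h12, hper a]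
            have e1 := hSC a ⟨⟨le_rfl, by linarith [Real.pi_pos]⟩, h12⟩
            have e2 := hSC (a + Real.pi) ⟨⟨by linarith [Real.pi_pos], le_rfl⟩, h13⟩
            have e3 : 0 < ∏ z ∈ S, (a + Real.pi - z) := Finset.prod_pos fun z hz => by
              linarith [(hZab z (hS hz)).2]
            have e4 : ∏ z ∈ S, (a - z) = (-1) ^ S.card * ∏ z ∈ S, (z - a) := by
              rw [← Finset.prod_const, ← Finset.prod_mul_distrib]
              exact Finset.prod_congr rfl fun z _ => by ring
            have e5 : 0 < ∏ z ∈ S, (z - a) := Finset.prod_pos fun z hz => by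
              linarith [(hZab z (hS hz)).1]
            rw [fv_add_pi] at e2
            rw [e4] at e1
            have e6 := mul_pos e1 e2
            have e7 : ε * ((-1) ^ S.card * ∏ z ∈ S, (z - a)) * fv x a *
                (ε * (∏ z ∈ S, (a + Real.pi - z)) * ((-1) ^ m * fv x a)) =
                (-1) ^ (m + S.card) * ((∏ z ∈ S, (z - a)) * (∏ z ∈ S, (a + Real.pi - z)) *
                (ε * fv x a) ^ 2) := by
              rw [pow_add]; ring
            rw [e7, h11.neg_one_pow] at e6
            have e8 : 0 ≤ (∏ z ∈ S, (z - a)) * (∏ z ∈ S, (a + Real.pi - z)) *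
                (ε * fv x a) ^ 2 := by positivity
            linarith
          have hta : a < t := by
            rcases ht.1.lt_or_eq with h14 | h14
            · exact h14
            · rw [← h14] at h; exact absurd h hseam
          have htb : t < a + Real.pi := by
            rcases ht.2.lt_or_eq with h14 | h14
            · exact h14
            · rw [h14, abs_fv_add_pi, hper a] at h; exact absurd h hseam
          exact Real.sin_pos_of_pos_of_lt_pi (by linarith) (by linarith)
    · rcases eq_empty_or_nonempty {t | t ∈ Icc a (a + Real.pi) ∧ |fv x t| = ω t} with hC | hC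
      · -- an interior point
        refine ⟨P, Finset.mem_union_right _ (by simp), illum_form hω hper hpos hx a ?_⟩
        intro t ht h
        have : t ∈ ({t | t ∈ Icc a (a + Real.pi) ∧ |fv x t| = ω t} : Set ℝ) := ⟨ht, h⟩
        rw [hC] at this
        exact this.elim
      · -- snakes
        obtain ⟨t, ht1, ht2, ht3, _⟩ := halt hC
        have htm : ∀ i < m, t i ∈ {t | t ∈ Icc a (a + Real.pi) ∧ |fv x t| = ω t} :=
          fun i hi => ht1 i (by omega)
        obtain ⟨q, hq, hqt⟩ := alt_signs (f := fv x) (g := ω) (t := t) (k := S.card)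
          (fun i _ => hpos _) (fun i hi => (ht1 i hi).2) ht3
        by_cases hci : ∃ i < m, |fv x (c i)| = ω (c i)
        · -- a common contact: `x = ± P`
          obtain ⟨i, hi, hxi⟩ := hci
          have hs := sgn_pow hσ i
          obtain ⟨η, hη, hηx⟩ : ∃ η : ℝ, (η = 1 ∨ η = -1) ∧
              fv (η • x) (c i) = σ * (-1) ^ i * ω (c i) := by
            by_cases h1 : fv x (c i) = σ * (-1) ^ i * ω (c i)
            · exact ⟨1, Or.inl rfl, by rw [one_smul]; exact h1⟩
            · refine ⟨-1, Or.inr rfl, ?_⟩
              rw [fv_smul, contact_sign hs hxi h1]; ring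
          have hηη : η * η = 1 := by rcases hη with h | h <;> rw [h] <;> norm_num
          have hηball : η • x ∈ formBall m ω := by
            intro θ
            rw [fv_smul, abs_mul]
            have : |η| = 1 := by rcases hη with h | h <;> rw [h] <;> norm_num
            rw [this, one_mul]; exact hx θ
          have hlast : t (m - 1) < t 0 + Real.pi := by
            have h1 := (htm 0 (by omega)).1.1
            have h2 := (htm (m - 1) (by omega)).1.2
            refine lt_of_le_of_ne (by linarith) fun h3 => ?_
            have h4 := hqt (m - 1) (by omega)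
            have h5 := hqt 0 (by omega)
            rw [h3, fv_add_pi, h5, hper (t 0)] at h4
            have h6 := hpos (t 0)
            obtain ⟨k, rfl⟩ : ∃ k, m = k + 1 := ⟨m - 1, by omega⟩
            rw [Nat.add_sub_cancel, pow_zero, mul_one, pow_succ] at h4
            have h7 : (q * (-1) ^ k) * ω (t 0) = 0 := by linarith
            rcases mul_eq_zero.mp h7 with h8 | h8
            · rcases sgn_pow hq k with h9 | h9 <;> rw [h9] at h8 <;> norm_num at h8
            · linarith
          have hqq : η * q * (-1) ^ m = 1 ∨ η * q * (-1) ^ m = -1 := by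
            refine sgn_pow ?_ m
            rcases hη with h | h <;> rcases hq with h' | h' <;> rw [h, h'] <;> norm_num
          have hrig := snake_rigid hper hpos hsl hm hP hηball (τ := c i) hs
            (hval i hi.le) hηx (y := c) (z := fun l => t l - Real.pi) (r := σ)
            (r' := η * q * (-1) ^ m) hσ hqq (fun l hl => hmono l (by omega))
            (by
              have := hclt (m - 1) m (by omega) le_rfl
              rw [hcm] at this
              exact this)
            (fun l hl => hval l hl.le) (hcle 0 i (Nat.zero_le _) hi.le)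
            (fun l hl => by
              have := ht2 l (by omega)
              linarith)
            (by linarith)
            (by
              intro l hl
              have h1 := fv_add_pi x (t l - Real.pi)
              have h2 := hper (t l - Real.pi)
              rw [sub_add_cancel] at h1 h2
              have h3 := hqt l (by omega)
              have h4 : ((-1 : ℝ) ^ m) * (-1) ^ m = 1 := by rw [← mul_pow]; norm_num
              have h5 : fv x (t l - Real.pi) = (-1) ^ m * fv x (t l) := by
                rw [h1, ← mul_assoc, h4, one_mul]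
              rw [fv_smul, h5, h3, ← h2]
              ring)
            (by
              have h1 := (htm 0 (by omega)).1.2
              have h2 := hcle 0 i (Nat.zero_le _) hi.le
              linarith)
          refine ⟨η • P, Finset.mem_union_right _ ?_, 1 / 2, by norm_num,
            strictFormBall_subset hω hper ?_⟩
          · rcases hη with h | h <;> simp [h]
          · intro θ
            have h1 := hrig θ
            rw [fv_smul] at h1
            rw [fv_sub, fv_smul, fv_smul, h1]
            have h2 : fv x θ - 1 / 2 * (η * (η * fv x θ)) = 1 / 2 * fv x θ := by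
              rw [← mul_assoc η η, hηη]; ring
            rw [h2, abs_mul, abs_of_pos (by norm_num : (0 : ℝ) < 1 / 2)]
            linarith [hx θ, hpos θ]
        · -- the contacts interlace with those of `P`
          push Not at hci
          have hcontm : |fv x (c m)| ≠ ω (c m) := by
            rw [hcm, abs_fv_add_pi, hper (c 0)]
            exact hci 0 (by omega)
          have hge : ∀ j < m, c j ≤ t j := by
            intro j
            induction j with
            | zero => intro h; exact (htm 0 h).1.1
            | succ j ih =>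
              intro hj
              by_contra hcon
              push Not at hcon
              have h1 := ih (by omega)
              have h2 := ht2 j (by omega)
              exact hzone (j := j) (by omega) hx (s := t j) (e := t (j + 1))
                ⟨h1, by linarith⟩ ⟨by linarith, hcon⟩ (htm j (by omega)).2
                (htm (j + 1) hj).2 (ht3 j (by omega))
          have hlt : ∀ l < m, t (m - 1 - l) < c (m - l) := by
            intro l
            induction l with
            | zero =>
              intro _
              have h1 := htm (m - 1) (by omega)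
              rw [Nat.sub_zero, Nat.sub_zero]
              refine lt_of_le_of_ne (by rw [hcm]; exact h1.1.2) fun h2 => ?_
              have h3 := h1.2
              rw [h2] at h3
              exact hcontm h3
            | succ l ih =>
              intro hl
              by_contra hcon
              push Not at hcon
              have h1 := ih (by omega)
              have e1 : m - (l + 1) + 1 = m - l := by omega
              have e2 : m - 1 - (l + 1) + 1 = m - 1 - l := by omega
              have h2 := ht2 (m - 1 - (l + 1)) (by omega)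
              rw [e2] at h2
              have h3 := ht3 (m - 1 - (l + 1)) (by omega)
              rw [e2] at h3
              exact hzone (j := m - (l + 1)) (by omega) hx (s := t (m - 1 - (l + 1)))
                (e := t (m - 1 - l)) ⟨hcon, by rw [e1]; linarith⟩ ⟨by linarith, by rw [e1]; exact h1⟩
                (htm _ (by omega)).2 (htm _ (by omega)).2 h3
          have hlt' : ∀ j < m, t j < c (j + 1) := by
            intro j hj
            have := hlt (m - 1 - j) (by omega)
            have e1 : m - 1 - (m - 1 - j) = j := by omega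
            have e2 : m - (m - 1 - j) = j + 1 := by omega
            rwa [e1, e2] at this
          have hqm : q * (-1) ^ (m + 1) = 1 ∨ q * (-1) ^ (m + 1) = -1 := sgn_pow hq _
          refine ⟨(q * (-1) ^ (m + 1)) • Qc, Finset.mem_union_right _ ?_,
            illum_form hω hper hpos hx a ?_⟩
          · rcases hqm with h | h <;> rw [h] <;> simp
          · intro s hs hcs
            have hsne : ∀ i ≤ m, s ≠ c i := by
              intro i hi h1
              rw [h1] at hcs
              rcases hi.lt_or_eq with h2 | h2
              · exact hci i h2 hcs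
              · rw [h2] at hcs; exact hcontm hcs
            obtain ⟨j, hj, hsj⟩ := exists_zone (c := c) (s := s) m hs.1
              (lt_of_le_of_ne (by rw [hcm]; exact hs.2) (hsne m le_rfl))
            have h1 := zone_prod_sign hmono hcm hj (lt_of_le_of_ne hsj.1 (hsne j hj.le).symm) hsj.2
            have h2 := hzone hj hx hsj ⟨hge j hj, hlt' j hj⟩ hcs (htm j hj).2
            have h3 := hqt j (by omega)
            have h4 := hpos (t j)
            have h5 : 0 < q * (-1) ^ j * fv x s := by
              have h6 : fv x s ≠ 0 := by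
                intro h7
                rw [h7, abs_zero] at hcs
                linarith [hpos s]
              rw [h3] at h2
              by_contra hcon
              have h7 : q * (-1) ^ j * fv x s ≠ 0 := by
                refine mul_ne_zero ?_ h6
                rcases sgn_pow hq j with h | h <;> rw [h] <;> norm_num
              have h8 : q * (-1) ^ j * fv x s < 0 := lt_of_le_of_ne (not_lt.mp hcon) h7
              apply h2
              have h9 := mul_neg_of_neg_of_pos h8 h4
              linarith
            rw [fv_smul, hQc]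
            have h6 := mul_pos h1 h5
            have h7 : (-1) ^ (m + j + 1) * (∏ i ∈ Finset.range m, Real.sin (s - c i)) *
                (q * (-1) ^ j * fv x s) = ((-1) ^ j * (-1) ^ j) * (q * (-1) ^ (m + 1) *
                (∏ i ∈ Finset.range m, Real.sin (s - c i)) * fv x s) := by
              have : m + j + 1 = j + (m + 1) := by ring
              rw [this, pow_add]; ring
            rw [h7, ← mul_pow] at h6
            simpa using h6

/-- **The covering theorem**, with fewer than `2 ^ (m + 1)` translates when `m ≥ 2`. -/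
theorem cover_snake (hω : Continuous ω) (hper : Function.Periodic ω Real.pi)
    (hpos : ∀ t, 0 < ω t) (hsl : FormSlope m ω) (hm : 1 ≤ m) :
    ∃ T : Finset (EuclideanSpace ℝ (Fin (m + 1))), T.card + 2 * m ≤ 2 ^ (m + 1) + 2 ∧
      formBall m ω ⊆ ⋃ t ∈ T, (fun x => t + x) '' interior (formBall m ω) := by
  obtain ⟨D, hD, hD'⟩ := exists_directions_snake hω hper hpos hsl hm
  obtain ⟨T, hT, hT'⟩ := cover_of_illum isCompact_formBall convex_formBall D hD'
  exact ⟨T, by omega, hT'⟩

end Pool.Agent.H283.Cheb
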