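import Mathlib
import Pool.Agent.H283.Cheb.SnakeCover

/-!
The covering theorem for unit balls of spaces of binary forms, with `2 ^ m + 2` translates.
-/

namespace Pool.Agent.H283.Cheb

open Polynomial Set Filter Topology

variable {m : ℕ} {ω : ℝ → ℝ}

/-- Weak alternation for polynomials, in the presence of double zeros. -/
theorem weak_alt_mult {n N : ℕ} {p : ℝ[X]} (hp : p.natDegree ≤ n) (D : Finset ℝ)
    (hD : ∀ u ∈ D, (X - C u) ^ 2 ∣ p) (hN : n + 2 ≤ N + 2 * D.card ∨ n < 2 * D.card)
    {y : ℕ → ℝ} (hy : ∀ i, i + 1 < N → y i < y (i + 1)) (hyD : ∀ i < N, y i ∉ D)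
    (hs : ∀ i < N, 0 ≤ (-1) ^ i * p.eval (y i)) : p = 0 := by
  by_contra hp0
  have hdvd : (∏ u ∈ D, (X - C u) ^ 2) ∣ p := by
    refine Finset.prod_dvd_of_coprime ?_ hD
    intro u _ v _ huv
    exact (pairwise_coprime_X_sub_C (s := fun x : ℝ => x) (fun _ _ h => h) huv).pow
  obtain ⟨h, hh⟩ := hdvd
  have hprod0 : (∏ u ∈ D, (X - C u) ^ 2) ≠ (0 : ℝ[X]) :=
    Finset.prod_ne_zero_iff.mpr fun u _ => pow_ne_zero _ (X_sub_C_ne_zero u)
  have hh0 : h ≠ 0 := by
    rintro rfl
    rw [mul_zero] at hh
    exact hp0 hh
  have hdeg : p.natDegree = 2 * D.card + h.natDegree := by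
    rw [hh, natDegree_mul hprod0 hh0, natDegree_prod _ _ fun u _ =>
      pow_ne_zero _ (X_sub_C_ne_zero u)]
    congr 1
    rw [Finset.sum_congr rfl (g := fun _ => 2) fun u _ => by
      rw [natDegree_pow, natDegree_X_sub_C]]
    rw [Finset.sum_const, smul_eq_mul, mul_comm]
  have hz : h = 0 := by
    refine weak_alt (n - 2 * D.card) h y (by omega) (fun i hi => hy i (by omega)) ?_
    intro i hi
    have hi' : i < N := by omega
    have h3 := hs i hi'
    rw [hh, eval_mul, eval_prod] at h3
    have h4 : 0 < ∏ u ∈ D, eval (y i) ((X - C u) ^ 2) := by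
      refine Finset.prod_pos fun u hu => ?_
      simp only [eval_pow, eval_sub, eval_X, eval_C]
      have : y i - u ≠ 0 := sub_ne_zero.mpr fun h5 => hyD i hi' (h5 ▸ hu)
      positivity
    have h5 : (-1) ^ i * ((∏ u ∈ D, eval (y i) ((X - C u) ^ 2)) * eval (y i) h) =
      (∏ u ∈ D, eval (y i) ((X - C u) ^ 2)) * ((-1) ^ i * eval (y i) h) := by ring
    rw [h5] at h3
    exact nonneg_of_mul_nonneg_right h3 h4
  exact hh0 hz

/-- Weak alternation for forms, in the presence of double zeros. -/
theorem weak_alt_form_mult {F : ℝ → ℝ} (hF : IsForm m F) (hFc : Continuous F) {α ρ : ℝ}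
    (hρ : ρ ≠ 0) (D : Finset ℝ)
    (hD : ∀ s ∈ D, (α < s ∧ s < α + Real.pi) ∧ F s = 0 ∧ HasDerivAt F 0 s) {N : ℕ}
    (hN : m + 2 ≤ N + 2 * D.card ∨ m < 2 * D.card) {y : ℕ → ℝ}
    (hy : ∀ i, i + 1 < N → y i < y (i + 1)) (hya : ∀ i < N, α < y i ∧ y i < α + Real.pi)
    (hyD : ∀ i < N, y i ∉ D)
    (hs : ∀ i < N, 0 ≤ ρ * (-1) ^ i * F (y i)) : ∀ θ, F θ = 0 := by
  classical
  obtain ⟨p, hpd, hp⟩ := hF.exists_poly α
  set u : ℝ → ℝ := fun θ => -Real.cos (θ - α) / Real.sin (θ - α) with hu
  have hulim : ∀ s t, α < s → s < t → t < α + Real.pi → u s < u t := by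
    intro s t h1 h2 h3
    exact neg_cot_lt (by linarith) (by linarith) (by linarith)
  have huinj : ∀ s t, α < s → s < α + Real.pi → α < t → t < α + Real.pi → u s = u t → s = t := by
    intro s t h1 h2 h3 h4 h5
    rcases lt_trichotomy s t with h | h | h
    · have := hulim s t h1 h h4; linarith
    · exact h
    · have := hulim t s h3 h h2; linarith
  have hcard : (D.image u).card = D.card := by
    refine Finset.card_image_of_injOn ?_
    intro s hs t ht hst
    exact huinj s t (hD s hs).1.1 (hD s hs).1.2 (hD t ht).1.1 (hD t ht).1.2 hst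
  have hz : C ρ * p = 0 := by
    refine weak_alt_mult (n := m) (N := N) ((natDegree_C_mul_le _ _).trans hpd) (D.image u) ?_
      (by rw [hcard]; exact hN) (y := fun i => u (y i)) ?_ ?_ ?_
    · intro v hv
      obtain ⟨s, hs, rfl⟩ := Finset.mem_image.mp hv
      obtain ⟨⟨h1, h2⟩, h3, h4⟩ := hD s hs
      have hssin : 0 < Real.sin (s - α) :=
        Real.sin_pos_of_pos_of_lt_pi (by linarith) (by linarith)
      obtain ⟨e0, e1⟩ := double_root_form hp hssin.ne' h3 h4
      obtain ⟨g1, hg1⟩ := dvd_iff_isRoot.mpr (show IsRoot p (u s) from e0)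
      have e2 : g1.eval (u s) = 0 := by
        have e1' : p.derivative.eval (u s) = 0 := e1
        rw [hg1] at e1'
        simpa using e1'
      obtain ⟨h, hh1⟩ := dvd_iff_isRoot.mpr (show IsRoot g1 (u s) from e2)
      exact Dvd.intro_left (C ρ * h) (by rw [hg1, hh1]; ring)
    · intro i hi
      exact hulim _ _ (hya i (by omega)).1 (hy i hi) (hya (i + 1) hi).2
    · intro i hi hcon
      obtain ⟨s, hs, hs'⟩ := Finset.mem_image.mp hcon
      have := huinj s (y i) (hD s hs).1.1 (hD s hs).1.2 (hya i hi).1 (hya i hi).2 hs'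
      rw [this] at hs
      exact hyD i hi hs
    · intro i hi
      have h1 := hs i hi
      obtain ⟨h2, h3⟩ := hya i hi
      have h4 : 0 < Real.sin (y i - α) :=
        Real.sin_pos_of_pos_of_lt_pi (by linarith) (by linarith)
      rw [hp (y i) h4.ne'] at h1
      rw [eval_mul, eval_C]
      have h5 : ρ * (-1) ^ i * (Real.sin (y i - α) ^ m * eval (u (y i)) p) =
        Real.sin (y i - α) ^ m * ((-1) ^ i * (ρ * eval (u (y i)) p)) := by ring
      have h6 : 0 ≤ Real.sin (y i - α) ^ m * ((-1) ^ i * (ρ * eval (u (y i)) p)) := by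
        rw [← h5]; exact h1
      exact nonneg_of_mul_nonneg_right h6 (pow_pos h4 m)
  have hp0 : p = 0 := by
    rcases mul_eq_zero.mp hz with h | h
    · exact absurd (C_eq_zero.mp h) hρ
    · exact h
  have hdense : Dense {θ : ℝ | Real.sin (θ - α) ≠ 0} := by
    have hc : (Set.range (fun n : ℤ => (n : ℝ) * Real.pi + α)).Countable := countable_range _
    refine (hc.dense_compl ℝ).mono ?_
    intro θ hθ hcon
    obtain ⟨n, hn⟩ := Real.sin_eq_zero_iff.mp hcon
    exact hθ ⟨n, by simp only; rw [hn]; ring⟩
  have heq : F = fun _ => (0 : ℝ) := by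
    refine Continuous.ext_on hdense hFc continuous_const ?_
    intro θ hθ
    simp only
    rw [hp θ hθ, hp0, eval_zero, mul_zero]
  intro θ
  rw [heq]

/-- Extension of the alternating contacts to an infinite sequence. -/
theorem extend_contacts (hper : Function.Periodic ω Real.pi) (hm : 1 ≤ m)
    {x : EuclideanSpace ℝ (Fin (m + 1))} {y : ℕ → ℝ} {r : ℝ}
    (hy : ∀ i, i + 1 < m → y i < y (i + 1)) (hy' : y (m - 1) < y 0 + Real.pi)
    (hv : ∀ i < m, fv x (y i) = r * (-1) ^ i * ω (y i)) :
    ∃ Y : ℕ → ℝ, StrictMono Y ∧ (∀ i, Y (i + m) = Y i + Real.pi) ∧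
      (∀ i, fv x (Y i) = r * (-1) ^ i * ω (Y i)) := by
  set Y : ℕ → ℝ := fun i => y (i % m) + (i / m : ℕ) * Real.pi with hY
  have hYv : ∀ a b, a < m → Y (a + m * b) = y a + b * Real.pi := by
    intro a b ha
    have := (Nat.div_mod_unique (b := m) (a := a + m * b) (d := b) (c := a) (by omega)).mpr
      ⟨rfl, ha⟩
    rw [hY]
    simp only
    rw [this.1, this.2]
  have hdec : ∀ i, ∃ a b, a < m ∧ i = a + m * b := fun i =>
    ⟨i % m, i / m, Nat.mod_lt _ (by omega), (Nat.mod_add_div i m).symm⟩
  refine ⟨Y, ?_, ?_, ?_⟩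
  · refine strictMono_nat_of_lt_succ fun i => ?_
    obtain ⟨a, b, ha, rfl⟩ := hdec i
    by_cases h1 : a + 1 < m
    · have h2 : a + m * b + 1 = (a + 1) + m * b := by ring
      rw [h2, hYv a b ha, hYv (a + 1) b h1]
      linarith [hy a h1]
    · have h2 : a = m - 1 := by omega
      have h3 : a + m * b + 1 = 0 + m * (b + 1) := by
        have : a + 1 = m := by omega
        calc a + m * b + 1 = (a + 1) + m * b := by ring
          _ = m + m * b := by rw [this]
          _ = 0 + m * (b + 1) := by ring
      rw [h3, hYv a b ha, hYv 0 (b + 1) (by omega), h2]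
      push_cast
      linarith
  · intro i
    obtain ⟨a, b, ha, rfl⟩ := hdec i
    have h1 : a + m * b + m = a + m * (b + 1) := by ring
    rw [h1, hYv a (b + 1) ha, hYv a b ha]
    push_cast; ring
  · have hshift : ∀ (θ : ℝ) (b : ℕ), fv x (θ + b * Real.pi) = (-1) ^ (m * b) * fv x θ ∧
        ω (θ + b * Real.pi) = ω θ := by
      intro θ b
      induction b with
      | zero => simp
      | succ b ih =>
        have h1 : θ + ((b + 1 : ℕ) : ℝ) * Real.pi = θ + b * Real.pi + Real.pi := by
          push_cast; ring
        rw [h1, fv_add_pi, hper (θ + b * Real.pi), ih.1, ih.2]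
        refine ⟨?_, rfl⟩
        have h2 : m * (b + 1) = m + m * b := by ring
        rw [h2, pow_add]; ring
    intro i
    obtain ⟨a, b, ha, rfl⟩ := hdec i
    rw [hYv a b ha, (hshift (y a) b).1, (hshift (y a) b).2, hv a ha, pow_add]
    ring

/-- **Rigidity.** If `p` has opposite contacts in one gap of a snake `P` then `p = P`. -/
theorem gap_rigid (hsl : FormSlope m ω) (hm : 1 ≤ m)
    {P p : EuclideanSpace ℝ (Fin (m + 1))} (hP : P ∈ formBall m ω) (hp : p ∈ formBall m ω)
    {C : ℕ → ℝ} {σ : ℝ} (hσ : σ = 1 ∨ σ = -1) (hC : StrictMono C)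
    (hCm : ∀ i, C (i + m) = C i + Real.pi)
    (hCP : ∀ i, fv P (C i) = σ * (-1) ^ i * ω (C i)) {j : ℕ} {s e : ℝ} (hs : C j ≤ s)
    (hse : s < e) (he : e ≤ C (j + 1)) (hps : fv p s = σ * (-1) ^ j * ω s)
    (hpe : fv p e = -(σ * (-1) ^ j) * ω e) : ∀ θ, fv P θ = fv p θ := by
  classical
  set r : ℝ := σ * (-1) ^ j with hr
  have hr1 : r = 1 ∨ r = -1 := sgn_pow hσ j
  have hr0 : r ≠ 0 := by rcases hr1 with h | h <;> rw [h] <;> norm_num
  have hrr : r * r = 1 := by rcases hr1 with h | h <;> rw [h] <;> norm_num
  have hpi := Real.pi_pos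
  -- signs of `F = P - p`
  have hFC : ∀ i, 0 ≤ r * (-1) ^ i * fv (P - p) (C (j + i)) := by
    intro i
    have h1 := sgn_pow hr1 i
    have h2 : (r * (-1) ^ i) * (r * (-1) ^ i) = 1 := by
      rcases h1 with h | h <;> rw [h] <;> norm_num
    have h3 := s_mul_le h1 (hp (C (j + i)))
    have h4 : fv P (C (j + i)) = r * (-1) ^ i * ω (C (j + i)) := by
      rw [hCP, hr, pow_add]; ring
    rw [fv_sub, h4]
    have h5 : r * (-1) ^ i * (r * (-1) ^ i * ω (C (j + i)) - fv p (C (j + i))) =
        ((r * (-1) ^ i) * (r * (-1) ^ i)) * ω (C (j + i)) - r * (-1) ^ i * fv p (C (j + i)) := by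
      ring
    rw [h5, h2, one_mul]
    linarith
  have hFs : r * fv (P - p) s ≤ 0 := by
    have h3 := s_mul_le hr1 (hP s)
    rw [fv_sub, hps]
    have h4 : r * (fv P s - r * ω s) = r * fv P s - (r * r) * ω s := by ring
    rw [h4, hrr]
    linarith
  have hFe : 0 ≤ r * fv (P - p) e := by
    have h3 : (-r) * fv P e ≤ ω e :=
      s_mul_le (by rcases hr1 with h | h <;> rw [h] <;> norm_num) (hP e)
    rw [fv_sub, hpe]
    have h4 : r * (fv P e - -r * ω e) = r * fv P e + (r * r) * ω e := by ring
    rw [h4, hrr]
    linarith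
  have hF : IsForm m (fv (P - p)) := IsForm.of_fv _
  have hFc : Continuous (fv (P - p)) := continuous_fv' _
  have hdone : (∀ θ, fv (P - p) θ = 0) → ∀ θ, fv P θ = fv p θ := by
    intro h θ
    have := h θ
    rw [fv_sub] at this
    linarith
  apply hdone
  have hCle : ∀ i k, i ≤ k → C i ≤ C k := fun i k h => hC.monotone h
  have hCjm : C (j + m) = C j + Real.pi := hCm j
  by_cases h1 : C j = s
  · -- double zero at `s`
    have hds : fv (P - p) s = 0 ∧ HasDerivAt (fv (P - p)) 0 s := by
      refine double_of_contact hsl hP hp hr1 ?_ hps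
      rw [← h1]
      have := hCP j
      rw [this]
    by_cases h2 : e = C (j + 1)
    · -- double zero at `e`
      have hde : fv (P - p) e = 0 ∧ HasDerivAt (fv (P - p)) 0 e := by
        refine double_of_contact hsl hP hp (r := -r) ?_ ?_ hpe
        · rcases hr1 with h | h <;> rw [h] <;> norm_num
        · rw [h2, hCP, hr]; ring
      rcases Nat.lt_or_ge 1 m with hm1 | hm1
      · have hlast : C (j + (m - 1)) < C j + Real.pi := by
          rw [← hCjm]; exact hC (by omega)
        have hlast' : C (j + 1) ≤ C (j + (m - 1)) := hCle _ _ (by omega)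
        refine weak_alt_form_mult hF hFc (α := (C j + C (j + (m - 1)) - Real.pi) / 2) hr0 {s, e} ?_
          (N := m - 2) (Or.inl ?_) (y := fun i => C (j + (i + 2))) ?_ ?_ ?_ ?_
        · intro t ht
          rcases Finset.mem_insert.mp ht with h | h
          · rw [h, ← h1]
            refine ⟨⟨by linarith, by linarith [hC (show j < j + 1 by omega)]⟩, ?_⟩
            rw [h1]; exact hds
          · rw [Finset.mem_singleton.mp h]
            refine ⟨⟨?_, ?_⟩, hde⟩
            · have := hC (show j < j + 1 by omega)
              rw [h2]; linarith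
            · rw [h2]; linarith
        · rw [Finset.card_pair hse.ne]; omega
        · intro i _
          exact hC (by omega)
        · intro i hi
          have h3 := hC (show j < j + (i + 2) by omega)
          have h4 := hCle (j + (i + 2)) (j + (m - 1)) (by omega)
          exact ⟨by linarith, by linarith⟩
        · intro i _ h3
          have h4 := hC (show j < j + (i + 2) by omega)
          have h5 := hC (show j + 1 < j + (i + 2) by omega)
          rcases Finset.mem_insert.mp h3 with h | h
          · rw [h, h1] at h4; exact lt_irrefl _ h4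
          · rw [Finset.mem_singleton.mp h, h2] at h5; exact lt_irrefl _ h5
        · intro i _
          have h3 := hFC (i + 2)
          have h4 : r * (-1) ^ (i + 2) = r * (-1) ^ i := by ring
          rwa [h4] at h3
      · refine weak_alt_form_mult hF hFc (α := s - Real.pi / 2) hr0 {s} ?_
          (N := 0) (Or.inr ?_) (y := fun _ => 0) ?_ ?_ ?_ ?_
        · intro t ht
          rw [Finset.mem_singleton.mp ht]
          exact ⟨⟨by linarith, by linarith⟩, hds⟩
        · rw [Finset.card_singleton]; omega
        · intro i hi; omega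
        · intro i hi; omega
        · intro i hi; omega
        · intro i hi; omega
    · have h2' : e < C (j + 1) := lt_of_le_of_ne he h2
      set M : ℝ := max e (C (j + (m - 1))) with hM
      have hM1 : M < C j + Real.pi := by
        refine max_lt ?_ ?_
        · have := hCle (j + 1) (j + m) (by omega)
          linarith
        · rw [← hCjm]; exact hC (by omega)
      have heM : e ≤ M := le_max_left _ _
      have hCM : C (j + (m - 1)) ≤ M := le_max_right _ _
      refine weak_alt_form_mult hF hFc (α := (C j + M - Real.pi) / 2) hr0 {s} ?_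
        (N := m) (Or.inl ?_) (y := fun i => if i = 0 then e else C (j + i)) ?_ ?_ ?_ ?_
      · intro t ht
        rw [Finset.mem_singleton.mp ht]
        refine ⟨⟨by rw [← h1]; linarith, ?_⟩, hds⟩
        linarith
      · rw [Finset.card_singleton]
      · intro i hi
        by_cases h3 : i = 0
        · subst h3
          rw [if_pos rfl, if_neg (by omega)]
          exact h2'
        · rw [if_neg h3, if_neg (by omega)]
          exact hC (by omega)
      · intro i hi
        by_cases h3 : i = 0
        · rw [if_pos h3]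
          exact ⟨by linarith, by linarith⟩
        · rw [if_neg h3]
          have h4 := hC (show j < j + i by omega)
          have h5 := hCle (j + i) (j + (m - 1)) (by omega)
          exact ⟨by linarith, by linarith⟩
      · intro i hi h3
        have h4 := Finset.mem_singleton.mp h3
        by_cases h5 : i = 0
        · rw [if_pos h5] at h4; linarith
        · rw [if_neg h5] at h4
          have := hC (show j < j + i by omega)
          linarith
      · intro i hi
        by_cases h3 : i = 0
        · rw [if_pos h3, h3, pow_zero, mul_one]; exact hFe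
        · rw [if_neg h3]; exact hFC i
  · have h1' : C j < s := lt_of_le_of_ne hs h1
    have hnr0 : -r ≠ 0 := neg_ne_zero.mpr hr0
    by_cases h2 : e = C (j + 1)
    · have hde : fv (P - p) e = 0 ∧ HasDerivAt (fv (P - p)) 0 e := by
        refine double_of_contact hsl hP hp (r := -r) ?_ ?_ hpe
        · rcases hr1 with h | h <;> rw [h] <;> norm_num
        · rw [h2, hCP, hr]; ring
      have hem : C (j + 1) ≤ C (j + m) := hCle _ _ (by omega)
      refine weak_alt_form_mult hF hFc (α := (C j + s) / 2) hnr0 {e} ?_
        (N := m) (Or.inl ?_) (y := fun i => if i = 0 then s else C (j + (i + 1))) ?_ ?_ ?_ ?_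
      · intro t ht
        rw [Finset.mem_singleton.mp ht]
        refine ⟨⟨by linarith, ?_⟩, hde⟩
        linarith
      · rw [Finset.card_singleton]
      · intro i hi
        by_cases h3 : i = 0
        · subst h3
          rw [if_pos rfl, if_neg (by omega)]
          have := hC (show j + 1 < j + (0 + 1 + 1) by omega)
          linarith
        · rw [if_neg h3, if_neg (by omega)]
          exact hC (by omega)
      · intro i hi
        by_cases h3 : i = 0
        · rw [if_pos h3]
          exact ⟨by linarith, by linarith⟩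
        · rw [if_neg h3]
          have h4 := hC (show j + 1 < j + (i + 1) by omega)
          have h5 := hCle (j + (i + 1)) (j + m) (by omega)
          exact ⟨by linarith, by linarith⟩
      · intro i hi h3
        have h4 := Finset.mem_singleton.mp h3
        by_cases h5 : i = 0
        · rw [if_pos h5] at h4; linarith
        · rw [if_neg h5] at h4
          have := hC (show j + 1 < j + (i + 1) by omega)
          linarith
      · intro i hi
        by_cases h3 : i = 0
        · rw [if_pos h3, h3, pow_zero, mul_one]; linarith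
        · rw [if_neg h3]
          have h4 := hFC (i + 1)
          have h5 : r * (-1) ^ (i + 1) = -r * (-1) ^ i := by ring
          rwa [h5] at h4
    · have h2' : e < C (j + 1) := lt_of_le_of_ne he h2
      have hem : C (j + 1) ≤ C (j + m) := hCle _ _ (by omega)
      refine weak_alt_form_mult hF hFc (α := (C j + s) / 2) hnr0 ∅ (by simp)
        (N := m + 2) (Or.inl (by simp))
        (y := fun i => if i = 0 then s else if i = 1 then e else C (j + (i - 1))) ?_ ?_
        (fun i _ => by simp) ?_
      · intro i hi
        by_cases h3 : i = 0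
        · subst h3
          rw [if_pos rfl, if_neg (by omega), if_pos (by omega)]
          exact hse
        · by_cases h4 : i = 1
          · subst h4
            rw [if_neg (by omega), if_pos rfl, if_neg (by omega), if_neg (by omega)]
            exact h2'
          · rw [if_neg h3, if_neg h4, if_neg (by omega), if_neg (by omega)]
            exact hC (by omega)
      · intro i hi
        by_cases h3 : i = 0
        · rw [if_pos h3]; exact ⟨by linarith, by linarith⟩
        · by_cases h4 : i = 1
          · rw [if_neg h3, if_pos h4]; exact ⟨by linarith, by linarith⟩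
          · rw [if_neg h3, if_neg h4]
            have h5 := hCle (j + 1) (j + (i - 1)) (by omega)
            have h6 := hCle (j + (i - 1)) (j + m) (by omega)
            exact ⟨by linarith, by linarith⟩
      · intro i hi
        by_cases h3 : i = 0
        · rw [if_pos h3, h3, pow_zero, mul_one]; linarith
        · by_cases h4 : i = 1
          · rw [if_neg h3, if_pos h4, h4, pow_one]; linarith
          · rw [if_neg h3, if_neg h4]
            have h5 := hFC (i - 1)
            obtain ⟨l, rfl⟩ : ∃ l, i = l + 1 := ⟨i - 1, by omega⟩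
            rw [Nat.add_sub_cancel] at h5 ⊢
            have h6 : -r * (-1) ^ (l + 1) = r * (-1) ^ l := by ring
            rw [h6]; exact h5

/-- The illuminating directions. -/
theorem exists_directions_sharp (hω : Continuous ω) (hper : Function.Periodic ω Real.pi)
    (hpos : ∀ t, 0 < ω t) (hsl : FormSlope m ω) (hm : 1 ≤ m) :
    ∃ D : Finset (EuclideanSpace ℝ (Fin (m + 1))),
      D.card ≤ 2 ^ m + 2 ∧ ∀ x ∈ formBall m ω, ∃ u ∈ D, ∃ δ : ℝ, 0 < δ ∧
        x - δ • u ∈ interior (formBall m ω) := by
  classical
  obtain ⟨P, hP, c, σ, hσ, hmono, hcm, hval, _⟩ := exists_snake_form' hω hper hpos hm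
  obtain ⟨C, hC, hCm, hCP⟩ := extend_contacts hper hm (x := P) (y := c) (r := σ)
    (fun i hi => hmono i (by omega))
    (by
      have := lt_of_succ hmono (m - 1) m (by omega) le_rfl
      rw [hcm] at this
      exact this) (fun i hi => hval i hi.le)
  have hC0m : C m = C 0 + Real.pi := by
    have := hCm 0
    rwa [zero_add] at this
  set a := C 0 with ha
  set Z : Finset ℝ := (Finset.Ico 1 m).image C with hZdef
  have hZc : Z.card ≤ m - 1 := Finset.card_image_le.trans (by simp)
  have hZab : ∀ z ∈ Z, a < z ∧ z < a + Real.pi := by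
    intro z hz
    obtain ⟨i, hi, rfl⟩ := Finset.mem_image.mp hz
    obtain ⟨h1, h2⟩ := Finset.mem_Ico.mp hi
    rw [← hC0m]
    exact ⟨hC (by omega), hC h2⟩
  have hfill : ∀ S ∈ Z.powerset, ∃ x : EuclideanSpace ℝ (Fin (m + 1)), ∃ r : ℕ,
      (r = 0 ∨ (r = 1 ∧ Odd (m + S.card))) ∧
      ∀ θ, fv x θ = Real.sin (θ - a) ^ r * ∏ z ∈ S, Real.sin (θ - z) := by
    intro S hS
    exact exists_filled' S ((Finset.card_le_card (Finset.mem_powerset.mp hS)).trans
      (hZc.trans (by omega))) a
  choose! Q r hr hQ using hfill
  refine ⟨(Z.powerset ×ˢ ({1, -1} : Finset ℝ)).image (fun q => q.2 • Q q.1) ∪ {P, -P}, ?_, ?_⟩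
  · have h2 : ({1, -1} : Finset ℝ).card ≤ 2 := Finset.card_le_two
    have h3 : ({P, -P} : Finset (EuclideanSpace ℝ (Fin (m + 1)))).card ≤ 2 := Finset.card_le_two
    have h4 : ((Z.powerset ×ˢ ({1, -1} : Finset ℝ)).image (fun q => q.2 • Q q.1)).card ≤
        2 ^ (m - 1) * 2 := by
      refine Finset.card_image_le.trans ?_
      rw [Finset.card_product, Finset.card_powerset]
      exact Nat.mul_le_mul (Nat.pow_le_pow_right (by norm_num) hZc) h2
    have h5 := Finset.card_union_le ((Z.powerset ×ˢ ({1, -1} : Finset ℝ)).image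
      (fun q => q.2 • Q q.1)) {P, -P}
    have h6 : 2 ^ m = 2 ^ (m - 1) * 2 := by
      rw [← pow_succ]; congr 1; omega
    omega
  · intro x hx
    have hneg : ∀ t, fv (-x) t = -fv x t := fun t => by
      have := fv_smul (-1) x t
      simpa using this
    have hnegball : -x ∈ formBall m ω := fun θ => by rw [hneg, abs_neg]; exact hx θ
    by_cases hcase : ∃ η : ℝ, (η = 1 ∨ η = -1) ∧ ∀ θ, fv P θ = fv (η • x) θ
    · -- `x = ± P`
      obtain ⟨η, hη, hrig⟩ := hcase
      have hηη : η * η = 1 := by rcases hη with h | h <;> rw [h] <;> norm_num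
      refine ⟨η • P, Finset.mem_union_right _ ?_, 1 / 2, by norm_num,
        strictFormBall_subset hω hper ?_⟩
      · rcases hη with h | h <;> simp [h]
      · intro θ
        have h1 := hrig θ
        rw [fv_smul] at h1
        rw [fv_sub, fv_smul, fv_smul, h1]
        have h2 : fv x θ - 1 / 2 * (η * (η * fv x θ)) = 1 / 2 * fv x θ := by
          rw [← mul_assoc η η, hηη]; ring
        rw [h2, abs_mul, abs_of_pos (by norm_num : (0 : ℝ) < 1 / 2)]
        linarith [hx θ, hpos θ]
    · push Not at hcase
      have hne1 : ¬ ∀ θ, fv P θ = fv x θ := by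
        intro h
        obtain ⟨θ, hθ⟩ := hcase 1 (Or.inl rfl)
        exact hθ (by rw [fv_smul, one_mul]; exact h θ)
      have hne2 : ¬ ∀ θ, fv P θ = fv (-x) θ := by
        intro h
        obtain ⟨θ, hθ⟩ := hcase (-1) (Or.inr rfl)
        exact hθ (by rw [fv_smul, h θ, hneg]; ring)
      obtain ⟨S, hS, ε, hε, hSC⟩ := sign_pattern Z
        {t | t ∈ Icc a (a + Real.pi) ∧ |fv x t| = ω t} (fv x)
        (by
          intro t ht h0
          have h1 := hpos t
          have h2 := ht.2
          rw [h0, abs_zero] at h2
          linarith)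
        (by
          intro s hs e he hse hsg
          by_contra hcon
          push Not at hcon
          obtain ⟨j, hj, hsj⟩ := exists_zone (c := C) (s := s) m hs.1.1
            (by rw [hC0m]; linarith [he.1.2])
          have hej : e ≤ C (j + 1) := by
            rcases Nat.lt_or_ge (j + 1) m with h1 | h1
            · exact hcon (C (j + 1)) (Finset.mem_image.mpr ⟨j + 1, Finset.mem_Ico.mpr
                ⟨by omega, h1⟩, rfl⟩) hsj.2
            · have : j + 1 = m := by omega
              rw [this, hC0m]; exact he.1.2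
          have hrj := sgn_pow hσ j
          have hws := hpos s
          have hwe := hpos e
          by_cases h1 : fv x s = σ * (-1) ^ j * ω s
          · have h2 : fv x e = -(σ * (-1) ^ j) * ω e := by
              refine contact_sign hrj he.2 fun h2 => ?_
              rw [h1, h2] at hsg
              have h3 : σ * (-1) ^ j * ω s * (σ * (-1) ^ j * ω e) =
                (σ * (-1) ^ j) ^ 2 * (ω s * ω e) := by ring
              rw [h3] at hsg
              have : 0 ≤ (σ * (-1) ^ j) ^ 2 * (ω s * ω e) := by positivity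
              linarith
            exact hne1 (gap_rigid hsl hm hP hx hσ hC hCm hCP hsj.1 hse hej h1 h2)
          · have h2 : fv x s = -(σ * (-1) ^ j) * ω s := contact_sign hrj hs.2 h1
            have h3 : fv x e = σ * (-1) ^ j * ω e := by
              by_contra h3
              have h4 := contact_sign hrj he.2 h3
              rw [h2, h4] at hsg
              have h5 : -(σ * (-1) ^ j) * ω s * (-(σ * (-1) ^ j) * ω e) =
                (σ * (-1) ^ j) ^ 2 * (ω s * ω e) := by ring
              rw [h5] at hsg
              have : 0 ≤ (σ * (-1) ^ j) ^ 2 * (ω s * ω e) := by positivity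
              linarith
            refine hne2 (gap_rigid hsl hm hP hnegball hσ hC hCm hCP hsj.1 hse hej ?_ ?_)
            · rw [hneg, h2]; ring
            · rw [hneg, h3]; ring)
      have hSp : S ∈ Z.powerset := Finset.mem_powerset.mpr hS
      refine ⟨ε • Q S, Finset.mem_union_left _ ?_, illum_form hω hper hpos hx a ?_⟩
      · refine Finset.mem_image.mpr ⟨(S, ε), ?_, rfl⟩
        refine Finset.mem_product.mpr ⟨hSp, ?_⟩
        rcases hε with h | h <;> simp [h]
      · intro t ht h
        have h1 := hSC t ⟨ht, h⟩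
        have h2 : ∏ z ∈ S, (t - z) ≠ 0 := fun h => by
          rw [h, mul_zero, zero_mul] at h1; exact lt_irrefl _ h1
        have h3 := prod_sin_sign (a := a) S (fun z hz => hZab z (hS hz)) ht h2
        have h5 : 0 < (∏ z ∈ S, (t - z)) ^ 2 *
            (ε * (∏ z ∈ S, Real.sin (t - z)) * fv x t) := by
          have h6 := mul_pos h1 h3
          have h7 : ε * (∏ z ∈ S, (t - z)) * fv x t *
              ((∏ z ∈ S, (t - z)) * ∏ z ∈ S, Real.sin (t - z)) =
              (∏ z ∈ S, (t - z)) ^ 2 * (ε * (∏ z ∈ S, Real.sin (t - z)) * fv x t) := by ring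
          rwa [h7] at h6
        have h8 : 0 < ε * (∏ z ∈ S, Real.sin (t - z)) * fv x t :=
          (mul_pos_iff_of_pos_left (by positivity)).mp h5
        rw [fv_smul, hQ S hSp t]
        have h9 : ε * (Real.sin (t - a) ^ r S * ∏ z ∈ S, Real.sin (t - z)) * fv x t =
          Real.sin (t - a) ^ r S * (ε * (∏ z ∈ S, Real.sin (t - z)) * fv x t) := by ring
        rw [h9]
        refine mul_pos ?_ h8
        rcases hr S hSp with h10 | ⟨h10, h11⟩
        · rw [h10, pow_zero]; exact one_pos
        · rw [h10, pow_one]
          -- `t` is not at the seam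
          have hseam : ¬ (|fv x a| = ω a) := by
            intro h12
            have h13 : |fv x (a + Real.pi)| = ω (a + Real.pi) := by
              rw [abs_fv_add_pi, h12, hper a]
            have e1 := hSC a ⟨⟨le_rfl, by linarith [Real.pi_pos]⟩, h12⟩
            have e2 := hSC (a + Real.pi) ⟨⟨by linarith [Real.pi_pos], le_rfl⟩, h13⟩
            have e3 : 0 < ∏ z ∈ S, (a + Real.pi - z) := Finset.prod_pos fun z hz => by
              linarith [(hZab z (hS hz)).2]
            have e4 : ∏ z ∈ S, (a - z) = (-1) ^ S.card * ∏ z ∈ S, (z - a) := by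
              rw [← Finset.prod_const, ← Finset.prod_mul_distrib]
              exact Finset.prod_congr rfl fun z _ => by ring
            have e5 : 0 < ∏ z ∈ S, (z - a) := Finset.prod_pos fun z hz => by
              linarith [(hZab z (hS hz)).1]
            rw [fv_add_pi] at e2
            rw [e4] at e1
            have e6 := mul_pos e1 e2
            have e7 : ε * ((-1) ^ S.card * ∏ z ∈ S, (z - a)) * fv x a *
                (ε * (∏ z ∈ S, (a + Real.pi - z)) * ((-1) ^ m * fv x a)) =
                (-1) ^ (m + S.card) * ((∏ z ∈ S, (z - a)) * (∏ z ∈ S, (a + Real.pi - z)) *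
                (ε * fv x a) ^ 2) := by
              rw [pow_add]; ring
            rw [e7, h11.neg_one_pow] at e6
            have e8 : 0 ≤ (∏ z ∈ S, (z - a)) * (∏ z ∈ S, (a + Real.pi - z)) *
                (ε * fv x a) ^ 2 := by positivity
            linarith
          have hta : a < t := by
            rcases ht.1.lt_or_eq with h14 | h14
            · exact h14
            · rw [← h14] at h; exact absurd h hseam
          have htb : t < a + Real.pi := by
            rcases ht.2.lt_or_eq with h14 | h14
            · exact h14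
            · rw [h14, abs_fv_add_pi, hper a] at h; exact absurd h hseam
          exact Real.sin_pos_of_pos_of_lt_pi (by linarith) (by linarith)

/-- **The covering theorem**, with `2 ^ m + 2` translates. -/
theorem cover_sharp (hω : Continuous ω) (hper : Function.Periodic ω Real.pi)
    (hpos : ∀ t, 0 < ω t) (hsl : FormSlope m ω) (hm : 1 ≤ m) :
    ∃ T : Finset (EuclideanSpace ℝ (Fin (m + 1))), T.card ≤ 2 ^ m + 2 ∧
      formBall m ω ⊆ ⋃ t ∈ T, (fun x => t + x) '' interior (formBall m ω) := by
  obtain ⟨D, hD, hD'⟩ := exists_directions_sharp hω hper hpos hsl hm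
  obtain ⟨T, hT, hT'⟩ := cover_of_illum isCompact_formBall convex_formBall D hD'
  exact ⟨T, hT.trans hD, hT'⟩

end Pool.Agent.H283.Cheb
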