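import Mathlib
import Pool.Agent.H283.Cheb.Sharp
import Pool.Agent.H283.Cheb.HullCompact

/-!
The dual form: hyperplanes which separate the faces of the symmetric convex hull of a curve
from its centre.
-/

namespace Pool.Agent.H283.Cheb

open Set Filter Topology
open scoped InnerProductSpace

section general

variable {E : Type*} [NormedAddCommGroup E] [InnerProductSpace ℝ E]

/-- A covering of the polar body `B` of `K` by translates of its interior gives hyperplanes which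
separate the faces of `K` from `0`. -/
theorem sep_of_polar_cover {B K : Set E} (hB : IsCompact B) (h0 : (0 : E) ∈ interior K)
    (hBK : ∀ v ∈ B, ∀ y ∈ K, ⟪v, y⟫_ℝ ≤ 1) (hKB : ∀ v, (∀ y ∈ K, ⟪v, y⟫_ℝ ≤ 1) → v ∈ B)
    (T : Finset E) (hT : B ⊆ ⋃ t ∈ T, (fun x => t + x) '' interior B) :
    ∃ b : ℝ, 0 < b ∧ ∀ u x₀ : E, u ≠ 0 → x₀ ∈ K → (∀ y ∈ K, ⟪u, y⟫_ℝ ≤ ⟪u, x₀⟫_ℝ) →
      ∃ t ∈ T, ∀ x ∈ K, ⟪u, x⟫_ℝ = ⟪u, x₀⟫_ℝ → b < ⟪t, x⟫_ℝ := by
  obtain ⟨C, hC0, hC⟩ : ∃ C : ℝ, 0 < C ∧ ∀ v ∈ B, ‖v‖ ≤ C := by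
    obtain ⟨C, hC⟩ := hB.isBounded.exists_norm_le
    exact ⟨max C 1, by positivity, fun v hv => (hC v hv).trans (le_max_left _ _)⟩
  obtain ⟨δ, hδ, hleb⟩ : ∃ δ > 0, ∀ v ∈ B, ∃ t ∈ T,
      Metric.ball v δ ⊆ (fun x => t + x) '' interior B := by
    have hop : ∀ t : T, IsOpen ((fun x => (t : E) + x) '' interior B) :=
      fun t => (Homeomorph.addLeft (t : E)).isOpenMap _ isOpen_interior
    have hcov : B ⊆ ⋃ t : T, (fun x => (t : E) + x) '' interior B := by
      intro v hv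
      have h := hT hv
      simp only [mem_iUnion] at h ⊢
      obtain ⟨t, ht, h⟩ := h
      exact ⟨⟨t, ht⟩, h⟩
    obtain ⟨δ, hδ, h⟩ := lebesgue_number_lemma_of_metric hB hop hcov
    refine ⟨δ, hδ, fun v hv => ?_⟩
    obtain ⟨t, ht⟩ := h v hv
    exact ⟨t, t.2, ht⟩
  refine ⟨δ / 2 * (1 / C) / 2, by positivity, fun u x₀ hu hx₀ hmax => ?_⟩
  have hun : 0 < ‖u‖ := norm_pos_iff.mpr hu
  have hpos : 0 < ⟪u, x₀⟫_ℝ := by
    obtain ⟨r, hr, hr'⟩ := Metric.isOpen_iff.mp isOpen_interior 0 h0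
    have hy : (r / 2 / ‖u‖) • u ∈ K := by
      refine interior_subset (hr' ?_)
      rw [mem_ball_zero_iff, norm_smul, Real.norm_eq_abs, abs_of_pos (by positivity),
        div_mul_cancel₀ _ hun.ne']
      linarith
    have h := hmax _ hy
    rw [real_inner_smul_right, real_inner_self_eq_norm_sq] at h
    have : 0 < r / 2 / ‖u‖ * ‖u‖ ^ 2 := by positivity
    linarith
  set c : ℝ := ⟪u, x₀⟫_ℝ with hc
  have hvB : c⁻¹ • u ∈ B := by
    refine hKB _ fun y hy => ?_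
    rw [real_inner_smul_left, inv_mul_le_iff₀ hpos, mul_one]
    exact hmax y hy
  obtain ⟨t, htT, ht⟩ := hleb _ hvB
  refine ⟨t, htT, fun x hx hxu => ?_⟩
  have h1 : ⟪c⁻¹ • u, x⟫_ℝ = 1 := by
    rw [real_inner_smul_left, hxu, inv_mul_cancel₀ hpos.ne']
  have h2 : 1 / C ≤ ‖x‖ := by
    have h3 := real_inner_le_norm (c⁻¹ • u) x
    rw [h1] at h3
    have h4 : ‖c⁻¹ • u‖ * ‖x‖ ≤ C * ‖x‖ := by gcongr; exact hC _ hvB
    rw [div_le_iff₀ hC0]
    linarith
  have hxn : 0 < ‖x‖ := lt_of_lt_of_le (by positivity) h2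
  have hz : c⁻¹ • u + (δ / 2 / ‖x‖) • x ∈ Metric.ball (c⁻¹ • u) δ := by
    rw [Metric.mem_ball, dist_eq_norm, add_sub_cancel_left, norm_smul, Real.norm_eq_abs,
      abs_of_pos (by positivity), div_mul_cancel₀ _ hxn.ne']
    linarith
  obtain ⟨p, hp, hpe⟩ := ht hz
  have hp' : ⟪p, x⟫_ℝ ≤ 1 := hBK p (interior_subset hp) x hx
  have hpe' : p = c⁻¹ • u + (δ / 2 / ‖x‖) • x - t := by rw [← hpe]; simp
  rw [hpe', inner_sub_left, inner_add_left, h1, real_inner_smul_left,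
    real_inner_self_eq_norm_sq] at hp'
  have e : δ / 2 / ‖x‖ * ‖x‖ ^ 2 = δ / 2 * ‖x‖ := by field_simp
  rw [e] at hp'
  have h5 : δ / 2 * (1 / C) ≤ δ / 2 * ‖x‖ := by gcongr
  have h6 : 0 < δ / 2 * (1 / C) := by positivity
  linarith

omit [InnerProductSpace ℝ E] in
theorem exists_enum (T : Finset E) {N : ℕ} (h : T.card ≤ N) : ∃ w : Fin N → E,
    ∀ t ∈ T, ∃ i, w i = t := by
  classical
  refine ⟨fun i => if h : (i : ℕ) < T.card then (T.equivFin.symm ⟨i, h⟩ : E) else 0,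
    fun t ht => ?_⟩
  refine ⟨⟨T.equivFin ⟨t, ht⟩, (T.equivFin ⟨t, ht⟩).2.trans_le h⟩, ?_⟩
  simp

end general

variable {m : ℕ} {ω : ℝ → ℝ}

/-- The curve of the forms of degree `m`. -/
noncomputable def formCurve (m : ℕ) (θ : ℝ) : EuclideanSpace ℝ (Fin (m + 1)) :=
  WithLp.toLp 2 (fun i => Real.cos θ ^ (m - (i : ℕ)) * Real.sin θ ^ (i : ℕ))

theorem inner_formCurve (x : EuclideanSpace ℝ (Fin (m + 1))) (θ : ℝ) :
    ⟪x, formCurve m θ⟫_ℝ = fv x θ := by
  unfold fv formCurve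
  rw [PiLp.inner_apply]
  refine Finset.sum_congr rfl fun i _ => ?_
  simp only [RCLike.inner_apply, conj_trivial]
  ring

theorem continuous_formCurve : Continuous (formCurve m) := by
  unfold formCurve
  refine (PiLp.continuous_toLp 2 _).comp ?_
  fun_prop

theorem formCurve_add_pi (θ : ℝ) : formCurve m (θ + Real.pi) = (-1 : ℝ) ^ m • formCurve m θ := by
  refine ext_inner_left ℝ fun v => ?_
  rw [inner_formCurve, inner_smul_right, inner_formCurve, fv_add_pi]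

/-- The symmetric convex hull of the curve `formCurve / ω`. -/
def formHull (m : ℕ) (ω : ℝ → ℝ) : Set (EuclideanSpace ℝ (Fin (m + 1))) :=
  convexHull ℝ (range (fun θ => (ω θ)⁻¹ • formCurve m θ) ∪
    range (fun θ => -((ω θ)⁻¹ • formCurve m θ)))

theorem mem_formBall_iff_dual (hpos : ∀ t, 0 < ω t) (v : EuclideanSpace ℝ (Fin (m + 1))) :
    v ∈ formBall m ω ↔ ∀ y ∈ formHull m ω, ⟪v, y⟫_ℝ ≤ 1 := by
  constructor
  · intro hv y hy
    have hconv : Convex ℝ {y : EuclideanSpace ℝ (Fin (m + 1)) | ⟪v, y⟫_ℝ ≤ 1} := by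
      intro y hy z hz a b ha hb hab
      simp only [mem_ofPred_eq] at hy hz ⊢
      rw [inner_add_right, real_inner_smul_right, real_inner_smul_right]
      nlinarith
    refine convexHull_min ?_ hconv hy
    rintro _ (⟨θ, rfl⟩ | ⟨θ, rfl⟩)
    · simp only [mem_ofPred_eq]
      rw [real_inner_smul_right, inner_formCurve, inv_mul_le_iff₀ (hpos θ), mul_one]
      exact (le_abs_self _).trans (hv θ)
    · simp only [mem_ofPred_eq]
      rw [inner_neg_right, real_inner_smul_right, inner_formCurve, ← mul_neg,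
        inv_mul_le_iff₀ (hpos θ), mul_one]
      exact (neg_le_abs _).trans (hv θ)
  · intro h θ
    have h1 := h _ (subset_convexHull ℝ _ (Or.inl ⟨θ, rfl⟩))
    have h2 := h _ (subset_convexHull ℝ _ (Or.inr ⟨θ, rfl⟩))
    simp only at h1 h2
    rw [real_inner_smul_right, inner_formCurve, inv_mul_le_iff₀ (hpos θ), mul_one] at h1
    rw [inner_neg_right, real_inner_smul_right, inner_formCurve, ← mul_neg,
      inv_mul_le_iff₀ (hpos θ), mul_one] at h2
    exact abs_le.mpr ⟨by linarith, h1⟩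

theorem isCompact_formHull (hω : Continuous ω) (hper : Function.Periodic ω Real.pi)
    (hpos : ∀ t, 0 < ω t) : IsCompact (formHull m ω) := by
  have hg : Continuous (fun θ => (ω θ)⁻¹ • formCurve m θ) :=
    (hω.inv₀ fun t => (hpos t).ne').smul continuous_formCurve
  have hper2 : Function.Periodic (fun θ => (ω θ)⁻¹ • formCurve m θ) (2 * Real.pi) := by
    intro θ
    simp only
    have h1 : θ + 2 * Real.pi = θ + Real.pi + Real.pi := by ring
    rw [h1, formCurve_add_pi, formCurve_add_pi, hper (θ + Real.pi), hper θ, smul_smul ((-1) ^ m),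
      ← mul_pow]
    norm_num
  have hr : IsCompact (range (fun θ => (ω θ)⁻¹ • formCurve m θ)) := by
    rw [← hper2.image_uIcc (by positivity) 0]
    exact isCompact_uIcc.image hg
  have hr2 : IsCompact (range (fun θ => -((ω θ)⁻¹ • formCurve m θ))) := by
    have : range (fun θ => -((ω θ)⁻¹ • formCurve m θ)) =
        (fun y => -y) '' range (fun θ => (ω θ)⁻¹ • formCurve m θ) := by
      rw [← range_comp]; rfl
    rw [this]
    exact hr.image continuous_neg
  exact isCompact_convexHull_of_isCompact (hr.union hr2)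

theorem zero_mem_interior_formHull (hω : Continuous ω) (hper : Function.Periodic ω Real.pi)
    (hpos : ∀ t, 0 < ω t) : (0 : EuclideanSpace ℝ (Fin (m + 1))) ∈ interior (formHull m ω) := by
  obtain ⟨C, hC0, hC⟩ : ∃ C : ℝ, 0 < C ∧ ∀ v ∈ formBall m ω, ‖v‖ ≤ C := by
    obtain ⟨C, hC⟩ := (isCompact_formBall (m := m) (ω := ω)).isBounded.exists_norm_le
    exact ⟨max C 1, by positivity, fun v hv => (hC v hv).trans (le_max_left _ _)⟩
  have hK := isCompact_formHull (m := m) hω hper hpos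
  have hKc : Convex ℝ (formHull m ω) := convex_convexHull ℝ _
  have h0 : (0 : EuclideanSpace ℝ (Fin (m + 1))) ∈ formHull m ω := by
    have h1 : (ω 0)⁻¹ • formCurve m 0 ∈ formHull m ω :=
      subset_convexHull ℝ _ (Or.inl ⟨0, rfl⟩)
    have h2 : -((ω 0)⁻¹ • formCurve m 0) ∈ formHull m ω :=
      subset_convexHull ℝ _ (Or.inr ⟨0, rfl⟩)
    have h3 := hKc h1 h2 (a := 1 / 2) (b := 1 / 2) (by norm_num) (by norm_num) (by norm_num)
    rwa [smul_neg, add_neg_cancel] at h3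
  refine mem_interior.mpr ⟨Metric.ball 0 (1 / C), ?_, Metric.isOpen_ball, by
    simp only [Metric.mem_ball, dist_self]; positivity⟩
  intro x hx
  by_contra hxn
  obtain ⟨f, s, hs, hs2⟩ := geometric_hahn_banach_closed_point hKc hK.isClosed hxn
  set v : EuclideanSpace ℝ (Fin (m + 1)) :=
    (InnerProductSpace.toDual ℝ (EuclideanSpace ℝ (Fin (m + 1)))).symm f with hv
  have hfv : ∀ w, f w = ⟪v, w⟫_ℝ := by
    intro w
    rw [hv, InnerProductSpace.toDual_symm_apply]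
  have hs0 : 0 < s := by
    have := hs 0 h0
    rwa [map_zero] at this
  have hvB : s⁻¹ • v ∈ formBall m ω := by
    rw [mem_formBall_iff_dual hpos]
    intro y hy
    rw [real_inner_smul_left, inv_mul_le_iff₀ hs0, mul_one, ← hfv]
    exact (hs y hy).le
  have h1 := hC _ hvB
  rw [norm_smul, Real.norm_eq_abs, abs_of_pos (inv_pos.mpr hs0), inv_mul_le_iff₀ hs0] at h1
  rw [mem_ball_zero_iff] at hx
  have h2 : f x ≤ s := by
    rw [hfv]
    calc ⟪v, x⟫_ℝ ≤ ‖v‖ * ‖x‖ := real_inner_le_norm _ _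
      _ ≤ (s * C) * (1 / C) := by gcongr
      _ = s := by field_simp
  linarith

/-- **The dual theorem.** -/
theorem separated_formHull (hω : Continuous ω) (hper : Function.Periodic ω Real.pi)
    (hpos : ∀ t, 0 < ω t) (hsl : FormSlope m ω) (hm : 1 ≤ m) :
    ∃ w : Fin (2 ^ m + 2) → EuclideanSpace ℝ (Fin (m + 1)), ∃ b : Fin (2 ^ m + 2) → ℝ,
      ∀ u x₀ : EuclideanSpace ℝ (Fin (m + 1)), u ≠ 0 → x₀ ∈ formHull m ω →
        (∀ y ∈ formHull m ω, ⟪u, y⟫_ℝ ≤ ⟪u, x₀⟫_ℝ) →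
          ∃ i, ⟪w i, (0 : EuclideanSpace ℝ (Fin (m + 1)))⟫_ℝ < b i ∧
            ∀ x ∈ formHull m ω, ⟪u, x⟫_ℝ = ⟪u, x₀⟫_ℝ → b i < ⟪w i, x⟫_ℝ := by
  obtain ⟨T, hTc, hT⟩ := cover_sharp hω hper hpos hsl hm
  obtain ⟨b, hb, hsep⟩ := sep_of_polar_cover (B := formBall m ω) (K := formHull m ω)
    isCompact_formBall (zero_mem_interior_formHull hω hper hpos)
    (fun v hv => (mem_formBall_iff_dual hpos v).mp hv)
    (fun v hv => (mem_formBall_iff_dual hpos v).mpr hv) T hT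
  obtain ⟨w, hw⟩ := exists_enum T hTc
  refine ⟨w, fun _ => b, fun u x₀ hu hx₀ hmax => ?_⟩
  obtain ⟨t, ht, ht'⟩ := hsep u x₀ hu hx₀ hmax
  obtain ⟨i, rfl⟩ := hw t ht
  exact ⟨i, by rw [inner_zero_right]; exact hb, ht'⟩

end Pool.Agent.H283.Cheb
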