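import Mathlib
import Pool.Agent.H283.Cheb.WeakAlt

/-!
Weak alternation and prescribed zeros in spaces spanned by `1` and functions whose derivatives
form a Markov system.
-/

namespace Pool.Agent.H283.Cheb

open Set Filter Topology

/-- The combinations of the first `k` functions `v 0, ..., v (k - 1)`. -/
def lin (v : ℕ → ℝ → ℝ) (k : ℕ) (y : ℕ → ℝ) (t : ℝ) : ℝ := ∑ i ∈ Finset.range k, y i * v i t

/-- The combinations of `1` and the first `k` functions `U 0, ..., U (k - 1)`. -/
def comb (U : ℕ → ℝ → ℝ) (k : ℕ) (x : ℕ → ℝ) (t : ℝ) : ℝ :=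
  x 0 + ∑ i ∈ Finset.range k, x (i + 1) * U i t

/-- Nontrivial combinations of `v 0, ..., v (k - 1)` have less than `k` zeros in `(a, b)`. -/
def ChebAt (v : ℕ → ℝ → ℝ) (a b : ℝ) (k : ℕ) : Prop :=
  ∀ y : ℕ → ℝ, (∃ i < k, y i ≠ 0) → ∀ Z : Finset ℝ,
    (∀ z ∈ Z, (a < z ∧ z < b) ∧ lin v k y z = 0) → Z.card < k

theorem lin_add_mul {v : ℕ → ℝ → ℝ} {k : ℕ} (y g : ℕ → ℝ) (ε t : ℝ) :
    lin v k (fun i => y i + ε * g i) t = lin v k y t + ε * lin v k g t := by
  unfold lin
  rw [Finset.mul_sum, ← Finset.sum_add_distrib]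
  exact Finset.sum_congr rfl fun i _ => by ring

/-- **Weak alternation** in a Chebyshev space. -/
theorem weak_alt_lin {v : ℕ → ℝ → ℝ} {a b : ℝ} {k : ℕ} (hM : ChebAt v a b k)
    (hivt : ∀ (y : ℕ → ℝ) (s t : ℝ), a < s → s < t → t < b →
      lin v k y s * lin v k y t < 0 → ∃ z, s < z ∧ z < t ∧ lin v k y z = 0)
    {y ξ : ℕ → ℝ} (hξ : ∀ i < k, ξ i < ξ (i + 1)) (h0 : a < ξ 0) (hk : ξ k < b)
    (hs : ∀ i ≤ k, 0 ≤ (-1) ^ i * lin v k y (ξ i)) : ∀ i < k, y i = 0 := by
  classical
  by_contra hcon
  push Not at hcon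
  obtain ⟨i0, hi0, hy0⟩ := hcon
  have hlt := lt_of_succ hξ
  have hab : ∀ i ≤ k, a < ξ i ∧ ξ i < b := by
    intro i hi
    constructor
    · rcases Nat.eq_zero_or_pos i with h | h
      · rw [h]; exact h0
      · exact h0.trans (hlt 0 i h hi)
    · rcases hi.lt_or_eq with h | h
      · exact (hlt i k h le_rfl).trans hk
      · rw [h]; exact hk
  -- a point where the combination does not vanish
  obtain ⟨j, hj, hyj⟩ : ∃ j ≤ k, lin v k y (ξ j) ≠ 0 := by
    by_contra hall
    push Not at hall
    have h1 := hM y ⟨i0, hi0, hy0⟩ ((Finset.range (k + 1)).image ξ) (by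
      intro z hz
      obtain ⟨i, hi, rfl⟩ := Finset.mem_image.mp hz
      have hi' : i ≤ k := Nat.lt_succ_iff.mp (Finset.mem_range.mp hi)
      exact ⟨hab i hi', hall i hi'⟩)
    rw [Finset.card_image_of_injOn, Finset.card_range] at h1
    · omega
    · intro i hi l hl hil
      have hi' : i ≤ k := Nat.lt_succ_iff.mp (Finset.mem_range.mp hi)
      have hl' : l ≤ k := Nat.lt_succ_iff.mp (Finset.mem_range.mp hl)
      rcases lt_trichotomy i l with h | h | h
      · have := hlt i l h hl'; linarith
      · exact h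
      · have := hlt l i h hi'; linarith
  -- interpolation at the other points
  set idx : Fin k → ℕ := fun i => if (i : ℕ) < j then i else i + 1 with hidx
  have hidxk : ∀ i : Fin k, idx i ≤ k := by
    intro i
    rw [hidx]
    simp only
    split <;> omega
  have hidxinj : ∀ i l : Fin k, idx i = idx l → i = l := by
    intro i l h
    rw [hidx] at h
    simp only at h
    apply Fin.ext
    split at h <;> split at h <;> omega
  let L : (Fin k → ℝ) →ₗ[ℝ] (Fin k → ℝ) :=
    { toFun := fun c i => ∑ l : Fin k, c l * v l (ξ (idx i))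
      map_add' := by
        intro c d; funext i
        simp only [Pi.add_apply, add_mul, Finset.sum_add_distrib]
      map_smul' := by
        intro r c; funext i
        simp only [Pi.smul_apply, smul_eq_mul, RingHom.id_apply, Finset.mul_sum, mul_assoc] }
  have hext : ∀ (c : Fin k → ℝ) (t : ℝ),
      lin v k (fun i => if h : i < k then c ⟨i, h⟩ else 0) t = ∑ l : Fin k, c l * v l t := by
    intro c t
    unfold lin
    rw [Finset.sum_range]
    refine Finset.sum_congr rfl fun l _ => ?_
    simp only [dif_pos l.2]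
  have hinj : Function.Injective L := by
    rw [injective_iff_map_eq_zero]
    intro c hc
    by_contra hc0
    obtain ⟨l, hl⟩ := Function.ne_iff.mp hc0
    have h1 := hM (fun i => if h : i < k then c ⟨i, h⟩ else 0) ⟨l, l.2, by
      rw [dif_pos l.2]; exact hl⟩ (Finset.univ.image (fun i => ξ (idx i))) (by
      intro z hz
      obtain ⟨i, _, rfl⟩ := Finset.mem_image.mp hz
      refine ⟨hab _ (hidxk i), ?_⟩
      rw [hext]
      exact congrFun hc i)
    rw [Finset.card_image_of_injective, Finset.card_univ, Fintype.card_fin] at h1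
    · exact lt_irrefl _ h1
    · intro i l h
      apply hidxinj
      rcases lt_trichotomy (idx i) (idx l) with h2 | h2 | h2
      · have := hlt _ _ h2 (hidxk l)
        simp only at h; linarith
      · exact h2
      · have := hlt _ _ h2 (hidxk i)
        simp only at h; linarith
  obtain ⟨c, hc⟩ := LinearMap.injective_iff_surjective.mp hinj (fun i => (-1) ^ (idx i))
  set g : ℕ → ℝ := fun i => if h : i < k then c ⟨i, h⟩ else 0 with hg
  have hgv : ∀ i ≤ k, i ≠ j → lin v k g (ξ i) = (-1) ^ i := by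
    intro i hi hij
    have h1 : ∃ l : Fin k, idx l = i := by
      rcases lt_or_gt_of_ne hij with h | h
      · exact ⟨⟨i, by omega⟩, by rw [hidx]; simp only [if_pos h]⟩
      · refine ⟨⟨i - 1, by omega⟩, ?_⟩
        rw [hidx]
        simp only [if_neg (show ¬ i - 1 < j by omega)]
        omega
    obtain ⟨l, rfl⟩ := h1
    rw [hg, hext]
    exact congrFun hc l
  set A : ℝ := (-1) ^ j * lin v k y (ξ j) with hA
  have hApos : 0 < A := by
    refine lt_of_le_of_ne (hs j hj) (Ne.symm ?_)
    exact mul_ne_zero (pow_ne_zero _ (by norm_num)) hyj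
  set B : ℝ := |lin v k g (ξ j)| with hB
  have hB0 : 0 ≤ B := abs_nonneg _
  set ε : ℝ := A / (2 * (B + 1)) with hε
  have hε0 : 0 < ε := by positivity
  have hstrict : ∀ i ≤ k, 0 < (-1) ^ i * lin v k (fun l => y l + ε * g l) (ξ i) := by
    intro i hi
    rw [lin_add_mul, mul_add]
    by_cases hij : i = j
    · subst hij
      have h1 : -B ≤ (-1) ^ i * lin v k g (ξ i) := by
        have h2 := neg_abs_le ((-1) ^ i * lin v k g (ξ i))
        rwa [abs_mul, abs_pow, abs_neg, abs_one, one_pow, one_mul] at h2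
      have h2 : ε * B < A := by
        rw [hε, div_mul_eq_mul_div, div_lt_iff₀ (by positivity)]
        nlinarith
      have h3 : (-1) ^ i * (ε * lin v k g (ξ i)) = ε * ((-1) ^ i * lin v k g (ξ i)) := by ring
      rw [h3]
      have h4 : ε * -B ≤ ε * ((-1) ^ i * lin v k g (ξ i)) :=
        mul_le_mul_of_nonneg_left h1 hε0.le
      linarith
    · rw [hgv i hi hij]
      have h1 : (-1 : ℝ) ^ i * (ε * (-1) ^ i) = ε := by
        have : (-1 : ℝ) ^ i * (-1) ^ i = 1 := by rw [← mul_pow]; norm_num
        linear_combination ε * this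
      rw [h1]
      linarith [hs i hi]
  -- zeros
  have hz : ∀ i, ∃ z, i < k → ξ i < z ∧ z < ξ (i + 1) ∧
      lin v k (fun l => y l + ε * g l) z = 0 := by
    intro i
    by_cases hi : i < k
    · have h1 := hstrict i hi.le
      have h2 := hstrict (i + 1) hi
      have h3 : lin v k (fun l => y l + ε * g l) (ξ i) *
          lin v k (fun l => y l + ε * g l) (ξ (i + 1)) < 0 := by
        have h4 := mul_pos h1 h2
        have h5 : (-1 : ℝ) ^ i * lin v k (fun l => y l + ε * g l) (ξ i) *
            ((-1) ^ (i + 1) * lin v k (fun l => y l + ε * g l) (ξ (i + 1))) =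
            -(((-1) ^ i * (-1) ^ i) * (lin v k (fun l => y l + ε * g l) (ξ i) *
            lin v k (fun l => y l + ε * g l) (ξ (i + 1)))) := by ring
        have h6 : (-1 : ℝ) ^ i * (-1) ^ i = 1 := by rw [← mul_pow]; norm_num
        rw [h5, h6] at h4
        linarith
      obtain ⟨z, hz1, hz2, hz3⟩ := hivt _ _ _ (hab i hi.le).1 (hξ i hi) (hab (i + 1) hi).2 h3
      exact ⟨z, fun _ => ⟨hz1, hz2, hz3⟩⟩
    · exact ⟨0, fun h => absurd h hi⟩
  choose z hz using hz
  have hne : ∃ i < k, y i + ε * g i ≠ 0 := by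
    by_contra hall
    push Not at hall
    have h1 := hstrict 0 (Nat.zero_le _)
    have h2 : lin v k (fun l => y l + ε * g l) (ξ 0) = 0 := by
      unfold lin
      refine Finset.sum_eq_zero fun i hi => ?_
      simp only [hall i (Finset.mem_range.mp hi), zero_mul]
    rw [h2, mul_zero] at h1
    exact lt_irrefl _ h1
  have hfin := hM _ hne ((Finset.range k).image z) (by
    intro t ht
    obtain ⟨i, hi, rfl⟩ := Finset.mem_image.mp ht
    have hi' := Finset.mem_range.mp hi
    obtain ⟨h1, h2, h3⟩ := hz i hi'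
    exact ⟨⟨(hab i hi'.le).1.trans h1, h2.trans (hab (i + 1) hi').2⟩, h3⟩)
  rw [Finset.card_image_of_injOn, Finset.card_range] at hfin
  · exact lt_irrefl _ hfin
  · have hzlt : ∀ i l, i < l → l < k → z i < z l := by
      intro i l hil hl
      have h1 := (hz i (by omega)).2.1
      have h2 := (hz l hl).1
      rcases Nat.lt_or_ge (i + 1) l with h | h
      · have := hlt (i + 1) l h hl.le
        linarith
      · have : l = i + 1 := by omega
        subst this
        linarith
    intro i hi l hl hil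
    have hi' := Finset.mem_range.mp hi
    have hl' := Finset.mem_range.mp hl
    rcases lt_trichotomy i l with h | h | h
    · have := hzlt i l h hl'; linarith
    · exact h
    · have := hzlt l i h hi'; linarith

/-- The data of the system: `v i` is the derivative of `U i`. -/
structure Sys (U v : ℕ → ℝ → ℝ) (a b : ℝ) (n : ℕ) : Prop where
  cont : ∀ i < n, Continuous (U i)
  deriv : ∀ i < n, ∀ t, a < t → t < b → HasDerivAt (U i) (v i t) t
  cheb : ∀ k ≤ n, ChebAt v a b k

theorem comb_hasDerivAt {U v : ℕ → ℝ → ℝ} {a b : ℝ} {n : ℕ} (hS : Sys U v a b n) {k : ℕ}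
    (hk : k ≤ n) (x : ℕ → ℝ) {t : ℝ} (h1 : a < t) (h2 : t < b) :
    HasDerivAt (comb U k x) (lin v k (fun i => x (i + 1)) t) t := by
  have h : HasDerivAt (fun t => x 0 + ∑ i ∈ Finset.range k, x (i + 1) * U i t)
      (0 + ∑ i ∈ Finset.range k, x (i + 1) * v i t) t := by
    refine (hasDerivAt_const t (x 0)).add ?_
    have := HasDerivAt.sum (u := Finset.range k) (A := fun i t => x (i + 1) * U i t)
      (A' := fun i => x (i + 1) * v i t) (x := t) (fun i hi =>
        (hS.deriv i (by have := Finset.mem_range.mp hi; omega) t h1 h2).const_mul (x (i + 1)))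
    convert this using 1
    funext s
    simp
  rw [zero_add] at h
  exact h

theorem comb_continuous {U v : ℕ → ℝ → ℝ} {a b : ℝ} {n : ℕ} (hS : Sys U v a b n) {k : ℕ}
    (hk : k ≤ n) (x : ℕ → ℝ) : Continuous (comb U k x) := by
  unfold comb
  refine continuous_const.add (continuous_finsetSum _ fun i hi => ?_)
  exact continuous_const.mul (hS.cont i (by have := Finset.mem_range.mp hi; omega))

theorem lin_ivt {U v : ℕ → ℝ → ℝ} {a b : ℝ} {n : ℕ} (hS : Sys U v a b n) {k : ℕ}
    (hk : k ≤ n) (y : ℕ → ℝ) (s t : ℝ) (hs : a < s) (hst : s < t) (ht : t < b)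
    (h : lin v k y s * lin v k y t < 0) : ∃ z, s < z ∧ z < t ∧ lin v k y z = 0 := by
  have hd : ∀ r ∈ Icc s t, HasDerivWithinAt (comb U k (fun i => y (i - 1))) (lin v k y r)
      (Icc s t) r := by
    intro r hr
    have := comb_hasDerivAt hS hk (fun i => y (i - 1)) (t := r) (by linarith [hr.1])
      (by linarith [hr.2])
    exact this.hasDerivWithinAt
  rcases lt_or_ge (lin v k y s) 0 with h1 | h1
  · have h2 : 0 < lin v k y t := by
      by_contra hcon
      have := mul_nonneg_of_nonpos_of_nonpos h1.le (not_lt.mp hcon)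
      linarith
    obtain ⟨z, hz, hz0⟩ := exists_hasDerivWithinAt_eq_of_gt_of_lt hst.le hd h1 h2
    exact ⟨z, hz.1, hz.2, hz0⟩
  · have h2 : lin v k y t < 0 := by
      by_contra hcon
      have := mul_nonneg h1 (not_lt.mp hcon)
      linarith
    have h3 : 0 < lin v k y s := by
      refine lt_of_le_of_ne h1 fun h3 => ?_
      rw [← h3, zero_mul] at h
      exact lt_irrefl _ h
    obtain ⟨z, hz, hz0⟩ := exists_hasDerivWithinAt_eq_of_lt_of_gt hst.le hd h3 h2
    exact ⟨z, hz.1, hz.2, hz0⟩

/-- **Weak alternation** with double zeros in the space spanned by `1, U 0, ..., U (k - 1)`. -/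
theorem weak_alt_comb {U v : ℕ → ℝ → ℝ} {a b : ℝ} {n : ℕ} (hS : Sys U v a b n) {k : ℕ}
    (hk : k ≤ n) {x z : ℕ → ℝ} {ρ : ℝ} (hρ : ρ ≠ 0) (hz : ∀ i ≤ k, z i ≤ z (i + 1))
    (hz2 : ∀ i < k, z i < z (i + 2)) (hza : a ≤ z 0) (hzb : z (k + 1) ≤ b)
    (hdbl : ∀ i ≤ k, z i = z (i + 1) → a < z i ∧ z i < b ∧ HasDerivAt (comb U k x) 0 (z i))
    (hs : ∀ i ≤ k + 1, 0 ≤ ρ * (-1) ^ i * comb U k x (z i)) : ∀ i ≤ k, x i = 0 := by
  have hmono : ∀ i j, i ≤ j → j ≤ k + 1 → z i ≤ z j := by
    intro i j hij
    induction j with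
    | zero => intro _; rw [Nat.le_zero.mp hij]
    | succ j ih =>
      intro hj
      rcases hij.lt_or_eq with h | h
      · exact (ih (by omega) (by omega)).trans (hz j (by omega))
      · rw [h]
  have hξ : ∀ i, ∃ ξ, i ≤ k → (z i ≤ ξ ∧ ξ ≤ z (i + 1)) ∧ (a < ξ ∧ ξ < b) ∧
      (z i < z (i + 1) → z i < ξ ∧ ξ < z (i + 1)) ∧
      0 ≤ ρ * (-1) ^ (i + 1) * lin v k (fun l => x (l + 1)) ξ := by
    intro i
    by_cases hi : i ≤ k
    · rcases (hz i hi).lt_or_eq with h | h
      · have hai : a ≤ z i := hza.trans (hmono 0 i (Nat.zero_le _) (by omega))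
        have hbi : z (i + 1) ≤ b := (hmono (i + 1) (k + 1) (by omega) le_rfl).trans hzb
        obtain ⟨ξ, hξ, hξ'⟩ := exists_hasDerivAt_eq_slope (comb U k x)
          (fun t => lin v k (fun l => x (l + 1)) t) h (comb_continuous hS hk x).continuousOn
          (fun t ht => comb_hasDerivAt hS hk x (by linarith [ht.1]) (by linarith [ht.2]))
        refine ⟨ξ, fun _ => ⟨⟨hξ.1.le, hξ.2.le⟩, ⟨by linarith [hξ.1], by linarith [hξ.2]⟩,
          fun _ => hξ, ?_⟩⟩
        have h1 := hs i (by omega)
        have h2 := hs (i + 1) (by omega)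
        have hd : 0 < z (i + 1) - z i := by linarith
        have h3 : lin v k (fun l => x (l + 1)) ξ = (comb U k x (z (i + 1)) - comb U k x (z i)) /
          (z (i + 1) - z i) := hξ'
        rw [h3]
        have h4 : ρ * (-1) ^ (i + 1) * ((comb U k x (z (i + 1)) - comb U k x (z i)) /
            (z (i + 1) - z i)) = (ρ * (-1) ^ (i + 1) * comb U k x (z (i + 1)) +
            ρ * (-1) ^ i * comb U k x (z i)) / (z (i + 1) - z i) := by
          rw [pow_succ]; ring
        rw [h4]
        positivity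
      · obtain ⟨h1, h2, h3⟩ := hdbl i hi h
        refine ⟨z i, fun _ => ⟨⟨le_rfl, h.le⟩, ⟨h1, h2⟩, fun h4 => absurd h h4.ne, ?_⟩⟩
        have h4 := (comb_hasDerivAt hS hk x h1 h2).unique h3
        rw [h4, mul_zero]
    · exact ⟨0, fun h => absurd h hi⟩
  choose ξ hξ using hξ
  have hy := weak_alt_lin (hS.cheb k hk) (lin_ivt hS hk)
    (y := fun l => -ρ * x (l + 1)) (ξ := ξ) (by
      intro i hi
      obtain ⟨⟨h1, h2⟩, _, h3, _⟩ := hξ i hi.le
      obtain ⟨⟨h4, h5⟩, _, h6, _⟩ := hξ (i + 1) hi
      have h7 := hz2 i hi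
      rcases (hz i hi.le).lt_or_eq with h | h
      · exact lt_of_lt_of_le (h3 h).2 h4
      · rcases (hz (i + 1) hi).lt_or_eq with h' | h'
        · exact lt_of_le_of_lt h2 (h6 h').1
        · rw [h, h'] at h7; exact absurd h7 (lt_irrefl _))
    (hξ 0 (Nat.zero_le _)).2.1.1 (hξ k le_rfl).2.1.2 (by
      intro i hi
      have h1 := (hξ i hi).2.2.2
      have h2 : lin v k (fun l => -ρ * x (l + 1)) (ξ i) =
          -ρ * lin v k (fun l => x (l + 1)) (ξ i) := by
        unfold lin
        rw [Finset.mul_sum]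
        exact Finset.sum_congr rfl fun l _ => by ring
      rw [h2]
      have h3 : (-1) ^ i * (-ρ * lin v k (fun l => x (l + 1)) (ξ i)) =
        ρ * (-1) ^ (i + 1) * lin v k (fun l => x (l + 1)) (ξ i) := by ring
      rw [h3]; exact h1)
  have hx : ∀ l < k, x (l + 1) = 0 := by
    intro l hl
    have := hy l hl
    rcases mul_eq_zero.mp this with h | h
    · exact absurd (neg_eq_zero.mp h) hρ
    · exact h
  have hcomb : ∀ t, comb U k x t = x 0 := by
    intro t
    unfold comb
    rw [Finset.sum_eq_zero fun i hi => by rw [hx i (Finset.mem_range.mp hi), zero_mul], add_zero]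
  have h0 := hs 0 (by omega)
  have h1 := hs 1 (by omega)
  rw [hcomb] at h0 h1
  intro i hi
  rcases Nat.eq_zero_or_pos i with h | h
  · rw [h]
    have h2 : ρ * x 0 = 0 := by
      rw [pow_zero, mul_one] at h0
      rw [pow_one] at h1
      linarith
    exact (mul_eq_zero.mp h2).resolve_left hρ
  · obtain ⟨l, rfl⟩ : ∃ l, i = l + 1 := ⟨i - 1, by omega⟩
    exact hx l (by omega)

/-- The sign of a Lagrange product. -/
theorem lagrange_sign {z : ℕ → ℝ} {N j : ℕ} (hj : j < N)
    (hlt : ∀ i l, i < l → l < N → z i < z l) :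
    0 < (-1) ^ (N + j + 1) * ∏ i ∈ (Finset.range N).erase j, (z j - z i) := by
  have h0 : ∏ i ∈ (Finset.range N).erase j, (z j - z i) =
      ∏ i ∈ Finset.range N, (if i = j then 1 else z j - z i) := by
    rw [← Finset.mul_prod_erase (Finset.range N) (fun i => if i = j then 1 else z j - z i)
      (Finset.mem_range.mpr hj), if_pos rfl, one_mul]
    refine Finset.prod_congr rfl fun i hi => ?_
    rw [if_neg (Finset.ne_of_mem_erase hi)]
  rw [h0]
  obtain ⟨l, rfl⟩ : ∃ l, N = (j + 1) + l := ⟨N - (j + 1), by omega⟩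
  rw [Finset.prod_range_add, Finset.prod_range_succ, if_pos rfl, mul_one]
  have h1 : 0 < ∏ i ∈ Finset.range j, (if i = j then 1 else z j - z i) := by
    refine Finset.prod_pos fun i hi => ?_
    have hi' := Finset.mem_range.mp hi
    rw [if_neg (by omega)]
    linarith [hlt i j hi' (by omega)]
  have h2 : 0 < (-1) ^ l * ∏ i ∈ Finset.range l,
      (if j + 1 + i = j then 1 else z j - z (j + 1 + i)) := by
    have h3 : (-1 : ℝ) ^ l * ∏ i ∈ Finset.range l,
        (if j + 1 + i = j then 1 else z j - z (j + 1 + i)) =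
        ∏ i ∈ Finset.range l, -(if j + 1 + i = j then 1 else z j - z (j + 1 + i)) := by
      rw [Finset.prod_neg, Finset.card_range]
    rw [h3]
    refine Finset.prod_pos fun i hi => ?_
    have hi' := Finset.mem_range.mp hi
    rw [if_neg (by omega)]
    linarith [hlt j (j + 1 + i) (by omega) (by omega)]
  have h4 : (-1 : ℝ) ^ (j + 1 + l + j + 1) = (-1) ^ l := by
    have : j + 1 + l + j + 1 = l + 2 * (j + 1) := by ring
    rw [this, pow_add, pow_mul]; norm_num
  rw [h4]
  have h5 := mul_pos h1 h2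
  have h6 : (∏ i ∈ Finset.range j, (if i = j then 1 else z j - z i)) *
      ((-1) ^ l * ∏ i ∈ Finset.range l, (if j + 1 + i = j then 1 else z j - z (j + 1 + i))) =
      (-1) ^ l * ((∏ i ∈ Finset.range j, (if i = j then 1 else z j - z i)) *
      ∏ i ∈ Finset.range l, (if j + 1 + i = j then 1 else z j - z (j + 1 + i))) := by ring
  rwa [h6] at h5

/-- **Weak alternation**, on finite sets. -/
theorem alt_finset {U v : ℕ → ℝ → ℝ} {a b : ℝ} {n : ℕ} (hS : Sys U v a b n) {k : ℕ}
    (hk : k ≤ n) {A : Finset ℝ} (hA : A.card = k + 2) (hAab : ∀ τ ∈ A, τ ∈ Icc a b)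
    {x : ℕ → ℝ} {ρ : ℝ} (hρ : ρ ≠ 0)
    (hs : ∀ τ ∈ A, 0 ≤ ρ * (comb U k x τ * ∏ z ∈ A.erase τ, (τ - z))) : ∀ i ≤ k, x i = 0 := by
  classical
  set z : ℕ → ℝ := fun i => if h : i < k + 2 then A.orderEmbOfFin hA ⟨i, h⟩ else 0 with hz
  have hzA : ∀ i < k + 2, z i ∈ A := by
    intro i hi
    rw [hz]
    simp only [dif_pos hi]
    exact Finset.orderEmbOfFin_mem A hA _
  have hlt : ∀ i l, i < l → l < k + 2 → z i < z l := by
    intro i l hil hl
    rw [hz]
    simp only [dif_pos hl, dif_pos (hil.trans hl)]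
    exact (A.orderEmbOfFin hA).strictMono hil
  have himg : A = (Finset.range (k + 2)).image z := by
    ext τ
    constructor
    · intro hτ
      have h1 : τ ∈ Set.range (A.orderEmbOfFin hA) := by
        rw [Finset.range_orderEmbOfFin]; exact hτ
      obtain ⟨i, hi⟩ := h1
      refine Finset.mem_image.mpr ⟨i, Finset.mem_range.mpr i.2, ?_⟩
      rw [hz]
      simp only [dif_pos i.2]
      exact hi
    · intro hτ
      obtain ⟨i, hi, rfl⟩ := Finset.mem_image.mp hτ
      exact hzA i (Finset.mem_range.mp hi)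
  have hinj : ∀ i < k + 2, ∀ l < k + 2, z i = z l → i = l := by
    intro i hi l hl h
    rcases lt_trichotomy i l with h1 | h1 | h1
    · have := hlt i l h1 hl; linarith
    · exact h1
    · have := hlt l i h1 hi; linarith
  have herase : ∀ j < k + 2, ∏ y ∈ A.erase (z j), (z j - y) =
      ∏ i ∈ (Finset.range (k + 2)).erase j, (z j - z i) := by
    intro j hj
    have h1 : A.erase (z j) = ((Finset.range (k + 2)).erase j).image z := by
      rw [himg]
      ext τ
      constructor
      · intro hτ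
        obtain ⟨h1, h2⟩ := Finset.mem_erase.mp hτ
        obtain ⟨i, hi, rfl⟩ := Finset.mem_image.mp h2
        exact Finset.mem_image.mpr ⟨i, Finset.mem_erase.mpr ⟨fun h => h1 (by rw [h]), hi⟩, rfl⟩
      · intro hτ
        obtain ⟨i, hi, rfl⟩ := Finset.mem_image.mp hτ
        obtain ⟨h1, h2⟩ := Finset.mem_erase.mp hi
        exact Finset.mem_erase.mpr ⟨fun h => h1 (hinj i (Finset.mem_range.mp h2) j hj h),
          Finset.mem_image_of_mem _ h2⟩
    rw [h1, Finset.prod_image]
    intro i hi l hl h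
    exact hinj i (Finset.mem_range.mp (Finset.mem_of_mem_erase hi)) l
      (Finset.mem_range.mp (Finset.mem_of_mem_erase hl)) h
  refine weak_alt_comb hS hk (z := z) (ρ := ρ * (-1) ^ (k + 1)) ?_ ?_ ?_ ?_ ?_ ?_ ?_
  · exact mul_ne_zero hρ (pow_ne_zero _ (by norm_num))
  · intro i hi
    exact (hlt i (i + 1) (by omega) (by omega)).le
  · intro i hi
    exact hlt i (i + 2) (by omega) (by omega)
  · exact (hAab _ (hzA 0 (by omega))).1
  · exact (hAab _ (hzA (k + 1) (by omega))).2
  · intro i hi h
    have := hlt i (i + 1) (by omega) (by omega)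
    linarith
  · intro i hi
    have h1 := hs (z i) (hzA i (by omega))
    rw [herase i (by omega)] at h1
    have h2 := lagrange_sign (z := z) (N := k + 2) (j := i) (by omega) hlt
    set pr := ∏ l ∈ (Finset.range (k + 2)).erase i, (z i - z l) with hpr
    have h3 : (-1 : ℝ) ^ (k + 2 + i + 1) * (-1) ^ (k + 2 + i + 1) = 1 := by
      rw [← mul_pow]; norm_num
    have h4 : ρ * (comb U k x (z i) * pr) = (ρ * (-1) ^ (k + 1) * (-1) ^ i * comb U k x (z i)) *
        ((-1) ^ (k + 2 + i + 1) * pr) := by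
      have h5 : (-1 : ℝ) ^ (k + 1) * (-1) ^ i * (-1) ^ (k + 2 + i + 1) = 1 := by
        rw [← pow_add, ← pow_add]
        have : k + 1 + i + (k + 2 + i + 1) = 2 * (k + i + 2) := by ring
        rw [this, pow_mul]; norm_num
      linear_combination (-(ρ * comb U k x (z i) * pr)) * h5
    rw [h4] at h1
    exact nonneg_of_mul_nonneg_left h1 h2

/-- Combinations with `k + 1` zeros vanish. -/
theorem comb_zeros {U v : ℕ → ℝ → ℝ} {a b : ℝ} {n : ℕ} (hab : a < b) (hS : Sys U v a b n) {k : ℕ}
    (hk : k ≤ n) {A : Finset ℝ} (hA : A.card = k + 1) (hAab : ∀ τ ∈ A, τ ∈ Icc a b)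
    {x : ℕ → ℝ} (hs : ∀ τ ∈ A, comb U k x τ = 0) : ∀ i ≤ k, x i = 0 := by
  classical
  obtain ⟨t, ht, htA⟩ : ∃ t ∈ Icc a b, t ∉ A := by
    have := (Set.Icc_infinite hab).exists_notMem_finset A
    exact this
  set π := comb U k x t * ∏ z ∈ (insert t A).erase t, (t - z) with hπ
  have hgen : ∀ ρ : ℝ, ρ ≠ 0 → 0 ≤ ρ * π → ∀ i ≤ k, x i = 0 := by
    intro ρ hρ hρπ
    refine alt_finset hS hk (A := insert t A) (by rw [Finset.card_insert_of_notMem htA, hA])
      ?_ hρ ?_
    · intro τ hτ
      rcases Finset.mem_insert.mp hτ with h | h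
      · rw [h]; exact ht
      · exact hAab τ h
    · intro τ hτ
      rcases Finset.mem_insert.mp hτ with h | h
      · rw [h]; exact hρπ
      · rw [hs τ h, zero_mul, mul_zero]
  rcases le_total 0 π with h | h
  · exact hgen 1 one_ne_zero (by linarith)
  · exact hgen (-1) (by norm_num) (by linarith)

/-- **Prescribed zeros.** -/
theorem exists_comb_sign {U v : ℕ → ℝ → ℝ} {a b : ℝ} {n : ℕ} (hab : a < b)
    (hS : Sys U v a b n) (S : Finset ℝ) (hSn : S.card ≤ n) (hSab : ∀ z ∈ S, z ∈ Icc a b) :
    ∃ x : ℕ → ℝ, (∀ i, S.card < i → x i = 0) ∧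
      ∀ t ∈ Icc a b, t ∉ S → 0 < comb U S.card x t * ∏ z ∈ S, (t - z) := by
  classical
  set k := S.card with hk
  -- a nontrivial combination which vanishes on `S`
  let L : (Fin (k + 1) → ℝ) →ₗ[ℝ] (S → ℝ) :=
    { toFun := fun c z => comb U k (fun i => if h : i < k + 1 then c ⟨i, h⟩ else 0) z
      map_add' := by
        intro c d; funext z
        simp only [comb, Pi.add_apply]
        rw [dif_pos (Nat.succ_pos k), dif_pos (Nat.succ_pos k), dif_pos (Nat.succ_pos k)]
        have : ∑ i ∈ Finset.range k, (if h : i + 1 < k + 1 then c ⟨i + 1, h⟩ + d ⟨i + 1, h⟩ else 0) *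
            U i z = ∑ i ∈ Finset.range k, (if h : i + 1 < k + 1 then c ⟨i + 1, h⟩ else 0) * U i z +
            ∑ i ∈ Finset.range k, (if h : i + 1 < k + 1 then d ⟨i + 1, h⟩ else 0) * U i z := by
          rw [← Finset.sum_add_distrib]
          refine Finset.sum_congr rfl fun i hi => ?_
          have := Finset.mem_range.mp hi
          rw [dif_pos (by omega), dif_pos (by omega), dif_pos (by omega)]
          ring
        rw [this]; ring
      map_smul' := by
        intro r c; funext z
        simp only [comb, Pi.smul_apply, smul_eq_mul, RingHom.id_apply]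
        rw [dif_pos (Nat.succ_pos k), dif_pos (Nat.succ_pos k), mul_add, Finset.mul_sum]
        congr 1
        refine Finset.sum_congr rfl fun i hi => ?_
        have := Finset.mem_range.mp hi
        rw [dif_pos (by omega), dif_pos (by omega)]
        ring }
  have hker : LinearMap.ker L ≠ ⊥ := by
    refine LinearMap.ker_ne_bot_of_finrank_lt ?_
    simp [hk]
  obtain ⟨c, hc, hc0⟩ := Submodule.exists_mem_ne_zero_of_ne_bot hker
  set x : ℕ → ℝ := fun i => if h : i < k + 1 then c ⟨i, h⟩ else 0 with hx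
  have hxz : ∀ z ∈ S, comb U k x z = 0 := fun z hz => congrFun (LinearMap.mem_ker.mp hc) ⟨z, hz⟩
  have hxne : ¬ ∀ i ≤ k, x i = 0 := by
    intro h
    apply hc0
    funext i
    have h1 := h i (Nat.lt_succ_iff.mp i.2)
    rw [hx] at h1
    simp only [dif_pos i.2] at h1
    exact h1
  set σ : ℝ → ℝ := fun t => ∏ z ∈ S, (t - z) with hσ
  have hpair : ∀ t ∈ Icc a b, ∀ t' ∈ Icc a b, t ∉ S → t' ∉ S → t ≠ t' →
      0 < (comb U k x t * σ t) * (comb U k x t' * σ t') := by
    intro t ht t' ht' htS ht'S hne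
    by_contra hcon
    push Not at hcon
    apply hxne
    have hcard : (insert t (insert t' S)).card = k + 2 := by
      rw [Finset.card_insert_of_notMem, Finset.card_insert_of_notMem ht'S]
      intro h
      rcases Finset.mem_insert.mp h with h | h
      · exact hne h
      · exact htS h
    have hmem : ∀ τ ∈ insert t (insert t' S), τ ∈ Icc a b := by
      intro τ hτ
      rcases Finset.mem_insert.mp hτ with h | h
      · rw [h]; exact ht
      · rcases Finset.mem_insert.mp h with h | h
        · rw [h]; exact ht'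
        · exact hSab τ h
    have he1 : (insert t (insert t' S)).erase t = insert t' S := by
      rw [Finset.erase_insert]
      intro h
      rcases Finset.mem_insert.mp h with h | h
      · exact hne h
      · exact htS h
    have he2 : (insert t (insert t' S)).erase t' = insert t S := by
      rw [Finset.insert_comm, Finset.erase_insert]
      intro h
      rcases Finset.mem_insert.mp h with h | h
      · exact hne h.symm
      · exact ht'S h
    have hp1 : ∏ z ∈ (insert t (insert t' S)).erase t, (t - z) = (t - t') * σ t := by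
      rw [he1, Finset.prod_insert ht'S]
    have hp2 : ∏ z ∈ (insert t (insert t' S)).erase t', (t' - z) = (t' - t) * σ t' := by
      rw [he2, Finset.prod_insert htS]
    have hgen : ∀ ρ : ℝ, ρ ≠ 0 → 0 ≤ ρ * (comb U k x t * ((t - t') * σ t)) →
        0 ≤ ρ * (comb U k x t' * ((t' - t) * σ t')) → ∀ i ≤ k, x i = 0 := by
      intro ρ hρ h1 h2
      refine alt_finset hS hSn hcard hmem hρ ?_
      intro τ hτ
      rcases Finset.mem_insert.mp hτ with h | h
      · rw [h, hp1]; exact h1
      · rcases Finset.mem_insert.mp h with h | h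
        · rw [h, hp2]; exact h2
        · rw [hxz τ h, zero_mul, mul_zero]
    set p := comb U k x t * ((t - t') * σ t) with hp
    set q := comb U k x t' * ((t' - t) * σ t') with hq
    have hpq : 0 ≤ p * q := by
      have h1 : p * q = (t - t') ^ 2 * -((comb U k x t * σ t) * (comb U k x t' * σ t')) := by
        rw [hp, hq]; ring
      rw [h1]
      exact mul_nonneg (sq_nonneg _) (by linarith)
    rcases lt_trichotomy p 0 with h1 | h1 | h1
    · refine hgen (-1) (by norm_num) (by linarith) ?_
      by_contra h2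
      have h3 : 0 < q := by linarith
      have := mul_neg_of_neg_of_pos h1 h3
      linarith
    · rcases le_total 0 q with h2 | h2
      · exact hgen 1 one_ne_zero (by linarith) (by linarith)
      · exact hgen (-1) (by norm_num) (by linarith) (by linarith)
    · refine hgen 1 one_ne_zero (by linarith) ?_
      by_contra h2
      have h3 : q < 0 := by linarith
      have := mul_neg_of_pos_of_neg h1 h3
      linarith
  obtain ⟨t0, ht0, ht0S⟩ := (Set.Icc_infinite hab).exists_notMem_finset S
  have hinf2 : ∀ t, ∃ t' ∈ Icc a b, t' ∉ S ∧ t' ≠ t := by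
    intro t
    obtain ⟨t', ht', h⟩ := (Set.Icc_infinite hab).exists_notMem_finset (insert t S)
    exact ⟨t', ht', fun h1 => h (Finset.mem_insert_of_mem h1),
      fun h1 => h (by rw [h1]; exact Finset.mem_insert_self _ _)⟩
  have hne0 : comb U k x t0 * σ t0 ≠ 0 := by
    obtain ⟨t', ht', ht'S, hne⟩ := hinf2 t0
    have := hpair t0 ht0 t' ht' ht0S ht'S hne.symm
    intro h
    rw [h, zero_mul] at this
    exact lt_irrefl _ this
  set κ := comb U k x t0 * σ t0 with hκ
  refine ⟨fun i => κ * x i, fun i hi => ?_, fun t ht htS => ?_⟩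
  · rw [hx]
    simp only [dif_neg (show ¬ i < k + 1 by omega), mul_zero]
  · have h1 : comb U k (fun i => κ * x i) t = κ * comb U k x t := by
      unfold comb
      rw [mul_add, Finset.mul_sum]
      congr 1
      exact Finset.sum_congr rfl fun i _ => by ring
    rw [h1]
    have h2 : κ * comb U k x t * ∏ z ∈ S, (t - z) = κ * (comb U k x t * σ t) := by
      rw [hσ]; ring
    rw [h2]
    by_cases h3 : t = t0
    · rw [h3, ← hκ]
      exact mul_self_pos.mpr hne0
    · exact hpair t0 ht0 t ht ht0S htS (Ne.symm h3)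

end Pool.Agent.H283.Cheb
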