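import Mathlib
import Pool.Agent.H283.Cheb.Markov
import Pool.Agent.H283.Cheb.Zones

/-!
The covering theorem for unit balls of spaces spanned by `1` and functions whose derivatives form
a Markov system, in weighted uniform norms on an interval: `2 ^ n + 2` translates.
-/

namespace Pool.Agent.H283.Cheb

open Set Filter Topology

variable {n : ℕ} {a b : ℝ} {w : ℝ → ℝ} {U v : ℕ → ℝ → ℝ}

/-- The function with coefficients `x`. -/
def mv (U : ℕ → ℝ → ℝ) (x : EuclideanSpace ℝ (Fin (n + 1))) (t : ℝ) : ℝ :=
  x 0 + ∑ i : Fin n, x i.succ * U i t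

/-- The coefficients as a sequence. -/
def mext (x : EuclideanSpace ℝ (Fin (n + 1))) : ℕ → ℝ :=
  fun i => if h : i < n + 1 then x ⟨i, h⟩ else 0

/-- The vector of coefficients. -/
def mvec (n : ℕ) (y : ℕ → ℝ) : EuclideanSpace ℝ (Fin (n + 1)) := WithLp.toLp 2 (fun i => y i)

theorem mv_eq_comb (x : EuclideanSpace ℝ (Fin (n + 1))) (t : ℝ) :
    mv U x t = comb U n (mext x) t := by
  unfold mv comb mext
  rw [dif_pos (Nat.succ_pos n), Finset.sum_range]
  congr 1
  refine Finset.sum_congr rfl fun i _ => ?_
  rw [dif_pos (Nat.succ_lt_succ i.2)]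
  rfl

theorem mv_mvec (y : ℕ → ℝ) (t : ℝ) : mv U (mvec n y) t = comb U n y t := by
  unfold mv comb mvec
  rw [Finset.sum_range]
  rfl

theorem mv_add (x y : EuclideanSpace ℝ (Fin (n + 1))) (t : ℝ) :
    mv U (x + y) t = mv U x t + mv U y t := by
  simp only [mv, PiLp.add_apply, add_mul, Finset.sum_add_distrib]
  ring

theorem mv_smul (c : ℝ) (x : EuclideanSpace ℝ (Fin (n + 1))) (t : ℝ) :
    mv U (c • x) t = c * mv U x t := by
  simp only [mv, PiLp.smul_apply, smul_eq_mul, mul_add, Finset.mul_sum, mul_assoc]

theorem mv_sub (x y : EuclideanSpace ℝ (Fin (n + 1))) (t : ℝ) :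
    mv U (x - y) t = mv U x t - mv U y t := by
  simp only [mv, PiLp.sub_apply, sub_mul, Finset.sum_sub_distrib]
  ring

theorem mv_neg (x : EuclideanSpace ℝ (Fin (n + 1))) (t : ℝ) :
    mv U (-x) t = -mv U x t := by
  have := mv_smul (U := U) (-1) x t
  simpa using this

theorem continuous_mv (hS : Sys U v a b n) :
    Continuous (fun z : EuclideanSpace ℝ (Fin (n + 1)) × ℝ => mv U z.1 z.2) := by
  unfold mv
  refine Continuous.add (by fun_prop) (continuous_finsetSum _ fun i _ => ?_)
  exact Continuous.mul (by fun_prop) ((hS.cont i i.2).comp continuous_snd)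

theorem continuous_mv' (hS : Sys U v a b n) (x : EuclideanSpace ℝ (Fin (n + 1))) :
    Continuous (mv U x) :=
  (continuous_mv hS).comp (continuous_const.prodMk continuous_id)

theorem mv_hasDerivAt (hS : Sys U v a b n) (x : EuclideanSpace ℝ (Fin (n + 1))) {t : ℝ}
    (h1 : a < t) (h2 : t < b) :
    HasDerivAt (mv U x) (lin v n (fun i => mext x (i + 1)) t) t := by
  have h := comb_hasDerivAt hS le_rfl (mext x) h1 h2
  have : mv U x = comb U n (mext x) := by funext t; exact mv_eq_comb x t
  rw [this]; exact h

theorem mext_zero {x : EuclideanSpace ℝ (Fin (n + 1))} (h : ∀ i ≤ n, mext x i = 0) : x = 0 := by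
  ext i
  have := h i (Nat.lt_succ_iff.mp i.2)
  unfold mext at this
  rw [dif_pos i.2] at this
  simpa using this

/-- Vectors with the same function are equal. -/
theorem mv_injective (hab : a < b) (hS : Sys U v a b n) {x y : EuclideanSpace ℝ (Fin (n + 1))}
    (h : ∀ t ∈ Icc a b, mv U x t = mv U y t) : x = y := by
  obtain ⟨A, hA, hAc⟩ := (Set.Icc_infinite hab).exists_subset_card_eq (n + 1)
  have h0 : x - y = 0 := by
    refine mext_zero (comb_zeros hab hS le_rfl hAc (fun τ hτ => hA hτ) ?_)
    intro τ hτ
    rw [← mv_eq_comb, mv_sub, h τ (hA hτ), sub_self]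
  exact sub_eq_zero.mp h0

/-- The functions below `w` on `[a, b]`. -/
def mBall (n : ℕ) (U : ℕ → ℝ → ℝ) (a b : ℝ) (w : ℝ → ℝ) : Set (EuclideanSpace ℝ (Fin (n + 1))) :=
  {x | ∀ t ∈ Icc a b, |mv U x t| ≤ w t}

theorem isClosed_mBall : IsClosed (mBall n U a b w) := by
  have : mBall n U a b w = ⋂ t ∈ Icc a b, {x | |mv U x t| ≤ w t} := by
    ext x; simp [mBall]
  rw [this]
  refine isClosed_biInter fun t _ => isClosed_le ?_ continuous_const
  unfold mv
  fun_prop

theorem convex_mBall : Convex ℝ (mBall n U a b w) := by
  intro x hx y hy c d hc hd hcd t ht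
  rw [mv_add, mv_smul, mv_smul]
  calc |c * mv U x t + d * mv U y t| ≤ |c * mv U x t| + |d * mv U y t| := abs_add_le _ _
    _ = c * |mv U x t| + d * |mv U y t| := by
      rw [abs_mul, abs_mul, abs_of_nonneg hc, abs_of_nonneg hd]
    _ ≤ c * w t + d * w t := by
      gcongr
      · exact hx t ht
      · exact hy t ht
    _ = w t := by rw [← add_mul, hcd, one_mul]

theorem isCompact_mBall (hab : a < b) (hS : Sys U v a b n) : IsCompact (mBall n U a b w) := by
  classical
  obtain ⟨A, hA, hAc⟩ := (Set.Icc_infinite hab).exists_subset_card_eq (n + 1)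
  let L : EuclideanSpace ℝ (Fin (n + 1)) →ₗ[ℝ] (A → ℝ) :=
    { toFun := fun x τ => mv U x τ
      map_add' := fun x y => by funext τ; exact mv_add x y _
      map_smul' := fun c x => by funext τ; exact mv_smul c x _ }
  have hker : LinearMap.ker L = ⊥ := by
    rw [LinearMap.ker_eq_bot']
    intro x hx
    refine mext_zero (comb_zeros hab hS le_rfl hAc (fun τ hτ => hA hτ) ?_)
    intro τ hτ
    rw [← mv_eq_comb]
    exact congrFun hx ⟨τ, hτ⟩
  obtain ⟨K, _, hK⟩ := L.exists_antilipschitzWith hker
  refine Metric.isCompact_of_isClosed_isBounded isClosed_mBall ?_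
  refine (hK.isBounded_preimage (s := {v | ∀ τ : A, ‖v τ‖ ≤ w τ}) ?_).subset ?_
  · rw [Metric.isBounded_iff_subset_closedBall 0]
    refine ⟨∑ τ : A, |w τ|, fun v hv => ?_⟩
    rw [mem_closedBall_zero_iff, pi_norm_le_iff_of_nonneg (by positivity)]
    intro τ
    refine (hv τ).trans ((le_abs_self _).trans ?_)
    exact Finset.single_le_sum (f := fun τ : A => |w τ|)
      (fun _ _ => abs_nonneg _) (Finset.mem_univ τ)
  · intro x hx τ
    rw [Real.norm_eq_abs]
    exact hx _ (hA τ.2)

/-- The functions strictly below `w`. -/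
def sBall (n : ℕ) (U : ℕ → ℝ → ℝ) (a b : ℝ) (w : ℝ → ℝ) : Set (EuclideanSpace ℝ (Fin (n + 1))) :=
  {x | ∀ t ∈ Icc a b, |mv U x t| < w t}

theorem isOpen_sBall (hw : Continuous w) (hS : Sys U v a b n) : IsOpen (sBall n U a b w) := by
  rw [isOpen_iff_mem_nhds]
  intro x hx
  have h := (isCompact_Icc (a := a) (b := b)).eventually_forall_of_forall_eventually
    (x₀ := x) (P := fun x t => |mv U x t| < w t) (by
      intro t ht
      exact (isOpen_lt (continuous_mv hS).abs (hw.comp continuous_snd)).mem_nhds (hx t ht))
  filter_upwards [h] with y hy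
  exact hy

theorem sBall_subset (hw : Continuous w) (hS : Sys U v a b n) :
    sBall n U a b w ⊆ interior (mBall n U a b w) :=
  interior_maximal (fun _ hx t ht => (hx t ht).le) (isOpen_sBall hw hS)

theorem zero_mem_sBall (hpos : ∀ t ∈ Icc a b, 0 < w t) :
    (0 : EuclideanSpace ℝ (Fin (n + 1))) ∈ sBall n U a b w := by
  intro t ht
  have : mv U (0 : EuclideanSpace ℝ (Fin (n + 1))) t = 0 := by simp [mv]
  rw [this, abs_zero]
  exact hpos t ht

/-- A direction with the signs of the function at its contacts points into the interior. -/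
theorem illum_mBall (hw : Continuous w) (hS : Sys U v a b n) (hpos : ∀ t ∈ Icc a b, 0 < w t)
    {x q : EuclideanSpace ℝ (Fin (n + 1))} (hx : x ∈ mBall n U a b w)
    (h : ∀ t ∈ Icc a b, |mv U x t| = w t → 0 < mv U q t * mv U x t) :
    ∃ δ : ℝ, 0 < δ ∧ x - δ • q ∈ sBall n U a b w := by
  obtain ⟨δ, hδ, hδ'⟩ := contact hw hpos (continuous_mv' hS x) (q := mv U q)
    (continuous_mv' hS _) hx h
  refine ⟨δ, hδ, fun t ht => ?_⟩
  rw [mv_sub, mv_smul]
  exact hδ' t ht

/-- The function with the largest last coefficient cannot be improved. -/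
theorem exists_extremal_mBall (hab : a < b) (hw : Continuous w) (hS : Sys U v a b n)
    (hpos : ∀ t ∈ Icc a b, 0 < w t) : ∃ x ∈ mBall n U a b w,
      ¬ ∃ q : EuclideanSpace ℝ (Fin (n + 1)), q (Fin.last n) = 0 ∧
        ∀ t ∈ Icc a b, |mv U x t| = w t → 0 < mv U q t * mv U x t := by
  have hK : IsCompact (mBall n U a b w) := isCompact_mBall hab hS
  obtain ⟨x, hx, hmax⟩ := hK.exists_isMaxOn
    ⟨0, interior_subset (sBall_subset hw hS (zero_mem_sBall hpos))⟩
    (f := fun x : EuclideanSpace ℝ (Fin (n + 1)) => x (Fin.last n)) (by fun_prop)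
  refine ⟨x, hx, ?_⟩
  rintro ⟨q, hq0, hq⟩
  obtain ⟨δ, hδ, hy⟩ := illum_mBall hw hS hpos hx hq
  have hev : ∀ᶠ η in 𝓝 (0 : ℝ), x - δ • q +
      η • (WithLp.toLp 2 (fun i => if i = Fin.last n then (1 : ℝ) else 0)) ∈
        sBall n U a b w := by
    refine (Continuous.tendsto' (by fun_prop) 0 _ ?_).eventually
      ((isOpen_sBall hw hS).mem_nhds hy)
    simp
  obtain ⟨η, h1, h2⟩ := ((hev.filter_mono nhdsWithin_le_nhds).and
    (self_mem_nhdsWithin (a := (0 : ℝ)) (s := Ioi 0))).exists
  have h3 := hmax (interior_subset (sBall_subset hw hS h1))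
  simp only [mem_ofPred_eq, PiLp.add_apply, PiLp.sub_apply, PiLp.smul_apply,
    hq0, smul_eq_mul, mul_zero, sub_zero, if_true, mul_one] at h3
  have h4 : (0 : ℝ) < η := h2
  linarith

/-- A function in the span with prescribed zeros, as a vector. -/
theorem exists_vec_sign (hab : a < b) (hS : Sys U v a b n) (S : Finset ℝ) (hSn : S.card ≤ n)
    (hSab : ∀ z ∈ S, z ∈ Icc a b) :
    ∃ q : EuclideanSpace ℝ (Fin (n + 1)), (S.card < n → q (Fin.last n) = 0) ∧
      ∀ t ∈ Icc a b, t ∉ S → 0 < mv U q t * ∏ z ∈ S, (t - z) := by
  obtain ⟨x, hx0, hx⟩ := exists_comb_sign hab hS S hSn hSab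
  refine ⟨mvec n x, fun h => hx0 n h, fun t ht htS => ?_⟩
  have h1 : comb U n x t = comb U S.card x t := by
    unfold comb
    congr 1
    rw [← Finset.sum_subset (Finset.range_mono hSn)]
    intro i _ hi
    rw [hx0 (i + 1) (by
      have : ¬ i < S.card := fun h => hi (Finset.mem_range.mpr h)
      omega), zero_mul]
  rw [mv_mvec, h1]
  exact hx t ht htS

/-- The extremal function has `n + 1` alternating contacts. -/
theorem exists_snake_mBall (hab : a < b) (hw : Continuous w) (hS : Sys U v a b n)
    (hpos : ∀ t ∈ Icc a b, 0 < w t) : ∃ x ∈ mBall n U a b w,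
      ∃ (c : ℕ → ℝ) (σ : ℝ), Greedy (mv U x) w a b n c σ := by
  obtain ⟨x, hx, hext⟩ := exists_extremal_mBall hab hw hS hpos
  refine ⟨x, hx, ?_⟩
  have hTc : Continuous (mv U x) := continuous_mv' hS x
  have hall : ∀ j, j ≤ n → ∃ (c : ℕ → ℝ) (σ : ℝ), Greedy (mv U x) w a b j c σ := by
    intro j
    induction j with
    | zero =>
      intro _
      have hcomp : IsCompact ({t | |mv U x t| = w t} ∩ Icc a b) :=
        isCompact_Icc.inter_left (isClosed_eq hTc.abs hw)
      have hne : ({t | |mv U x t| = w t} ∩ Icc a b).Nonempty := by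
        by_contra hcon
        apply hext
        refine ⟨0, by simp, fun t ht h => ?_⟩
        exact absurd ⟨t, h, ht⟩ hcon
      obtain ⟨t0, ⟨h1, h2⟩, hmin⟩ := hcomp.exists_isLeast hne
      have h1' : |mv U x t0| = w t0 := h1
      have hfirst : ∀ t ∈ Ico a t0, |mv U x t| ≠ w t := by
        intro t ht hcon
        have := hmin ⟨hcon, ht.1, ht.2.le.trans h2.2⟩
        linarith [ht.2]
      rcases le_total 0 (mv U x t0) with h0 | h0
      · rw [abs_of_nonneg h0] at h1'
        exact ⟨fun _ => t0, 1, ⟨Or.inl rfl, fun _ _ => h2, fun i hi => by omega,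
          fun i hi => by
            have : i = 0 := by omega
            subst this
            simpa using h1', hfirst, fun i hi => by omega⟩⟩
      · rw [abs_of_nonpos h0] at h1'
        exact ⟨fun _ => t0, -1, ⟨Or.inr rfl, fun _ _ => h2, fun i hi => by omega,
          fun i hi => by
            have : i = 0 := by omega
            subst this
            simp only [pow_zero, mul_one]; linarith, hfirst, fun i hi => by omega⟩⟩
    | succ j ih =>
      intro hj
      obtain ⟨c, σ, hG⟩ := ih (by omega)
      by_cases hex : ∃ t ∈ Icc (c j) b, mv U x t = σ * (-1) ^ (j + 1) * w t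
      · obtain ⟨c', hc'⟩ := greedy_step hw hpos hTc hG hex
        exact ⟨c', σ, hc'⟩
      · exfalso
        push Not at hex
        obtain ⟨S, ρ, hρ, hSc, hSab, hq1, hq2⟩ := greedy_sep_prod hw hpos hTc j hG
        have hcj := hG.mem j le_rfl
        have hall : ∀ t ∈ Icc a b, |mv U x t| = w t →
            0 < ρ * (∏ z ∈ S, (t - z)) * mv U x t := by
          intro t ht hcon
          rcases le_or_gt t (c j) with h1 | h1
          · exact hq1 t ht h1 hcon
          · have h2 := hex t ⟨h1.le, ht.2⟩
            have h3 : mv U x t = -(σ * (-1) ^ (j + 1)) * w t :=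
              contact_sign (sgn_pow hG.sgn _) hcon h2
            have h4 : ρ * (∏ z ∈ S, (t - z)) * mv U x t =
                (σ * (-1) ^ j * (ρ * ∏ z ∈ S, (t - z))) * w t := by
              rw [h3]; ring
            rw [h4]
            exact mul_pos (hq2 t h1.le) (hpos t ht)
        obtain ⟨q, hq0, hq⟩ := exists_vec_sign hab hS S (by omega)
          (fun z hz => ⟨(hSab z hz).1.le, (hSab z hz).2.le.trans hcj.2⟩)
        apply hext
        refine ⟨ρ • q, by simp [hq0 (by omega)], fun t ht hcon => ?_⟩
        have h1 := hall t ht hcon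
        have h2 : t ∉ S := fun h => by
          rw [Finset.prod_eq_zero h (sub_self t), mul_zero, zero_mul] at h1
          exact lt_irrefl _ h1
        have h3 := hq t ht h2
        rw [mv_smul]
        have h4 := mul_pos h1 h3
        have h5 : ρ * (∏ z ∈ S, (t - z)) * mv U x t * (mv U q t * ∏ z ∈ S, (t - z)) =
          (∏ z ∈ S, (t - z)) ^ 2 * (ρ * mv U q t * mv U x t) := by ring
        rw [h5] at h4
        exact pos_of_mul_pos_right h4 (sq_nonneg _)
  exact hall n le_rfl

/-- Two functions below `w` on `[a, b]` which touch `w` at the same interior point have the same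
slope there. -/
def MSlope (n : ℕ) (U : ℕ → ℝ → ℝ) (w : ℝ → ℝ) (a b : ℝ) : Prop :=
  ∀ y ∈ Ioo a b, ∀ f g : EuclideanSpace ℝ (Fin (n + 1)), mv U f y = w y → mv U g y = w y →
    (∀ t ∈ Icc a b, mv U f t ≤ w t) → (∀ t ∈ Icc a b, mv U g t ≤ w t) →
    deriv (mv U f) y = deriv (mv U g) y

theorem s_mul_le' {s x y : ℝ} (hs : s = 1 ∨ s = -1) (h : |x| ≤ y) : s * x ≤ y := by
  rcases hs with rfl | rfl
  · rw [one_mul]; exact (le_abs_self x).trans h
  · rw [neg_one_mul]; exact (neg_le_abs x).trans h

theorem double_mBall (hS : Sys U v a b n) (hsl : MSlope n U w a b)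
    {P p : EuclideanSpace ℝ (Fin (n + 1))}
    (hP : P ∈ mBall n U a b w) (hp : p ∈ mBall n U a b w) {r s : ℝ} (hr : r = 1 ∨ r = -1)
    (hs : s ∈ Ioo a b) (hPs : mv U P s = r * w s) (hps : mv U p s = r * w s) :
    HasDerivAt (mv U (P - p)) 0 s := by
  have hrr : r * r = 1 := by rcases hr with h | h <;> rw [h] <;> norm_num
  have hsmul : ∀ q : EuclideanSpace ℝ (Fin (n + 1)), mv U (r • q) = fun t => r * mv U q t := by
    intro q; funext t; exact mv_smul r q t
  have hdeq : deriv (mv U (r • P)) s = deriv (mv U (r • p)) s := by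
    apply hsl s hs
    · rw [mv_smul, hPs, ← mul_assoc, hrr, one_mul]
    · rw [mv_smul, hps, ← mul_assoc, hrr, one_mul]
    · intro t ht
      rw [mv_smul]
      exact s_mul_le' hr (hP t ht)
    · intro t ht
      rw [mv_smul]
      exact s_mul_le' hr (hp t ht)
  have hr0 : r ≠ 0 := by rcases hr with h | h <;> rw [h] <;> norm_num
  rw [hsmul, hsmul, deriv_const_mul_field, deriv_const_mul_field] at hdeq
  have hdeq' := mul_left_cancel₀ hr0 hdeq
  have e1 : mv U (P - p) = fun t => mv U P t - mv U p t := by funext t; exact mv_sub P p t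
  have e2 := (mv_hasDerivAt hS P hs.1 hs.2).differentiableAt.hasDerivAt.sub
    (mv_hasDerivAt hS p hs.1 hs.2).differentiableAt.hasDerivAt
  rw [hdeq', sub_self] at e2
  rw [e1]
  exact e2

/-- Weak alternation, for vectors. -/
theorem weak_alt_vec (hS : Sys U v a b n) {x : EuclideanSpace ℝ (Fin (n + 1))}
    {z : ℕ → ℝ} {ρ : ℝ} (hρ : ρ ≠ 0) (hz : ∀ i ≤ n, z i ≤ z (i + 1))
    (hz2 : ∀ i < n, z i < z (i + 2)) (hza : a ≤ z 0) (hzb : z (n + 1) ≤ b)
    (hdbl : ∀ i ≤ n, z i = z (i + 1) → z i ∈ Ioo a b ∧ HasDerivAt (mv U x) 0 (z i))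
    (hs : ∀ i ≤ n + 1, 0 ≤ ρ * (-1) ^ i * mv U x (z i)) : x = 0 := by
  have hmc : mv U x = comb U n (mext x) := by funext t; exact mv_eq_comb x t
  refine mext_zero (weak_alt_comb hS le_rfl hρ hz hz2 hza hzb ?_ ?_)
  · intro i hi h
    obtain ⟨h1, h2⟩ := hdbl i hi h
    rw [hmc] at h2
    exact ⟨h1.1, h1.2, h2⟩
  · intro i hi
    rw [← mv_eq_comb]; exact hs i hi

/-- **Rigidity.** If `p` has opposite contacts in one closed gap of a snake `P` then `p = P`. -/
theorem gap_rigid_mBall (hab : a < b) (hS : Sys U v a b n) (hsl : MSlope n U w a b)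
    {P p : EuclideanSpace ℝ (Fin (n + 1))} (hP : P ∈ mBall n U a b w)
    (hp : p ∈ mBall n U a b w) {c : ℕ → ℝ} {σ : ℝ} (hσ : σ = 1 ∨ σ = -1)
    (hmono : ∀ i < n, c i < c (i + 1)) (hc : ∀ i ≤ n, c i ∈ Icc a b)
    (hval : ∀ i ≤ n, mv U P (c i) = σ * (-1) ^ i * w (c i)) {j : ℕ} (hj : j < n) {s e : ℝ}
    (hs : c j ≤ s) (hse : s < e) (he : e ≤ c (j + 1))
    (hps : mv U p s = σ * (-1) ^ j * w s) (hpe : mv U p e = -(σ * (-1) ^ j) * w e) :
    P = p := by
  have hclt := lt_of_succ hmono
  have hr1 : σ * (-1) ^ j = 1 ∨ σ * (-1) ^ j = -1 := sgn_pow hσ j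
  have hσ0 : σ ≠ 0 := by rcases hσ with h | h <;> rw [h] <;> norm_num
  have hrr : (σ * (-1) ^ j) * (σ * (-1) ^ j) = 1 := by
    rcases hr1 with h | h <;> rw [h] <;> norm_num
  have hsab : s ∈ Icc a b := ⟨(hc j hj.le).1.trans hs, (hse.le.trans he).trans (hc _ hj).2⟩
  have heab : e ∈ Icc a b := ⟨hsab.1.trans hse.le, he.trans (hc _ hj).2⟩
  -- signs
  have hFC : ∀ i ≤ n, 0 ≤ σ * (-1) ^ i * mv U (P - p) (c i) := by
    intro i hi
    have h1 := sgn_pow hσ i
    have h2 : (σ * (-1) ^ i) * (σ * (-1) ^ i) = 1 := by
      rcases h1 with h | h <;> rw [h] <;> norm_num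
    have h3 := s_mul_le' h1 (hp (c i) (hc i hi))
    rw [mv_sub, hval i hi]
    have h5 : σ * (-1) ^ i * (σ * (-1) ^ i * w (c i) - mv U p (c i)) =
        ((σ * (-1) ^ i) * (σ * (-1) ^ i)) * w (c i) - σ * (-1) ^ i * mv U p (c i) := by
      ring
    rw [h5, h2, one_mul]
    linarith
  have hFs : σ * (-1) ^ j * mv U (P - p) s ≤ 0 := by
    have h3 := s_mul_le' hr1 (hP s hsab)
    rw [mv_sub, hps]
    have h4 : σ * (-1) ^ j * (mv U P s - σ * (-1) ^ j * w s) =
      σ * (-1) ^ j * mv U P s - ((σ * (-1) ^ j) * (σ * (-1) ^ j)) * w s := by ring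
    rw [h4, hrr]
    linarith
  have hFe : 0 ≤ σ * (-1) ^ j * mv U (P - p) e := by
    have h3 : (-(σ * (-1) ^ j)) * mv U P e ≤ w e :=
      s_mul_le' (by rcases hr1 with h | h <;> rw [h] <;> norm_num) (hP e heab)
    rw [mv_sub, hpe]
    have h4 : σ * (-1) ^ j * (mv U P e - -(σ * (-1) ^ j) * w e) =
      σ * (-1) ^ j * mv U P e + ((σ * (-1) ^ j) * (σ * (-1) ^ j)) * w e := by ring
    rw [h4, hrr]
    linarith
  have hdone : P - p = 0 → P = p := fun h => sub_eq_zero.mp h
  apply hdone
  by_cases hcase : e = c (j + 1) ∧ e = b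
  · -- the last gap, up to `b`
    obtain ⟨he1, he2⟩ := hcase
    have hjn : j + 1 = n := by
      by_contra h
      have h1 := hmono (j + 1) (by omega)
      have h2 := (hc (j + 2) (by omega)).2
      linarith
    by_cases hs0 : s = c j ∧ s = a
    · -- `n = 1`
      obtain ⟨hs1, hs2⟩ := hs0
      have hj0 : j = 0 := by
        by_contra h
        have h1 := hclt 0 j (by omega) hj.le
        have h2 := (hc 0 (by omega)).1
        linarith
      subst hj0
      have hn1 : n = 1 := by omega
      subst hn1
      have hFs0 : mv U (P - p) s = 0 := by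
        have h1 := hval 0 (by omega)
        rw [← hs1] at h1
        rw [mv_sub, h1, hps, sub_self]
      have hFe0 : mv U (P - p) e = 0 := by
        have h1 := hval 1 le_rfl
        rw [zero_add] at he1
        rw [← he1] at h1
        rw [mv_sub, h1, hpe]; ring
      have h0 := comb_zeros hab hS (k := 1) le_rfl (A := {s, e})
        (by rw [Finset.card_pair hse.ne]) (by
          intro τ hτ
          rcases Finset.mem_insert.mp hτ with h | h
          · rw [h]; exact hsab
          · rw [Finset.mem_singleton.mp h]; exact heab) (x := mext (P - p)) (by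
          intro τ hτ
          rw [← mv_eq_comb]
          rcases Finset.mem_insert.mp hτ with h | h
          · rw [h]; exact hFs0
          · rw [Finset.mem_singleton.mp h]; exact hFe0)
      exact mext_zero h0
    · refine weak_alt_vec hS (z := fun i => if i ≤ j then c i else if i = j + 1 then s else e)
        hσ0 ?_ ?_ ?_ ?_ ?_ ?_
      · intro i hi
        by_cases h1 : i + 1 ≤ j
        · simp only [if_pos (show i ≤ j by omega), if_pos h1]
          exact (hmono i (by omega)).le
        · by_cases h2 : i ≤ j
          · have h3 : i = j := by omega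
            subst h3
            simp only [if_pos le_rfl, if_neg h1, if_true]
            exact hs
          · have h3 : i = j + 1 := by omega
            subst h3
            simp only [if_neg h2, if_true, if_neg (show ¬ j + 1 + 1 ≤ j by omega),
              if_neg (show j + 1 + 1 ≠ j + 1 by omega)]
            exact hse.le
      · intro i hi
        by_cases h1 : i + 2 ≤ j
        · simp only [if_pos (show i ≤ j by omega), if_pos h1]
          exact hclt i (i + 2) (by omega) (by omega)
        · by_cases h2 : i + 2 = j + 1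
          · simp only [if_pos (show i ≤ j by omega), if_neg h1, if_pos h2]
            have := hclt i j (by omega) hj.le
            linarith
          · have h3 : i = j := by omega
            subst h3
            simp only [if_pos le_rfl, if_neg h1, if_neg h2]
            linarith
      · simp only [if_pos (Nat.zero_le _)]
        exact (hc 0 (Nat.zero_le _)).1
      · simp only [if_neg (show ¬ n + 1 ≤ j by omega), if_neg (show n + 1 ≠ j + 1 by omega)]
        exact heab.2
      · intro i hi h
        by_cases h1 : i + 1 ≤ j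
        · exfalso
          simp only [if_pos (show i ≤ j by omega), if_pos h1] at h
          have := hmono i (by omega)
          linarith
        · by_cases h2 : i ≤ j
          · have h3 : i = j := by omega
            subst h3
            simp only [if_pos le_rfl, if_neg h1, if_true] at h ⊢
            have h4 : s ≠ a := fun h4 => hs0 ⟨h.symm, h4⟩
            have h5 : s ∈ Ioo a b := ⟨lt_of_le_of_ne hsab.1 (Ne.symm h4), by
              linarith [heab.2]⟩
            rw [h]
            exact ⟨h5, double_mBall hS hsl hP hp hr1 h5 (by rw [← h]; exact hval i hj.le) hps⟩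
          · exfalso
            have h3 : i = j + 1 := by omega
            subst h3
            simp only [if_neg h2, if_true, if_neg (show ¬ j + 1 + 1 ≤ j by omega),
              if_neg (show j + 1 + 1 ≠ j + 1 by omega)] at h
            linarith
      · intro i hi
        by_cases h1 : i ≤ j
        · simp only [if_pos h1]
          exact hFC i (by omega)
        · by_cases h2 : i = j + 1
          · simp only [if_neg h1, if_pos h2]
            rw [h2]
            have h3 : σ * (-1) ^ (j + 1) * mv U (P - p) s =
              -(σ * (-1) ^ j * mv U (P - p) s) := by ring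
            rw [h3]; linarith
          · have h3 : i = j + 2 := by omega
            subst h3
            simp only [if_neg h1, if_neg h2]
            have h4 : σ * (-1) ^ (j + 2) * mv U (P - p) e =
              σ * (-1) ^ j * mv U (P - p) e := by ring
            rw [h4]; exact hFe
  · -- drop the first contact
    have hσ0' : -σ ≠ 0 := neg_ne_zero.mpr hσ0
    refine weak_alt_vec hS (z := fun i => if i < j then c (i + 1) else if i = j then s else
        if i = j + 1 then e else c (i - 1)) hσ0' ?_ ?_ ?_ ?_ ?_ ?_
    · intro i hi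
      by_cases h3 : i < j
      · by_cases h4 : i + 1 < j
        · simp only [if_pos h3, if_pos h4]
          exact (hmono (i + 1) (by omega)).le
        · have h5 : i + 1 = j := by omega
          simp only [if_pos h3, if_neg h4, if_pos h5]
          rw [h5]; exact hs
      · by_cases h4 : i = j
        · simp only [if_neg h3, if_pos h4, if_neg (show ¬ i + 1 < j by omega),
            if_neg (show i + 1 ≠ j by omega), if_pos (show i + 1 = j + 1 by omega)]
          exact hse.le
        · by_cases h5 : i = j + 1
          · simp only [if_neg h3, if_neg h4, if_pos h5, if_neg (show ¬ i + 1 < j by omega),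
              if_neg (show i + 1 ≠ j by omega), if_neg (show i + 1 ≠ j + 1 by omega)]
            have h6 : i + 1 - 1 = j + 1 := by omega
            rw [h6]; exact he
          · simp only [if_neg h3, if_neg h4, if_neg h5, if_neg (show ¬ i + 1 < j by omega),
              if_neg (show i + 1 ≠ j by omega), if_neg (show i + 1 ≠ j + 1 by omega)]
            have h6 : i + 1 - 1 = i - 1 + 1 := by omega
            rw [h6]
            exact (hmono (i - 1) (by omega)).le
    · intro i hi
      by_cases h3 : i + 2 < j
      · simp only [if_pos (show i < j by omega), if_pos h3]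
        exact hclt _ _ (by omega) (by omega)
      · by_cases h4 : i + 2 = j
        · simp only [if_pos (show i < j by omega), if_neg h3, if_pos h4]
          have := hclt (i + 1) j (by omega) (by omega)
          linarith
        · by_cases h5 : i + 2 = j + 1
          · simp only [if_pos (show i < j by omega), if_neg h3, if_neg h4, if_pos h5]
            have h6 : i + 1 = j := by omega
            rw [h6]; linarith
          · by_cases h6 : i = j
            · simp only [if_neg (show ¬ i < j by omega), if_pos h6, if_neg h3, if_neg h4, if_neg h5]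
              have h7 : i + 2 - 1 = j + 1 := by omega
              rw [h7]; linarith
            · by_cases h7 : i = j + 1
              · simp only [if_neg (show ¬ i < j by omega), if_neg h6, if_pos h7, if_neg h3,
                  if_neg h4, if_neg h5]
                have h8 : i + 2 - 1 = j + 2 := by omega
                rw [h8]
                have := hmono (j + 1) (by omega)
                linarith
              · simp only [if_neg (show ¬ i < j by omega), if_neg h6, if_neg h7, if_neg h3,
                  if_neg h4, if_neg h5]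
                exact hclt _ _ (by omega) (by omega)
    · by_cases h3 : 0 < j
      · simp only [if_pos h3]
        exact (hc _ (by omega)).1
      · have h4 : 0 = j := by omega
        simp only [if_neg h3, if_pos h4]
        exact hsab.1
    · simp only [if_neg (show ¬ n + 1 < j by omega), if_neg (show n + 1 ≠ j by omega),
        if_neg (show n + 1 ≠ j + 1 by omega), Nat.add_sub_cancel]
      exact (hc n le_rfl).2
    · intro i hi h
      by_cases h3 : i < j
      · by_cases h4 : i + 1 < j
        · exfalso
          simp only [if_pos h3, if_pos h4] at h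
          have := hmono (i + 1) (by omega)
          linarith
        · have h5 : i + 1 = j := by omega
          simp only [if_pos h3, if_neg h4, if_pos h5] at h ⊢
          rw [h5] at h ⊢
          have h6 : s ∈ Ioo a b := by
            constructor
            · rw [← h]
              have := hclt 0 j (by omega) hj.le
              linarith [(hc 0 (Nat.zero_le _)).1]
            · linarith [heab.2]
          rw [h]
          exact ⟨h6, double_mBall hS hsl hP hp hr1 h6 (by rw [← h]; exact hval j hj.le) hps⟩
      · by_cases h4 : i = j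
        · exfalso
          simp only [if_neg h3, if_pos h4, if_neg (show ¬ i + 1 < j by omega),
            if_neg (show i + 1 ≠ j by omega), if_pos (show i + 1 = j + 1 by omega)] at h
          linarith
        · by_cases h5 : i = j + 1
          · simp only [if_neg h3, if_neg h4, if_pos h5, if_neg (show ¬ i + 1 < j by omega),
              if_neg (show i + 1 ≠ j by omega), if_neg (show i + 1 ≠ j + 1 by omega)] at h ⊢
            have h6 : i + 1 - 1 = j + 1 := by omega
            rw [h6] at h
            have h7 : e ∈ Ioo a b := by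
              refine ⟨by linarith [hsab.1], lt_of_le_of_ne heab.2 fun h8 => hcase ⟨h, h8⟩⟩
            refine ⟨h7, double_mBall hS hsl hP hp (r := -(σ * (-1) ^ j)) ?_ h7 ?_ hpe⟩
            · rcases hr1 with h | h <;> rw [h] <;> norm_num
            · have h8 := hval (j + 1) hj
              rw [← h] at h8
              rw [h8]; ring
          · exfalso
            simp only [if_neg h3, if_neg h4, if_neg h5, if_neg (show ¬ i + 1 < j by omega),
              if_neg (show i + 1 ≠ j by omega), if_neg (show i + 1 ≠ j + 1 by omega)] at h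
            have h6 : i + 1 - 1 = i - 1 + 1 := by omega
            rw [h6] at h
            have := hmono (i - 1) (by omega)
            linarith
    · intro i hi
      by_cases h3 : i < j
      · simp only [if_pos h3]
        have h4 := hFC (i + 1) (by omega)
        have h5 : -σ * (-1) ^ i * mv U (P - p) (c (i + 1)) =
          σ * (-1) ^ (i + 1) * mv U (P - p) (c (i + 1)) := by ring
        rw [h5]; exact h4
      · by_cases h4 : i = j
        · simp only [if_neg h3, if_pos h4]
          have h5 : -σ * (-1) ^ i * mv U (P - p) s = -(σ * (-1) ^ j * mv U (P - p) s) := by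
            rw [h4]; ring
          rw [h5]; linarith
        · by_cases h5 : i = j + 1
          · simp only [if_neg h3, if_neg h4, if_pos h5]
            have h6 : -σ * (-1) ^ i * mv U (P - p) e = σ * (-1) ^ j * mv U (P - p) e := by
              rw [h5]; ring
            rw [h6]; exact hFe
          · simp only [if_neg h3, if_neg h4, if_neg h5]
            have h6 := hFC (i - 1) (by omega)
            obtain ⟨l, rfl⟩ : ∃ l, i = l + 1 := ⟨i - 1, by omega⟩
            rw [Nat.add_sub_cancel] at h6 ⊢
            have h7 : -σ * (-1) ^ (l + 1) * mv U (P - p) (c l) =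
              σ * (-1) ^ l * mv U (P - p) (c l) := by ring
            rw [h7]; exact h6

end Pool.Agent.H283.Cheb
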