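import Mathlib
import Pool.Agent.H283.Cheb.MarkovBody
import Pool.Agent.H283.Cheb.SnakeCover

/-!
The covering theorem for unit balls of Markov spaces: the directions.
-/

namespace Pool.Agent.H283.Cheb

open Set Filter Topology Pointwise

variable {n : ℕ} {a b : ℝ} {w : ℝ → ℝ} {U v : ℕ → ℝ → ℝ}

/-- A function with a contact before the first or after the last contact of a snake, of the
appropriate sign, is the snake. -/
theorem outer_rigid_mBall (hS : Sys U v a b n)
    {P p : EuclideanSpace ℝ (Fin (n + 1))} (hP : P ∈ mBall n U a b w)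
    (hp : p ∈ mBall n U a b w) {c : ℕ → ℝ} {σ : ℝ} (hσ : σ = 1 ∨ σ = -1)
    (hmono : ∀ i < n, c i < c (i + 1)) (hc : ∀ i ≤ n, c i ∈ Icc a b)
    (hval : ∀ i ≤ n, mv U P (c i) = σ * (-1) ^ i * w (c i)) {s : ℝ} (hs : s ∈ Icc a b)
    (h : (s < c 0 ∧ mv U p s = σ * w s) ∨ (c n < s ∧ mv U p s = σ * (-1) ^ n * w s)) :
    P = p := by
  have hclt := lt_of_succ hmono
  have hσ0 : σ ≠ 0 := by rcases hσ with h | h <;> rw [h] <;> norm_num
  have hFC : ∀ i ≤ n, 0 ≤ σ * (-1) ^ i * mv U (P - p) (c i) := by
    intro i hi
    have h1 := sgn_pow hσ i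
    have h2 : (σ * (-1) ^ i) * (σ * (-1) ^ i) = 1 := by
      rcases h1 with h | h <;> rw [h] <;> norm_num
    have h3 := s_mul_le' h1 (hp (c i) (hc i hi))
    rw [mv_sub, hval i hi]
    have h5 : σ * (-1) ^ i * (σ * (-1) ^ i * w (c i) - mv U p (c i)) =
        ((σ * (-1) ^ i) * (σ * (-1) ^ i)) * w (c i) - σ * (-1) ^ i * mv U p (c i) := by
      ring
    rw [h5, h2, one_mul]
    linarith
  apply sub_eq_zero.mp
  rcases h with ⟨h1, h2⟩ | ⟨h1, h2⟩
  · have hFs : σ * mv U (P - p) s ≤ 0 := by
      have h3 := s_mul_le' hσ (hP s hs)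
      have hσσ : σ * σ = 1 := by rcases hσ with h | h <;> rw [h] <;> norm_num
      rw [mv_sub, h2]
      have h4 : σ * (mv U P s - σ * w s) = σ * mv U P s - (σ * σ) * w s := by ring
      rw [h4, hσσ]; linarith
    refine weak_alt_vec hS (z := fun i => if i = 0 then s else c (i - 1))
      (neg_ne_zero.mpr hσ0) ?_ ?_ ?_ ?_ ?_ ?_
    · intro i hi
      by_cases h3 : i = 0
      · simp only [h3, if_true, if_neg (show 0 + 1 ≠ 0 by omega)]; exact h1.le
      · simp only [if_neg h3, if_neg (show i + 1 ≠ 0 by omega)]
        have h6 : i + 1 - 1 = i - 1 + 1 := by omega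
        rw [h6]
        exact (hmono (i - 1) (by omega)).le
    · intro i hi
      by_cases h3 : i = 0
      · simp only [h3, if_true, if_neg (show 0 + 2 ≠ 0 by omega)]
        have := hmono 0 (by omega)
        have h6 : 0 + 2 - 1 = 0 + 1 := by omega
        rw [h6]; linarith
      · simp only [if_neg h3, if_neg (show i + 2 ≠ 0 by omega)]
        exact hclt _ _ (by omega) (by omega)
    · simp only [if_true]; exact hs.1
    · simp only [if_neg (Nat.succ_ne_zero n), Nat.add_sub_cancel]
      exact (hc n le_rfl).2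
    · intro i hi h
      exfalso
      by_cases h3 : i = 0
      · simp only [h3, if_true, if_neg (show 0 + 1 ≠ 0 by omega)] at h
        have h6 : 0 + 1 - 1 = 0 := by omega
        rw [h6] at h; linarith
      · simp only [if_neg h3, if_neg (show i + 1 ≠ 0 by omega)] at h
        have h6 : i + 1 - 1 = i - 1 + 1 := by omega
        rw [h6] at h
        have := hmono (i - 1) (by omega)
        linarith
    · intro i hi
      by_cases h3 : i = 0
      · simp only [h3, if_true, pow_zero, mul_one]; linarith
      · simp only [if_neg h3]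
        have h6 := hFC (i - 1) (by omega)
        obtain ⟨l, rfl⟩ : ∃ l, i = l + 1 := ⟨i - 1, by omega⟩
        rw [Nat.add_sub_cancel] at h6 ⊢
        have h7 : -σ * (-1) ^ (l + 1) * mv U (P - p) (c l) =
          σ * (-1) ^ l * mv U (P - p) (c l) := by ring
        rw [h7]; exact h6
  · have hr1 := sgn_pow hσ n
    have hFs : σ * (-1) ^ n * mv U (P - p) s ≤ 0 := by
      have h3 := s_mul_le' hr1 (hP s hs)
      have hrr : (σ * (-1) ^ n) * (σ * (-1) ^ n) = 1 := by
        rcases hr1 with h | h <;> rw [h] <;> norm_num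
      rw [mv_sub, h2]
      have h4 : σ * (-1) ^ n * (mv U P s - σ * (-1) ^ n * w s) =
        σ * (-1) ^ n * mv U P s - ((σ * (-1) ^ n) * (σ * (-1) ^ n)) * w s := by ring
      rw [h4, hrr]; linarith
    refine weak_alt_vec hS (z := fun i => if i ≤ n then c i else s) hσ0 ?_ ?_ ?_ ?_ ?_ ?_
    · intro i hi
      by_cases h3 : i + 1 ≤ n
      · simp only [if_pos hi, if_pos h3]; exact (hmono i (by omega)).le
      · simp only [if_pos hi, if_neg h3]
        have : i = n := by omega
        rw [this]; exact h1.le
    · intro i hi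
      by_cases h3 : i + 2 ≤ n
      · simp only [if_pos hi.le, if_pos h3]; exact hclt _ _ (by omega) (by omega)
      · simp only [if_pos hi.le, if_neg h3]
        have := hclt i n hi le_rfl
        linarith
    · simp only [if_pos (Nat.zero_le n)]; exact (hc 0 (Nat.zero_le _)).1
    · simp only [if_neg (show ¬ n + 1 ≤ n by omega)]; exact hs.2
    · intro i hi h
      exfalso
      by_cases h3 : i + 1 ≤ n
      · simp only [if_pos hi, if_pos h3] at h
        have := hmono i (by omega)
        linarith
      · simp only [if_pos hi, if_neg h3] at h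
        have : i = n := by omega
        rw [this] at h; linarith
    · intro i hi
      by_cases h3 : i ≤ n
      · simp only [if_pos h3]; exact hFC i h3
      · simp only [if_neg h3]
        have : i = n + 1 := by omega
        rw [this]
        have h4 : σ * (-1) ^ (n + 1) * mv U (P - p) s = -(σ * (-1) ^ n * mv U (P - p) s) := by
          ring
        rw [h4]; linarith

/-- The illuminating directions. -/
theorem exists_directions_mBall (hab : a < b) (hw : Continuous w) (hS : Sys U v a b n)
    (hpos : ∀ t ∈ Icc a b, 0 < w t) (hsl : MSlope n U w a b) (hn : 1 ≤ n) :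
    ∃ D : Finset (EuclideanSpace ℝ (Fin (n + 1))),
      D.card ≤ 2 ^ n + 2 ∧ ∀ x ∈ mBall n U a b w, ∃ u ∈ D, ∃ δ : ℝ, 0 < δ ∧
        x - δ • u ∈ interior (mBall n U a b w) := by
  classical
  obtain ⟨P, hP, c, σ, hG⟩ := exists_snake_mBall hab hw hS hpos
  have hclt := lt_of_succ hG.mono
  have hσ := hG.sgn
  set Z : Finset ℝ := (Finset.Ico 1 n).image c with hZdef
  have hZc : Z.card ≤ n - 1 := Finset.card_image_le.trans (by simp)
  have hZab : ∀ z ∈ Z, z ∈ Icc a b := by
    intro z hz
    obtain ⟨i, hi, rfl⟩ := Finset.mem_image.mp hz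
    exact hG.mem i (Finset.mem_Ico.mp hi).2.le
  have hfill : ∀ S ∈ Z.powerset, ∃ q : EuclideanSpace ℝ (Fin (n + 1)),
      ∀ t ∈ Icc a b, t ∉ S → 0 < mv U q t * ∏ z ∈ S, (t - z) := by
    intro S hS'
    have hSZ := Finset.mem_powerset.mp hS'
    obtain ⟨q, _, hq⟩ := exists_vec_sign hab hS S
      ((Finset.card_le_card hSZ).trans (hZc.trans (by omega))) (fun z hz => hZab z (hSZ hz))
    exact ⟨q, hq⟩
  choose! Q hQ using hfill
  refine ⟨(Z.powerset ×ˢ ({1, -1} : Finset ℝ)).image (fun q => q.2 • Q q.1) ∪ {P, -P}, ?_, ?_⟩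
  · have h2 : ({1, -1} : Finset ℝ).card ≤ 2 := Finset.card_le_two
    have h3 : ({P, -P} : Finset (EuclideanSpace ℝ (Fin (n + 1)))).card ≤ 2 := Finset.card_le_two
    have h4 : ((Z.powerset ×ˢ ({1, -1} : Finset ℝ)).image (fun q => q.2 • Q q.1)).card ≤
        2 ^ (n - 1) * 2 := by
      refine Finset.card_image_le.trans ?_
      rw [Finset.card_product, Finset.card_powerset]
      exact Nat.mul_le_mul (Nat.pow_le_pow_right (by norm_num) hZc) h2
    have h5 := Finset.card_union_le ((Z.powerset ×ˢ ({1, -1} : Finset ℝ)).image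
      (fun q => q.2 • Q q.1)) {P, -P}
    have h6 : 2 ^ n = 2 ^ (n - 1) * 2 := by
      rw [← pow_succ]; congr 1; omega
    omega
  · intro x hx
    have hnegball : -x ∈ mBall n U a b w := fun t ht => by rw [mv_neg, abs_neg]; exact hx t ht
    by_cases hcase : P = x ∨ P = -x
    · -- `x = ± P`
      obtain ⟨η, hη, hrig⟩ : ∃ η : ℝ, (η = 1 ∨ η = -1) ∧ x = η • P := by
        rcases hcase with h | h
        · exact ⟨1, Or.inl rfl, by rw [one_smul, h]⟩
        · exact ⟨-1, Or.inr rfl, by rw [h]; simp⟩
      refine ⟨η • P, Finset.mem_union_right _ ?_, 1 / 2, by norm_num, sBall_subset hw hS ?_⟩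
      · rcases hη with h | h <;> simp [h]
      · intro t ht
        rw [← hrig, mv_sub, mv_smul]
        have h2 : mv U x t - 1 / 2 * mv U x t = 1 / 2 * mv U x t := by ring
        rw [h2, abs_mul, abs_of_pos (by norm_num : (0 : ℝ) < 1 / 2)]
        linarith [hx t ht, hpos t ht]
    · push Not at hcase
      obtain ⟨hne1, hne2⟩ := hcase
      have hin : ∀ t ∈ Icc a b, |mv U x t| = w t → c 0 ≤ t ∧ t ≤ c n := by
        intro t ht hcon
        constructor
        · by_contra hlt
          push Not at hlt
          by_cases h1 : mv U x t = σ * w t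
          · exact hne1 (outer_rigid_mBall hS hP hx hσ hG.mono hG.mem hG.val ht
              (Or.inl ⟨hlt, h1⟩))
          · have h2 := contact_sign hσ hcon h1
            exact hne2 (outer_rigid_mBall hS hP hnegball hσ hG.mono hG.mem hG.val ht
              (Or.inl ⟨hlt, by rw [mv_neg, h2]; ring⟩))
        · by_contra hlt
          push Not at hlt
          by_cases h1 : mv U x t = σ * (-1) ^ n * w t
          · exact hne1 (outer_rigid_mBall hS hP hx hσ hG.mono hG.mem hG.val ht
              (Or.inr ⟨hlt, h1⟩))
          · have h2 := contact_sign (sgn_pow hσ n) hcon h1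
            exact hne2 (outer_rigid_mBall hS hP hnegball hσ hG.mono hG.mem hG.val ht
              (Or.inr ⟨hlt, by rw [mv_neg, h2]; ring⟩))
      obtain ⟨S, hS', ε, hε, hSC⟩ := sign_pattern Z
        {t | t ∈ Icc a b ∧ |mv U x t| = w t} (mv U x)
        (by
          intro t ht h0
          have h1 := hpos t ht.1
          have h2 := ht.2
          rw [h0, abs_zero] at h2
          linarith)
        (by
          intro s hs e he hse hsg
          by_contra hcon
          push Not at hcon
          have hs' := hin s hs.1 hs.2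
          have he' := hin e he.1 he.2
          obtain ⟨j, hj, hsj⟩ := exists_zone (c := c) (s := s) n hs'.1
            (by linarith [he'.2])
          have hej : e ≤ c (j + 1) := by
            rcases Nat.lt_or_ge (j + 1) n with h1 | h1
            · exact hcon (c (j + 1)) (Finset.mem_image.mpr ⟨j + 1, Finset.mem_Ico.mpr
                ⟨by omega, h1⟩, rfl⟩) hsj.2
            · have : j + 1 = n := by omega
              rw [this]; exact he'.2
          have hrj := sgn_pow hσ j
          have hws := hpos s hs.1
          have hwe := hpos e he.1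
          by_cases h1 : mv U x s = σ * (-1) ^ j * w s
          · have h2 : mv U x e = -(σ * (-1) ^ j) * w e := by
              refine contact_sign hrj he.2 fun h2 => ?_
              rw [h1, h2] at hsg
              have h3 : σ * (-1) ^ j * w s * (σ * (-1) ^ j * w e) =
                (σ * (-1) ^ j) ^ 2 * (w s * w e) := by ring
              rw [h3] at hsg
              have : 0 ≤ (σ * (-1) ^ j) ^ 2 * (w s * w e) := by positivity
              linarith
            exact hne1 (gap_rigid_mBall hab hS hsl hP hx hσ hG.mono hG.mem hG.val hj hsj.1 hse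
              hej h1 h2)
          · have h2 : mv U x s = -(σ * (-1) ^ j) * w s := contact_sign hrj hs.2 h1
            have h3 : mv U x e = σ * (-1) ^ j * w e := by
              by_contra h3
              have h4 := contact_sign hrj he.2 h3
              rw [h2, h4] at hsg
              have h5 : -(σ * (-1) ^ j) * w s * (-(σ * (-1) ^ j) * w e) =
                (σ * (-1) ^ j) ^ 2 * (w s * w e) := by ring
              rw [h5] at hsg
              have : 0 ≤ (σ * (-1) ^ j) ^ 2 * (w s * w e) := by positivity
              linarith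
            refine hne2 (gap_rigid_mBall hab hS hsl hP hnegball hσ hG.mono hG.mem hG.val hj hsj.1
              hse hej ?_ ?_)
            · rw [mv_neg, h2]; ring
            · rw [mv_neg, h3]; ring)
      have hSp : S ∈ Z.powerset := Finset.mem_powerset.mpr hS'
      have hmem : ε • Q S ∈ (Z.powerset ×ˢ ({1, -1} : Finset ℝ)).image (fun q => q.2 • Q q.1) ∪
          {P, -P} := by
        refine Finset.mem_union_left _ (Finset.mem_image.mpr ⟨(S, ε), ?_, rfl⟩)
        refine Finset.mem_product.mpr ⟨hSp, ?_⟩
        rcases hε with h | h <;> simp [h]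
      obtain ⟨δ, hδ, hδ'⟩ := illum_mBall hw hS hpos (q := ε • Q S) hx (by
        intro t ht h
        have h1 := hSC t ⟨ht, h⟩
        have h2 : t ∉ S := fun h2 => by
          rw [Finset.prod_eq_zero h2 (sub_self t), mul_zero, zero_mul] at h1
          exact lt_irrefl _ h1
        have h3 := hQ S hSp t ht h2
        rw [mv_smul]
        have h4 := mul_pos h1 h3
        have h5 : ε * (∏ z ∈ S, (t - z)) * mv U x t * (mv U (Q S) t * ∏ z ∈ S, (t - z)) =
          (∏ z ∈ S, (t - z)) ^ 2 * (ε * mv U (Q S) t * mv U x t) := by ring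
        rw [h5] at h4
        exact pos_of_mul_pos_right h4 (sq_nonneg _))
      exact ⟨ε • Q S, hmem, δ, hδ, sBall_subset hw hS hδ'⟩

/-- **The covering theorem** for functions on a compact interval. -/
theorem cover_mBall (hab : a < b) (hw : Continuous w) (hS : Sys U v a b n)
    (hpos : ∀ t ∈ Icc a b, 0 < w t) (hsl : MSlope n U w a b) (hn : 1 ≤ n) :
    IsCompact (mBall n U a b w) ∧ Convex ℝ (mBall n U a b w) ∧
    (interior (mBall n U a b w)).Nonempty ∧
    ∃ T : Finset (EuclideanSpace ℝ (Fin (n + 1))), T.card ≤ 2 ^ n + 2 ∧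
      mBall n U a b w ⊆ ⋃ t ∈ T, (fun x => t + x) '' interior (mBall n U a b w) := by
  obtain ⟨D, hD, hD'⟩ := exists_directions_mBall hab hw hS hpos hsl hn
  obtain ⟨T, hT, hT'⟩ := cover_of_illum (isCompact_mBall hab hS) convex_mBall D hD'
  exact ⟨isCompact_mBall hab hS, convex_mBall,
    ⟨0, sBall_subset hw hS (zero_mem_sBall hpos)⟩, T, hT.trans hD, hT'⟩

end Pool.Agent.H283.Cheb
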